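import Pool.Agent.RBG.Base
import Pool.Agent.RGD.ANTI

/-!
# MP_0a3593_al, bounded geometry, module ANTIW: anti-concentration for sums over windows
-/

set_option autoImplicit false

namespace RBG

open RGD

namespace ANTIW

open Finset
open RGD.ANTI (linv_linv exists_ne_two redL_iff per_val cyc_iff sum_blocks fil)

variable {m : ℕ}

/-! ### Sums over the windows of lists -/

lemma lsum_cons (f : List (Ltr m) → ℤ) (k : ℕ) (x : Ltr m) (Z : List (Ltr m))
    (h : k ≤ Z.length + 1) : lsum f k (x :: Z) = f ((x :: Z).take k) + lsum f k Z := by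
  unfold lsum
  have h1 : (x :: Z).length + 1 - k = (Z.length + 1 - k) + 1 := by
    rw [List.length_cons]; omega
  rw [h1, sum_range_succ', add_comm]
  simp

lemma lsum_split (f : List (Ltr m) → ℤ) (k : ℕ) (X W Y : List (Ltr m)) (h : k ≤ W.length) :
    lsum f k (X ++ W ++ Y) + lsum f k W = lsum f k (X ++ W) + lsum f k (W ++ Y) := by
  induction X with
  | nil => simp [add_comm]
  | cons x X ih =>
    rw [List.cons_append, List.cons_append, lsum_cons f k x _ (by simp; omega),
      lsum_cons f k x _ (by simp; omega)]
    have h1 : (x :: (X ++ W ++ Y)).take k = (x :: (X ++ W)).take k := by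
      have h2 : x :: (X ++ W ++ Y) = (x :: (X ++ W)) ++ Y := rfl
      rw [h2, List.take_append_of_le_length (by simp; omega)]
    rw [h1]
    linarith

lemma lsum_mid (f : List (Ltr m) → ℤ) (k : ℕ) (X U Y : List (Ltr m)) (h : k ≤ U.length) :
    lsum f k (X ++ U ++ Y) = lsum f k (X ++ U.take k) - lsum f k (U.take k) + lsum f k U +
      lsum f k (U.drop (U.length - k) ++ Y) - lsum f k (U.drop (U.length - k)) := by
  have h1 := lsum_split f k X (U.take k) (U.drop k ++ Y) (by rw [List.length_take]; omega)
  have h2 := lsum_split f k (U.take (U.length - k)) (U.drop (U.length - k)) Y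
    (by rw [List.length_drop]; omega)
  have e1 : X ++ U.take k ++ (U.drop k ++ Y) = X ++ U ++ Y := by
    rw [List.append_assoc, ← List.append_assoc (U.take k), List.take_append_drop,
      ← List.append_assoc]
  have e2 : U.take k ++ (U.drop k ++ Y) = U ++ Y := by
    rw [← List.append_assoc, List.take_append_drop]
  have e3 : U.take (U.length - k) ++ U.drop (U.length - k) = U := List.take_append_drop _ _
  rw [e1, e2] at h1
  rw [e3] at h2
  linarith

/-! ### Fillings -/

/-- the letters of a block with its separators -/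
def zn (k L : ℕ) (o : ℕ → Ltr m) (g : Fin L → Ltr m) (j : ℕ) : Ltr m :=
  if j < k then o j else if h : j - k < L then g ⟨j - k, h⟩ else o j

/-- admissible fillings -/
def EE (k L : ℕ) (o : ℕ → Ltr m) : Finset (Fin L → Ltr m) := by
  classical
  exact univ.filter fun g => ∀ j, j < L + k → zn k L o g (j + 1) ≠ linv (zn k L o g j)

lemma mem_EE {k L : ℕ} {o : ℕ → Ltr m} {g : Fin L → Ltr m} :
    g ∈ EE k L o ↔ ∀ j, j < L + k → zn k L o g (j + 1) ≠ linv (zn k L o g j) := by
  unfold EE
  simp

/-- the contribution of a filling -/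
def FF (f : List (Ltr m) → ℤ) (k L : ℕ) (o : ℕ → Ltr m) (g : Fin L → Ltr m) : ℤ :=
  ∑ j ∈ range (L + k), f ((List.range k).map fun i => zn k L o g (j + i))

lemma getD_map_range (d : Ltr m) (k : ℕ) (o : ℕ → Ltr m) (j : ℕ) (hj : j < k) :
    ((List.range k).map o).getD j d = o j := by
  rw [List.getD_eq_getElem _ _ (by simpa using hj)]
  simp

/-- the letters of a block with its separators as a list -/
def zl (k : ℕ) (o : ℕ → Ltr m) (M : List (Ltr m)) : List (Ltr m) :=
  (List.range k).map o ++ (M ++ (List.range k).map fun i => o (k + M.length + i))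

lemma zl_length (k : ℕ) (o : ℕ → Ltr m) (M : List (Ltr m)) :
    (zl k o M).length = M.length + 2 * k := by
  unfold zl
  simp only [List.length_append, List.length_map, List.length_range]
  omega

lemma zn_fil (d : Ltr m) (k : ℕ) (o : ℕ → Ltr m) (M : List (Ltr m)) (j : ℕ)
    (hj : j < M.length + 2 * k) :
    zn k M.length o (fil d M.length M) j = (zl k o M).getD j d := by
  unfold zn fil zl
  by_cases h1 : j < k
  · rw [if_pos h1, List.getD_append _ _ _ _ (by simpa using h1), getD_map_range d k o j h1]
  · rw [if_neg h1, List.getD_append_right _ _ _ _ (by simpa using h1)]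
    simp only [List.length_map, List.length_range]
    by_cases h2 : j - k < M.length
    · rw [dif_pos h2, List.getD_append _ _ _ _ h2]
    · rw [dif_neg h2, List.getD_append_right _ _ _ _ (by omega),
        getD_map_range d k _ _ (by omega)]
      congr 1
      omega

lemma FF_fil (f : List (Ltr m) → ℤ) (d : Ltr m) (k : ℕ) (o : ℕ → Ltr m) (M : List (Ltr m)) :
    FF f k M.length o (fil d M.length M) + f ((List.range k).map fun i => o (k + M.length + i)) =
      lsum f k (zl k o M) := by
  unfold FF lsum
  have h1 : (zl k o M).length + 1 - k = (M.length + k) + 1 := by rw [zl_length]; omega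
  rw [h1, sum_range_succ]
  congr 1
  · refine sum_congr rfl fun t ht => ?_
    rw [mem_range] at ht
    congr 1
    apply List.ext_getElem
    · rw [List.length_map, List.length_range, List.length_take, List.length_drop, zl_length]
      omega
    · intro i h1 h2
      rw [List.length_map, List.length_range] at h1
      rw [List.getElem_map, List.getElem_range, List.getElem_take, List.getElem_drop,
        zn_fil d k o M _ (by omega), List.getD_eq_getElem _ _ (by rw [zl_length]; omega)]
  · congr 1
    have e1 : zl k o M = ((List.range k).map o ++ M) ++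
        (List.range k).map fun i => o (k + M.length + i) := by
      unfold zl
      rw [List.append_assoc]
    rw [e1, List.drop_left' (by simp; omega), List.take_of_length_le (by simp)]

lemma fil_mem (d : Ltr m) (k : ℕ) (hk : 1 ≤ k) (o : ℕ → Ltr m)
    (ho : ∀ j, j + 1 < k → o (j + 1) ≠ linv (o j)) (M : List (Ltr m))
    (h : RedL (o (k - 1) :: M ++ [o (k + M.length)])) :
    fil d M.length M ∈ EE k M.length o := by
  rw [mem_EE]
  intro j hj
  by_cases h1 : j + 1 < k
  · unfold zn
    rw [if_pos h1, if_pos (by omega)]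
    exact ho j h1
  · have key : ∀ i, k - 1 ≤ i → i ≤ k + M.length → zn k M.length o (fil d M.length M) i =
        (o (k - 1) :: M ++ [o (k + M.length)]).getD (i - (k - 1)) d := by
      intro i hi1 hi2
      unfold zn fil
      by_cases h2 : i < k
      · have h3 : i = k - 1 := by omega
        rw [if_pos h2, h3, Nat.sub_self]
        simp
      · rw [if_neg h2]
        have h3 : i - (k - 1) = (i - k) + 1 := by omega
        rw [h3, List.cons_append, List.getD_cons_succ]
        by_cases h4 : i - k < M.length
        · rw [dif_pos h4, List.getD_append _ _ _ _ h4]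
        · have h5 : i = k + M.length := by omega
          rw [dif_neg h4, List.getD_append_right _ _ _ _ (by omega), h5]
          simp
    rw [key _ (by omega) (by omega), key _ (by omega) (by omega)]
    have h2 := (RGD.ANTI.redL_iff d _).1 h (j - (k - 1)) (by simp; omega)
    rwa [show j + 1 - (k - 1) = j - (k - 1) + 1 by omega]

/-- two admissible fillings with different contributions -/
lemma two_fillings (hm : 2 ≤ m) (f : List (Ltr m) → ℤ) (k : ℕ) (hk : 1 ≤ k)
    {U V : List (Ltr m)} (hl : U.length = V.length) (h2 : k ≤ U.length) (hU : RedL U)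
    (hV : RedL V) (ht : U.take k = V.take k)
    (hd : U.drop (U.length - k) = V.drop (V.length - k)) (hne : lsum f k U ≠ lsum f k V)
    (o : ℕ → Ltr m) (ho : ∀ j, j + 1 < k → o (j + 1) ≠ linv (o j)) :
    ∃ u v : Fin (U.length + 2) → Ltr m, u ∈ EE k (U.length + 2) o ∧
      v ∈ EE k (U.length + 2) o ∧ FF f k (U.length + 2) o u ≠ FF f k (U.length + 2) o v := by
  have hU0 : U ≠ [] := by
    intro h
    rw [h, List.length_nil] at h2
    omega
  obtain ⟨p, hp⟩ : ∃ p, U.head? = some p := ⟨U.head hU0, List.head?_eq_some_head hU0⟩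
  obtain ⟨q, hq⟩ : ∃ q, U.getLast? = some q := ⟨U.getLast hU0, List.getLast?_eq_some_getLast hU0⟩
  have hp' : V.head? = some p := by
    have h3 := congrArg List.head? ht
    rw [List.head?_take, List.head?_take, if_neg (by omega), if_neg (by omega)] at h3
    rw [← h3, hp]
  have hq' : V.getLast? = some q := by
    have h3 := congrArg List.getLast? hd
    rw [List.getLast?_drop, List.getLast?_drop, if_neg (by omega), if_neg (by omega)] at h3
    rw [← h3, hq]
  obtain ⟨s, hs1, hs2⟩ := exists_ne_two hm (linv (o (k - 1))) (linv p)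
  obtain ⟨s', hs1', hs2'⟩ := exists_ne_two hm (linv q) (linv (o (k + (U.length + 2))))
  have hps : p ≠ linv s := by
    intro h; apply hs2; rw [h, linv_linv]
  have hbs : o (k + (U.length + 2)) ≠ linv s' := by
    intro h; apply hs2'; rw [h, linv_linv]
  have get : ∀ W : List (Ltr m), W.length = U.length → RedL W → W.head? = some p →
      W.getLast? = some q → ∃ u : Fin (U.length + 2) → Ltr m, u ∈ EE k (U.length + 2) o ∧
        FF f k (U.length + 2) o u + f ((List.range k).map fun i => o (k + (U.length + 2) + i)) =
        lsum f k (((List.range k).map o ++ [s]) ++ W ++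
          ([s'] ++ (List.range k).map fun i => o (k + (U.length + 2) + i))) := by
    intro W hW hR hWp hWq
    have hlen : (s :: W ++ [s']).length = U.length + 2 := by simp [hW]
    have hred : RedL (o (k - 1) :: (s :: W ++ [s']) ++ [o (k + (s :: W ++ [s']).length)]) := by
      rw [hlen]
      have e1 : o (k - 1) :: (s :: W ++ [s']) ++ [o (k + (U.length + 2))] =
          o (k - 1) :: s :: (W ++ [s', o (k + (U.length + 2))]) := by simp
      rw [e1]
      unfold RedL at hR ⊢
      rw [List.isChain_cons_cons]
      refine ⟨hs1, ?_⟩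
      rw [List.isChain_cons, List.isChain_append]
      refine ⟨?_, hR, ?_, ?_⟩
      · intro y hy
        rw [List.head?_append, hWp] at hy
        simp only [Option.some_or, Option.mem_def, Option.some.injEq] at hy
        rw [← hy]
        exact hps
      · simp [List.isChain_cons_cons, hbs]
      · intro x hx y hy
        rw [hWq] at hx
        simp only [Option.mem_def, Option.some.injEq, List.head?_cons] at hx hy
        rw [← hx, ← hy]
        exact hs1'
    have h3 := fil_mem s k hk o ho (s :: W ++ [s']) hred
    have h4 := FF_fil f s k o (s :: W ++ [s'])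
    rw [hlen] at h3 h4
    refine ⟨_, h3, h4.trans ?_⟩
    congr 1
    unfold zl
    rw [hlen]
    simp
  obtain ⟨u, hu, hu'⟩ := get U rfl hU hp hq
  obtain ⟨v, hv, hv'⟩ := get V hl.symm hV hp' hq'
  refine ⟨u, v, hu, hv, ?_⟩
  intro h
  apply hne
  rw [lsum_mid f k _ U _ h2] at hu'
  rw [lsum_mid f k _ V _ (hl ▸ h2), ← ht, ← hd] at hv'
  linarith

/-! ### Words and blocks -/

section

variable {l : ℕ} [NeZero l]

variable (k L B : ℕ)

/-- the places of the blocks -/
def inB (i : ℕ) : Prop := i / (L + k) < B ∧ k ≤ i % (L + k) ∧ i % (L + k) - k < L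

instance : DecidablePred (inB k L B) := fun i => by
  unfold inB
  infer_instance

/-- the word with the blocks erased -/
def out (d : Ltr m) (w : Word m l) : Word m l := fun i => if inB k L B i.val then d else w i

/-- the blocks of a word -/
def bl (w : Word m l) : Fin B → Fin L → Ltr m := fun b t => per w (b.val * (L + k) + (k + t.val))

/-- the word with the letters of `o` outside of the blocks and with the blocks `e` -/
def comb (o : Word m l) (e : Fin B → Fin L → Ltr m) : Word m l := fun i =>
  if h : inB k L B i.val then e ⟨i.val / (L + k), h.1⟩ ⟨i.val % (L + k) - k, h.2.2⟩ else o i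

variable {k L B}

lemma div_mod_aux {P b j : ℕ} (hj : j < P) : (b * P + j) / P = b ∧ (b * P + j) % P = j := by
  have hP : 0 < P := by omega
  constructor
  · rw [mul_comm, Nat.mul_add_div hP, Nat.div_eq_of_lt hj, add_zero]
  · rw [mul_comm, Nat.mul_add_mod, Nat.mod_eq_of_lt hj]

lemma lt_aux {P l : ℕ} (hB : B * P + k ≤ l) {b j : ℕ} (hb : b < B) (hj : j < P + k) :
    b * P + j < l := by
  have h1 : (b + 1) * P ≤ B * P := Nat.mul_le_mul_right _ hb
  have h2 : (b + 1) * P = b * P + P := by ring
  omega

lemma comb_bl (d : Ltr m) (w : Word m l) :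
    comb k L B (out k L B d w) (bl k L B w) = w := by
  funext i
  unfold comb
  split_ifs with h
  · unfold bl
    dsimp only
    rw [← per_val w i]
    congr 1
    have h1 := Nat.div_add_mod i.val (L + k)
    have h2 := h.2.1
    rw [mul_comm] at h1
    omega
  · unfold out
    rw [if_neg h]

lemma per_comb_block (hB : B * (L + k) + k ≤ l) (o : Word m l) (e : Fin B → Fin L → Ltr m)
    (b : Fin B) (j : ℕ) (hj : j < L + k + k) :
    per (comb k L B o e) (b.val * (L + k) + j) =
      zn k L (fun j => per o (b.val * (L + k) + j)) (e b) j := by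
  have hlt := lt_aux hB b.isLt hj
  have h0 : per (comb k L B o e) (b.val * (L + k) + j) =
      comb k L B o e ⟨b.val * (L + k) + j, hlt⟩ := per_val _ ⟨b.val * (L + k) + j, hlt⟩
  have h0' : per o (b.val * (L + k) + j) = o ⟨b.val * (L + k) + j, hlt⟩ :=
    per_val _ ⟨b.val * (L + k) + j, hlt⟩
  rw [h0]
  unfold zn
  by_cases h1 : j < k
  · rw [if_pos h1]
    dsimp only
    rw [h0']
    unfold comb
    rw [dif_neg]
    rintro ⟨-, h2, -⟩
    dsimp only at h2
    rw [(div_mod_aux (P := L + k) (b := b.val) (j := j) (by omega)).2] at h2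
    omega
  · rw [if_neg h1]
    by_cases h2 : j - k < L
    · rw [dif_pos h2]
      unfold comb
      obtain ⟨q1, q2⟩ := div_mod_aux (P := L + k) (b := b.val) (j := j) (by omega)
      have hc : inB k L B (⟨b.val * (L + k) + j, hlt⟩ : Fin l).val := by
        unfold inB
        dsimp only
        rw [q1, q2]
        exact ⟨b.isLt, by omega, h2⟩
      rw [dif_pos hc]
      have e1 : (⟨(b.val * (L + k) + j) / (L + k), hc.1⟩ : Fin B) = b := Fin.ext q1
      have e2 : ∀ h', (⟨(b.val * (L + k) + j) % (L + k) - k, h'⟩ : Fin L) = ⟨j - k, h2⟩ :=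
        fun h' => Fin.ext (by dsimp only; rw [q2])
      rw [e2]
      exact congrFun (congrArg e e1) _
    · rw [dif_neg h2]
      dsimp only
      rw [h0']
      unfold comb
      rw [dif_neg]
      rintro ⟨-, h3, h4⟩
      dsimp only at h3
      have h5 : b.val * (L + k) + j = (b.val + 1) * (L + k) + (j - (L + k)) := by
        have h6 : (b.val + 1) * (L + k) = b.val * (L + k) + (L + k) := by ring
        omega
      have h7 : j - (L + k) < k := by omega
      rcases Nat.eq_zero_or_pos L with hL | hL
      · dsimp only at h4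
        omega
      · rw [h5, (div_mod_aux (P := L + k) (b := b.val + 1) (j := j - (L + k)) (by omega)).2] at h3
        omega

lemma per_comb_tail (hB : B * (L + k) + k ≤ l) (hL : 0 < L) (o : Word m l)
    (e : Fin B → Fin L → Ltr m) (n : ℕ) (h1 : B * (L + k) ≤ n) (h2 : n < l + k) :
    per (comb k L B o e) n = per o n := by
  unfold per comb
  rw [dif_neg]
  rintro ⟨h3, h4, -⟩
  have h5 : (Fin.ofNat l n).val = n % l := rfl
  rw [h5] at h3 h4
  rcases Nat.lt_or_ge n l with h | h
  · rw [Nat.mod_eq_of_lt h] at h3
    have h6 : n < B * (L + k) := (Nat.div_lt_iff_lt_mul (by omega)).1 h3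
    omega
  · have h6 : n % l = n - l := by
      rw [Nat.mod_eq_sub_mod h, Nat.mod_eq_of_lt (by omega)]
    rw [h6, Nat.mod_eq_of_lt (by omega)] at h4
    omega

lemma bl_comb (hB : B * (L + k) + k ≤ l) (o : Word m l) (e : Fin B → Fin L → Ltr m) :
    bl k L B (comb k L B o e) = e := by
  funext b t
  unfold bl
  rw [per_comb_block hB o e b (k + t.val) (by omega)]
  unfold zn
  rw [if_neg (by omega), dif_pos (by omega)]
  congr 1
  apply Fin.ext
  dsimp only
  omega

omit [NeZero l] in
lemma out_comb (d : Ltr m) (o : Word m l) (e : Fin B → Fin L → Ltr m) :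
    out k L B d (comb k L B o e) = out k L B d o := by
  funext i
  unfold out
  split_ifs with h
  · rfl
  · unfold comb
    rw [dif_neg h]

omit [NeZero l] in
lemma out_out (d : Ltr m) (w : Word m l) : out k L B d (out k L B d w) = out k L B d w := by
  funext i
  unfold out
  split_ifs <;> rfl

/-- cyclically reduced words in terms of the blocks -/
lemma cyc_comb (hk : 1 ≤ k) (hL : 0 < L) (hB : B * (L + k) + k ≤ l) (o : Word m l)
    (e : Fin B → Fin L → Ltr m) :
    CycRed (comb k L B o e) ↔
      (∀ b : Fin B, e b ∈ EE k L fun j => per o (b.val * (L + k) + j)) ∧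
      ∀ n, B * (L + k) ≤ n → n < l → per o (n + 1) ≠ linv (per o n) := by
  rw [cyc_iff]
  constructor
  · intro h
    refine ⟨fun b => ?_, fun n h1 h2 => ?_⟩
    · rw [mem_EE]
      intro j hj
      have h3 := h (b.val * (L + k) + j) (lt_aux hB b.isLt (by omega))
      rw [add_assoc, per_comb_block hB o e b (j + 1) (by omega),
        per_comb_block hB o e b j (by omega)] at h3
      exact h3
    · have h3 := h n h2
      rw [per_comb_tail hB hL o e n h1 (by omega),
        per_comb_tail hB hL o e (n + 1) (by omega) (by omega)] at h3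
      exact h3
  · rintro ⟨h1, h2⟩ n hn
    rcases Nat.lt_or_ge n (B * (L + k)) with h | h
    · have hb : n / (L + k) < B := (Nat.div_lt_iff_lt_mul (by omega)).2 h
      have hj : n % (L + k) < L + k := Nat.mod_lt _ (by omega)
      have hn' : n = (n / (L + k)) * (L + k) + n % (L + k) := by
        rw [mul_comm]
        exact (Nat.div_add_mod n (L + k)).symm
      have h3 := mem_EE.1 (h1 ⟨n / (L + k), hb⟩) (n % (L + k)) hj
      have h4 := per_comb_block hB o e ⟨n / (L + k), hb⟩ (n % (L + k)) (by omega)
      have h5 := per_comb_block hB o e ⟨n / (L + k), hb⟩ (n % (L + k) + 1) (by omega)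
      dsimp only at h3 h4 h5
      rw [← hn'] at h4
      rw [← add_assoc, ← hn'] at h5
      rw [h4, h5]
      exact h3
    · rw [per_comb_tail hB hL o e n h (by omega),
        per_comb_tail hB hL o e (n + 1) (by omega) (by omega)]
      exact h2 n h hn

/-- the sum in terms of the blocks -/
lemma fsum_comb (hL : 0 < L) (hB : B * (L + k) + k ≤ l) (f : List (Ltr m) → ℤ)
    (o : Word m l) (e : Fin B → Fin L → Ltr m) :
    fsum f k (comb k L B o e) =
      (∑ b : Fin B, FF f k L (fun j => per o (b.val * (L + k) + j)) (e b)) +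
      ∑ n ∈ Ico (B * (L + k)) l, f (win o k n) := by
  unfold fsum
  rw [Fin.sum_univ_eq_sum_range fun n => f (win (comb k L B o e) k n), range_eq_Ico,
    ← sum_Ico_consecutive _ (Nat.zero_le _) (show B * (L + k) ≤ l by omega), ← range_eq_Ico,
    sum_blocks]
  congr 1
  · rw [← Fin.sum_univ_eq_sum_range fun b => ∑ j ∈ range (L + k),
      f (win (comb k L B o e) k (b * (L + k) + j))]
    refine sum_congr rfl fun b _ => ?_
    unfold FF
    refine sum_congr rfl fun j hj => ?_
    rw [mem_range] at hj
    congr 1
    unfold win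
    refine List.map_congr_left fun i hi => ?_
    rw [List.mem_range] at hi
    rw [add_assoc, per_comb_block hB o e b (j + i) (by omega)]
  · refine sum_congr rfl fun n hn => ?_
    rw [mem_Ico] at hn
    congr 1
    unfold win
    refine List.map_congr_left fun i hi => ?_
    rw [List.mem_range] at hi
    rw [per_comb_tail hB hL o e (n + i) (by omega) (by omega)]

end

end ANTIW

open ANTIW Finset in
theorem t_ANTIW : M_ANTIW := by
  classical
  intro hLO m k f U V ε hm hk hl h2 hU hV ht hd hne hε
  obtain ⟨B0, hB0⟩ := hLO (Fintype.card (Fin (U.length + 2) → Ltr m)) ε hε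
  set L := U.length + 2 with hL
  have hL0 : 0 < L := by omega
  refine ⟨B0 * (L + k) + k, fun l _ c hB => ?_⟩
  have x : Ltr m := (⟨0, by omega⟩, true)
  -- cardinalities as finsets
  rw [Nat.card_eq_fintype_card, Nat.card_eq_fintype_card, Fintype.card_subtype,
    Fintype.card_subtype]
  have f1 := card_eq_sum_card_fiberwise (f := out k L B0 x)
    (s := univ.filter fun w : Word m l => CycRed w ∧ fsum f k w = c) (t := univ)
    (fun _ _ => mem_coe.2 (mem_univ _))
  have f2 := card_eq_sum_card_fiberwise (f := out k L B0 x)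
    (s := univ.filter fun w : Word m l => CycRed w) (t := univ)
    (fun _ _ => mem_coe.2 (mem_univ _))
  rw [f1, f2]
  push_cast
  rw [mul_sum]
  refine sum_le_sum fun o _ => ?_
  by_cases hemp : ((univ.filter fun w : Word m l => CycRed w ∧ fsum f k w = c).filter
      fun w => out k L B0 x w = o) = ∅
  · rw [hemp, card_empty]
    simp only [Nat.cast_zero]
    positivity
  obtain ⟨w0, hw0⟩ := Finset.nonempty_iff_ne_empty.2 hemp
  rw [mem_filter, mem_filter] at hw0
  obtain ⟨⟨_, hc0, hd0⟩, ho⟩ := hw0
  have hoo : out k L B0 x o = o := by rw [← ho, out_out]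
  have hcc : (∀ b : Fin B0, bl k L B0 w0 b ∈ EE k L fun j => per o (b.val * (L + k) + j)) ∧
      ∀ n, B0 * (L + k) ≤ n → n < l → per o (n + 1) ≠ linv (per o n) := by
    have h3 := comb_bl (k := k) (L := L) (B := B0) x w0
    rw [ho] at h3
    rw [← h3] at hc0
    exact (cyc_comb hk hL0 hB o _).1 hc0
  have htail := hcc.2
  set E : Fin B0 → Finset (Fin L → Ltr m) := fun b =>
    EE k L (fun j => per o (b.val * (L + k) + j)) with hE
  set F : Fin B0 → (Fin L → Ltr m) → ℤ := fun b =>
    FF f k L (fun j => per o (b.val * (L + k) + j)) with hF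
  have htwo : ∀ b : Fin B0, ∃ u v : Fin L → Ltr m, u ∈ E b ∧ v ∈ E b ∧ F b u ≠ F b v := by
    intro b
    refine two_fillings hm f k hk hl (by omega) hU hV ht hd hne _ ?_
    intro j hj
    have h3 := mem_EE.1 (hcc.1 b) j (by omega)
    unfold zn at h3
    rw [if_pos hj, if_pos (by omega)] at h3
    exact h3
  choose u v hu hv huv using htwo
  have hlo := hB0 B0 (Fin L → Ltr m) E F u v le_rfl
    (fun b => ⟨hu b, hv b, (card_le_univ _), huv b⟩)
    (c - ∑ n ∈ Ico (B0 * (L + k)) l, f (win o k n))
  have hinj : Function.Injective (comb (m := m) (l := l) k L B0 o) := by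
    intro e e' he
    rw [← bl_comb hB o e, he, bl_comb hB o e']
  have s1 : ((univ.filter fun w : Word m l => CycRed w ∧ fsum f k w = c).filter
      fun w => out k L B0 x w = o) ⊆ ((Fintype.piFinset E).filter fun e => ∑ i, F i (e i) =
        c - ∑ n ∈ Ico (B0 * (L + k)) l, f (win o k n)).image (comb k L B0 o) := by
    intro w hw
    rw [mem_filter, mem_filter] at hw
    obtain ⟨⟨_, hc, hd⟩, hwo⟩ := hw
    have hw' := comb_bl (k := k) (L := L) (B := B0) x w
    rw [hwo] at hw'
    rw [mem_image]
    refine ⟨bl k L B0 w, ?_, hw'⟩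
    rw [mem_filter, Fintype.mem_piFinset]
    rw [← hw'] at hc hd
    refine ⟨((cyc_comb hk hL0 hB o _).1 hc).1, ?_⟩
    rw [fsum_comb hL0 hB] at hd
    rw [← hd]
    simp [hF]
  have s2 : (Fintype.piFinset E).image (comb k L B0 o) ⊆
      ((univ.filter fun w : Word m l => CycRed w).filter fun w => out k L B0 x w = o) := by
    intro w hw
    rw [mem_image] at hw
    obtain ⟨e, he, rfl⟩ := hw
    rw [Fintype.mem_piFinset] at he
    rw [mem_filter, mem_filter]
    refine ⟨⟨mem_univ _, (cyc_comb hk hL0 hB o e).2 ⟨he, htail⟩⟩, ?_⟩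
    rw [out_comb, hoo]
  calc ((((univ.filter fun w : Word m l => CycRed w ∧ fsum f k w = c).filter
      fun w => out k L B0 x w = o).card : ℕ) : ℝ)
      ≤ (((Fintype.piFinset E).filter fun e => ∑ i, F i (e i) =
        c - ∑ n ∈ Ico (B0 * (L + k)) l, f (win o k n)).card : ℝ) := by
        exact_mod_cast (card_le_card s1).trans card_image_le
    _ ≤ ε * (Fintype.piFinset E).card := hlo
    _ ≤ _ := by
        refine mul_le_mul_of_nonneg_left ?_ hε.le
        rw [← card_image_of_injective (Fintype.piFinset E) hinj]
        exact_mod_cast card_le_card s2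

end RBG
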