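import Pool.Agent.RBG.Base

/-!
# MP_0a3593_al, bounded geometry: projection to an axis (module AXP)
-/

set_option autoImplicit false

namespace RBG

open RGD FreeGroup

namespace AXP

variable {m : ℕ}

theorem rel_of_ne {a b : Ltr m} (h : b ≠ linv a) : a.1 = b.1 → a.2 = b.2 := by
  intro h1
  by_contra h2
  apply h
  refine Prod.ext h1.symm ?_
  show b.2 = !a.2
  cases ha : a.2 <;> cases hb : b.2 <;> simp_all

theorem linv_linv (a : Ltr m) : linv (linv a) = a := by
  simp [linv]

theorem mk_linv (a : Ltr m) : (FreeGroup.mk [linv a]) = (FreeGroup.mk [a])⁻¹ := by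
  rw [FreeGroup.inv_mk]
  rfl

theorem norm_red {L : List (Ltr m)} (h : IsReduced L) : (FreeGroup.mk L).norm = L.length := by
  rw [FreeGroup.norm, FreeGroup.toWord_mk, h.reduce_eq]

theorem exists_min {α : Type} [Nonempty α] (F : α → ℕ) : ∃ t, ∀ s, F t ≤ F s := by
  classical
  have h : ∃ n, ∃ t, F t = n := ⟨_, Classical.arbitrary α, rfl⟩
  obtain ⟨t, ht⟩ := Nat.find_spec h
  exact ⟨t, fun s => ht.symm ▸ Nat.find_min' h ⟨s, rfl⟩⟩

end AXP

open AXP in
theorem t_AXP : S_AXP := by
  intro m l _ w hw x f
  obtain ⟨a, rfl⟩ : ∃ a, f = x * a := ⟨x⁻¹ * f, by group⟩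
  obtain ⟨t, ht⟩ := exists_min fun t : ℤ => td a (line w t)
  obtain ⟨-, h2, h3, -, h5, -, -⟩ := cLINE m l w hw
  set p := line w t with hp
  set Q := (p⁻¹ * a).toWord with hQ
  have hQr : IsReduced Q := isReduced_toWord
  have hQm : FreeGroup.mk Q = p⁻¹ * a := FreeGroup.mk_toWord
  have htd : td a p = Q.length := by
    rw [LINE.td_symm]
    rfl
  have hlp : line w (t + (l : ℕ)) = el w * p := by
    have := h3 t 1
    rw [one_mul, zpow_one] at this
    exact this
  set M := (List.range l).map fun i : ℕ => perZ w (t + i) with hM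
  have hMr : IsReduced M := LINE.isReduced_seg w hw t l
  have hMm : FreeGroup.mk M = p⁻¹ * (el w * p) := by
    rw [← hlp, LINE.seg_mk]
  have hl : 0 < l := NeZero.pos l
  have hM0 : M ≠ [] := by
    intro h
    have := congrArg List.length h
    simp [hM] at this
    omega
  -- the first letter of `Q`
  have hd1 : ∀ b Q', Q = b :: Q' → b ≠ perZ w t := by
    intro b Q' e hb
    have h6 := ht (t + 1)
    have h7 : td a (line w (t + 1)) = (FreeGroup.mk Q').norm := by
      rw [LINE.td_symm]
      unfold td
      congr 1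
      rw [h2, mul_inv_rev, mul_assoc, ← hp, ← hQm, e, ← hb]
      have : FreeGroup.mk (b :: Q') = FreeGroup.mk [b] * FreeGroup.mk Q' := by
        rw [mul_mk]; rfl
      rw [this, inv_mul_cancel_left]
    have h8 : (FreeGroup.mk Q').norm ≤ Q'.length := FreeGroup.norm_mk_le
    have h9 : Q.length = Q'.length + 1 := by rw [e]; rfl
    omega
  have hd2 : ∀ b Q', Q = b :: Q' → b ≠ linv (perZ w (t - 1)) := by
    intro b Q' e hb
    have h6 := ht (t - 1)
    have h7 : td a (line w (t - 1)) = (FreeGroup.mk Q').norm := by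
      rw [LINE.td_symm]
      unfold td
      congr 1
      have h10 := h2 (t - 1)
      rw [sub_add_cancel, ← hp] at h10
      have h11 : line w (t - 1) = p * FreeGroup.mk [b] := by
        rw [hb, mk_linv, h10, mul_inv_cancel_right]
      rw [h11, mul_inv_rev, mul_assoc, ← hQm, e]
      have : FreeGroup.mk (b :: Q') = FreeGroup.mk [b] * FreeGroup.mk Q' := by
        rw [mul_mk]; rfl
      rw [this, inv_mul_cancel_left]
    have h8 : (FreeGroup.mk Q').norm ≤ Q'.length := FreeGroup.norm_mk_le
    have h9 : Q.length = Q'.length + 1 := by rw [e]; rfl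
    omega
  have hMQ : IsReduced (M ++ Q) := by
    unfold FreeGroup.IsReduced
    rw [List.isChain_append]
    refine ⟨hMr, hQr, ?_⟩
    intro c hc b hb
    obtain ⟨Q', hQ'⟩ : ∃ Q', Q = b :: Q' := by
      cases hq : Q with
      | nil => rw [hq] at hb; simp at hb
      | cons b' Q' =>
        rw [hq] at hb
        simp at hb
        exact ⟨Q', by rw [hb]⟩
    have hc' : c = perZ w (t - 1) := by
      obtain ⟨l', rfl⟩ : ∃ l', l = l' + 1 := ⟨l - 1, by omega⟩
      rw [hM, List.range_succ, List.map_append] at hc
      simp at hc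
      rw [← hc]
      unfold perZ
      congr 2
      have e1 : t + (l' : ℤ) = (t - 1) + ((l' + 1 : ℕ) : ℤ) := by push_cast; ring
      rw [e1, Int.add_emod_right]
    rw [hc']
    exact rel_of_ne (hd2 b Q' hQ')
  have hQM : IsReduced (invRev Q ++ M) := by
    cases hq : Q with
    | nil => simpa [invRev] using hMr
    | cons b Q' =>
      have hMc : M = perZ w t :: M.tail := by
        obtain ⟨l', rfl⟩ : ∃ l', l = l' + 1 := ⟨l - 1, by omega⟩
        rw [hM, List.range_succ_eq_map]
        simp
      rw [hMc]
      refine TREE.isReduced_invRev_append (hd1 b Q' hq) (hq ▸ hQr) (hMc ▸ hMr)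
  have hQMQ : IsReduced (invRev Q ++ M ++ Q) := IsReduced.append_overlap hQM hMQ hM0
  refine ⟨t, ?_, ?_⟩
  · have e1 : td (x * a) (x * line w t) = Q.length := by
      rw [TREE.td_smul, ← htd]
    have e2 : td (x * line w t) (x * el w * x⁻¹ * (x * a)) = M.length + Q.length := by
      rw [← List.length_append, ← norm_red hMQ]
      unfold td
      congr 1
      rw [← mul_mk, hMm, hQm, ← hp]
      group
    have e3 : td (x * a) (x * el w * x⁻¹ * (x * a)) = Q.length + M.length + Q.length := by
      have e4 : (invRev Q ++ M ++ Q).length = Q.length + M.length + Q.length := by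
        simp only [List.length_append, invRev_length]
      rw [← e4, ← norm_red hQMQ]
      unfold td
      congr 1
      rw [← mul_mk, ← mul_mk, hMm, hQm, ← inv_mk, hQm]
      group
    rw [e1, e2, e3]
    ring
  · have e1 : td (x * line w t) (x * el w * x⁻¹ * (x * line w t)) = M.length := by
      rw [← norm_red hMr]
      unfold td
      congr 1
      rw [hMm, ← hp]
      group
    have e2 : td (x * el w * x⁻¹ * (x * line w t)) (x * el w * x⁻¹ * (x * a)) = Q.length := by
      rw [TREE.td_smul, TREE.td_smul]
      rfl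
    have e3 : td (x * line w t) (x * el w * x⁻¹ * (x * a)) = M.length + Q.length := by
      rw [← List.length_append, ← norm_red hMQ]
      unfold td
      congr 1
      rw [← mul_mk, hMm, hQm, ← hp]
      group
    rw [e1, e2, e3]

end RBG
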