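import Pool.Agent.RBG.Base

/-!
# MP_0a3593_al, bounded geometry, module B1: the relators are characterised by their displacement
-/

set_option autoImplicit false

namespace RBG

open RGD

namespace B1

variable {m l n : ℕ} [NeZero l]

/-- initial segments of subwords -/
theorem isSub_take {r : Fin n → Word m l} {p : List (Ltr m)} (h : IsSub r p) {k : ℕ}
    (hk : k ≤ p.length) : IsSub r (p.take k) := by
  obtain ⟨j, q, h | h⟩ := h
  · refine ⟨j, q, Or.inl fun t ht => ?_⟩
    rw [List.length_take] at ht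
    rw [List.getElem_take]
    exact h t (by omega)
  · refine ⟨j, q + (p.length - k), Or.inr fun t ht => ?_⟩
    rw [List.length_take] at ht
    rw [List.getElem_take, h t (by omega), List.length_take]
    congr 2
    omega

/-- S_GREEN with a subword of length at most `l` -/
theorem green' {C0 P : ℕ} {r : Fin n → Word m l} {w : FG m}
    (h : ∃ a p b : List (Ltr m), w.toWord = a ++ p ++ b ∧ l ≤ p.length + C0 * (P + 1) ∧ IsSub r p) :
    ∃ a p b : List (Ltr m), w.toWord = a ++ p ++ b ∧ l ≤ p.length + C0 * (P + 1) ∧ IsSub r p ∧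
      p.length ≤ l := by
  obtain ⟨a, p, b, h1, h2, h3⟩ := h
  rcases Nat.le_total p.length l with h4 | h4
  · exact ⟨a, p, b, h1, h2, h3, h4⟩
  · refine ⟨a, p.take l, p.drop l ++ b, ?_, ?_, isSub_take h3 h4, ?_⟩
    · rw [h1, List.append_assoc, List.append_assoc, ← List.append_assoc (p.take l),
        List.take_append_drop]
    · rw [List.length_take]
      omega
    · rw [List.length_take]
      omega

end B1

open B1 in
theorem t_B1 : M_B1 := by
  intro hG hRHO hSH R
  obtain ⟨C0, hC0, hG⟩ := hG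
  set c := kc R with hc
  set B0 := C0 + R * (R * (C0 + 1) + 2 * c + 2 * R) with hB0
  obtain ⟨C1, hSH⟩ := hSH B0
  refine ⟨C0 + C1 + B0 + 1, ?_⟩
  intro m l n P _ r hr Y _ π D hQ k hk hk1 hkc
  -- the point and the conjugate
  obtain ⟨y, hy⟩ := hQ.exists_tau k
  obtain ⟨o, ho⟩ := hQ.surj 1
  set f := π y with hf
  set w := f⁻¹ * k * f with hw
  have hwK : w ∈ KN r := by
    have := KN_conj hk f⁻¹
    rwa [inv_inv] at this
  have hkw : k = f * w * f⁻¹ := by rw [hw]; group
  have hw1 : w ≠ 1 := by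
    intro h
    apply hk1
    rw [hkw, h]
    group
  have hLw : D o (w • o) ≤ tau D k + 2 * R := by
    have h1 : D y (f • o) ≤ R := hQ.fib (by rw [hQ.pi, ho, mul_one])
    have h2 : D o (w • o) = D (f • o) (k • f • o) := by
      rw [← hQ.isom f o (w • o)]
      congr 1
      rw [smul_smul, smul_smul]
      congr 1
      rw [hw]
      group
    have h3 := hQ.tri (f • o) y (k • f • o)
    have h4 := hQ.tri y (k • y) (k • f • o)
    rw [hQ.isom] at h4
    rw [hQ.comm (f • o) y] at h3
    rw [h2]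
    omega
  -- the subword
  obtain ⟨a, p, b, hab, hlp, hsub, hpl⟩ := green' (hG m l n P r hr.cyc hr.sc hr.pos
    (le_trans (Nat.mul_le_mul_right _ (by omega)) hr.big) w hwK hw1)
  have hred : RedL (a ++ p ++ b) := by
    rw [← hab]
    exact redL_toWord w
  have hwm : w = FreeGroup.mk (a ++ p ++ b) := by
    rw [← hab, mk_toWord]
  have hL1 := hQ.L_add ho hred
  have hL2 := hQ.L_add ho (RedL.left hred)
  rw [← hwm] at hL1
  obtain ⟨q, hq, hpq, hρ⟩ := hRHO m l n r hr.cyc p hsub hpl
  set A : FG m := FreeGroup.mk a with hA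
  set p' : FG m := FreeGroup.mk p with hp'
  set B : FG m := FreeGroup.mk b with hB
  set q' : FG m := FreeGroup.mk q with hq'
  have hρe : (FreeGroup.mk (p ++ q) : FG m) = p' * q' := mk_append p q
  have hwe : w = A * p' * B := by rw [hwm, mk_append, mk_append]
  rw [hρe] at hρ
  have hρK : p' * q' ∈ KN r := RR_mem hρ.1
  -- lengths
  have hqle : q.length ≤ C0 * (P + 1) := by omega
  have hpn : p'.norm = p.length := norm_mk (RedL.right (RedL.left hred))
  have hqn : q'.norm = q.length := norm_mk (RedL.right hpq)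
  have hLq := hQ.L_up ho q'
  have hLp := hQ.L_low ho p'
  rw [hpn] at hLp
  rw [hqn] at hLq
  have hLq2 : D o (q' • o) ≤ R * ((C0 + 1) * (P + 1)) := by
    refine le_trans hLq (Nat.mul_le_mul_left _ ?_)
    nlinarith
  have hbig := hr.big
  set X := D o (q' • o) + 2 * c + 2 * R with hX
  have hX1 : X ≤ (R * (C0 + 1) + 2 * c + 2 * R) * (P + 1) := by
    have h1 : 2 * c + 2 * R ≤ (2 * c + 2 * R) * (P + 1) := Nat.le_mul_of_pos_right _ (by omega)
    calc X = D o (q' • o) + (2 * c + 2 * R) := by rw [hX]; ring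
      _ ≤ R * ((C0 + 1) * (P + 1)) + (2 * c + 2 * R) * (P + 1) := Nat.add_le_add hLq2 h1
      _ = _ := by ring
  have hRX : C0 * (P + 1) + R * X ≤ B0 * (P + 1) := by
    calc C0 * (P + 1) + R * X ≤ C0 * (P + 1) + R * ((R * (C0 + 1) + 2 * c + 2 * R) * (P + 1)) :=
          Nat.add_le_add_left (Nat.mul_le_mul_left _ hX1) _
      _ = B0 * (P + 1) := by rw [hB0]; ring
  have hXp : X < D o (p' • o) := by
    have h1 : R * X < R * D o (p' • o) := by
      have h2 : (B0 + 1) * (P + 1) ≤ l := le_trans (Nat.mul_le_mul_right _ (by omega)) hbig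
      have h3 : (B0 + 1) * (P + 1) = B0 * (P + 1) + (P + 1) := by ring
      omega
    exact lt_of_mul_lt_mul_left h1 (Nat.zero_le _)
  -- the two factors
  set S := {k' | k' ∈ KN r ∧ tau D k' < tau D k} with hS
  have hconj : ∀ (g x : FG m), x ∈ S → g * x * g⁻¹ ∈ S := by
    intro g x hx
    exact ⟨KN_conj hx.1 g, by rw [hQ.tau_conj]; exact hx.2⟩
  set z := q'⁻¹ * B * A with hz
  have hwz : w = A * (p' * q') * A⁻¹ * (A * z * A⁻¹) := by
    rw [hwe, hz]
    group
  have hzK : z ∈ KN r := by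
    have h1 : z = A⁻¹ * ((A * (p' * q') * A⁻¹)⁻¹ * w) * A⁻¹⁻¹ := by
      rw [hwe, hz]
      group
    rw [h1]
    exact KN_conj ((KN r).mul_mem ((KN r).inv_mem (KN_conj hρK A)) hwK) _
  have hLz : D o (z • o) ≤ D o (q' • o) + D o (B • o) + D o (A • o) := by
    have h1 := hQ.L_mul o (q'⁻¹ * B) A
    have h2 := hQ.L_mul o q'⁻¹ B
    rw [hQ.L_inv] at h2
    rw [hz]
    omega
  have hzS : z ∈ S := by
    refine ⟨hzK, lt_of_le_of_lt (tau_le D z o) ?_⟩
    omega
  have hρS : ¬ tau D (p' * q') < tau D k := by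
    intro h
    apply hkc
    have h1 : k = (f * (A * (p' * q') * A⁻¹) * f⁻¹) * (f * (A * z * A⁻¹) * f⁻¹) := by
      rw [hkw, hwz]
      group
    rw [h1]
    refine Subgroup.mul_mem _ (Subgroup.subset_closure ?_) (Subgroup.subset_closure ?_)
    · exact hconj f _ (hconj A _ ⟨hρK, h⟩)
    · exact hconj f _ (hconj A _ hzS)
  have hρL : tau D (p' * q') ≤ D o (p' • o) + D o (q' • o) :=
    le_trans (tau_le D _ o) (hQ.L_mul o p' q')
  have hAB : D o (A • o) + D o (B • o) ≤ X := by omega
  -- the second factor is trivial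
  have hAn := hQ.L_low ho A
  have hBn := hQ.L_low ho B
  have hzn : z.norm ≤ B0 * (P + 1) := by
    have h1 : z.norm ≤ q'.norm + B.norm + A.norm := by
      rw [hz]
      refine le_trans (FreeGroup.norm_mul_le _ _) ?_
      have := FreeGroup.norm_mul_le q'⁻¹ B
      rw [FreeGroup.norm_inv_eq] at this
      omega
    have h2 : A.norm + B.norm ≤ R * X := by
      calc A.norm + B.norm ≤ R * D o (A • o) + R * D o (B • o) := Nat.add_le_add hAn hBn
        _ = R * (D o (A • o) + D o (B • o)) := by ring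
        _ ≤ R * X := Nat.mul_le_mul_left _ hAB
    omega
  have hz1 : z = 1 := hSH m l n P r (hr.mono (by omega)) z hzK hzn
  rw [hkw]
  apply RR_conj
  rw [hwz, hz1]
  have : A * (p' * q') * A⁻¹ * (A * 1 * A⁻¹) = A * (p' * q') * A⁻¹ := by group
  rw [this]
  exact RR_conj hρ.1 A

end RBG
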