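import Pool.Agent.RBG.Base

/-!
# MP_0a3593_al, bounded geometry: a relator is not a product of elements with smaller displacement
(module B2)
-/

set_option autoImplicit false

namespace RBG

open RGD

namespace B2

variable {m l n : ℕ}

theorem tau_conj {R : ℕ} {Y : Type} [MulAction (FG m) Y] {π : Y → FG m} {D : Y → Y → ℕ}
    (hD : QT R π D) (x k : FG m) : tau D (x * k * x⁻¹) = tau D k := by
  unfold tau
  congr 1
  ext d
  constructor
  · rintro ⟨y, hy⟩
    refine ⟨x⁻¹ • y, ?_⟩
    rw [← hy, ← hD.isom x (x⁻¹ • y) (k • x⁻¹ • y), smul_inv_smul, smul_smul, smul_smul, mul_assoc]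
  · rintro ⟨y, hy⟩
    refine ⟨x • y, ?_⟩
    rw [← hy, ← hD.isom x y (k • y), smul_smul, smul_smul, inv_mul_cancel_right]

theorem tau_inv {R : ℕ} {Y : Type} [MulAction (FG m) Y] {π : Y → FG m} {D : Y → Y → ℕ}
    (hD : QT R π D) (k : FG m) : tau D k⁻¹ = tau D k := by
  unfold tau
  congr 1
  ext d
  constructor
  · rintro ⟨y, hy⟩
    refine ⟨k⁻¹ • y, ?_⟩
    rw [smul_inv_smul, hD.comm, hy]
  · rintro ⟨y, hy⟩
    refine ⟨k • y, ?_⟩
    rw [inv_smul_smul, hD.comm, hy]

/-- the relators with displacement less than `t` -/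
def RT {Y : Type} [MulAction (FG m) Y] (r : Fin n → Word m l) (D : Y → Y → ℕ) (t : ℕ) :
    Set (FG m) := {g | ∃ i : Fin n, tau D (el (r i)) < t ∧ el (r i) = g}

theorem RT_mono {Y : Type} [MulAction (FG m) Y] (r : Fin n → Word m l) (D : Y → Y → ℕ) {t t' : ℕ}
    (h : t ≤ t') : RT r D t ⊆ RT r D t' := by
  rintro g ⟨i, hi, rfl⟩
  exact ⟨i, lt_of_lt_of_le hi h, rfl⟩

theorem conj_nc {S : Set (FG m)} {g : FG m} (x : FG m) (h : g ∈ Subgroup.normalClosure S) :
    x * g * x⁻¹ ∈ Subgroup.normalClosure S :=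
  (Subgroup.normalClosure_normal (s := S)).conj_mem g h x

theorem claim {R : ℕ} {Y : Type} [MulAction (FG m) Y] {π : Y → FG m} {D : Y → Y → ℕ}
    (hD : QT R π D) (r : Fin n → Word m l)
    (hB : ∀ k ∈ KN r, k ≠ 1 →
      k ∉ Subgroup.closure {k' | k' ∈ KN r ∧ tau D k' < tau D k} → k ∈ RR r) :
    ∀ t : ℕ, ∀ k ∈ KN r, tau D k < t → k ∈ Subgroup.normalClosure (RT r D t) := by
  intro t
  induction t using Nat.strong_induction_on with
  | _ t ih =>
    intro k hk hkt
    by_cases h1 : k = 1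
    · rw [h1]
      exact Subgroup.one_mem _
    by_cases h2 : k ∈ Subgroup.closure {k' | k' ∈ KN r ∧ tau D k' < tau D k}
    · have h3 : Subgroup.closure {k' | k' ∈ KN r ∧ tau D k' < tau D k} ≤
          Subgroup.normalClosure (RT r D t) := by
        rw [Subgroup.closure_le]
        rintro k' ⟨hk', hkk⟩
        exact Subgroup.normalClosure_mono (RT_mono r D hkt.le) (ih _ hkt k' hk' hkk)
      exact h3 h2
    · obtain ⟨x, j, h4 | h4⟩ := hB k hk h1 h2
      · rw [h4, tau_conj hD] at hkt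
        rw [h4]
        exact conj_nc x (Subgroup.subset_normalClosure ⟨j, hkt, rfl⟩)
      · rw [h4, tau_conj hD, tau_inv hD] at hkt
        rw [h4]
        exact conj_nc x (Subgroup.inv_mem _ (Subgroup.subset_normalClosure ⟨j, hkt, rfl⟩))

theorem el_word [NeZero l] (w : Word m l) (h : CycRed w) :
    (el w).toWord = (List.range l).map fun i : ℕ => per w i := by
  have h1 := LINE.seg_word w h 0 l
  have h2 := LINE.line_add w 0 1
  rw [one_mul, zpow_one, LINE.line_zero, mul_one] at h2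
  rw [LINE.line_zero, inv_one, one_mul, h2] at h1
  rw [h1]
  apply List.map_congr_left
  intro i _
  rw [zero_add, LINE.perZ_nat]

theorem el_ne_one [NeZero l] (w : Word m l) (h : CycRed w) : el w ≠ 1 := by
  intro h1
  have h2 := el_word w h
  rw [h1, FreeGroup.toWord_one] at h2
  have h3 := congrArg List.length h2
  rw [List.length_map, List.length_range, List.length_nil] at h3
  exact NeZero.ne l h3.symm

theorem getElem_per [NeZero l] (w : Word m l) (h : CycRed w) (a p b : List (Ltr m))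
    (hw : (el w).toWord = a ++ p ++ b) (t : ℕ) (ht : t < p.length) :
    p[t] = per w (a.length + t) := by
  have h2 : (a ++ p ++ b)[a.length + t]? = some p[t] := by
    rw [List.append_assoc, List.getElem?_append_right (by omega), Nat.add_sub_cancel_left,
      List.getElem?_append_left ht, List.getElem?_eq_getElem ht]
  rw [← hw, el_word w h, List.getElem?_map] at h2
  have h3 : a.length + t < l := by
    have h4 := congrArg List.length hw
    rw [el_word w h, List.length_map, List.length_range, List.length_append,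
      List.length_append] at h4
    omega
  rw [List.getElem?_range h3] at h2
  simpa using h2.symm

theorem no_sub [NeZero l] {P C0 : ℕ} (r : Fin n → Word m l) (hcyc : ∀ j, CycRed (r j))
    (hsc : SC r P) (hbig : (C0 + 1) * (P + 1) ≤ l) {n' : ℕ} (e : Fin n' → Fin n) (j : Fin n)
    (he : ∀ i, e i ≠ j) (a p b : List (Ltr m)) (hw : (el (r j)).toWord = a ++ p ++ b)
    (hlen : l ≤ p.length + C0 * (P + 1)) (hsub : IsSub (fun i => r (e i)) p) : False := by
  have hP : P ≤ p.length := by
    have h1 : (C0 + 1) * (P + 1) = C0 * (P + 1) + (P + 1) := by ring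
    omega
  obtain ⟨j', q, h | h⟩ := hsub
  · have h2 := hsc.fwd j (e j') a.length q (fun t ht => by
      have ht' : t < p.length := lt_of_lt_of_le ht hP
      rw [← getElem_per (r j) (hcyc j) a p b hw t ht']
      exact h t ht')
    exact he j' h2.1.symm
  · obtain ⟨t, ht, h2⟩ := hsc.bwd j (e j') a.length (q + (p.length - P))
    apply h2
    have ht' : t < p.length := lt_of_lt_of_le ht hP
    rw [← getElem_per (r j) (hcyc j) a p b hw t ht', h t ht']
    have h3 : q + (p.length - 1 - t) = q + (p.length - P) + (P - 1 - t) := by omega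
    show linv (per (r (e j')) (q + (p.length - 1 - t))) = _
    rw [h3]

theorem main {C0 : ℕ} [NeZero l] {P : ℕ} (r : Fin n → Word m l)
    (hG : ∀ (n' : ℕ) (r' : Fin n' → Word m l), (∀ j, CycRed (r' j)) → SC r' P →
      ∀ g ∈ Subgroup.normalClosure (rels r'), g ≠ 1 →
      ∃ a p b : List (Ltr m), g.toWord = a ++ p ++ b ∧ l ≤ p.length + C0 * (P + 1) ∧ IsSub r' p)
    (hcyc : ∀ j, CycRed (r j)) (hsc : SC r P) (hbig : (C0 + 1) * (P + 1) ≤ l)
    (Q : Fin n → Prop) (j : Fin n) (hj : ¬ Q j)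
    (hmem : el (r j) ∈ Subgroup.normalClosure {g | ∃ i : Fin n, Q i ∧ el (r i) = g}) : False := by
  classical
  let E := Fintype.equivFin {i : Fin n // Q i}
  let e : Fin (Fintype.card {i : Fin n // Q i}) → Fin n := fun i => (E.symm i).1
  have hinj : Function.Injective e := fun i i' h => E.symm.injective (Subtype.ext h)
  have hrels : rels (fun i => r (e i)) = {g | ∃ i : Fin n, Q i ∧ el (r i) = g} := by
    ext g
    constructor
    · rintro ⟨i, rfl⟩
      exact ⟨e i, (E.symm i).2, rfl⟩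
    · rintro ⟨i, hi, rfl⟩
      refine ⟨E ⟨i, hi⟩, ?_⟩
      show el (r (E.symm (E ⟨i, hi⟩)).1) = _
      rw [Equiv.symm_apply_apply]
  have hsc' : SC (fun i => r (e i)) P := by
    refine ⟨fun i i' p q h => ?_, fun i i' p q => hsc.bwd (e i) (e i') p q⟩
    have h1 := hsc.fwd (e i) (e i') p q h
    exact ⟨hinj h1.1, h1.2⟩
  rw [← hrels] at hmem
  obtain ⟨a, p, b, hw, hlen, hsub⟩ := hG _ _ (fun i => hcyc (e i)) hsc' _ hmem
    (el_ne_one (r j) (hcyc j))
  refine no_sub r hcyc hsc hbig e j (fun i hi => hj ?_) a p b hw hlen hsub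
  rw [← hi]
  exact (E.symm i).2

end B2

open B2 in
theorem t_B2 : M_B2 := by
  intro hG hB1 R
  obtain ⟨C0, hC0, hG⟩ := hG
  obtain ⟨C1, hB1⟩ := hB1 R
  refine ⟨max C1 (C0 + 1), ?_⟩
  intro m l n P _ r hr Y _ π D hD s hs hmem
  have hr1 : SCl C1 P r := hr.mono (le_max_left _ _)
  have hr2 : SCl (C0 + 1) P r := hr.mono (le_max_right _ _)
  have hB := hB1 m l n P r hr1 Y π D hD
  have hcl := claim hD r hB (tau D s)
  have h1 : Subgroup.closure {k' | k' ∈ KN r ∧ tau D k' < tau D s} ≤
      Subgroup.normalClosure (RT r D (tau D s)) := by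
    rw [Subgroup.closure_le]
    rintro k' ⟨hk', hkk⟩
    exact hcl k' hk' hkk
  have h2 := h1 hmem
  have hbig0 : C0 * (P + 1) ≤ l :=
    le_trans (Nat.mul_le_mul_right _ (Nat.le_succ C0)) hr2.big
  obtain ⟨x, j, hsx⟩ := hs
  have h3 : el (r j) ∈ Subgroup.normalClosure (RT r D (tau D s)) ∧
      tau D s = tau D (el (r j)) := by
    rcases hsx with h4 | h4
    · refine ⟨?_, by rw [h4, tau_conj hD]⟩
      have h5 := conj_nc x⁻¹ h2
      have h6 : x⁻¹ * s * x⁻¹⁻¹ = el (r j) := by
        rw [h4]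
        group
      rwa [h6] at h5
    · refine ⟨?_, by rw [h4, tau_conj hD, tau_inv hD]⟩
      have h5 := Subgroup.inv_mem _ (conj_nc x⁻¹ h2)
      have h6 : (x⁻¹ * s * x⁻¹⁻¹)⁻¹ = el (r j) := by
        rw [h4]
        group
      rwa [h6] at h5
  obtain ⟨h4, h5⟩ := h3
  refine main (C0 := C0) r (fun n' r' hc hs' => hG m l n' P r' hc hs' hr2.pos hbig0) hr2.cyc
    hr2.sc hr2.big (fun i => tau D (el (r i)) < tau D s) j ?_ h4
  rw [h5]
  exact lt_irrefl _

end RBG
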