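import Pool.Agent.RBG.Base

/-!
# RBG: module B3 (relators go to relators)
-/

set_option autoImplicit false

namespace RBG

open RGD

namespace B3

/-- `θ'` maps the subgroup generated by the elements of small displacement to itself -/
theorem clos {m : ℕ} {K : Subgroup (FG m)} {R : ℕ} {Y : Type} [MulAction (FG m) Y] {π : Y → FG m}
    {D : Y → Y → ℕ} {β β' : Y → Y} {θ θ' : FG m → FG m} (hN : NAut K D β β' θ θ')
    (h : QT R π D) (t : ℕ) (k : FG m)
    (hk : k ∈ Subgroup.closure {k' | k' ∈ K ∧ tau D k' < t}) :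
    k ∈ K ∧ θ k ∈ Subgroup.closure {k' | k' ∈ K ∧ tau D k' < t} := by
  induction hk using Subgroup.closure_induction with
  | mem x hx =>
    refine ⟨hx.1, Subgroup.subset_closure ⟨hN.mem _ hx.1, ?_⟩⟩
    rw [hN.tau_theta h hx.1]
    exact hx.2
  | one =>
    refine ⟨K.one_mem, ?_⟩
    rw [hN.one h]
    exact Subgroup.one_mem _
  | mul x y _ _ hx hy =>
    refine ⟨K.mul_mem hx.1 hy.1, ?_⟩
    rw [hN.mul h hx.1 hy.1]
    exact Subgroup.mul_mem _ hx.2 hy.2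
  | inv x _ hx =>
    refine ⟨K.inv_mem hx.1, ?_⟩
    rw [hN.inv h hx.1]
    exact Subgroup.inv_mem _ hx.2

end B3

theorem t_B3 : M_B3 := by
  intro hRF hB1 hB2 R
  obtain ⟨C1, h1⟩ := hB1 R
  obtain ⟨C2, h2⟩ := hB2 R
  refine ⟨max C1 C2, ?_⟩
  intro m l n P _ r Y _ π D β β' θ θ' hNS s hs
  obtain ⟨hsK, hs1, -, -⟩ := (hRF m l n r hNS.sc.cyc).2.2.2.2.1 s hs
  by_contra hcon
  have hθK : θ s ∈ KN r := hNS.na.mem s hsK
  have hθ1 : θ s ≠ 1 := hNS.na.ne_one hNS.qt hsK hs1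
  have hcl : θ s ∈ Subgroup.closure {k' | k' ∈ KN r ∧ tau D k' < tau D (θ s)} := by
    by_contra h3
    exact hcon (h1 m l n P r (hNS.sc.mono (le_max_left _ _)) Y π D hNS.qt (θ s) hθK hθ1 h3)
  rw [hNS.na.tau_theta hNS.qt hsK] at hcl
  have h4 := (B3.clos hNS.na.symm hNS.qt (tau D s) (θ s) hcl).2
  rw [hNS.na.left_inv hNS.qt hsK] at h4
  exact h2 m l n P r (hNS.sc.mono (le_max_right _ _)) Y π D hNS.qt s hs h4

end RBG
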