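import Pool.Agent.RBG.Base

/-!
# MP_0a3593_al, bounded geometry: the base of the induction (module BASE)
-/

set_option autoImplicit false

namespace RBG

open RGD

namespace BASE

variable {m : ℕ}

/-- a point far from the ends of a geodesic is on the geodesic between points close to the ends -/
theorem between {a b a' b' q : FG m} {E : ℕ} (h : td a q + td q b = td a b)
    (ha : td a a' ≤ E) (hb : td b b' ≤ E) (h1 : E < td a q) (h2 : E < td q b) :
    td a' q + td q b' = td a' b' := by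
  have h3 : td a' q + td q b = td a' b := by
    rcases bt_or h a' with h3 | h3
    · omega
    · exact h3
  have h4 : td b q + td q a' = td b a' := by
    rw [td_comm' b q, td_comm' q a', td_comm' b a']
    omega
  rcases bt_or h4 b' with h5 | h5
  · have := td_comm' b q
    omega
  · rw [td_comm' b' q, td_comm' q a', td_comm' b' a'] at h5
    omega

/-- a point between two points of a line is on the line -/
theorem on_line {l : ℕ} [NeZero l] {w : Word m l} (hw : CycRed w) (x : FG m) {s t : ℤ} {q : FG m}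
    (h : td (x * line w s) q + td q (x * line w t) = td (x * line w s) (x * line w t)) :
    ∃ u : ℤ, q = x * line w u := by
  rcases le_total s t with hst | hst
  · refine ⟨s + td (x * line w s) q, ?_⟩
    have hk : s + (td (x * line w s) q : ℤ) ≤ t := by
      have h1 := td_xline hw x s t
      omega
    have h2 := bt_xline hw x (s := s) (t := s + (td (x * line w s) q : ℤ)) (u := t)
      (by omega) hk
    apply bt_unique h h2
    rw [td_xline hw x s (s + (td (x * line w s) q : ℤ))]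
    omega
  · refine ⟨s - td (x * line w s) q, ?_⟩
    have hk : t ≤ s - (td (x * line w s) q : ℤ) := by
      have h1 := td_xline hw x s t
      omega
    have h2 := bt_xline hw x (s := t) (t := s - (td (x * line w s) q : ℤ)) (u := s)
      hk (by omega)
    have h3 : td (x * line w s) (x * line w (s - (td (x * line w s) q : ℤ))) +
        td (x * line w (s - (td (x * line w s) q : ℤ))) (x * line w t) =
        td (x * line w s) (x * line w t) := by
      rw [td_comm' (x * line w s) (x * line w (s - (td (x * line w s) q : ℤ))),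
        td_comm' (x * line w (s - (td (x * line w s) q : ℤ))) (x * line w t),
        td_comm' (x * line w s) (x * line w t)]
      omega
    apply bt_unique h h3
    rw [td_xline hw x s (s - (td (x * line w s) q : ℤ))]
    omega

/-- the axis of an element of `RR` -/
theorem axis (hRF : S_RF) {l n : ℕ} [NeZero l] {r : Fin n → Word m l} (hr : ∀ j, CycRed (r j))
    {s : FG m} (hs : s ∈ RR r) : ∃ (x : FG m) (j : Fin n),
      (s = x * el (r j) * x⁻¹ ∨ s = (x * el (r j) * x⁻¹)⁻¹) ∧
      ∀ z : FG m, z⁻¹ * s * z ∈ R1 r ↔ ∃ t : ℤ, z = x * line (r j) t := by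
  obtain ⟨-, -, h3, -, -, -, h7⟩ := hRF m l n r hr
  obtain ⟨x, j, h⟩ := hs
  have hel : el (r j) ∈ R1 r :=
    ⟨⟨1, j, Or.inl (by simp)⟩, el_norm (hr j)⟩
  rcases h with rfl | rfl
  · exact ⟨x, j, Or.inl rfl, fun z => h7 x z (r j) (hr j) hel⟩
  · refine ⟨x, j, Or.inr (by group), fun z => ?_⟩
    rw [← h7 x z (r j) (hr j) hel]
    have e1 : z⁻¹ * (x * (el (r j))⁻¹ * x⁻¹) * z = (z⁻¹ * (x * el (r j) * x⁻¹) * z)⁻¹ := by group
    rw [e1]
    constructor
    · intro h
      have := h3 _ h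
      rwa [inv_inv] at this
    · exact h3 _

/-- the inverse line -/
theorem inv_line {l : ℕ} [NeZero l] {w w' : Word m l} (hw : CycRed w) (hw' : CycRed w')
    (he : el w' = (el w)⁻¹) (h : ∀ t : ℤ, ∃ t' : ℤ, line w t = line w' t') (t : ℤ) :
    line w t = line w' (-t) := by
  obtain ⟨t', ht'⟩ := h t
  have h1 := norm_line hw t
  rw [ht', norm_line hw'] at h1
  have h2 : line w l = line w' (-l) := by
    have e1 := conj_line_one w 1 0
    have e2 := conj_line w' 1 0 (-1)
    rw [line_zero] at e1 e2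
    simp only [one_mul, inv_one, mul_one, zero_add, zpow_neg, zpow_one, neg_mul] at e1 e2
    rw [← e1, ← e2, he, inv_inv]
  have h3 := td_line hw t l
  rw [ht', h2, td_line hw'] at h3
  have hl : 0 < l := NeZero.pos l
  have : t' = -t := by omega
  rw [ht', this]

end BASE

open BASE in
theorem t_BASE : M_BASE := by
  intro hRF hB3 hCD hOL R
  obtain ⟨Cb, hB3⟩ := hB3 R
  obtain ⟨C1', Cc, hCD⟩ := hCD R
  obtain ⟨C7, hOL⟩ := hOL R 0
  refine ⟨10 * C1' + 10 * C7 ^ 2 + 10, Cb + Cc, ?_⟩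
  intro m l n P _ r Y _ π D β β' θ θ' hNS ρ hfix g hg u hu
  have hr := hNS.sc.cyc
  have hs : g * u * g⁻¹ ∈ RR r := R1_conj hu g
  set s := g * u * g⁻¹ with hsdef
  have hθs : θ s ∈ RR r := hB3 m l n P r Y π D β β' θ θ' (hNS.mono (by omega)) s hs
  obtain ⟨X, i, hX, hXa⟩ := axis hRF hr hs
  obtain ⟨X', j, hX', hXa'⟩ := axis hRF hr hθs
  have hg0 : g⁻¹ * s * g ∈ R1 r := by
    have : g⁻¹ * s * g = u := by rw [hsdef]; group
    rw [this]; exact hu
  obtain ⟨t0, ht0⟩ := (hXa g).1 hg0
  -- norms of the points of the axis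
  have hnorm : ∀ t : ℤ, (X * line (r i) (t0 + t)).norm ≤ g.norm + t.natAbs := by
    intro t
    rw [← td_one, ← td_one g]
    refine le_trans (td_tri 1 g _) ?_
    rw [ht0, td_xline (hr i)]
    apply Nat.add_le_add_left
    apply le_of_eq
    congr 1
    ring
  have hβ : ∀ (t : ℤ) (y : Y), g.norm + t.natAbs ≤ ρ → π y = X * line (r i) (t0 + t) →
      β y = y := by
    intro t y h1 h2
    apply hfix
    rw [h2]
    exact le_trans (hnorm t) h1
  -- points of the second axis near the first axis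
  have hnear : ∀ t : ℤ, g.norm + t.natAbs ≤ ρ →
      ∃ t' : ℤ, td (X * line (r i) (t0 + t)) (X' * line (r j) t') ≤ C1' := by
    intro t ht
    obtain ⟨y, hy⟩ := hNS.qt.surj (X * line (r i) (t0 + t))
    obtain ⟨z, hz, hz'⟩ := hCD m l n P r Y π D β β' θ θ' (hNS.mono (by omega)) s hs y
      (by rw [hy]; exact (hXa _).2 ⟨_, rfl⟩)
    obtain ⟨t', rfl⟩ := (hXa' z).1 hz
    rw [hβ t y ht hy, hy] at hz'
    exact ⟨t', hz'⟩
  obtain ⟨ta, hta⟩ := hnear (-(C1' + 1 : ℕ)) (by omega)
  obtain ⟨tb, htb⟩ := hnear (P + C1' + 1 : ℕ) (by omega)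
  have hon : ∀ t : ℤ, 0 ≤ t → t ≤ P → ∃ t' : ℤ, X * line (r i) (t0 + t) = X' * line (r j) t' := by
    intro t h1 h2
    have h3 := bt_xline (hr i) X (s := t0 + (-(C1' + 1 : ℕ))) (t := t0 + t)
      (u := t0 + (P + C1' + 1 : ℕ)) (by omega) (by omega)
    apply on_line (hr j) X' (s := ta) (t := tb)
    apply between h3 hta htb
    · rw [td_xline (hr i)]
      omega
    · rw [td_xline (hr i)]
      omega
  obtain ⟨τ, hτ⟩ := hon 0 le_rfl (by omega)
  obtain ⟨τ', hτ'⟩ := hon P (by omega) le_rfl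
  rw [add_zero] at hτ
  have hP : (τ' - τ).natAbs = P := by
    rw [← td_xline (hr j) X' τ τ', ← hτ, ← hτ', td_xline (hr i)]
    omega
  obtain ⟨hov, -⟩ := cAXOV m l n P r hr hNS.sc.sc hNS.sc.pos
  have hij : i = j ∧ ∃ k : ℤ, τ = t0 + k * l ∧
      ∀ u : ℤ, X * line (r i) u = X' * line (r j) (u + k * l) := by
    rcases le_total τ τ' with h1 | h1
    · have h2 : τ' = τ + P := by omega
      subst h2
      exact (hov X X' i j t0 τ).1 hτ hτ'
    · exfalso
      have h2 : τ = τ' + P := by omega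
      subst h2
      exact (hov X X' i j t0 τ').2 ⟨hτ, hτ'⟩
  obtain ⟨rfl, k, -, hk⟩ := hij
  have hXX : X * el (r i) * X⁻¹ = X' * el (r i) * X'⁻¹ := by
    have h1 := hk 0
    have h2 := LINE.line_add (r i) 0 k
    rw [line_zero, mul_one] at h2
    rw [h2, line_zero, mul_one] at h1
    rw [h1]
    group
  -- the two cases
  have hs0 : X * el (r i) * X⁻¹ ∈ KN r := by
    rcases hX with h | h
    · rw [← h]; exact RR_mem hs
    · have := Subgroup.inv_mem _ (RR_mem hs)
      rw [h, inv_inv] at this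
      exact this
  have hfin : θ s = s := by
    by_contra hne
    have hneg : θ (X * el (r i) * X⁻¹) = (X * el (r i) * X⁻¹)⁻¹ := by
      rcases hX with h | h <;> rcases hX' with h' | h'
      · exact absurd (by rw [h', ← hXX, ← h]) hne
      · rw [← h, h', ← hXX]
        rw [← h]
      · have h2 := hNS.na.inv hNS.qt hs0
        rw [← h, h', ← hXX] at h2
        rw [← inv_inv (θ (X * el (r i) * X⁻¹)), ← h2]
      · exact absurd (by rw [h', ← hXX, ← h]) hne
    obtain ⟨h1, -, h3, -, -, -, h7⟩ := hRF m l n r hr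
    have hel : el (r i) ∈ R1 r := ⟨⟨1, i, Or.inl (by simp)⟩, el_norm (hr i)⟩
    obtain ⟨w', hw', hw'e, -⟩ := h1 _ (h3 _ hel)
    have hline : ∀ t : ℤ, line (r i) t = line w' (-t) := by
      apply inv_line (hr i) hw' hw'e
      intro t
      have h4 := (h7 1 (line (r i) t) (r i) (hr i) hel).2 ⟨t, by simp⟩
      have h5 := h3 _ h4
      have h6 : ((line (r i) t)⁻¹ * (1 * el (r i) * 1⁻¹) * line (r i) t)⁻¹ =
          (line (r i) t)⁻¹ * (1 * el w' * 1⁻¹) * line (r i) t := by
        rw [hw'e]; group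
      rw [h6] at h5
      obtain ⟨t', ht'⟩ := (h7 1 (line (r i) t) w' hw' (by rw [hw'e]; exact h3 _ hel)).1 h5
      exact ⟨t', by simpa using ht'⟩
    obtain ⟨y, hy⟩ := hNS.qt.surj (X * line (r i) t0)
    obtain ⟨y', hy'⟩ := hNS.qt.surj (X * line (r i) (t0 + (C7 ^ 2 + 1 : ℕ)))
    have hby : β y = y := hβ 0 y (by omega) (by rw [add_zero]; exact hy)
    have hby' : β y' = y' := hβ ((C7 ^ 2 + 1 : ℕ) : ℤ) y' (by omega) hy'
    have h8 := hOL m l (KN r) Y π D β β' θ θ' hNS.qt hNS.na X X (r i) w' (hr i) hw' hs0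
      (by rw [hneg, hw'e]; group) t0 (-t0) (-(t0 + (C7 ^ 2 + 1 : ℕ))) (C7 ^ 2 + 1) y y' hy hy'
      (by rw [hby, hy, hline t0, td_self])
      (by rw [hby', hy', hline, td_self])
    have h9 : -(t0 + ((C7 ^ 2 + 1 : ℕ) : ℤ)) - -t0 + C7 = (C7 : ℤ) - C7 ^ 2 - 1 := by
      push_cast; ring
    rw [h9] at h8
    push_cast at h8
    nlinarith [sq_nonneg ((C7 : ℤ)), sq_nonneg ((C7 : ℤ) - 1), mul_nonneg (Nat.cast_nonneg C7 : (0 : ℤ) ≤ (C7 : ℤ)) (sq_nonneg ((C7 : ℤ) - 1)), (Nat.cast_nonneg C7 : (0 : ℤ) ≤ (C7 : ℤ))]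
  have hth : th θ g u = u := by
    unfold th
    rw [← hsdef, hfin, hsdef]
    group
  rw [hth]
  exact ⟨hu, rfl⟩

end RBG
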