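import Pool.Agent.RBG.Base

/-!
# BLK: the two blocks
-/

set_option autoImplicit false

namespace RBG

open RGD Pool.Agent.Olsh

namespace BLK

variable {m : ℕ}

theorem linv_ne (a : Ltr m) : a ≠ linv a := by
  obtain ⟨i, x⟩ := a
  intro h
  have h1 := congrArg Prod.snd h
  simp only [linv] at h1
  cases x <;> simp at h1

theorem linv_fst (a : Ltr m) : (linv a).1 = a.1 := rfl

theorem linv_linv (a : Ltr m) : linv (linv a) = a := by
  obtain ⟨i, x⟩ := a
  simp [linv]

theorem red_replicate (n : ℕ) (h : Ltr m) : RedL (List.replicate n h) := by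
  induction n with
  | zero => exact List.isChain_nil
  | succ n ih =>
    cases n with
    | zero => exact List.isChain_singleton _
    | succ n =>
      rw [List.replicate_succ, List.replicate_succ]
      refine List.isChain_cons_cons.2 ⟨linv_ne h, ?_⟩
      rw [← List.replicate_succ]
      exact ih

theorem runs_of (e : Ltr m) (τ : List (Ltr m)) (n o : ℕ) (h : ∀ j < n, τ[o + j]? = some e) :
    List.replicate n e <:+: τ := by
  have h1 : (τ.drop o).take n = List.replicate n e := by
    apply List.ext_getElem?
    intro i
    rw [List.getElem?_take, List.getElem?_drop, List.getElem?_replicate]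
    split_ifs with hi
    · exact h i hi
    · rfl
  rw [← h1]
  exact ⟨τ.take o, (τ.drop o).drop n, by
    rw [List.append_assoc, List.take_append_drop, List.take_append_drop]⟩

/-- the block -/
def bl (D : ℕ) (h b c0 : Ltr m) (τ c κ : List (Ltr m)) : List (Ltr m) :=
  List.replicate (5 * D + 19) h ++ (List.replicate (2 * D + 8) b ++ c0 :: τ ++ c ++ κ ++
    List.replicate (5 * D + 19) h)

section

variable {D : ℕ} {h b c0 : Ltr m} {τ c κ : List (Ltr m)}

theorem bl_len (hτ : τ.length = 2 * D + 10) (hc : c.length = D) :
    (bl D h b c0 τ c κ).length = 3 * (5 * D + 19) + κ.length := by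
  simp only [bl, List.length_append, List.length_replicate, List.length_cons, hτ, hc]
  ring

theorem f1 (i : ℕ) (hi : i < 5 * D + 19) : (bl D h b c0 τ c κ)[i]? = some h := by
  rw [bl, List.getElem?_append_left (by simpa using hi), List.getElem?_replicate, if_pos hi]

theorem f2 (i : ℕ) (hi : i < 2 * D + 8) :
    (bl D h b c0 τ c κ)[5 * D + 19 + i]? = some b := by
  rw [bl, List.getElem?_append_right (by simp), List.length_replicate, Nat.add_sub_cancel_left,
    List.append_assoc, List.append_assoc, List.append_assoc,
    List.getElem?_append_left (by simpa using hi), List.getElem?_replicate, if_pos hi]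

theorem f3 : (bl D h b c0 τ c κ)[5 * D + 19 + (2 * D + 8)]? = some c0 := by
  rw [bl, List.getElem?_append_right (by simp), List.length_replicate, Nat.add_sub_cancel_left,
    List.append_assoc, List.append_assoc, List.append_assoc,
    List.getElem?_append_right (by simp), List.length_replicate, Nat.sub_self]
  rfl

theorem f4 (j : ℕ) (hj : j < τ.length) :
    (bl D h b c0 τ c κ)[5 * D + 19 + (2 * D + 8 + (1 + j))]? = τ[j]? := by
  rw [bl, List.getElem?_append_right (by simp), List.length_replicate, Nat.add_sub_cancel_left,
    List.append_assoc, List.append_assoc, List.append_assoc,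
    List.getElem?_append_right (by simp), List.length_replicate, Nat.add_sub_cancel_left,
    List.cons_append, Nat.add_comm 1 j, List.getElem?_cons_succ,
    List.getElem?_append_left hj]

theorem f5 (hτ : τ.length = 2 * D + 10) (hc : c.length = D) (i : ℕ)
    (hi : 2 * (5 * D + 19) + κ.length ≤ i) (x : Ltr m)
    (hx : (bl D h b c0 τ c κ)[i]? = some x) : x = h := by
  have h1 : (List.replicate (2 * D + 8) b ++ c0 :: τ ++ c ++ κ).length =
      5 * D + 19 + κ.length := by
    simp only [List.length_append, List.length_replicate, List.length_cons, hτ, hc]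
    ring
  rw [bl, List.getElem?_append_right (by simp; omega), List.length_replicate,
    List.getElem?_append_right (by rw [h1]; omega), List.getElem?_replicate] at hx
  split_ifs at hx
  · exact (Option.some.inj hx).symm

/-- runs -/
theorem run (hτ : τ.length = 2 * D + 10) (hc : c.length = D) (hκ : κ.length ≤ 1) (e : Ltr m)
    (he : e ≠ h) (hec : e ≠ c0) (hinf : ¬ List.replicate (D + 6) e <:+: τ) (s : ℕ)
    (hs : ∀ i < 2 * D + 8, (bl D h b c0 τ c κ)[s + i]? = some e) : s = 5 * D + 19 ∧ e = b := by
  -- `s ≥ k`
  have h1 : 5 * D + 19 ≤ s := by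
    by_contra hcon
    push Not at hcon
    have h2 := hs 0 (by omega)
    rw [add_zero, f1 s hcon] at h2
    exact he (Option.some.inj h2).symm
  have h2 : s + (2 * D + 7) < 2 * (5 * D + 19) + κ.length := by
    by_contra hcon
    push Not at hcon
    exact he (f5 hτ hc _ hcon e (hs (2 * D + 7) (by omega)))
  obtain ⟨u, rfl⟩ := Nat.exists_eq_add_of_le h1
  rcases Nat.lt_or_ge u (2 * D + 9) with h3 | h3
  · -- then `u = 0`
    have h4 : u = 0 := by
      by_contra hu
      have h5 := hs (2 * D + 8 - u) (by omega)
      have h6 : 5 * D + 19 + u + (2 * D + 8 - u) = 5 * D + 19 + (2 * D + 8) := by omega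
      rw [h6, f3] at h5
      exact hec (Option.some.inj h5).symm
    subst h4
    refine ⟨rfl, ?_⟩
    have h5 := hs 0 (by omega)
    have h6 := f2 (h := h) (b := b) (c0 := c0) (τ := τ) (c := c) (κ := κ) (D := D) 0 (by omega)
    rw [add_zero] at h5 h6
    rw [add_zero, h6] at h5
    exact (Option.some.inj h5).symm
  · exfalso
    apply hinf
    apply runs_of e τ (D + 6) (u - (2 * D + 9))
    intro j hj
    have h4 : u - (2 * D + 9) + j < τ.length := by omega
    rw [← f4 (h := h) (b := b) (c0 := c0) (τ := τ) (c := c) (κ := κ) (D := D) _ h4]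
    have h5 : 5 * D + 19 + (2 * D + 8 + (1 + (u - (2 * D + 9) + j))) = 5 * D + 19 + u + j := by
      omega
    rw [h5]
    exact hs j (by omega)

theorem win_get (A : List (Ltr m)) (t k i : ℕ) (hi : i < k) :
    ((A.drop t).take k)[i]? = A[t + i]? := by
  rw [List.getElem?_take, if_pos hi, List.getElem?_drop]

theorem W_get (c' : List (Ltr m)) (i : ℕ) (hi : i < 2 * D + 8) :
    (List.replicate (2 * D + 8) b ++ c0 :: τ ++ c')[i]? = some b := by
  rw [List.append_assoc, List.getElem?_append_left (by simpa using hi), List.getElem?_replicate,
    if_pos hi]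

theorem invw_get (hτ : τ.length = 2 * D + 10) (c' : List (Ltr m)) (hc' : c'.length = D) (i : ℕ)
    (hi : i < 2 * D + 8) :
    (invw (List.replicate (2 * D + 8) b ++ c0 :: τ ++ c'))[3 * D + 11 + i]? = some (linv b) := by
  have h1 : invw (List.replicate (2 * D + 8) b ++ c0 :: τ ++ c') =
      ((c0 :: τ ++ c').map linv).reverse ++ List.replicate (2 * D + 8) (linv b) := by
    rw [invw, List.append_assoc, List.map_append, List.reverse_append, List.map_replicate,
      List.reverse_replicate]
  have h2 : (((c0 :: τ ++ c').map linv).reverse).length = 3 * D + 11 := by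
    rw [List.length_reverse, List.length_map, List.length_append, List.length_cons, hτ, hc']
    ring
  rw [h1, List.getElem?_append_right (by rw [h2]; omega), h2, Nat.add_sub_cancel_left,
    List.getElem?_replicate, if_pos hi]

end

end BLK

open BLK in
theorem t_BLK : S_BLK := by
  classical
  intro m D W U U' hm hMk hU hU' hne
  obtain ⟨b, c0, τ, rfl, hred, hτ, hc0, hinf1, hinf2⟩ := hMk
  -- the difference of the two sets
  obtain ⟨c, hcne⟩ : ∃ c, ¬ (c ∈ U ↔ c ∈ U') := by
    by_contra hcon
    push Not at hcon
    exact hne (Finset.ext hcon)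
  have hc : c.length = D ∧ RedL (List.replicate (2 * D + 8) b ++ c0 :: τ ++ c) := by
    by_cases h1 : c ∈ U
    · exact hU c h1
    · have h2 : c ∈ U' := by
        by_contra h2
        exact hcne ⟨fun h => absurd h h1, fun h => absurd h h2⟩
      exact hU' c h2
  -- the letter `h`
  haveI : Nontrivial (Fin m) := Fin.nontrivial_iff_two_le.2 hm
  obtain ⟨i, hi⟩ := exists_ne b.1
  obtain ⟨h, hh⟩ : ∃ h : Ltr m, h.1 ≠ b.1 := ⟨(i, true), hi⟩
  have hbh : b ≠ h := fun e => hh (congrArg Prod.fst e).symm
  have hlbh : linv b ≠ h := fun e => hh ((congrArg Prod.fst e).symm.trans (linv_fst b))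
  have hblh : b ≠ linv h := fun e => hh (((congrArg Prod.fst e).trans (linv_fst h))).symm
  have hlbc : linv b ≠ c0 := by
    have h1 : RedL (List.replicate (2 * D + 7) b ++ (b :: c0 :: τ)) := by
      have h2 : List.replicate (2 * D + 8) b ++ c0 :: τ =
          List.replicate (2 * D + 7) b ++ (b :: c0 :: τ) := by
        rw [show 2 * D + 8 = (2 * D + 7) + 1 by ring, List.replicate_succ', List.append_assoc]
        rfl
      rw [← h2]
      exact hred
    have h3 := (List.isChain_append.1 h1).2.1
    exact (List.isChain_cons_cons.1 h3).1.symm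
  -- `κ`
  obtain ⟨κ, hκ1, hκ2⟩ : ∃ κ : List (Ltr m), κ.length ≤ 1 ∧
      RedL (List.replicate (2 * D + 8) b ++ c0 :: τ ++ c ++ κ ++
        List.replicate (5 * D + 19) h) := by
    have hhd : ∀ y ∈ (List.replicate (5 * D + 19) h).head?, y = h := by
      intro y hy
      rw [show 5 * D + 19 = (5 * D + 18) + 1 by ring, List.replicate_succ, List.head?_cons,
        Option.mem_some_iff] at hy
      exact hy.symm
    by_cases hl : (List.replicate (2 * D + 8) b ++ c0 :: τ ++ c).getLast? = some (linv h)
    · refine ⟨[b], le_rfl, ?_⟩
      rw [List.append_assoc _ [b]]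
      refine List.isChain_append.2 ⟨hc.2, ?_, ?_⟩
      · refine List.isChain_append.2 ⟨List.isChain_singleton _, red_replicate _ _, ?_⟩
        intro x hx y hy
        rw [hhd y hy]
        have hxb : x = b := by
          rw [List.getLast?_singleton, Option.mem_some_iff] at hx
          exact hx.symm
        rw [hxb]
        exact hlbh.symm
      · intro x hx y hy
        rw [hl, Option.mem_some_iff] at hx
        rw [List.singleton_append, List.head?_cons, Option.mem_some_iff] at hy
        rw [← hx, ← hy, linv_linv]
        exact hbh
    · refine ⟨[], Nat.zero_le _, ?_⟩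
      rw [List.append_nil]
      refine List.isChain_append.2 ⟨hc.2, red_replicate _ _, ?_⟩
      intro x hx y hy
      rw [hhd y hy]
      intro hxy
      apply hl
      rw [Option.mem_def] at hx
      rw [hx, hxy, linv_linv]
  have hlen := bl_len (h := h) (b := b) (c0 := c0) (κ := κ) hτ hc.1
  have K1 : ∀ (t : ℕ) (c' : List (Ltr m)),
      ((bl D h b c0 τ c κ).drop t).take (5 * D + 19) =
        List.replicate (2 * D + 8) b ++ c0 :: τ ++ c' → t = 5 * D + 19 := by
    intro t c' heq
    refine (run (b := b) hτ hc.1 hκ1 b hbh hc0.symm hinf1 t fun i hi => ?_).1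
    rw [← win_get (bl D h b c0 τ c κ) t (5 * D + 19) i (by omega), heq]
    exact W_get c' i hi
  have K2 : ∀ (t : ℕ) (c' : List (Ltr m)), c'.length = D →
      ((bl D h b c0 τ c κ).drop t).take (5 * D + 19) ≠
        invw (List.replicate (2 * D + 8) b ++ c0 :: τ ++ c') := by
    intro t c' hc' heq
    have h1 := (run (b := b) hτ hc.1 hκ1 (linv b) hlbh hlbc hinf2 (t + (3 * D + 11)) fun i hi => ?_).2
    · exact BLK.linv_ne b h1.symm
    · rw [add_assoc, ← win_get (bl D h b c0 τ c κ) t (5 * D + 19) (3 * D + 11 + i) (by omega),
        heq]
      exact invw_get hτ c' hc' i hi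
  have hwk : ((bl D h b c0 τ c κ).drop (5 * D + 19)).take (5 * D + 19) =
      List.replicate (2 * D + 8) b ++ c0 :: τ ++ c := by
    rw [bl, List.drop_append_of_le_length (by simp), List.drop_of_length_le (by simp),
      List.nil_append, List.append_assoc _ κ]
    have h1 : (List.replicate (2 * D + 8) b ++ c0 :: τ ++ c).length = 5 * D + 19 := by
      simp only [List.length_append, List.length_replicate, List.length_cons, hτ, hc.1]
      ring
    rw [← h1, List.take_left]
  refine ⟨bl D h b c0 τ c κ, List.replicate (3 * (5 * D + 19) + κ.length) h, ?_, ?_, ?_, ?_, ?_, ?_,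
    ?_⟩
  · rw [hlen, List.length_replicate]
  · rw [hlen]
    omega
  · refine List.isChain_append.2 ⟨red_replicate _ _, hκ2, ?_⟩
    intro x hx y hy
    have hxh : x = h := by
      have := List.mem_of_getLast? hx
      exact List.eq_of_mem_replicate this
    have hyb : y = b := by
      rw [show 2 * D + 8 = (2 * D + 7) + 1 by ring, List.replicate_succ] at hy
      simp only [List.cons_append, List.head?_cons, Option.mem_some_iff] at hy
      exact hy.symm
    rw [hxh, hyb]
    exact hblh
  · exact red_replicate _ _
  · rw [bl, List.take_append_of_le_length (by simp), List.take_replicate, List.take_replicate]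
    congr 1
    simp
    omega
  · rw [hlen, List.length_replicate, List.drop_replicate, bl]
    have h1 : (List.replicate (5 * D + 19) h ++ (List.replicate (2 * D + 8) b ++ c0 :: τ ++ c ++
        κ ++ List.replicate (5 * D + 19) h)) = (List.replicate (5 * D + 19) h ++
        (List.replicate (2 * D + 8) b ++ c0 :: τ ++ c ++ κ)) ++
        List.replicate (5 * D + 19) h := by
      simp only [List.append_assoc]
    have h2 : (List.replicate (5 * D + 19) h ++
        (List.replicate (2 * D + 8) b ++ c0 :: τ ++ c ++ κ)).length =
        3 * (5 * D + 19) + κ.length - (5 * D + 19) := by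
      simp only [List.length_append, List.length_replicate, List.length_cons, hτ, hc.1]
      omega
    rw [h1, ← h2, List.drop_left, h2]
    congr 1
    omega
  · -- the sums
    have hA' : lsum (fev (List.replicate (2 * D + 8) b ++ c0 :: τ) U U') (5 * D + 19)
        (List.replicate (3 * (5 * D + 19) + κ.length) h) = 0 := by
      rw [lsum]
      refine Finset.sum_eq_zero fun t ht => ?_
      rw [Finset.mem_range, List.length_replicate] at ht
      have hw : ((List.replicate (3 * (5 * D + 19) + κ.length) h).drop t).take (5 * D + 19) =
          List.replicate (5 * D + 19) h := by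
        rw [List.drop_replicate, List.take_replicate]
        congr 1
        omega
      rw [hw, fev, Finset.sum_eq_zero, Finset.sum_eq_zero, sub_zero]
      all_goals
        intro c' hc'
        have hc'D : c'.length = D := by
          first
            | exact (hU c' hc').1
            | exact (hU' c' hc').1
        rw [if_neg, if_neg, add_zero]
        · intro heq
          have h1 := congrArg (fun L : List (Ltr m) => L[3 * D + 11 + 0]?) heq
          rw [invw_get hτ c' hc'D 0 (by omega), List.getElem?_replicate, if_pos (by omega)] at h1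
          exact hlbh (Option.some.inj h1).symm
        · intro heq
          have h1 := congrArg (fun L : List (Ltr m) => L[0]?) heq
          rw [W_get c' 0 (by omega), List.getElem?_replicate, if_pos (by omega)] at h1
          exact hbh (Option.some.inj h1).symm
    have hA : lsum (fev (List.replicate (2 * D + 8) b ++ c0 :: τ) U U') (5 * D + 19)
        (bl D h b c0 τ c κ) = (if c ∈ U then 1 else 0) - (if c ∈ U' then 1 else 0) := by
      rw [lsum, Finset.sum_eq_single (5 * D + 19)]
      · rw [hwk, fev]
        have h1 : ∀ V : Finset (List (Ltr m)), (∀ c' ∈ V, c'.length = D) →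
            (∑ c' ∈ V, ((if List.replicate (2 * D + 8) b ++ c0 :: τ ++ c =
              List.replicate (2 * D + 8) b ++ c0 :: τ ++ c' then (1 : ℤ) else 0) +
              if List.replicate (2 * D + 8) b ++ c0 :: τ ++ c =
                invw (List.replicate (2 * D + 8) b ++ c0 :: τ ++ c') then 1 else 0)) =
            if c ∈ V then 1 else 0 := by
          intro V hV
          have h2 : ∀ c' ∈ V, ((if List.replicate (2 * D + 8) b ++ c0 :: τ ++ c =
              List.replicate (2 * D + 8) b ++ c0 :: τ ++ c' then (1 : ℤ) else 0) +
              if List.replicate (2 * D + 8) b ++ c0 :: τ ++ c =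
                invw (List.replicate (2 * D + 8) b ++ c0 :: τ ++ c') then 1 else 0) =
              if c = c' then 1 else 0 := by
            intro c' hc'
            have h3 : List.replicate (2 * D + 8) b ++ c0 :: τ ++ c ≠
                invw (List.replicate (2 * D + 8) b ++ c0 :: τ ++ c') := by
              rw [← hwk]
              exact K2 _ c' (hV c' hc')
            rw [if_neg h3, add_zero]
            by_cases h4 : c = c'
            · rw [if_pos h4, if_pos (by rw [h4])]
            · rw [if_neg h4, if_neg fun h5 => h4 (List.append_cancel_left h5)]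
          rw [Finset.sum_congr rfl h2, Finset.sum_ite_eq]
        rw [h1 U fun c' hc' => (hU c' hc').1, h1 U' fun c' hc' => (hU' c' hc').1]
      · intro t _ htk
        rw [fev, Finset.sum_eq_zero, Finset.sum_eq_zero, sub_zero]
        all_goals
          intro c' hc'
          have hc'D : c'.length = D := by
            first
              | exact (hU c' hc').1
              | exact (hU' c' hc').1
          rw [if_neg (K2 t c' hc'D), if_neg fun h1 => htk (K1 t c' h1), add_zero]
      · intro hnot
        exfalso
        apply hnot
        rw [Finset.mem_range, hlen]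
        omega
    rw [hA, hA']
    by_cases h1 : c ∈ U
    · have h2 : c ∉ U' := fun h2 => hcne ⟨fun _ => h2, fun _ => h1⟩
      rw [if_pos h1, if_neg h2]
      norm_num
    · have h2 : c ∈ U' := by
        by_contra h2
        exact hcne ⟨fun h => absurd h h1, fun h => absurd h h2⟩
      rw [if_neg h1, if_pos h2]
      norm_num

end RBG
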