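import Pool.Agent.RBG.Stmts
import Pool.Agent.RGD.TREE
import Pool.Agent.RGD.LINE
import Pool.Agent.RGD.AXOV

/-!
# MP_0a3593_al, bounded geometry: common lemmas

In modules write `open RGD` but not `open Pool.Agent.Olsh` (it also contains a `td`); use
`open Pool.Agent.Olsh (IsGM Hyp Bt)` if needed.
-/

set_option autoImplicit false

namespace RBG

open RGD
open Pool.Agent.Olsh (IsGM Hyp Bt cpl cpl_nil_left cpl_nil_right)

theorem cTREE : S_TREE := t_TREE
theorem cLINE : S_LINE := t_LINE
theorem cAXOV : S_AXOV := t_AXOV cTREE cLINE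

theorem SCl.mono {m l n : ℕ} [NeZero l] {C C' P : ℕ} {r : Fin n → Word m l} (h : SCl C P r)
    (hC : C' ≤ C) : SCl C' P r :=
  ⟨h.cyc, h.sc, h.pos, le_trans (Nat.mul_le_mul_right _ hC) h.big⟩

theorem NAut.symm {m : ℕ} {K : Subgroup (FG m)} {Y : Type} [MulAction (FG m) Y]
    {D : Y → Y → ℕ} {β β' : Y → Y} {θ θ' : FG m → FG m} (h : NAut K D β β' θ θ') :
    NAut K D β' β θ' θ where
  inv1 := h.inv2
  inv2 := h.inv1
  isom x y := by
    rw [← h.isom (β' x) (β' y), h.inv2, h.inv2]
  mem := h.mem'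
  mem' := h.mem
  eqv := h.eqv'
  eqv' := h.eqv

theorem NS.mono {m l n : ℕ} [NeZero l] {R C C' P : ℕ} {r : Fin n → Word m l} {Y : Type}
    [MulAction (FG m) Y] {π : Y → FG m} {D : Y → Y → ℕ} {β β' : Y → Y} {θ θ' : FG m → FG m}
    (h : NS R C P r π D β β' θ θ') (hC : C' ≤ C) : NS R C' P r π D β β' θ θ' :=
  ⟨h.sc.mono hC, h.qt, h.na⟩

theorem NS.symm {m l n : ℕ} [NeZero l] {R C P : ℕ} {r : Fin n → Word m l} {Y : Type}
    [MulAction (FG m) Y] {π : Y → FG m} {D : Y → Y → ℕ} {β β' : Y → Y} {θ θ' : FG m → FG m}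
    (h : NS R C P r π D β β' θ θ') : NS R C P r π D β' β θ' θ :=
  ⟨h.sc, h.qt, h.na.symm⟩

variable {m : ℕ}

/-! ### The tree -/

theorem gm : IsGM (td (m := m)) := (cTREE m).1

theorem hyp0 : Hyp (td (m := m)) 0 := (cTREE m).2.1

theorem td_left (g x y : FG m) : td (g * x) (g * y) = td x y := (cTREE m).2.2.1 g x y

theorem td_self (x : FG m) : td x x = 0 := gm.self x

theorem td_tri (x y z : FG m) : td x z ≤ td x y + td y z := gm.tri x y z

theorem td_eq_zero {x y : FG m} : td x y = 0 ↔ x = y :=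
  ⟨fun h => gm.eq_of_zero h, fun h => by rw [h, td_self]⟩

theorem td_one (g : FG m) : td 1 g = g.norm := by simp [td]

theorem td_inv_mul (x y : FG m) : (x⁻¹ * y).norm = td x y := rfl

/-- displacement and the norm of the conjugate -/
theorem td_conj (k g : FG m) : (g⁻¹ * k * g).norm = td g (k * g) := by
  rw [mul_assoc]; rfl

/-- a point on a geodesic of the tree separates its ends -/
theorem bt_or {x q z : FG m} (h : td x q + td q z = td x z) (y : FG m) :
    td x q + td q y = td x y ∨ td y q + td q z = td y z := by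
  have h1 := hyp0 q x y z
  have c1 := td_comm' q x
  have c2 := td_comm' q y
  have t1 := td_tri x q y
  have t2 := td_tri y q z
  rcases h1 with h1 | h1
  · right; omega
  · left; omega

/-- points of a geodesic are determined by the distance to its first point -/
theorem bt_unique {p q u v : FG m} (hu : td p u + td u q = td p q)
    (hv : td p v + td v q = td p q) (h : td p u = td p v) : u = v := by
  have c1 := td_comm' u q
  have c2 := td_comm' v q
  have := hyp0 p u q v
  apply td_eq_zero.1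
  omega

/-! ### Words -/

theorem redL_iff (L : List (Ltr m)) : RedL L ↔ FreeGroup.IsReduced L := by
  unfold RedL FreeGroup.IsReduced
  have : (fun a b : Ltr m => b ≠ linv a) = fun a b : Ltr m => a.1 = b.1 → a.2 = b.2 := by
    funext a b
    apply propext
    obtain ⟨a1, a2⟩ := a
    obtain ⟨b1, b2⟩ := b
    simp only [linv, ne_eq, Prod.mk.injEq]
    constructor
    · intro h h1
      by_contra h2
      apply h
      refine ⟨h1.symm, ?_⟩
      revert h2
      cases a2 <;> cases b2 <;> simp
    · rintro h ⟨h1, h2⟩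
      have h3 := h h1.symm
      rw [h3] at h2
      revert h2
      cases b2 <;> simp
  rw [this]

theorem redL_toWord (g : FG m) : RedL g.toWord := (redL_iff _).2 FreeGroup.isReduced_toWord

theorem toWord_mk {L : List (Ltr m)} (h : RedL L) : (FreeGroup.mk L).toWord = L := by
  rw [FreeGroup.toWord_mk]
  exact ((redL_iff _).1 h).reduce_eq

theorem norm_mk {L : List (Ltr m)} (h : RedL L) : (FreeGroup.mk L).norm = L.length := by
  unfold FreeGroup.norm
  rw [toWord_mk h]

theorem norm_mk_le (L : List (Ltr m)) : (FreeGroup.mk L).norm ≤ L.length :=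
  FreeGroup.norm_mk_le

theorem RedL.left {L L' : List (Ltr m)} (h : RedL (L ++ L')) : RedL L :=
  (List.isChain_append.1 h).1

theorem RedL.right {L L' : List (Ltr m)} (h : RedL (L ++ L')) : RedL L' :=
  (List.isChain_append.1 h).2.1

theorem RedL.take {L : List (Ltr m)} (h : RedL L) (k : ℕ) : RedL (L.take k) := by
  rw [← List.take_append_drop k L] at h
  exact RedL.left h

theorem RedL.drop {L : List (Ltr m)} (h : RedL L) (k : ℕ) : RedL (L.drop k) := by
  rw [← List.take_append_drop k L] at h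
  exact RedL.right h

theorem mk_append (L L' : List (Ltr m)) :
    (FreeGroup.mk (L ++ L') : FG m) = FreeGroup.mk L * FreeGroup.mk L' :=
  FreeGroup.mul_mk.symm

theorem mk_cons (a : Ltr m) (L : List (Ltr m)) :
    (FreeGroup.mk (a :: L) : FG m) = FreeGroup.mk [a] * FreeGroup.mk L :=
  mk_append [a] L

theorem mk_toWord (g : FG m) : FreeGroup.mk g.toWord = g := FreeGroup.mk_toWord

theorem linv_linv (a : Ltr m) : linv (linv a) = a := by
  obtain ⟨i, b⟩ := a
  simp [linv]

theorem linv_ne (a : Ltr m) : linv a ≠ a := by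
  obtain ⟨i, b⟩ := a
  simp [linv]

theorem invw_eq (L : List (Ltr m)) : invw L = FreeGroup.invRev L := rfl

theorem invw_invw (L : List (Ltr m)) : invw (invw L) = L := by
  rw [invw_eq, invw_eq, FreeGroup.invRev_invRev]

theorem length_invw (L : List (Ltr m)) : (invw L).length = L.length := by simp [invw]

theorem mk_invw (L : List (Ltr m)) : FreeGroup.mk (invw L) = (FreeGroup.mk L)⁻¹ := by
  rw [invw_eq, FreeGroup.inv_mk]

theorem toWord_inv (g : FG m) : g⁻¹.toWord = invw g.toWord := FreeGroup.toWord_inv g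

theorem invw_append (L L' : List (Ltr m)) : invw (L ++ L') = invw L' ++ invw L := by
  simp [invw]

theorem redL_invw {L : List (Ltr m)} (h : RedL L) : RedL (invw L) := by
  have := redL_toWord (FreeGroup.mk L)⁻¹
  rw [toWord_inv, toWord_mk h] at this
  exact this

theorem head?_inv (g : FG m) : g⁻¹.toWord.head? = g.toWord.getLast?.map linv := by
  rw [toWord_inv, invw, List.head?_reverse, List.getLast?_map]

theorem getLast?_inv (g : FG m) : g⁻¹.toWord.getLast? = g.toWord.head?.map linv := by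
  rw [toWord_inv, invw, List.getLast?_reverse, List.head?_map]

theorem cpl_zero {a b : List (Ltr m)} (h : a.head? ≠ b.head?) : cpl a b = 0 := by
  cases a with
  | nil => exact cpl_nil_left _
  | cons x a =>
    cases b with
    | nil => exact cpl_nil_right _
    | cons y b =>
      simp only [List.head?_cons, ne_eq, Option.some.injEq] at h
      simp [cpl, h]

/-- different first letters: no cancellation -/
theorem td_of_head_ne {a b : FG m} (h : a.toWord.head? ≠ b.toWord.head?) :
    td a b = a.norm + b.norm := by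
  have h1 := TREE.td_eq a b
  rw [cpl_zero h] at h1
  omega

/-- close elements have the same first letter -/
theorem head_eq_of_td {a b : FG m} (h : td a b < a.norm) : a.toWord.head? = b.toWord.head? := by
  by_contra h1
  have := td_of_head_ne h1
  omega

/-! ### Lines -/

section Lines

variable {l : ℕ} [NeZero l]

theorem line_zero (w : Word m l) : line w 0 = 1 := LINE.line_zero w

theorem td_line {w : Word m l} (h : CycRed w) (s t : ℤ) :
    td (line w s) (line w t) = (t - s).natAbs := LINE.td_line w h s t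

theorem td_xline {w : Word m l} (h : CycRed w) (x : FG m) (s t : ℤ) :
    td (x * line w s) (x * line w t) = (t - s).natAbs := by
  rw [td_left, td_line h]

theorem norm_line {w : Word m l} (h : CycRed w) (t : ℤ) : (line w t).norm = t.natAbs := by
  rw [← td_one, ← line_zero w, td_line h]
  simp

theorem bt_xline {w : Word m l} (h : CycRed w) (x : FG m) {s t u : ℤ} (h1 : s ≤ t) (h2 : t ≤ u) :
    td (x * line w s) (x * line w t) + td (x * line w t) (x * line w u) =
      td (x * line w s) (x * line w u) := by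
  rw [td_xline h, td_xline h, td_xline h]
  omega

/-- translation along the axis -/
theorem conj_line (w : Word m l) (x : FG m) (t k : ℤ) :
    (x * el w * x⁻¹) ^ k * (x * line w t) = x * line w (t + k * l) := by
  rw [LINE.line_add w t k, conj_zpow]
  group

theorem conj_line_one (w : Word m l) (x : FG m) (t : ℤ) :
    (x * el w * x⁻¹) * (x * line w t) = x * line w (t + l) := by
  have := conj_line w x t 1
  simpa using this

theorem line_take (w : Word m l) {k : ℕ} (hk : k ≤ l) :
    line w k = FreeGroup.mk ((List.ofFn w).take k) := by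
  have h1 := LINE.seg_mk w 0 k
  rw [line_zero, inv_one, one_mul, zero_add] at h1
  rw [h1]
  congr 1
  apply List.ext_getElem
  · simp [hk]
  · intro i h2 h3
    simp only [List.length_map, List.length_range] at h2
    have h4 := LINE.perZ_nat w i
    simp only [List.getElem_map, List.getElem_range, zero_add, List.getElem_take,
      List.getElem_ofFn]
    rw [h4, per]
    congr 1
    apply Fin.ext
    simp [Fin.ofNat, Nat.mod_eq_of_lt (lt_of_lt_of_le h2 hk)]

theorem el_norm {w : Word m l} (h : CycRed w) : (el w).norm = l := by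
  have h1 := conj_line_one w 1 0
  rw [line_zero] at h1
  have h2 : el w = line w l := by simpa using h1
  rw [h2, norm_line h]
  simp

theorem el_toWord {w : Word m l} (h : CycRed w) : (el w).toWord = List.ofFn w := by
  have h1 := FreeGroup.toWord_mk (L₁ := List.ofFn w)
  have h2 : FreeGroup.Red (List.ofFn w) (FreeGroup.reduce (List.ofFn w)) := FreeGroup.reduce.red
  have h3 := h2.sublist
  have h4 := el_norm h
  unfold el at h4 ⊢
  unfold FreeGroup.norm at h4
  rw [h1] at h4 ⊢
  exact h3.eq_of_length (by rw [h4]; simp)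

theorem redL_ofFn {w : Word m l} (h : CycRed w) : RedL (List.ofFn w) := by
  rw [← el_toWord h]
  exact redL_toWord _

/-- first letter of the positive half line -/
theorem head_line_pos {w : Word m l} (h : CycRed w) {t : ℤ} (ht : 0 < t) :
    (line w t).toWord.head? = some (per w 0) := by
  obtain ⟨k, rfl⟩ := Int.le.dest ht.le
  have h1 := LINE.seg_word w h 0 k
  rw [line_zero, inv_one, one_mul] at h1
  rw [h1]
  obtain ⟨j, rfl⟩ : ∃ j, k = j + 1 := ⟨k - 1, by omega⟩
  rw [List.range_succ_eq_map]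
  have := LINE.perZ_nat w 0
  simpa using this

/-- first letter of the negative half line -/
theorem head_line_neg {w : Word m l} (h : CycRed w) {t : ℤ} (ht : t < 0) :
    (line w t).toWord.head? = some (linv (per w (l - 1))) := by
  obtain ⟨k, hk⟩ := Int.le.dest ht.le
  have h1 := LINE.seg_word w h t k
  rw [hk, line_zero, mul_one] at h1
  have h2 : (line w t).toWord = invw ((line w t)⁻¹).toWord := by
    rw [← toWord_inv, inv_inv]
  rw [h2, h1, invw, List.head?_reverse, List.getLast?_map]
  obtain ⟨j, rfl⟩ : ∃ j, k = j + 1 := ⟨k - 1, by omega⟩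
  rw [List.range_succ]
  simp only [List.map_append, List.map_cons, List.map_nil, List.getLast?_append,
    List.getLast?_singleton, Option.some_or, Option.map_some, Option.some.injEq]
  congr 1
  have h3 : t + (j : ℤ) = -1 := by push_cast at hk; omega
  rw [h3]
  unfold perZ
  congr 1
  have hl := NeZero.pos l
  have h4 : (-1 : ℤ) % l = l - 1 := by
    rw [← Int.add_emod_right, Int.emod_eq_of_lt] <;> omega
  rw [h4]
  omega

end Lines

/-! ### The quasi-tree -/

section QTs

variable {Y : Type} [MulAction (FG m) Y] {R : ℕ} {π : Y → FG m} {D : Y → Y → ℕ}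

theorem QT.fib (h : QT R π D) {x y : Y} (e : π x = π y) : D x y ≤ R := by
  have := h.up x y
  rw [e, td_self] at this
  omega

theorem QT.free (h : QT R π D) {f f' : FG m} {y : Y} (e : f • y = f' • y) : f = f' := by
  have := congrArg π e
  rw [h.pi, h.pi] at this
  exact mul_right_cancel this

theorem QT.L_mul (h : QT R π D) (o : Y) (g g' : FG m) :
    D o ((g * g') • o) ≤ D o (g • o) + D o (g' • o) := by
  have h1 := h.tri o (g • o) ((g * g') • o)
  rw [mul_smul, h.isom] at h1
  rw [mul_smul]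
  exact h1

theorem QT.L_inv (h : QT R π D) (o : Y) (g : FG m) : D o (g⁻¹ • o) = D o (g • o) := by
  rw [← h.isom g, smul_inv_smul, h.comm]

theorem QT.L_low (h : QT R π D) {o : Y} (ho : π o = 1) (g : FG m) :
    g.norm ≤ R * D o (g • o) := by
  have := h.low o (g • o)
  rw [h.pi, ho, mul_one, td_one] at this
  exact this

theorem QT.L_up (h : QT R π D) {o : Y} (ho : π o = 1) (g : FG m) :
    D o (g • o) ≤ R * (g.norm + 1) := by
  have := h.up o (g • o)
  rw [h.pi, ho, mul_one, td_one] at this
  exact this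

theorem QT.L_add (h : QT R π D) {o : Y} (ho : π o = 1) {a b : List (Ltr m)}
    (hab : RedL (a ++ b)) :
    D o ((FreeGroup.mk a : FG m) • o) + D o ((FreeGroup.mk b : FG m) • o) ≤
      D o ((FreeGroup.mk (a ++ b) : FG m) • o) + kc R := by
  have h1 := h.add o ((FreeGroup.mk a : FG m) • o) ((FreeGroup.mk (a ++ b) : FG m) • o)
  rw [h.pi, h.pi, ho, mul_one, mul_one, td_one, td_one, mk_append] at h1
  have h2 : td (FreeGroup.mk a : FG m) (FreeGroup.mk a * FreeGroup.mk b) =
      (FreeGroup.mk b : FG m).norm := by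
    rw [← td_one, ← td_left (FreeGroup.mk a) 1 (FreeGroup.mk b), mul_one]
  rw [h2, ← mk_append, norm_mk hab, norm_mk (RedL.left hab), norm_mk (RedL.right hab), List.length_append] at h1
  have h3 := h1 rfl
  rw [mk_append, mul_smul, h.isom] at h3
  rw [mk_append, mul_smul]
  exact h3

theorem tau_le (D : Y → Y → ℕ) (k : FG m) (y : Y) : tau D k ≤ D y (k • y) :=
  Nat.sInf_le ⟨y, rfl⟩

theorem QT.exists_tau (h : QT R π D) (k : FG m) : ∃ y : Y, D y (k • y) = tau D k := by
  obtain ⟨y, _⟩ := h.surj 1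
  have : ({d | ∃ y : Y, D y (k • y) = d} : Set ℕ).Nonempty := ⟨_, y, rfl⟩
  exact Nat.sInf_mem this

theorem QT.tau_conj (h : QT R π D) (f k : FG m) : tau D (f * k * f⁻¹) = tau D k := by
  have key : ∀ f k : FG m, tau D (f * k * f⁻¹) ≤ tau D k := by
    intro f k
    obtain ⟨y, hy⟩ := h.exists_tau k
    have h1 := tau_le D (f * k * f⁻¹) (f • y)
    rw [mul_smul, inv_smul_smul, mul_smul, h.isom, hy] at h1
    exact h1
  apply le_antisymm (key f k)
  have := key f⁻¹ (f * k * f⁻¹)
  have e : f⁻¹ * (f * k * f⁻¹) * f⁻¹⁻¹ = k := by group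
  rwa [e] at this

theorem QT.tau_inv (h : QT R π D) (k : FG m) : tau D k⁻¹ = tau D k := by
  have key : ∀ k : FG m, tau D k⁻¹ ≤ tau D k := by
    intro k
    obtain ⟨y, hy⟩ := h.exists_tau k
    have h1 := tau_le D k⁻¹ y
    rw [h.L_inv, hy] at h1
    exact h1
  apply le_antisymm (key k)
  have := key k⁻¹
  rwa [inv_inv] at this

end QTs

section NAuts

variable {Y : Type} [MulAction (FG m) Y] {R : ℕ} {π : Y → FG m} {D : Y → Y → ℕ}
  {K : Subgroup (FG m)} {β β' : Y → Y} {θ θ' : FG m → FG m}

theorem NAut.mul (hN : NAut K D β β' θ θ') (h : QT R π D) {k k' : FG m} (hk : k ∈ K)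
    (hk' : k' ∈ K) : θ (k * k') = θ k * θ k' := by
  obtain ⟨y, _⟩ := h.surj 1
  apply h.free (y := β y)
  rw [← hN.eqv _ (K.mul_mem hk hk'), mul_smul, mul_smul, hN.eqv _ hk, hN.eqv _ hk']

theorem NAut.one (hN : NAut K D β β' θ θ') (h : QT R π D) : θ 1 = 1 := by
  have := hN.mul h K.one_mem K.one_mem
  rw [mul_one] at this
  exact (mul_eq_left.1 this.symm)

theorem NAut.inv (hN : NAut K D β β' θ θ') (h : QT R π D) {k : FG m} (hk : k ∈ K) :
    θ k⁻¹ = (θ k)⁻¹ := by
  have := hN.mul h hk (K.inv_mem hk)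
  rw [mul_inv_cancel, hN.one h] at this
  exact eq_inv_of_mul_eq_one_right this.symm

theorem NAut.pow (hN : NAut K D β β' θ θ') (h : QT R π D) {k : FG m} (hk : k ∈ K) (i : ℕ) :
    θ (k ^ i) = θ k ^ i := by
  induction i with
  | zero => simp [hN.one h]
  | succ i ih => rw [pow_succ, hN.mul h (K.pow_mem hk i) hk, ih, pow_succ]

theorem NAut.zpow (hN : NAut K D β β' θ θ') (h : QT R π D) {k : FG m} (hk : k ∈ K) (i : ℤ) :
    θ (k ^ i) = θ k ^ i := by
  cases i with
  | ofNat i => simpa using hN.pow h hk i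
  | negSucc i =>
    rw [zpow_negSucc, zpow_negSucc, hN.inv h (K.pow_mem hk _), hN.pow h hk]

theorem NAut.left_inv (hN : NAut K D β β' θ θ') (h : QT R π D) {k : FG m} (hk : k ∈ K) :
    θ' (θ k) = k := by
  obtain ⟨y, _⟩ := h.surj 1
  apply h.free (y := y)
  have h1 := hN.eqv' _ (hN.mem _ hk) (β y)
  rw [hN.inv1] at h1
  rw [← h1, ← hN.eqv _ hk, hN.inv1]

theorem NAut.inj (hN : NAut K D β β' θ θ') (h : QT R π D) {k k' : FG m} (hk : k ∈ K)
    (hk' : k' ∈ K) (e : θ k = θ k') : k = k' := by
  rw [← hN.left_inv h hk, e, hN.left_inv h hk']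

theorem NAut.ne_one (hN : NAut K D β β' θ θ') (h : QT R π D) {k : FG m} (hk : k ∈ K)
    (h1 : k ≠ 1) : θ k ≠ 1 := by
  intro h2
  apply h1
  apply hN.inj h hk K.one_mem
  rw [h2, hN.one h]

theorem NAut.tau_theta (hN : NAut K D β β' θ θ') (h : QT R π D) {k : FG m} (hk : k ∈ K) :
    tau D (θ k) = tau D k := by
  have key : ∀ {β β' : Y → Y} {θ θ' : FG m → FG m} (_ : NAut K D β β' θ θ') {k : FG m}
      (_ : k ∈ K), tau D (θ k) ≤ tau D k := by
    intro β β' θ θ' hN k hk
    obtain ⟨y, hy⟩ := h.exists_tau k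
    have h1 := tau_le D (θ k) (β y)
    rw [← hN.eqv _ hk, hN.isom, hy] at h1
    exact h1
  apply le_antisymm (key hN hk)
  have := key hN.symm (hN.mem _ hk)
  rwa [hN.left_inv h hk] at this

/-- nearness passes to the inverse -/
theorem NAut.near_symm (hN : NAut K D β β' θ θ') (h : QT R π D) {E : ℕ} {g : FG m}
    (hE : ∀ y, π y = g → td (π (β y)) g ≤ E) :
    ∀ y, π y = g → td (π (β' y)) g ≤ R * (R * (E + 1)) := by
  intro y hy
  have h1 := h.low (β' y) y
  rw [hy] at h1
  have h2 : D (β' y) y = D y (β y) := by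
    rw [← hN.isom, hN.inv2]
  have h3 := h.up y (β y)
  have h4 := hE y hy
  rw [hy, td_comm'] at h3
  rw [h2] at h1
  calc td (π (β' y)) g ≤ R * D y (β y) := h1
    _ ≤ R * (R * (E + 1)) := by
      apply Nat.mul_le_mul_left
      exact le_trans h3 (Nat.mul_le_mul_left _ (by omega))

/-- nearness passes to neighbours -/
theorem NAut.near_next (hN : NAut K D β β' θ θ') (h : QT R π D) {E : ℕ} {g g' : FG m}
    (hE : ∀ y, π y = g → td (π (β y)) g ≤ E) (hg : td g g' ≤ 1) :
    ∀ y, π y = g' → td (π (β y)) g' ≤ E + 2 * R * R + 1 := by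
  intro y hy
  obtain ⟨z, hz⟩ := h.surj g
  have h1 := hE z hz
  have h2 := h.up y z
  have h3 := h.low (β y) (β z)
  rw [hN.isom] at h3
  rw [hy, hz, td_comm'] at h2
  have h4 : D y z ≤ 2 * R := by nlinarith
  have h5 : R * D y z ≤ 2 * R * R := by nlinarith
  have t1 := td_tri (π (β y)) (π (β z)) g'
  have t2 := td_tri (π (β z)) g g'
  omega

end NAuts

/-! ### `th` -/

theorem th_conj (θ : FG m → FG m) (g a u : FG m) :
    th θ (g * a) (a⁻¹ * u * a) = a⁻¹ * th θ g u * a := by
  unfold th
  have : g * a * (a⁻¹ * u * a) * (g * a)⁻¹ = g * u * g⁻¹ := by group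
  rw [this]
  group

theorem conj_th (θ : FG m → FG m) (g u : FG m) : g * th θ g u * g⁻¹ = θ (g * u * g⁻¹) := by
  unfold th
  group

section THs

variable {Y : Type} [MulAction (FG m) Y] {R : ℕ} {π : Y → FG m} {D : Y → Y → ℕ}
  {K : Subgroup (FG m)} {β β' : Y → Y} {θ θ' : FG m → FG m}

theorem NAut.th_inv (hN : NAut K D β β' θ θ') (h : QT R π D) {g u : FG m}
    (hu : g * u * g⁻¹ ∈ K) : th θ g u⁻¹ = (th θ g u)⁻¹ := by
  unfold th
  have : g * u⁻¹ * g⁻¹ = (g * u * g⁻¹)⁻¹ := by group
  rw [this, hN.inv h hu]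
  group

theorem NAut.th_left_inv (hN : NAut K D β β' θ θ') (h : QT R π D) {g u : FG m}
    (hu : g * u * g⁻¹ ∈ K) : th θ' g (th θ g u) = u := by
  have h1 := conj_th θ g u
  unfold th at h1 ⊢
  rw [h1, hN.left_inv h hu]
  group

theorem NAut.th_inj (hN : NAut K D β β' θ θ') (h : QT R π D) {g u u' : FG m}
    (hu : g * u * g⁻¹ ∈ K) (hu' : g * u' * g⁻¹ ∈ K) (e : th θ g u = th θ g u') : u = u' := by
  rw [← hN.th_left_inv h hu, e, hN.th_left_inv h hu']

end THs

section Rs

variable {l n : ℕ} {r : Fin n → Word m l}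

theorem RR_mem {s : FG m} (h : s ∈ RR r) : s ∈ KN r := by
  obtain ⟨x, j, rfl | rfl⟩ := h
  · exact (Subgroup.normalClosure_normal (s := rels r)).conj_mem _
      (Subgroup.subset_normalClosure ⟨j, rfl⟩) x
  · exact (Subgroup.normalClosure_normal (s := rels r)).conj_mem _
      (Subgroup.inv_mem _ (Subgroup.subset_normalClosure ⟨j, rfl⟩)) x

theorem RR_conj {s : FG m} (h : s ∈ RR r) (f : FG m) : f * s * f⁻¹ ∈ RR r := by
  obtain ⟨x, j, rfl | rfl⟩ := h
  · exact ⟨f * x, j, Or.inl (by group)⟩
  · exact ⟨f * x, j, Or.inr (by group)⟩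

theorem RR_inv {s : FG m} (h : s ∈ RR r) : s⁻¹ ∈ RR r := by
  obtain ⟨x, j, rfl | rfl⟩ := h
  · exact ⟨x, j, Or.inr (by group)⟩
  · exact ⟨x, j, Or.inl (by group)⟩

theorem R1_conj {u : FG m} (h : u ∈ R1 r) (g : FG m) : g * u * g⁻¹ ∈ RR r := RR_conj h.1 g

theorem R1_mem {u : FG m} (h : u ∈ R1 r) (g : FG m) : g * u * g⁻¹ ∈ KN r := RR_mem (R1_conj h g)

theorem KN_conj {k : FG m} (h : k ∈ KN r) (f : FG m) : f * k * f⁻¹ ∈ KN r :=
  (Subgroup.normalClosure_normal (s := rels r)).conj_mem _ h f

end Rs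

/-- short elements of the kernel are trivial -/
theorem t_SH : M_SH := by
  intro hG B
  obtain ⟨C0, hC0, hG⟩ := hG
  refine ⟨C0 + B + 1, ?_⟩
  intro m l n P _ r hr k hk hkB
  by_contra h1
  have hr' := hr.big
  obtain ⟨a, p, b, h2, h3, _⟩ := hG m l n P r hr.cyc hr.sc hr.pos
    (le_trans (Nat.mul_le_mul_right _ (by omega)) hr.big) k hk h1
  have h4 : k.norm = a.length + p.length + b.length := by
    unfold FreeGroup.norm
    rw [h2, List.length_append, List.length_append]
  nlinarith [hr.pos]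

end RBG
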