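import Pool.Agent.RBG.Base

/-!
# MP_0a3593_al, bounded geometry: `β` maps axes near axes
-/

set_option autoImplicit false

namespace RBG

open RGD

namespace CD

variable {m l : ℕ} [NeZero l] {Y : Type} [MulAction (FG m) Y] {R : ℕ} {π : Y → FG m}
  {D : Y → Y → ℕ}

/-- the inequality for the projection to the axis -/
theorem star (hA : S_AXP) (h : QT R π D) {w : Word m l} (hw : CycRed w) (x s : FG m)
    (hs : s = x * el w * x⁻¹) (y : Y) :
    ∃ (u : Y) (t : ℤ), π u = x * line w t ∧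
      2 * D y u + D u (s • u) ≤ D y (s • y) + 2 * kc R := by
  obtain ⟨t, h1, h2⟩ := hA m l w hw x (π y)
  obtain ⟨u, hu⟩ := h.surj (x * line w t)
  refine ⟨u, t, hu, ?_⟩
  rw [← hs, ← hu] at h1 h2
  have h3 := h.add y u (s • y) (by rw [h.pi]; exact h1)
  have h4 := h.add u (s • u) (s • y) (by rw [h.pi, h.pi]; exact h2)
  rw [h.isom, h.comm u y] at h4
  omega

/-- the displacement of the points over the axis -/
theorem disp (hA : S_AXP) (h : QT R π D) {w : Word m l} (hw : CycRed w) (x s : FG m)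
    (hs : s = x * el w * x⁻¹) (y : Y) (t' : ℤ) (hy : π y = x * line w t') :
    D y (s • y) ≤ tau D s + 3 * kc R := by
  obtain ⟨y', hy'⟩ := h.exists_tau s
  obtain ⟨u, t, hu, h1⟩ := star hA h hw x s hs y'
  have hl : (0 : ℤ) < l := by exact_mod_cast NeZero.pos l
  set i : ℤ := (t' - t) / l with hi
  have e1 := Int.mul_ediv_add_emod (t' - t) l
  have e2 := Int.emod_nonneg (t' - t) hl.ne'
  have e3 := Int.emod_lt_of_pos (t' - t) hl
  have hu' : π (s ^ i • u) = x * line w (t + i * l) := by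
    rw [h.pi, hu, hs, conj_line]
  have hsu : π (s • s ^ i • u) = x * line w (t + i * l + l) := by
    rw [h.pi, hu', hs, conj_line_one]
  have e4 : (l : ℤ) * i = i * l := mul_comm _ _
  rw [← hi] at e1
  have h2 := h.add (s ^ i • u) y (s • s ^ i • u) (by
    rw [hu', hy, hsu]
    apply bt_xline hw
    · omega
    · omega)
  have h3 : D (s ^ i • u) (s • s ^ i • u) = D u (s • u) := by
    have : s • s ^ i • u = s ^ i • s • u := by
      rw [← mul_smul, ← mul_smul, (Commute.self_zpow s i).eq]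
    rw [this, h.isom]
  have h4 := h.tri y (s • s ^ i • u) (s • y)
  rw [h.isom] at h4
  omega

end CD

theorem t_CD : M_CD := by
  intro hA hRF hB R
  obtain ⟨C, hB⟩ := hB R
  refine ⟨R * (5 * kc R), C, ?_⟩
  intro m l n P _ r Y _ π D β β' θ θ' hN s hs y hy
  obtain ⟨-, hR2, -, -, -, -, hR7⟩ := hRF m l n r hN.sc.cyc
  obtain ⟨x, w, hw, hw1, hsx⟩ := hR2 s hs
  have hθ := hB m l n P r Y π D β β' θ θ' hN s hs
  obtain ⟨x', w', hw', hw1', hsx'⟩ := hR2 (θ s) hθ
  rw [hsx] at hy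
  obtain ⟨t, ht⟩ := (hR7 x (π y) w hw hw1).1 hy
  have h1 := CD.disp hA hN.qt hw x s hsx y t ht
  obtain ⟨u, t', hu, h2⟩ := CD.star hA hN.qt hw' x' (θ s) hsx' (β y)
  have h3 : D (β y) (θ s • β y) = D y (s • y) := by
    rw [← hN.na.eqv s (RR_mem hs), hN.na.isom]
  have h4 := hN.na.tau_theta hN.qt (RR_mem hs)
  have h5 := tau_le D (θ s) u
  refine ⟨π u, ?_, ?_⟩
  · rw [hsx', hu]
    exact (hR7 x' (x' * line w' t') w' hw' hw1').2 ⟨t', rfl⟩
  · refine le_trans (hN.qt.low (β y) u) (Nat.mul_le_mul_left _ ?_)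
    omega

end RBG
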