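import Pool.Agent.RBG.Base

set_option autoImplicit false

namespace RBG

open RGD

namespace CNTQ

variable {m : ℕ}

theorem pre_iff (W c L : List (Ltr m)) : (W ++ c) <+: (W ++ L) ↔ c <+: L := by
  constructor
  · rintro ⟨t, ht⟩
    rw [List.append_assoc] at ht
    exact ⟨t, List.append_cancel_left ht⟩
  · rintro ⟨t, rfl⟩
    exact ⟨t, List.append_assoc _ _ _⟩

theorem one_iff (d a : Ltr m) (L : List (Ltr m)) : [d] <+: (a :: L) ↔ d = a := by
  constructor
  · rintro ⟨t, ht⟩
    exact (List.cons.inj ht).1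
  · rintro rfl
    exact ⟨L, rfl⟩

theorem pre_left {W c L : List (Ltr m)} (h : (W ++ c) <+: L) : W <+: L := by
  obtain ⟨t, ht⟩ := h
  exact ⟨c ++ t, by rw [← List.append_assoc]; exact ht⟩

theorem not_nil (d : Ltr m) : ¬ [d] <+: ([] : List (Ltr m)) := by
  rintro ⟨t, ht⟩
  exact List.cons_ne_nil _ _ ht

/-- the letters after the first `k` letters -/
def cf (k D : ℕ) (u : FG m) : List (Ltr m) := (u.toWord.drop k).take D

theorem cf_of_pre {W c : List (Ltr m)} {D : ℕ} {u : FG m} (hc : c.length = D)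
    (h : (W ++ c) <+: u.toWord) : cf W.length D u = c := by
  obtain ⟨L, hL⟩ := h
  unfold cf
  rw [← hL, List.append_assoc, List.drop_left, ← hc, List.take_left]

theorem pre_of_cf {W c : List (Ltr m)} {D : ℕ} {u : FG m} (h : W <+: u.toWord)
    (hc : cf W.length D u = c) : (W ++ c) <+: u.toWord := by
  obtain ⟨L, hL⟩ := h
  unfold cf at hc
  rw [← hL, List.drop_left] at hc
  rw [← hL, ← hc]
  exact (pre_iff _ _ _).2 ⟨L.drop D, List.take_append_drop D L⟩

theorem head_cf {W : List (Ltr m)} {D : ℕ} {u : FG m} (hD : 1 ≤ D) (h : W <+: u.toWord)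
    (d : Ltr m) : (W ++ [d]) <+: u.toWord ↔ (cf W.length D u).head? = some d := by
  obtain ⟨L, hL⟩ := h
  unfold cf
  rw [← hL, List.drop_left, pre_iff]
  cases L with
  | nil => simp
  | cons a L =>
    obtain ⟨D, rfl⟩ : ∃ k, D = k + 1 := ⟨D - 1, by omega⟩
    simp [eq_comm]

/-- sums of the numbers of occurrences -/
theorem sum_nn {l n : ℕ} {r : Fin n → Word m l} (W : List (Ltr m)) (D : ℕ)
    (QF : Finset (FG m)) (hQ : ∀ u, u ∈ QF ↔ u ∈ R1 r ∧ W <+: u.toWord)
    (T : Finset (List (Ltr m))) (hT : ∀ c ∈ T, c.length = D) :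
    ∑ c ∈ T, nn r (W ++ c) = by
      classical exact (QF.filter fun u => cf W.length D u ∈ T).card := by
  classical
  rw [Finset.card_eq_sum_card_fiberwise (f := cf W.length D) (t := T)]
  · refine Finset.sum_congr rfl fun c hc => ?_
    unfold nn
    apply Nat.subtype_card
    intro u
    rw [Finset.mem_filter, Finset.mem_filter, hQ]
    constructor
    · rintro ⟨⟨⟨h1, h2⟩, h3⟩, h4⟩
      exact ⟨h1, pre_of_cf h2 h4⟩
    · rintro ⟨h1, h2⟩
      have h3 := cf_of_pre (hT c hc) h2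
      refine ⟨⟨⟨h1, pre_left h2⟩, ?_⟩, h3⟩
      rw [h3]
      exact hc
  · intro u hu
    rw [Finset.mem_coe, Finset.mem_filter] at hu
    exact hu.2

end CNTQ

theorem t_CNTQ : M_CNTQ := by
  classical
  intro hRF hNEAR hLL hPRE R
  obtain ⟨C1, Cn, hNEAR⟩ := hNEAR R
  obtain ⟨C5, CL, hLL⟩ := hLL R (R * (R * (C1 + 2 * R * R + 1 + 1))) 0
  refine ⟨C5 + 1, fun D' hD' => ⟨max Cn CL, ?_⟩⟩
  intro m l n P _ r Y _ π D β β' θ θ' hNS hm hTL v W hW hWl hEV hTT u hu d hd
  have hcyc := hNS.sc.cyc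
  have hqt := hNS.qt
  have hna := hNS.na
  obtain ⟨_, _, _, hrot, _, hfin, _⟩ := hRF m l n r hcyc
  have hpre := hPRE m l n r hcyc θ v W hW hTT
  -- the points
  have hWpos : 0 < W.length := List.length_pos_iff.2 hW
  have hE1 : ∀ y, π y = v * FreeGroup.mk W →
      td (π (β y)) (v * FreeGroup.mk W) ≤ C1 + 2 * R * R + 1 := by
    refine hna.near_next (g := v * FreeGroup.mk (W.take (W.length - 1))) hqt ?_ ?_
    · exact hNEAR m l n P r Y π D β β' θ θ' (hNS.mono (le_max_left _ _)) hm hTL _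
        (hTT _ (by omega))
    · rw [td_left]
      have e : W = W.take (W.length - 1) ++ W.drop (W.length - 1) :=
        (List.take_append_drop _ _).symm
      have e2 : (FreeGroup.mk W : FG m) =
          FreeGroup.mk (W.take (W.length - 1)) * FreeGroup.mk (W.drop (W.length - 1)) := by
        rw [← mk_append, List.take_append_drop]
      have e3 : td (FreeGroup.mk (W.take (W.length - 1)) : FG m) (FreeGroup.mk W) =
          (FreeGroup.mk (W.drop (W.length - 1)) : FG m).norm := by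
        rw [← td_inv_mul]
        conv_lhs => rw [e2]
        rw [inv_mul_cancel_left]
      rw [e3]
      refine (norm_mk_le _).trans ?_
      rw [List.length_drop]
      omega
  have hE2 := hna.near_symm hqt hE1
  -- rotations
  have hU : ∀ u1 ∈ R1 r, ∀ L1, u1.toWord = W ++ L1 →
      (FreeGroup.mk W)⁻¹ * u1 * FreeGroup.mk W ∈ R1 r ∧
      ((FreeGroup.mk W)⁻¹ * u1 * FreeGroup.mk W : FG m).toWord = L1 ++ W := by
    intro u1 h1 L1 h2
    have h3 := hrot u1 h1 W L1 h2
    have h4 : ((FreeGroup.mk W)⁻¹ * u1 * FreeGroup.mk W : FG m) = FreeGroup.mk (L1 ++ W) := by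
      rw [mk_append, ← mk_toWord u1, h2, mk_append, inv_mul_cancel_left]
    rw [h4]
    exact h3
  -- the letters after `W` of the image determine the letter after `W`
  have hFD : ∀ u1 ∈ R1 r, W <+: u1.toWord → ∀ u2 ∈ R1 r, W <+: u2.toWord →
      ∀ c : List (Ltr m), c.length = D' → (W ++ c) <+: (th θ v u1).toWord →
      (W ++ c) <+: (th θ v u2).toWord → ∀ d1 : Ltr m, (W ++ [d1]) <+: u1.toWord →
      (W ++ [d1]) <+: u2.toWord := by
    have hkey : ∀ u1 ∈ R1 r, ∀ L1 : List (Ltr m), u1.toWord = W ++ L1 →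
        ∀ c : List (Ltr m), c.length = D' → (W ++ c) <+: (th θ v u1).toWord → ∀ y : Y,
        π y = v * FreeGroup.mk W * FreeGroup.mk (c.take C5) →
        ((v * FreeGroup.mk W)⁻¹ * π (β' y)).toWord.head? = (L1 ++ W).head? := by
      intro u1 h1 L1 h2 c hc h3 y hy
      obtain ⟨h4, h5⟩ := hU u1 h1 L1 h2
      obtain ⟨h6, h7⟩ := hpre u1 h1 ⟨L1, h2.symm⟩
      obtain ⟨L1', h8⟩ := h7
      obtain ⟨h9, h10⟩ := hU _ h6 L1' h8.symm
      have h11 : th θ (v * FreeGroup.mk W) ((FreeGroup.mk W)⁻¹ * u1 * FreeGroup.mk W) =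
          (FreeGroup.mk W)⁻¹ * th θ v u1 * FreeGroup.mk W := th_conj _ _ _ _
      have h12 : th θ' (v * FreeGroup.mk W) ((FreeGroup.mk W)⁻¹ * th θ v u1 * FreeGroup.mk W) =
          (FreeGroup.mk W)⁻¹ * u1 * FreeGroup.mk W := by
        rw [← h11]
        exact hna.th_left_inv hqt (R1_mem h4 _)
      have h13 := hLL m l n P r Y π D β' β θ' θ (hNS.symm.mono (le_max_right _ _))
        (v * FreeGroup.mk W) _ h9 (by rw [h12]; exact h4) hE2 C5 le_rfl (by omega) y (by
          rw [hy, h10]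
          congr 2
          rw [← h8, CNTQ.pre_iff] at h3
          obtain ⟨L2, h14⟩ := h3
          rw [← h14, List.append_assoc, List.take_append_of_le_length (by omega)])
      rw [h12, h5] at h13
      exact h13.1
    intro u1 h1 hW1 u2 h2 hW2 c hc hc1 hc2 d1 hd1
    obtain ⟨L1, hL1⟩ := hW1
    obtain ⟨L2, hL2⟩ := hW2
    obtain ⟨y, hy⟩ := hqt.surj (v * FreeGroup.mk W * FreeGroup.mk (c.take C5))
    have k1 := hkey u1 h1 L1 hL1.symm c hc hc1 y hy
    have k2 := hkey u2 h2 L2 hL2.symm c hc hc2 y hy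
    rw [k1] at k2
    rw [← hL1, CNTQ.pre_iff] at hd1
    rw [← hL2, CNTQ.pre_iff]
    have hlen : L2.length + W.length = l := by
      have := congrArg List.length hL2
      rw [List.length_append] at this
      have h3 : u2.toWord.length = l := h2.2
      omega
    cases L1 with
    | nil => exact absurd hd1 (CNTQ.not_nil _)
    | cons a1 L1 =>
      cases L2 with
      | nil => simp at hlen; omega
      | cons a2 L2 =>
        simp only [List.cons_append, List.head?_cons, Option.some.injEq] at k2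
        rw [CNTQ.one_iff] at hd1 ⊢
        rw [hd1, k2]
  -- the finite set
  set QF : Finset (FG m) := hfin.toFinset.filter fun u => W <+: u.toWord with hQF
  have hQ : ∀ u, u ∈ QF ↔ u ∈ R1 r ∧ W <+: u.toWord := by
    intro u
    rw [hQF, Finset.mem_filter, Set.Finite.mem_toFinset]
  have hσ : ∀ u ∈ QF, th θ v u ∈ QF := fun u hu => (hQ _).2 (hpre u ((hQ u).1 hu).1 ((hQ u).1 hu).2)
  have hinj : Set.InjOn (th θ v) (QF : Set (FG m)) := by
    intro u1 h1 u2 h2 e
    exact hna.th_inj hqt (R1_mem ((hQ _).1 h1).1 _) (R1_mem ((hQ _).1 h2).1 _) e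
  have himg : QF.image (th θ v) = QF := by
    apply Finset.eq_of_subset_of_card_le
    · intro x hx
      obtain ⟨u, hu, rfl⟩ := Finset.mem_image.1 hx
      exact hσ u hu
    · rw [Finset.card_image_of_injOn hinj]
  have hsurj : ∀ x ∈ QF, ∃ u ∈ QF, th θ v u = x := by
    intro x hx
    rw [← himg] at hx
    exact Finset.mem_image.1 hx
  have hcl : ∀ u ∈ QF, (CNTQ.cf W.length D' u).length = D' := by
    intro u hu
    unfold CNTQ.cf
    have h3 : u.toWord.length = l := ((hQ u).1 hu).1.2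
    rw [List.length_take, List.length_drop, h3]
    omega
  have hcr : ∀ u ∈ QF, RedL (W ++ CNTQ.cf W.length D' u) := by
    intro u hu
    obtain ⟨L, hL⟩ := CNTQ.pre_of_cf (D := D') ((hQ u).1 hu).2 rfl
    apply RedL.left (L' := L)
    rw [hL]
    exact redL_toWord u
  set A : Finset (FG m) := QF.filter fun u => (W ++ [d]) <+: u.toWord with hA
  have hAQ : ∀ a ∈ A, a ∈ QF := fun a ha => (Finset.mem_filter.1 ha).1
  have hAd : ∀ a ∈ A, (W ++ [d]) <+: a.toWord := fun a ha => (Finset.mem_filter.1 ha).2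
  set U := A.image (CNTQ.cf W.length D') with hUdef
  set U' := A.image (fun u => CNTQ.cf W.length D' (th θ v u)) with hU'def
  have hUlen : ∀ c ∈ U, c.length = D' ∧ RedL (W ++ c) := by
    intro c hc
    obtain ⟨a, ha, rfl⟩ := Finset.mem_image.1 hc
    exact ⟨hcl a (hAQ a ha), hcr a (hAQ a ha)⟩
  have hU'len : ∀ c ∈ U', c.length = D' ∧ RedL (W ++ c) := by
    intro c hc
    obtain ⟨a, ha, rfl⟩ := Finset.mem_image.1 hc
    exact ⟨hcl _ (hσ a (hAQ a ha)), hcr _ (hσ a (hAQ a ha))⟩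
  have hD1 : 1 ≤ D' := by omega
  have hsum : ∑ c ∈ U, nn r (W ++ c) = ∑ c ∈ U', nn r (W ++ c) := by
    rw [CNTQ.sum_nn W D' QF hQ U (fun c hc => (hUlen c hc).1),
      CNTQ.sum_nn W D' QF hQ U' (fun c hc => (hU'len c hc).1)]
    have e1 : (QF.filter fun u => CNTQ.cf W.length D' u ∈ U) = A := by
      ext x
      constructor
      · intro h0
        obtain ⟨h1, h2⟩ := Finset.mem_filter.1 h0
        refine Finset.mem_filter.2 ⟨h1, ?_⟩
        obtain ⟨a, ha, h3⟩ := Finset.mem_image.1 h2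
        rw [CNTQ.head_cf hD1 ((hQ x).1 h1).2, ← h3,
          ← CNTQ.head_cf hD1 ((hQ a).1 (hAQ a ha)).2]
        exact hAd a ha
      · intro h0
        exact Finset.mem_filter.2 ⟨hAQ x h0, Finset.mem_image_of_mem _ h0⟩
    have e2 : (QF.filter fun u => CNTQ.cf W.length D' u ∈ U') = A.image (th θ v) := by
      ext x
      constructor
      · intro h0
        obtain ⟨h1, h2⟩ := Finset.mem_filter.1 h0
        obtain ⟨w, hw, rfl⟩ := hsurj x h1
        obtain ⟨a, ha, h3⟩ := Finset.mem_image.1 h2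
        refine Finset.mem_image_of_mem _ (Finset.mem_filter.2 ⟨hw, ?_⟩)
        have ha' := hAQ a ha
        refine hFD a ((hQ a).1 ha').1 ((hQ a).1 ha').2 w ((hQ w).1 hw).1 ((hQ w).1 hw).2
          (CNTQ.cf W.length D' (th θ v a)) (hcl _ (hσ a ha'))
          (CNTQ.pre_of_cf ((hQ _).1 (hσ a ha')).2 rfl) ?_ d (hAd a ha)
        have h4 : CNTQ.cf W.length D' (th θ v a) = CNTQ.cf W.length D' (th θ v w) := h3
        rw [h4]
        exact CNTQ.pre_of_cf ((hQ _).1 (hσ w hw)).2 rfl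
      · intro h0
        obtain ⟨a, ha, rfl⟩ := Finset.mem_image.1 h0
        exact Finset.mem_filter.2 ⟨hσ a (hAQ a ha),
          Finset.mem_image_of_mem (fun u => CNTQ.cf W.length D' (th θ v u)) ha⟩
    rw [e1, e2, Finset.card_image_of_injOn]
    exact hinj.mono fun a ha => hAQ a ha
  have hUU := hEV U U' hUlen hU'len hsum
  have huQ : u ∈ QF := (hQ u).2 ⟨hu, CNTQ.pre_left hd⟩
  have huA : u ∈ A := Finset.mem_filter.2 ⟨huQ, hd⟩
  refine ⟨((hQ _).1 (hσ u huQ)).1, ?_⟩
  have h1 : CNTQ.cf W.length D' (th θ v u) ∈ U := by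
    rw [hUU]
    exact Finset.mem_image_of_mem (fun u => CNTQ.cf W.length D' (th θ v u)) huA
  obtain ⟨a, ha, h2⟩ := Finset.mem_image.1 h1
  rw [CNTQ.head_cf hD1 ((hQ _).1 (hσ u huQ)).2, ← h2,
    ← CNTQ.head_cf hD1 ((hQ a).1 (hAQ a ha)).2]
  exact hAd a ha

end RBG
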