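import Pool.Agent.RBG.Base

/-!
# MP_0a3593_al, bounded geometry: the deterministic theorem
-/

set_option autoImplicit false

namespace RBG

open RGD Pool.Agent.Olsh

namespace DET

theorem comp {m : ℕ} {K : Subgroup (FG m)} {Y : Type} [MulAction (FG m) Y] {D : Y → Y → ℕ}
    {β β' : Y → Y} {θ θ' : FG m → FG m} {γ γ' : Y → Y} {η η' : FG m → FG m}
    (h : NAut K D β β' θ θ') (k : NAut K D γ γ' η η') :
    NAut K D (fun y => β (γ y)) (fun y => γ' (β' y)) (fun x => θ (η x))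
      (fun x => η' (θ' x)) where
  inv1 y := by
    rw [h.inv1, k.inv1]
  inv2 y := by
    rw [k.inv2, h.inv2]
  isom x y := by
    rw [h.isom, k.isom]
  mem x hx := h.mem _ (k.mem _ hx)
  mem' x hx := k.mem' _ (h.mem' _ hx)
  eqv x hx y := by
    rw [k.eqv x hx, h.eqv _ (k.mem _ hx)]
  eqv' x hx y := by
    rw [h.eqv' x hx, k.eqv' _ (h.mem' _ hx)]

theorem idn {m : ℕ} (K : Subgroup (FG m)) {Y : Type} [MulAction (FG m) Y] (D : Y → Y → ℕ) :
    NAut K D (fun y => y) (fun y => y) (fun x => x) (fun x => x) where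
  inv1 _ := rfl
  inv2 _ := rfl
  isom _ _ := rfl
  mem _ hx := hx
  mem' _ hx := hx
  eqv _ _ _ := rfl
  eqv' _ _ _ := rfl

theorem RR_mem {m l n : ℕ} (r : Fin n → Word m l) {s : FG m} (hs : s ∈ RR r) : s ∈ KN r := by
  obtain ⟨x, j, h⟩ := hs
  have h1 : el (r j) ∈ KN r := Subgroup.subset_normalClosure ⟨j, rfl⟩
  have hn : (KN r).Normal := Subgroup.normalClosure_normal
  rcases h with h | h
  · rw [h]
    exact hn.conj_mem _ h1 x
  · rw [h]
    exact hn.conj_mem _ ((KN r).inv_mem h1) x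

theorem canc {m R : ℕ} {K : Subgroup (FG m)} {Y : Type} [MulAction (FG m) Y] {π : Y → FG m}
    {D : Y → Y → ℕ} {β β' : Y → Y} {θ θ' : FG m → FG m} (hq : QT R π D)
    (h : NAut K D β β' θ θ') {k : FG m} (hk : k ∈ K) : θ' (θ k) = k := by
  obtain ⟨y, -⟩ := hq.surj 1
  have h1 : β' (β (k • y)) = k • y := h.inv1 _
  rw [h.eqv k hk, h.eqv' _ (h.mem k hk), h.inv1] at h1
  have h2 := congrArg π h1
  rw [hq.pi, hq.pi] at h2
  exact mul_right_cancel h2

theorem pt_surj {m R : ℕ} {S : Set (FG m)} {V : Type} [MulAction (PresentedGroup S) V]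
    {X : SimpleGraph V} {p : V → PresentedGroup S} (hc : Ctrl R S X p) (v : V) :
    ∃ y : YT S p, pt y = v := by
  obtain ⟨g, hg⟩ := PresentedGroup.mk_surjective S (p v)
  refine ⟨⟨g, (PresentedGroup.mk S g)⁻¹ • v, ?_⟩, ?_⟩
  · rw [hc.eqv, hg]
    exact inv_mul_cancel _
  · show PresentedGroup.mk S g • (PresentedGroup.mk S g)⁻¹ • v = v
    rw [smul_inv_smul]

/-- the projection is a homomorphism of graphs -/
def ptHom {m : ℕ} (R : ℕ) (S : Set (FG m)) {V : Type} [MulAction (PresentedGroup S) V]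
    (X : SimpleGraph V) (p : V → PresentedGroup S) : XT R S X p →g X where
  toFun := pt
  map_rel' h := h.1

theorem dist_pt {m R : ℕ} {S : Set (FG m)} {V : Type} [MulAction (PresentedGroup S) V]
    {X : SimpleGraph V} {p : V → PresentedGroup S} (h : (XT R S X p).Connected)
    (y z : YT S p) : X.dist (pt y) (pt z) ≤ (XT R S X p).dist y z := by
  obtain ⟨w, hw⟩ := h.exists_walk_length_eq_dist y z
  rw [← hw]
  have h2 : (w.map (ptHom R S X p)).length = w.length := SimpleGraph.Walk.length_map _ _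
  rw [← h2]
  exact SimpleGraph.dist_le _

theorem ball_finite {V : Type} (X : SimpleGraph V) (hc : X.Connected)
    (hf : ∀ v, (X.neighborSet v).Finite) (v : V) (n : ℕ) : {w | X.dist v w ≤ n}.Finite := by
  induction n with
  | zero =>
    refine (Set.finite_singleton v).subset fun w hw => ?_
    have h : X.dist v w = 0 := Nat.le_zero.1 hw
    exact (hc.dist_eq_zero_iff.1 h).symm
  | succ n ih =>
    refine (ih.union (ih.biUnion fun u _ => hf u)).subset fun w hw => ?_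
    by_cases h : X.dist v w ≤ n
    · exact Or.inl h
    · right
      have hw' : X.dist v w ≤ n + 1 := hw
      have h1 : X.dist w v = n + 1 := by
        rw [SimpleGraph.dist_comm]
        omega
      obtain ⟨q, hq⟩ := hc.exists_walk_length_eq_dist w v
      rw [h1] at hq
      cases q with
      | nil => simp at hq
      | @cons _ u _ ha q' =>
        rw [SimpleGraph.Walk.length_cons] at hq
        have h2 : X.dist u v ≤ n := by
          have := SimpleGraph.dist_le q'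
          omega
        rw [SimpleGraph.dist_comm] at h2
        exact Set.mem_biUnion (show u ∈ {w | X.dist v w ≤ n} from h2) ha.symm

theorem norm_finite (m l : ℕ) : {g : FG m | g.norm ≤ l}.Finite := by
  have h := (List.finite_length_le (Fin m × Bool) l)
  refine Set.Finite.of_finite_image (f := FreeGroup.toWord) (h.subset ?_)
    (FreeGroup.toWord_injective.injOn)
  rintro _ ⟨g, hg, rfl⟩
  exact hg

theorem F_finite {m R : ℕ} {S : Set (FG m)} {V : Type} [MulAction (PresentedGroup S) V]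
    {X : SimpleGraph V} {p : V → PresentedGroup S} (hc : Ctrl R S X p) (l : ℕ) :
    {v : V | ∃ y : YT S p, y.g.norm ≤ l ∧ pt y = v}.Finite := by
  have h1 : {v : V | p v = 1}.Finite := by
    by_cases he : ∃ v, p v = 1
    · obtain ⟨v, hv⟩ := he
      refine (ball_finite X hc.conn hc.lf v R).subset fun w hw => ?_
      refine hc.colip v w 1 ?_ ?_
      · simp
      · have hw' : p w = 1 := hw
        rw [hw', hv, map_one, mul_one]
    · refine Set.finite_empty.subset fun w hw => ?_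
      exact he ⟨w, hw⟩
  refine ((norm_finite m l).image2 (fun g v => PresentedGroup.mk S g • v) h1).subset ?_
  rintro _ ⟨y, hy, rfl⟩
  exact ⟨y.g, hy, y.v, y.h, rfl⟩

/-- `β`, `θ` is a lift of `α` -/
structure Lift {m : ℕ} (R : ℕ) {S : Set (FG m)} (K : Subgroup (FG m)) {V : Type}
    [MulAction (PresentedGroup S) V] (X : SimpleGraph V) (p : V → PresentedGroup S)
    (α : X ≃g X) (β β' : YT S p → YT S p) (θ θ' : FG m → FG m) : Prop where
  na : NAut K (XT R S X p).dist β β' θ θ'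
  pr : ∀ y, pt (β y) = α (pt y)
  pr' : ∀ y, pt (β' y) = α.symm (pt y)

variable {m R : ℕ} {S : Set (FG m)} {K : Subgroup (FG m)} {V : Type}
  [MulAction (PresentedGroup S) V] {X : SimpleGraph V} {p : V → PresentedGroup S}

theorem Lift.one : Lift R K X p 1 (fun y => y) (fun y => y) (fun x => x) (fun x => x) :=
  ⟨idn K _, fun _ => rfl, fun _ => rfl⟩

theorem Lift.mul {α1 α2 : X ≃g X} {β β' : YT S p → YT S p} {θ θ' : FG m → FG m}
    {γ γ' : YT S p → YT S p} {η η' : FG m → FG m} (h : Lift R K X p α1 β β' θ θ')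
    (k : Lift R K X p α2 γ γ' η η') :
    Lift R K X p (α1 * α2) (fun y => β (γ y)) (fun y => γ' (β' y)) (fun x => θ (η x))
      (fun x => η' (θ' x)) := by
  refine ⟨comp h.na k.na, fun y => ?_, fun y => ?_⟩
  · rw [h.pr, k.pr]
    rfl
  · rw [k.pr', h.pr']
    rfl

theorem Lift.inv {α : X ≃g X} {β β' : YT S p → YT S p} {θ θ' : FG m → FG m}
    (h : Lift R K X p α β β' θ θ') : Lift R K X p α⁻¹ β' β θ' θ :=
  ⟨h.na.symm, h.pr', h.pr⟩

end DET

theorem t_DET : M_DET := by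
  intro hB3 hDYN hXT hNL hFB hTOP R hR
  obtain ⟨CB, hB3⟩ := hB3 R
  obtain ⟨D', C1, CD, hD1, hDYN⟩ := hDYN R
  obtain ⟨CX, hXT⟩ := hXT R hR
  obtain ⟨CN, hNL⟩ := hNL R hR
  obtain ⟨CF, hFB⟩ := hFB R hR
  refine ⟨D', CB + CD + CX + CN + CF, hD1, ?_⟩
  intro m l n P _ r hm hsc hev V _ X p hc
  obtain ⟨hqt, hconn, -, -, -⟩ := hXT m l n P r (hsc.mono (by omega)) V X p hc
  have hNL := hNL m l n P r (hsc.mono (by omega)) V X p hc
  have hFB := hFB m l n P r (hsc.mono (by omega)) V X p hc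
  have hscB : SCl CB P r := hsc.mono (by omega)
  have hscD : SCl CD P r := hsc.mono (by omega)
  -- the subgroup
  let N : Subgroup (X ≃g X) :=
    { carrier := {α | ∃ (β β' : YT (rels r) p → YT (rels r) p) (θ θ' : FG m → FG m),
        DET.Lift R (KN r) X p α β β' θ θ' ∧ ∀ s ∈ RR r, θ s = s}
      one_mem' := ⟨_, _, _, _, DET.Lift.one, fun s _ => rfl⟩
      mul_mem' := by
        rintro α1 α2 ⟨β, β', θ, θ', h1, h2⟩ ⟨γ, γ', η, η', k1, k2⟩
        refine ⟨_, _, _, _, h1.mul k1, fun s hs => ?_⟩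
        rw [k2 s hs, h2 s hs]
      inv_mem' := by
        rintro α ⟨β, β', θ, θ', h1, h2⟩
        refine ⟨_, _, _, _, h1.inv, fun s hs => ?_⟩
        have h3 := DET.canc hqt h1.na (DET.RR_mem r hs)
        rw [h2 s hs] at h3
        exact h3 }
  have hN : ∀ α : X ≃g X, α ∈ N ↔ ∃ (β β' : YT (rels r) p → YT (rels r) p)
      (θ θ' : FG m → FG m), DET.Lift R (KN r) X p α β β' θ θ' ∧ ∀ s ∈ RR r, θ s = s :=
    fun α => Iff.rfl
  have hlift : ∀ (α : X ≃g X) (y0 y1 : YT (rels r) p), pt y1 = α (pt y0) →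
      ∃ (β β' : YT (rels r) p → YT (rels r) p) (θ θ' : FG m → FG m),
        DET.Lift R (KN r) X p α β β' θ θ' ∧ β y0 = y1 := by
    intro α y0 y1 h
    obtain ⟨β, β', θ, θ', h1, h2, h3, h4⟩ := hNL α y0 y1 h
    exact ⟨β, β', θ, θ', ⟨h1, h3, h4⟩, h2⟩
  obtain ⟨y0, hy0⟩ := hqt.surj 1
  have hnorm : N.Normal := by
    refine ⟨fun α hα γ => ?_⟩
    rw [hN] at hα ⊢
    obtain ⟨β, β', θ, θ', h1, h2⟩ := hα
    obtain ⟨y1, hy1⟩ := DET.pt_surj hc (γ (pt y0))
    obtain ⟨δ, δ', η, η', k1, -⟩ := hlift γ y0 y1 hy1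
    refine ⟨_, _, _, _, (k1.mul h1).mul k1.inv, fun s hs => ?_⟩
    have h3 : η' s ∈ RR r :=
      hB3 m l n P r (YT (rels r) p) (fun y => y.g) (XT R (rels r) X p).dist δ' δ η' η
        ⟨hscB, hqt, k1.na.symm⟩ s hs
    rw [h2 _ h3]
    exact DET.canc hqt k1.na.symm (DET.RR_mem r hs)
  have hfix : ∀ α : X ≃g X,
      (∀ v ∈ {v : V | ∃ y : YT (rels r) p, y.g.norm ≤ l ∧ pt y = v}, α v = v) → α ∈ N := by
    intro α hα
    have h0 : α (pt y0) = pt y0 := by
      refine hα _ ⟨y0, ?_, rfl⟩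
      rw [hy0]
      simp
    obtain ⟨β, β', θ, θ', h1, h2⟩ := hlift α y0 y0 h0.symm
    refine (hN α).2 ⟨β, β', θ, θ', h1, ?_⟩
    refine (hDYN m l n P r (YT (rels r) p) (fun y => y.g) (XT R (rels r) X p).dist β β' θ θ'
      ⟨hscD, hqt, h1.na⟩ hm hev).1 ?_
    exact hFB α β β' θ θ' h1.na h1.pr l y0 (fun y hy => hα _ ⟨y, hy, rfl⟩) hy0 h2
  have hdis : ∀ α ∈ N, ∀ v, X.dist (α v) v ≤ R * (C1 + 1) := by
    intro α hα v
    obtain ⟨β, β', θ, θ', h1, h2⟩ := (hN α).1 hα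
    obtain ⟨y, rfl⟩ := DET.pt_surj hc v
    have h3 : RGD.td (β y).g y.g ≤ C1 :=
      (hDYN m l n P r (YT (rels r) p) (fun y => y.g) (XT R (rels r) X p).dist β β' θ θ'
        ⟨hscD, hqt, h1.na⟩ hm hev).2 h2 y
    rw [← h1.pr y]
    calc X.dist (pt (β y)) (pt y) ≤ (XT R (rels r) X p).dist (β y) y := DET.dist_pt hconn _ _
      _ ≤ R * (RGD.td (β y).g y.g + 1) := hqt.up _ _
      _ ≤ R * (C1 + 1) := Nat.mul_le_mul_left _ (by omega)
  obtain ⟨t1, t2⟩ := hTOP V X hc.conn hc.lf N _ (R * (C1 + 1)) (DET.F_finite hc l) hfix hdis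
  exact ⟨N, hnorm, t1, t2⟩

end RBG
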