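import Pool.Agent.RBG.Defs

/-!
# MP_0a3593_al: constants that tend to infinity

From `MainStmt` (constants `R` fixed before the length `l`) to constants `R l` that tend to infinity,
for random groups with `(2m-1)^(ε l * l)` relators, `ε l → 0`.
-/

set_option autoImplicit false

namespace RBG

open RGD Filter Topology

namespace DIAG

theorem prob_le_one (m l n : ℕ) (Q : (Fin n → Word m l) → Prop) : prob m l n Q ≤ 1 := by
  unfold prob
  refine div_le_one_of_le₀ ?_ (Nat.cast_nonneg _)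
  rw [Nat.cast_le]
  have hf : Finite {r : Fin n → Word m l // ∀ j, CycRed (r j)} := inferInstance
  exact Nat.card_le_card_of_injective
    (fun r : {r : Fin n → Word m l // (∀ j, CycRed (r j)) ∧ Q r} =>
      (⟨r.1, r.2.1⟩ : {r : Fin n → Word m l // ∀ j, CycRed (r j)}))
    (fun r s h => Subtype.ext
      (congrArg (fun z : {r : Fin n → Word m l // ∀ j, CycRed (r j)} => z.1) h))

/-- a diagonal sequence -/
theorem fn (G : ℕ → ℕ → Prop) (h : ∀ R, ∀ᶠ l in atTop, G R l) :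
    ∃ f : ℕ → ℕ, Tendsto f atTop atTop ∧ ∀ᶠ l in atTop, G (f l) l := by
  classical
  choose a ha using fun R => eventually_atTop.mp (h R)
  refine ⟨fun l => Nat.findGreatest (fun R => a R ≤ l) l, ?_, ?_⟩
  · rw [tendsto_atTop]
    intro K
    filter_upwards [eventually_ge_atTop K, eventually_ge_atTop (a K)] with l h1 h2
    exact Nat.le_findGreatest h1 h2
  · filter_upwards [eventually_ge_atTop (a 0)] with l h1
    have h2 : a (Nat.findGreatest (fun R => a R ≤ l) l) ≤ l :=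
      Nat.findGreatest_spec (P := fun R => a R ≤ l) (Nat.zero_le l) h1
    exact ha _ l h2

/-- the worst case -/
theorem worst (P : ℕ → ℕ → ℝ) (B : ℕ → ℝ) (hB : ∀ᶠ l in atTop, 1 ≤ B l)
    (h : ∀ N : ℕ → ℕ, (∀ᶠ l : ℕ in atTop, 1 ≤ N l ∧ (N l : ℝ) ≤ B l) →
      Tendsto (fun l => P l (N l)) atTop (𝓝 1)) {δ : ℝ} (hδ : 0 < δ) :
    ∀ᶠ l in atTop, ∀ n : ℕ, 1 ≤ n → (n : ℝ) ≤ B l → 1 - δ < P l n := by
  classical
  let Bad : ℕ → Prop := fun l => ∃ n : ℕ, 1 ≤ n ∧ (n : ℝ) ≤ B l ∧ P l n ≤ 1 - δ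
  let N : ℕ → ℕ := fun l => if hl : Bad l then hl.choose else 1
  have hN : ∀ᶠ l : ℕ in atTop, 1 ≤ N l ∧ (N l : ℝ) ≤ B l := by
    filter_upwards [hB] with l hl
    by_cases hb : Bad l
    · have e : N l = hb.choose := dif_pos hb
      rw [e]
      exact ⟨hb.choose_spec.1, hb.choose_spec.2.1⟩
    · have e : N l = 1 := dif_neg hb
      rw [e]
      exact ⟨le_rfl, by simpa using hl⟩
  have h1 := (h N hN).eventually (lt_mem_nhds (show 1 - δ < 1 by linarith))
  filter_upwards [h1] with l hl n hn hnB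
  by_contra hc
  have hb : Bad l := ⟨n, hn, hnB, not_lt.mp hc⟩
  have e : N l = hb.choose := dif_pos hb
  rw [e] at hl
  exact absurd hb.choose_spec.2.2 (not_le.mpr hl)

end DIAG

/-- Constants that tend to infinity: if `ε l → 0` there are `R l → ∞` such that, for all `m ≥ 2` and all
`N l` with `1 ≤ N l ≤ (2m-1)^(ε l * l)` for large `l`, asymptotically almost surely `GDR (R l)` holds. -/
def DiagStmt : Prop :=
  ∀ ε : ℕ → ℝ, Tendsto ε atTop (𝓝 0) → ∃ R : ℕ → ℕ, Tendsto R atTop atTop ∧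
    ∀ (m : ℕ) (N : ℕ → ℕ), 2 ≤ m →
      (∀ᶠ l : ℕ in atTop, 1 ≤ N l ∧ (N l : ℝ) ≤ ((2 * m - 1 : ℕ) : ℝ) ^ (ε l * l)) →
      Tendsto (fun l : ℕ => prob m l (N l) fun r => GDR (R l) (rels r)) atTop (𝓝 1)

open DIAG in
theorem t_DIAG (hM : MainStmt) : DiagStmt := by
  intro ε hε
  choose d hd hM using hM
  let G : ℕ → ℕ → Prop := fun R l => ∀ m ∈ Finset.Icc 2 (R + 2), ∀ n : ℕ, 1 ≤ n →
    (n : ℝ) ≤ ((2 * m - 1 : ℕ) : ℝ) ^ (ε l * l) →
    1 - 1 / ((R : ℝ) + 1) < prob m l n fun r => GDR R (rels r)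
  have hG : ∀ R, ∀ᶠ l in atTop, G R l := by
    intro R
    show ∀ᶠ l in atTop, ∀ m ∈ Finset.Icc 2 (R + 2), ∀ n : ℕ, 1 ≤ n →
      (n : ℝ) ≤ ((2 * m - 1 : ℕ) : ℝ) ^ (ε l * l) →
      1 - 1 / ((R : ℝ) + 1) < prob m l n fun r => GDR R (rels r)
    rw [Filter.eventually_all_finset]
    intro m hm
    rw [Finset.mem_Icc] at hm
    have hb1 : (1 : ℝ) ≤ ((2 * m - 1 : ℕ) : ℝ) := by
      rw [Nat.one_le_cast]
      omega
    have h1 := worst (fun l n => prob m l n fun r => GDR R (rels r))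
      (fun l => ((2 * m - 1 : ℕ) : ℝ) ^ (d R * l))
      (Eventually.of_forall fun l => Real.one_le_rpow hb1
        (mul_nonneg (hd R).le (Nat.cast_nonneg l)))
      (fun N hN => hM R m N hm.1 hN) (δ := 1 / ((R : ℝ) + 1)) (by positivity)
    filter_upwards [h1, hε.eventually (gt_mem_nhds (hd R))] with l h2 h3 n hn hnB
    refine h2 n hn (hnB.trans ?_)
    exact Real.rpow_le_rpow_of_exponent_le hb1
      (mul_le_mul_of_nonneg_right h3.le (Nat.cast_nonneg l))
  obtain ⟨f, hf, hfG⟩ := fn G hG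
  refine ⟨f, hf, fun m N hm hN => ?_⟩
  have hlow : Tendsto (fun l : ℕ => 1 - 1 / ((f l : ℝ) + 1)) atTop (𝓝 1) := by
    have h1 : Tendsto (fun l : ℕ => 1 / ((f l : ℝ) + 1)) atTop (𝓝 0) :=
      tendsto_one_div_add_atTop_nhds_zero_nat.comp hf
    simpa using h1.const_sub 1
  refine tendsto_of_tendsto_of_tendsto_of_le_of_le' hlow tendsto_const_nhds ?_
    (Eventually.of_forall fun l => prob_le_one _ _ _ _)
  filter_upwards [hfG, hN, hf.eventually (eventually_ge_atTop m)] with l h1 h2 h3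
  exact (h1 m (Finset.mem_Icc.mpr ⟨hm, by omega⟩) (N l) h2.1 h2.2).le

end RBG
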