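import Pool.Agent.RBG.Base

/-!
# MP_0a3593_al, bounded geometry, module DYN: the dynamics of a normalising isometry
-/

set_option autoImplicit false

namespace RBG

open RGD

namespace DYN

/-- If `θ` fixes the relators then `TT` holds everywhere. -/
theorem tt_of_fix (hRF : S_RF) {m l n : ℕ} [NeZero l] {r : Fin n → Word m l}
    (hr : ∀ j, CycRed (r j)) {θ : FG m → FG m} (h : ∀ s ∈ RR r, θ s = s) (g : FG m) :
    TT r θ g := by
  obtain ⟨_, _, _, _, h5, _, _⟩ := hRF m l n r hr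
  intro u hu
  have h1 : g * u * g⁻¹ ∈ RR r := (h5 u hu.1).2.2.2 g
  have h2 : th θ g u = u := by
    unfold th
    rw [h _ h1]
    group
  rw [h2]
  exact ⟨hu, rfl⟩

end DYN

theorem t_DYN : M_DYN := by
  intro hRF hNEAR hTWO hSTEP hMARK hBASE hFIX R
  obtain ⟨C1, Cn, hN⟩ := hNEAR R
  obtain ⟨D0, hS⟩ := hSTEP R
  obtain ⟨D', hD1, hD0⟩ : ∃ D' : ℕ, 1 ≤ D' ∧ D0 ≤ D' := ⟨D0 + 1, by omega, by omega⟩
  obtain ⟨Cs, hS⟩ := hS D' hD0
  obtain ⟨C1b, Cb, hB⟩ := hBASE R
  refine ⟨D', C1, Cn + Cs + Cb + (2 * D' + 10 + C1b), hD1, ?_⟩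
  intro m l n P _ r Y _ π D β β' θ θ' hNS hm hEV
  have hcyc := hNS.sc.cyc
  constructor
  · intro hfix
    refine hFIX m l n r hcyc θ ?_
    have key : ∀ (k : ℕ) (g : FG m), g.norm = k → TT r θ g := by
      intro k
      induction k using Nat.strong_induction_on with
      | _ k ih =>
        intro g hg
        by_cases hk : 2 * D' + 10 ≤ g.norm
        · obtain ⟨v, W, hW, hv, hlt⟩ := hMARK m D' hm g hk
          rw [← hv]
          refine hS m l n P r Y π D β β' θ θ' (hNS.mono (by omega)) hm hEV v W hW ?_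
          intro i hi
          exact ih _ (hg ▸ hlt i hi) _ rfl
        · refine hB m l n P r Y π D β β' θ θ' (hNS.mono (by omega)) l hfix g ?_
          have h1 := hNS.sc.big
          have h2 : (2 * D' + 10 + C1b) * (P + 1) ≤ l :=
            le_trans (Nat.mul_le_mul_right _ (by omega)) h1
          have h3 : 2 * D' + 9 + C1b + P ≤ (2 * D' + 10 + C1b) * (P + 1) := by nlinarith
          omega
    exact fun g => key _ g rfl
  · intro hfix y
    exact hN m l n P r Y π D β β' θ θ' (hNS.mono (by omega)) hm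
      (hTWO m l n D' r hcyc hm hD1 hEV).1 (π y) (DYN.tt_of_fix hRF hcyc hfix (π y)) y rfl

end RBG
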