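import Pool.Agent.RGD.Defs

/-!
# MP_0a3593_al: random groups and graphs with bounded geometry. Definitions

`GDR R S`: for every geometric action of the group `⟨a_1, …, a_m | S⟩` on a connected locally
finite graph `X` whose orbit map is an `(R, R)`-quasi-isometry, `Aut X` is compact-by-discrete. The
group is graphically discrete iff `GDR R S` holds for all `R`.
-/

set_option autoImplicit false

namespace RBG

open RGD

/-- the free group -/
abbrev FG (m : ℕ) := FreeGroup (Fin m)

/-- the word metric of `⟨a_1, …, a_m | S⟩` with respect to `a_1, …, a_m` -/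
noncomputable def wd {m : ℕ} (S : Set (FG m)) (g h : PresentedGroup S) : ℕ :=
  sInf {n | ∃ f : FG m, f.norm = n ∧ g * PresentedGroup.mk S f = h}

/-- the group acts on the graph `X` by automorphisms, the orbit map `g ↦ g • o` is an
`(R, R)`-quasi-isometry -/
structure OrbQI {m : ℕ} (R : ℕ) (S : Set (FG m)) {V : Type} [MulAction (PresentedGroup S) V]
    (X : SimpleGraph V) (o : V) : Prop where
  act : ∀ (g : PresentedGroup S) (v w : V), X.Adj v w → X.Adj (g • v) (g • w)
  lo : ∀ g h : PresentedGroup S, wd S g h ≤ R * X.dist (g • o) (h • o) + R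
  up : ∀ g h : PresentedGroup S, X.dist (g • o) (h • o) ≤ R * wd S g h + R
  dense : ∀ v : V, ∃ g : PresentedGroup S, X.dist v (g • o) ≤ R

/-- the topology of pointwise convergence on the automorphism group of a graph -/
instance autTop {V : Type} (X : SimpleGraph V) : TopologicalSpace (X ≃g X) :=
  TopologicalSpace.induced (fun φ v => φ v) (@Pi.topologicalSpace V (fun _ => V) fun _ => ⊥)

/-- the automorphism group is compact-by-discrete: it has a compact open normal subgroup -/
def CBD {V : Type} (X : SimpleGraph V) : Prop :=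
  ∃ K : Subgroup (X ≃g X), K.Normal ∧ IsCompact (K : Set (X ≃g X)) ∧ IsOpen (K : Set (X ≃g X))

/-- graphical discreteness for geometric actions with constant `R` -/
def GDR {m : ℕ} (R : ℕ) (S : Set (FG m)) : Prop :=
  ∀ (V : Type) (X : SimpleGraph V) (_ : MulAction (PresentedGroup S) V) (o : V),
    X.Connected → (∀ v, (X.neighborSet v).Finite) → OrbQI R S X o → CBD X

open Filter Topology

/-- the main theorem -/
def MainStmt : Prop :=
  ∀ R : ℕ, ∃ d : ℝ, 0 < d ∧ ∀ (m : ℕ) (N : ℕ → ℕ), 2 ≤ m →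
    (∀ᶠ l : ℕ in atTop, 1 ≤ N l ∧ (N l : ℝ) ≤ ((2 * m - 1 : ℕ) : ℝ) ^ (d * l)) →
    Tendsto (fun l : ℕ => prob m l (N l) fun r => GDR R (rels r)) atTop (𝓝 1)

/-! ### Definitions for the proof -/

/-- `p` is equivariant and coarsely Lipschitz in both directions -/
structure Ctrl {m : ℕ} (R : ℕ) (S : Set (FG m)) {V : Type} [MulAction (PresentedGroup S) V]
    (X : SimpleGraph V) (p : V → PresentedGroup S) : Prop where
  conn : X.Connected
  lf : ∀ v, (X.neighborSet v).Finite
  act : ∀ (g : PresentedGroup S) (v w : V), X.Adj v w → X.Adj (g • v) (g • w)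
  eqv : ∀ (g : PresentedGroup S) (v : V), p (g • v) = g * p v
  lip : ∀ v w : V, X.Adj v w → ∃ f : FG m, f.norm ≤ R ∧ p w = p v * PresentedGroup.mk S f
  colip : ∀ (v w : V) (f : FG m), f.norm ≤ 1 → p w = p v * PresentedGroup.mk S f →
    X.dist v w ≤ R

/-- the kernel of `F → G` -/
abbrev KN {m l n : ℕ} (r : Fin n → Word m l) : Subgroup (FG m) := Subgroup.normalClosure (rels r)

/-- small cancellation with constant `C` -/
structure SCl {m l n : ℕ} [NeZero l] (C P : ℕ) (r : Fin n → Word m l) : Prop where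
  cyc : ∀ j, CycRed (r j)
  sc : SC r P
  pos : 1 ≤ P
  big : C * (P + 1) ≤ l

/-- the additivity constant -/
def kc (R : ℕ) : ℕ := 2 * R * (R + 1)

/-- a space with an action of the free group, quasi-isometric to the free group with additive
distances along geodesics of the tree -/
structure QT {m : ℕ} (R : ℕ) {Y : Type} [MulAction (FG m) Y] (π : Y → FG m)
    (D : Y → Y → ℕ) : Prop where
  self : ∀ x, D x x = 0
  comm : ∀ x y, D x y = D y x
  tri : ∀ x y z, D x z ≤ D x y + D y z
  isom : ∀ (f : FG m) (x y : Y), D (f • x) (f • y) = D x y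
  pi : ∀ (f : FG m) (y : Y), π (f • y) = f * π y
  surj : ∀ g : FG m, ∃ y, π y = g
  low : ∀ x y, td (π x) (π y) ≤ R * D x y
  up : ∀ x y, D x y ≤ R * (td (π x) (π y) + 1)
  add : ∀ x y z, td (π x) (π y) + td (π y) (π z) = td (π x) (π z) → D x y + D y z ≤ D x z + kc R

/-- `β` is a bijective isometry which normalises the action of `K`, with inverse `β'` -/
structure NAut {m : ℕ} (K : Subgroup (FG m)) {Y : Type} [MulAction (FG m) Y] (D : Y → Y → ℕ)
    (β β' : Y → Y) (θ θ' : FG m → FG m) : Prop where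
  inv1 : ∀ y, β' (β y) = y
  inv2 : ∀ y, β (β' y) = y
  isom : ∀ x y, D (β x) (β y) = D x y
  mem : ∀ k ∈ K, θ k ∈ K
  mem' : ∀ k ∈ K, θ' k ∈ K
  eqv : ∀ k ∈ K, ∀ y, β (k • y) = θ k • β y
  eqv' : ∀ k ∈ K, ∀ y, β' (k • y) = θ' k • β' y

/-- the displacement of `k` -/
noncomputable def tau {m : ℕ} {Y : Type} [MulAction (FG m) Y] (D : Y → Y → ℕ) (k : FG m) : ℕ :=
  sInf {d | ∃ y : Y, D y (k • y) = d}

/-- the conjugates of the relators and of their inverses -/
def RR {m l n : ℕ} (r : Fin n → Word m l) : Set (FG m) :=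
  {s | ∃ (x : FG m) (j : Fin n), s = x * el (r j) * x⁻¹ ∨ s = x * (el (r j))⁻¹ * x⁻¹}

/-- the cyclically reduced ones -/
def R1 {m l n : ℕ} (r : Fin n → Word m l) : Set (FG m) := {u | u ∈ RR r ∧ u.norm = l}

/-- the number of cyclically reduced relators that start with `v` -/
noncomputable def nn {m l n : ℕ} (r : Fin n → Word m l) (v : List (Ltr m)) : ℕ :=
  Nat.card {u : FG m // u ∈ R1 r ∧ v <+: u.toWord}

/-- `θ` at the vertex `g` -/
def th {m : ℕ} (θ : FG m → FG m) (g u : FG m) : FG m := g⁻¹ * θ (g * u * g⁻¹) * g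

/-- `θ` respects the relator lines through `g` and their next vertices -/
def TT {m l n : ℕ} (r : Fin n → Word m l) (θ : FG m → FG m) (g : FG m) : Prop :=
  ∀ u ∈ R1 r, th θ g u ∈ R1 r ∧ (th θ g u).toWord.head? = u.toWord.head?

/-- all reduced words of length two occur -/
def TL {m l n : ℕ} (r : Fin n → Word m l) : Prop :=
  ∀ a b : Ltr m, b ≠ linv a → ∃ u ∈ R1 r, u.toWord.head? = some b ∧ u.toWord.getLast? = some a

/-- the sums of the numbers of occurrences of continuations of `W` are different -/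
def EV {m l n : ℕ} (r : Fin n → Word m l) (W : List (Ltr m)) (D : ℕ) : Prop :=
  ∀ U U' : Finset (List (Ltr m)), (∀ c ∈ U, c.length = D ∧ RedL (W ++ c)) →
    (∀ c ∈ U', c.length = D ∧ RedL (W ++ c)) →
    ∑ c ∈ U, nn r (W ++ c) = ∑ c ∈ U', nn r (W ++ c) → U = U'

/-- marked words -/
def Mk {m : ℕ} (D : ℕ) (W : List (Ltr m)) : Prop :=
  ∃ (b c : Ltr m) (τ : List (Ltr m)), W = List.replicate (2 * D + 8) b ++ c :: τ ∧ RedL W ∧
    τ.length = 2 * D + 10 ∧ c ≠ b ∧ ¬ List.replicate (D + 6) b <:+: τ ∧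
    ¬ List.replicate (D + 6) (linv b) <:+: τ

/-- every marked word has the property `EV` -/
def EVA {m l n : ℕ} (r : Fin n → Word m l) (D : ℕ) : Prop := ∀ W, Mk D W → EV r W D

/-! ### The covering -/

/-- the vertices of the covering of the graph with kernel `normalClosure S`; `⟨g, v⟩` is over the
vertex `g v` -/
structure YT {m : ℕ} (S : Set (FG m)) {V : Type} (p : V → PresentedGroup S) : Type where
  /-- the element of the free group -/
  g : FG m
  /-- the vertex over `1` -/
  v : V
  h : p v = 1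

instance {m : ℕ} {S : Set (FG m)} {V : Type} {p : V → PresentedGroup S} :
    MulAction (FG m) (YT S p) where
  smul f y := ⟨f * y.g, y.v, y.h⟩
  one_smul y := by
    obtain ⟨g, v, h⟩ := y
    show (⟨1 * g, v, h⟩ : YT S p) = ⟨g, v, h⟩
    simp
  mul_smul f f' y := by
    obtain ⟨g, v, h⟩ := y
    show (⟨f * f' * g, v, h⟩ : YT S p) = ⟨f * (f' * g), v, h⟩
    simp [mul_assoc]

/-- the projection of the covering -/
def pt {m : ℕ} {S : Set (FG m)} {V : Type} [MulAction (PresentedGroup S) V]
    {p : V → PresentedGroup S} (y : YT S p) : V := PresentedGroup.mk S y.g • y.v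

theorem td_comm' {m : ℕ} (x y : FG m) : td x y = td y x := by
  unfold td
  rw [← FreeGroup.norm_inv_eq, mul_inv_rev, inv_inv]

/-- the covering graph -/
def XT {m : ℕ} (R : ℕ) (S : Set (FG m)) {V : Type} [MulAction (PresentedGroup S) V]
    (X : SimpleGraph V) (p : V → PresentedGroup S) : SimpleGraph (YT S p) where
  Adj y z := X.Adj (pt y) (pt z) ∧ td y.g z.g ≤ R
  symm := ⟨fun y z h => ⟨h.1.symm, by rw [td_comm']; exact h.2⟩⟩
  loopless := ⟨fun y h => X.loopless.1 _ h.1⟩

/-! ### Counting -/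

/-- the inverse word -/
def invw {m : ℕ} (v : List (Ltr m)) : List (Ltr m) := (v.map linv).reverse

/-- the number of cyclic occurrences of `v` in the words of the family -/
noncomputable def occ {m l n : ℕ} [NeZero l] (r : Fin n → Word m l) (v : List (Ltr m)) : ℕ :=
  Nat.card {x : Fin n × Fin l // ∀ (i : ℕ) (h : i < v.length), v[i] = per (r x.1) (x.2 + i)}

/-- the window of length `k` at the place `t` -/
def win {m l : ℕ} [NeZero l] (w : Word m l) (k t : ℕ) : List (Ltr m) :=
  (List.range k).map fun i => per w (t + i)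

/-- cyclic sum over the windows of length `k` -/
def fsum {m l : ℕ} [NeZero l] (f : List (Ltr m) → ℤ) (k : ℕ) (w : Word m l) : ℤ :=
  ∑ t : Fin l, f (win w k t)

/-- sum over the windows of length `k` of a list -/
def lsum {m : ℕ} (f : List (Ltr m) → ℤ) (k : ℕ) (L : List (Ltr m)) : ℤ :=
  ∑ t ∈ Finset.range (L.length + 1 - k), f ((L.drop t).take k)

end RBG
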