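import Pool.Agent.RBG.Base
import Pool.Agent.RGD.DCP

/-!
# MP_0a3593_al, bounded geometry, module EVP: most families satisfy `EVA`
-/

set_option autoImplicit false

namespace RBG

open RGD

namespace EVP

open Finset

variable {m l n : ℕ}

theorem length_invw (v : List (Ltr m)) : (invw v).length = v.length := by
  simp [invw]

theorem Mk_length {D : ℕ} {W : List (Ltr m)} (h : Mk D W) : W.length = 4 * D + 19 := by
  obtain ⟨b, c, τ, h1, -, h2, -⟩ := h
  rw [h1]
  simp only [List.length_append, List.length_replicate, List.length_cons, h2]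
  omega

theorem win_eq_iff [NeZero l] (w : Word m l) (t : ℕ) (v : List (Ltr m)) :
    win w v.length t = v ↔ ∀ (i : ℕ) (h : i < v.length), v[i] = per w (t + i) := by
  constructor
  · intro h i hi
    have h1 : (win w v.length t)[i]? = v[i]? := by rw [h]
    rw [List.getElem?_eq_getElem hi] at h1
    unfold win at h1
    rw [List.getElem?_map, List.getElem?_range hi] at h1
    simpa using h1.symm
  · intro h
    apply List.ext_getElem
    · simp [win]
    · intro i h1 h2
      rw [h i h2]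
      simp [win]

/-- `occ` as a sum -/
theorem occ_eq [NeZero l] (r : Fin n → Word m l) (v : List (Ltr m)) :
    (occ r v : ℤ) = ∑ j, ∑ t : Fin l, if win (r j) v.length t = v then (1 : ℤ) else 0 := by
  classical
  rw [occ, Nat.card_eq_fintype_card, Fintype.card_subtype, Finset.card_filter,
    ← Finset.univ_product_univ, Finset.sum_product]
  push_cast
  apply Finset.sum_congr rfl
  intro j _
  apply Finset.sum_congr rfl
  intro t _
  by_cases h : win (r j) v.length t = v
  · rw [if_pos h, if_pos ((win_eq_iff _ _ _).1 h)]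
  · rw [if_neg h, if_neg (fun h' => h ((win_eq_iff _ _ _).2 h'))]

/-- the sum over `U` -/
theorem nn_sum [NeZero l] (r : Fin n → Word m l) (k : ℕ) (W : List (Ltr m))
    (U : Finset (List (Ltr m))) (hU : ∀ c ∈ U, (W ++ c).length = k)
    (hn : ∀ v : List (Ltr m), v.length = k → nn r v = occ r v + occ r (invw v)) :
    (∑ c ∈ U, (nn r (W ++ c) : ℤ)) = ∑ j, ∑ t : Fin l, ∑ c ∈ U,
      ((if win (r j) k t = W ++ c then (1 : ℤ) else 0) +
        if win (r j) k t = invw (W ++ c) then 1 else 0) := by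
  have h1 : ∀ j, (∑ t : Fin l, ∑ c ∈ U,
      ((if win (r j) k t = W ++ c then (1 : ℤ) else 0) +
        if win (r j) k t = invw (W ++ c) then 1 else 0)) = ∑ c ∈ U, ∑ t : Fin l,
      ((if win (r j) k t = W ++ c then (1 : ℤ) else 0) +
        if win (r j) k t = invw (W ++ c) then 1 else 0) := fun j => Finset.sum_comm
  rw [Finset.sum_congr rfl fun j _ => h1 j, Finset.sum_comm]
  apply Finset.sum_congr rfl
  intro c hc
  have h2 := hU c hc
  rw [hn _ h2]
  push_cast
  rw [occ_eq, occ_eq, ← Finset.sum_add_distrib]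
  apply Finset.sum_congr rfl
  intro j _
  rw [Finset.sum_add_distrib, length_invw, h2]

/-- the difference of the two sums -/
theorem diff_eq [NeZero l] (r : Fin n → Word m l) (k : ℕ) (W : List (Ltr m))
    (U U' : Finset (List (Ltr m))) (hU : ∀ c ∈ U, (W ++ c).length = k)
    (hU' : ∀ c ∈ U', (W ++ c).length = k)
    (hn : ∀ v : List (Ltr m), v.length = k → nn r v = occ r v + occ r (invw v))
    (h : ∑ c ∈ U, nn r (W ++ c) = ∑ c ∈ U', nn r (W ++ c)) :
    ∑ j, fsum (fev W U U') k (r j) = 0 := by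
  have h1 := nn_sum r k W U hU hn
  have h2 := nn_sum r k W U' hU' hn
  have h3 : (∑ c ∈ U, (nn r (W ++ c) : ℤ)) = ∑ c ∈ U', (nn r (W ++ c) : ℤ) := by
    exact_mod_cast h
  unfold fsum fev
  simp only [Finset.sum_sub_distrib]
  rw [← h1, ← h2, h3, sub_self]

/-- the triples -/
abbrev Tr (m : ℕ) := List (Ltr m) × Finset (List (Ltr m)) × Finset (List (Ltr m))

/-- the finite set of triples -/
noncomputable def TT0 (m D : ℕ) : Finset (Tr m) :=
  (List.finite_length_eq (Ltr m) (4 * D + 19)).toFinset ×ˢ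
    ((List.finite_length_eq (Ltr m) D).toFinset.powerset ×ˢ
      (List.finite_length_eq (Ltr m) D).toFinset.powerset)

/-- admissible triples -/
def Ok (D : ℕ) (t : Tr m) : Prop :=
  Mk D t.1 ∧ (∀ c ∈ t.2.1, c.length = D ∧ RedL (t.1 ++ c)) ∧
    (∀ c ∈ t.2.2, c.length = D ∧ RedL (t.1 ++ c)) ∧ t.2.1 ≠ t.2.2

theorem Ok_mem {D : ℕ} {t : Tr m} (h : Ok D t) : t ∈ TT0 m D := by
  obtain ⟨h1, h2, h3, -⟩ := h
  unfold TT0
  rw [Finset.mem_product, Finset.mem_product, Finset.mem_powerset, Finset.mem_powerset,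
    Set.Finite.mem_toFinset]
  refine ⟨Mk_length h1, fun c hc => ?_, fun c hc => ?_⟩
  · rw [Set.Finite.mem_toFinset]
    exact (h2 c hc).1
  · rw [Set.Finite.mem_toFinset]
    exact (h3 c hc).1

theorem not_EVA [NeZero l] {D : ℕ} {r : Fin n → Word m l} (h : ¬ EVA r D)
    (hn : ∀ v : List (Ltr m), v.length = 5 * D + 19 → nn r v = occ r v + occ r (invw v)) :
    ∃ t : Tr m, Ok D t ∧ ∑ j, fsum (fev t.1 t.2.1 t.2.2) (5 * D + 19) (r j) = 0 := by
  unfold EVA EV at h
  push Not at h
  obtain ⟨W, hW, U, U', hU, hU', h1, h2⟩ := h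
  refine ⟨(W, U, U'), ⟨hW, hU, hU', h2⟩, ?_⟩
  have hlen : ∀ c : List (Ltr m), c.length = D → (W ++ c).length = 5 * D + 19 := by
    intro c hc
    rw [List.length_append, Mk_length hW, hc]
    omega
  exact diff_eq r _ W U U' (fun c hc => hlen c (hU c hc).1) (fun c hc => hlen c (hU' c hc).1) hn h1

end EVP

open EVP in
theorem t_EVP : M_EVP := by
  classical
  intro hNN hA hB m D ε hm hε
  have hK : (0 : ℝ) < (TT0 m D).card + 1 := by positivity
  have hε' : 0 < ε / ((TT0 m D).card + 1) := div_pos hε hK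
  have hex : ∀ t : Tr m, ∃ l0 : ℕ, Ok D t → ∀ (l : ℕ) [NeZero l] (c : ℤ), l0 ≤ l →
      (Nat.card {w : Word m l // CycRed w ∧
        fsum (fev t.1 t.2.1 t.2.2) (5 * D + 19) w = c} : ℝ) ≤
        ε / ((TT0 m D).card + 1) * Nat.card {w : Word m l // CycRed w} := by
    intro t
    by_cases ht : Ok D t
    · obtain ⟨A, A', h1, h2, h3, h4, h5, h6, h7⟩ :=
        hB m D t.1 t.2.1 t.2.2 hm ht.1 ht.2.1 ht.2.2.1 ht.2.2.2
      obtain ⟨l0, h0⟩ := hA m (5 * D + 19) (fev t.1 t.2.1 t.2.2) A A' _ hm (by omega) h1 h2 h3 h4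
        h5 h6 h7 hε'
      exact ⟨l0, fun _ => h0⟩
    · exact ⟨0, fun h => absurd h ht⟩
  choose L hL using hex
  refine ⟨(TT0 m D).sup L + (5 * D + 19), fun l n P _ hl hn hP hPl => ?_⟩
  obtain ⟨k, rfl⟩ : ∃ k, n = k + 1 := ⟨n - 1, by omega⟩
  have e1 : Nat.card {r : Fin (k + 1) → Word m l // ∀ j, CycRed (r j)} =
      Fintype.card (Fin (k + 1) → DCP.A m l) := by
    rw [← Nat.card_eq_fintype_card]
    exact Nat.card_congr Equiv.subtypePiEquivPi
  -- the bad families
  have e2 : Nat.card {r : Fin (k + 1) → Word m l //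
      (∀ j, CycRed (r j)) ∧ SC r P ∧ ¬ EVA r D} ≤
      (Finset.univ.filter fun s : Fin (k + 1) → DCP.A m l =>
        SC (fun j => (s j).1) P ∧ ¬ EVA (fun j => (s j).1) D).card := by
    rw [← Fintype.card_subtype, ← Nat.card_eq_fintype_card]
    apply Nat.card_le_card_of_injective (fun r => (⟨fun j => ⟨r.1 j, r.2.1 j⟩, r.2.2⟩ :
      {s : Fin (k + 1) → DCP.A m l //
        SC (fun j => (s j).1) P ∧ ¬ EVA (fun j => (s j).1) D}))
    intro r r' h
    apply Subtype.ext
    funext j
    have h1 := congrArg Subtype.val h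
    have h2 := congrFun h1 j
    exact congrArg Subtype.val h2
  have e3 : (Finset.univ.filter fun s : Fin (k + 1) → DCP.A m l =>
        SC (fun j => (s j).1) P ∧ ¬ EVA (fun j => (s j).1) D) ⊆
      ((TT0 m D).filter fun t : Tr m => Ok D t).biUnion fun t =>
        Finset.univ.filter fun s : Fin (k + 1) → DCP.A m l =>
          ∑ j, fsum (fev t.1 t.2.1 t.2.2) (5 * D + 19) (s j).1 = 0 := by
    intro s hs
    rw [Finset.mem_filter] at hs
    obtain ⟨t, h1, h2⟩ := not_EVA hs.2.2 (fun v hv =>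
      hNN m l (k + 1) P (fun j => (s j).1) (fun j => (s j).2) hs.2.1 hP hPl v (by omega))
    rw [Finset.mem_biUnion]
    exact ⟨t, Finset.mem_filter.2 ⟨Ok_mem h1, h1⟩,
      Finset.mem_filter.2 ⟨Finset.mem_univ _, h2⟩⟩
  have e4 : ∀ t ∈ (TT0 m D).filter fun t : Tr m => Ok D t,
      ((Finset.univ.filter fun s : Fin (k + 1) → DCP.A m l =>
        ∑ j, fsum (fev t.1 t.2.1 t.2.2) (5 * D + 19) (s j).1 = 0).card : ℝ) ≤
        ε / ((TT0 m D).card + 1) * Fintype.card (Fin (k + 1) → DCP.A m l) := by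
    intro t ht
    have ht' : Ok D t := (Finset.mem_filter.1 ht).2
    refine DCP.count (fun a : DCP.A m l => fsum (fev t.1 t.2.1 t.2.2) (5 * D + 19) a.1) _
      (fun c => ?_) k
    have hle : L t ≤ (TT0 m D).sup L := Finset.le_sup (f := L) (Finset.mem_filter.1 ht).1
    have h1 := hL t ht' l c (by omega)
    rw [Nat.card_eq_fintype_card (α := {w : Word m l // CycRed w})] at h1
    refine le_trans (le_of_eq ?_) h1
    rw [← Fintype.card_subtype, ← Nat.card_eq_fintype_card]
    congr 1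
    refine Nat.card_congr ⟨fun a => ⟨a.1.1, a.1.2, a.2⟩, fun w => ⟨⟨w.1, w.2.1⟩, w.2.2⟩,
      fun a => rfl, fun w => rfl⟩
  rw [e1]
  have h5 : (Nat.card {r : Fin (k + 1) → Word m l //
      (∀ j, CycRed (r j)) ∧ SC r P ∧ ¬ EVA r D} : ℝ) ≤
      ∑ t ∈ (TT0 m D).filter fun t : Tr m => Ok D t,
        ((Finset.univ.filter fun s : Fin (k + 1) → DCP.A m l =>
          ∑ j, fsum (fev t.1 t.2.1 t.2.2) (5 * D + 19) (s j).1 = 0).card : ℝ) := by
    have := (e2.trans (Finset.card_le_card e3)).trans Finset.card_biUnion_le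
    exact_mod_cast this
  refine h5.trans ((Finset.sum_le_sum e4).trans ?_)
  rw [Finset.sum_const, nsmul_eq_mul]
  have h6 : (((TT0 m D).filter fun t : Tr m => Ok D t).card : ℝ) ≤ (TT0 m D).card + 1 := by
    have : ((TT0 m D).filter fun t : Tr m => Ok D t).card ≤ (TT0 m D).card :=
      Finset.card_filter_le _ _
    have h7 : (((TT0 m D).filter fun t : Tr m => Ok D t).card : ℝ) ≤ (TT0 m D).card := by
      exact_mod_cast this
    linarith
  have h8 : (0 : ℝ) ≤ Fintype.card (Fin (k + 1) → DCP.A m l) := by positivity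
  calc (((TT0 m D).filter fun t : Tr m => Ok D t).card : ℝ) *
        (ε / ((TT0 m D).card + 1) * Fintype.card (Fin (k + 1) → DCP.A m l))
      ≤ ((TT0 m D).card + 1) *
        (ε / ((TT0 m D).card + 1) * Fintype.card (Fin (k + 1) → DCP.A m l)) := by
        apply mul_le_mul_of_nonneg_right h6
        exact mul_nonneg hε'.le h8
    _ = ε * Fintype.card (Fin (k + 1) → DCP.A m l) := by
        field_simp

end RBG
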