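import Pool.Agent.RBG.Base

/-!
# MP_0a3593_al, bounded geometry, module FB: lifts of automorphisms that fix a ball
-/

set_option autoImplicit false

namespace RBG

open RGD

namespace FB

/-- an element of norm `n + 1` has a neighbour of norm `n` -/
theorem exists_shorter {m : ℕ} (g : FG m) (n : ℕ) (hg : g.norm = n + 1) :
    ∃ g1 : FG m, g1.norm = n ∧ td g g1 ≤ 1 := by
  have hlen : g.toWord.length = n + 1 := hg
  have hne : g.toWord ≠ [] := by
    intro h
    rw [h] at hlen
    simp at hlen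
  have hsplit := List.dropLast_append_getLast hne
  have hred : RedL (g.toWord.dropLast ++ [g.toWord.getLast hne]) := by
    rw [hsplit]
    exact redL_toWord g
  refine ⟨FreeGroup.mk g.toWord.dropLast, ?_, ?_⟩
  · rw [norm_mk (RedL.left hred), List.length_dropLast, hlen]
    rfl
  · have h1 : g = FreeGroup.mk g.toWord.dropLast * FreeGroup.mk [g.toWord.getLast hne] := by
      rw [← mk_append, hsplit, mk_toWord]
    rw [td_comm']
    have h2 : td (FreeGroup.mk g.toWord.dropLast) g =
        (FreeGroup.mk [g.toWord.getLast hne] : FG m).norm := by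
      unfold td
      congr 1
      rw [inv_mul_eq_iff_eq_mul]
      exact h1
    rw [h2]
    exact norm_mk_le _

end FB

theorem t_FB : M_FB := by
  intro hSH hXT R hR
  obtain ⟨C1, hC1⟩ := hSH (R * (4 * R))
  obtain ⟨C2, hC2⟩ := hXT R hR
  refine ⟨C1 + C2, ?_⟩
  intro m l n P _ r hr V _ X p hp α β β' θ θ' hN hβ ρ y0 hfix hy0 hβ0
  obtain ⟨hQ, -, -, -, hlast⟩ := hC2 m l n P r (hr.mono (Nat.le_add_left _ _)) V X p hp
  have hsh := hC1 m l n P r (hr.mono (Nat.le_add_right _ _))
  -- the main step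
  have key : ∀ y : YT (rels r) p, y.g.norm ≤ ρ →
      (XT R (rels r) X p).dist (β y) y ≤ 4 * R → β y = y := by
    intro y hy hD
    have h1 : pt y = pt (β y) := by rw [hβ, hfix y hy]
    obtain ⟨k, hk, hky⟩ := hlast y (β y) h1
    have h2 : td (β y).g y.g ≤ R * (XT R (rels r) X p).dist (β y) y := hQ.low (β y) y
    have h3 : (β y).g = k * y.g := by
      rw [hky]
      rfl
    have h4 : (y.g⁻¹ * k * y.g).norm ≤ R * (4 * R) * (P + 1) := by
      rw [td_conj, ← h3, td_comm']
      calc td (β y).g y.g ≤ R * (XT R (rels r) X p).dist (β y) y := h2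
        _ ≤ R * (4 * R) := Nat.mul_le_mul_left _ hD
        _ ≤ R * (4 * R) * (P + 1) := Nat.le_mul_of_pos_right _ (Nat.succ_pos P)
    have h5 : y.g⁻¹ * k * y.g ∈ KN r := by
      have := KN_conj hk y.g⁻¹
      rwa [inv_inv] at this
    have h6 := hsh _ h5 h4
    have h7 : k = 1 := by
      have h8 : k = y.g * (y.g⁻¹ * k * y.g) * y.g⁻¹ := by group
      rw [h8, h6]
      group
    rw [hky, h7, one_smul]
  have hdist : ∀ y y1 : YT (rels r) p, β y1 = y1 → (XT R (rels r) X p).dist y y1 ≤ 2 * R →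
      (XT R (rels r) X p).dist (β y) y ≤ 4 * R := by
    intro y y1 h1 h2
    have h3 := hQ.tri (β y) (β y1) y
    rw [hN.isom, h1, hQ.comm y1 y] at h3
    omega
  have main : ∀ (N : ℕ) (y : YT (rels r) p), y.g.norm = N → y.g.norm ≤ ρ → β y = y := by
    intro N
    induction N with
    | zero =>
      intro y h0 hy
      have h1 : y.g = 1 := FreeGroup.norm_eq_zero.1 h0
      refine key y hy (hdist y y0 hβ0 ?_)
      have h2 : (XT R (rels r) X p).dist y y0 ≤ R := hQ.fib (by rw [h1, hy0])
      omega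
    | succ N ih =>
      intro y h0 hy
      obtain ⟨g1, hg1, htd⟩ := FB.exists_shorter y.g N h0
      obtain ⟨y1, hy1⟩ := hQ.surj g1
      have h1 : β y1 = y1 := ih y1 (by rw [hy1]; exact hg1) (by rw [hy1, hg1]; omega)
      refine key y hy (hdist y y1 h1 ?_)
      have h2 : (XT R (rels r) X p).dist y y1 ≤ R * (td y.g y1.g + 1) := hQ.up y y1
      have hy1' : y1.g = g1 := hy1
      rw [hy1'] at h2
      calc (XT R (rels r) X p).dist y y1 ≤ R * (td y.g g1 + 1) := h2
        _ ≤ R * 2 := Nat.mul_le_mul_left _ (by omega)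
        _ = 2 * R := Nat.mul_comm _ _
  exact fun y hy => main _ y rfl hy

end RBG
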