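import Pool.Agent.RBG.Base

/-!
# RBG, FIX: the relators are fixed
-/

set_option autoImplicit false

namespace RBG

open RGD

theorem t_FIX : M_FIX := by
  intro hRF hPRE m l n _ r hr θ hT s hs
  obtain ⟨-, h2, -⟩ := hRF m l n r hr
  obtain ⟨x, w, -, hu, rfl⟩ := h2 s hs
  have hlen : (el w).toWord.length = l := hu.2
  have hne : (el w).toWord ≠ [] := by
    intro h0
    rw [h0, List.length_nil] at hlen
    exact NeZero.ne l hlen.symm
  obtain ⟨h3, h4⟩ := hPRE m l n r hr θ x (el w).toWord hne (fun i _ => hT _) (el w) hu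
    (List.prefix_refl _)
  have hlen2 : (th θ x (el w)).toWord.length = l := h3.2
  have h5 : (el w).toWord = (th θ x (el w)).toWord := h4.eq_of_length (by rw [hlen, hlen2])
  have h6 : el w = x⁻¹ * θ (x * el w * x⁻¹) * x := FreeGroup.toWord_injective h5
  have h7 : x * (x⁻¹ * θ (x * el w * x⁻¹) * x) * x⁻¹ = θ (x * el w * x⁻¹) := by group
  rw [← h6] at h7
  exact h7.symm

end RBG
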