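import Pool.Agent.RBG.Base

/-!
# RBG, GEOM: from a quasi-isometric orbit map to an equivariant map
-/

set_option autoImplicit false

namespace RBG

open RGD Pool.Agent.Olsh

namespace GEOM

theorem finite_ball (m B : ℕ) : {f : FG m | f.norm ≤ B}.Finite := by
  have h : ({L : List (Fin m × Bool) | L.length ≤ B}).Finite := List.finite_length_le _ B
  exact Set.Finite.preimage (FreeGroup.toWord_injective.injOn) h

theorem eq_one_of_pow {m B : ℕ} {f : FG m} (h : ∀ M : ℕ, (f ^ M).norm ≤ B) : f = 1 := by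
  obtain ⟨a, b, hab, he⟩ := Set.Finite.exists_lt_map_eq_of_forall_mem (f := fun M : ℕ => f ^ M)
    (t := {f : FG m | f.norm ≤ B}) (fun M => h M) (finite_ball m B)
  have h1 : f ^ (b - a) = 1 := by
    have h2 : f ^ a * f ^ (b - a) = f ^ a * 1 := by
      rw [← pow_add, mul_one, Nat.add_sub_cancel' hab.le]
      exact he.symm
    exact mul_left_cancel h2
  exact (pow_eq_one_iff_left (by omega)).1 h1

section

variable {m R : ℕ} {S : Set (FG m)} {V : Type} [MulAction (PresentedGroup S) V]
  {X : SimpleGraph V} {o : V}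

theorem dist_smul_le (hc : X.Connected) (h : OrbQI R S X o) (g : PresentedGroup S) (v w : V) :
    X.dist (g • v) (g • w) ≤ X.dist v w := by
  obtain ⟨p, hp⟩ := hc.exists_walk_length_eq_dist v w
  rw [← hp]
  let φ : X →g X := ⟨fun v => g • v, fun {a b} hab => h.act g a b hab⟩
  have h1 := SimpleGraph.dist_le (p.map φ)
  rw [SimpleGraph.Walk.length_map] at h1
  exact h1

theorem dist_smul (hc : X.Connected) (h : OrbQI R S X o) (g : PresentedGroup S) (v w : V) :
    X.dist (g • v) (g • w) = X.dist v w := by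
  refine le_antisymm (dist_smul_le hc h g v w) ?_
  have h1 := dist_smul_le hc h g⁻¹ (g • v) (g • w)
  rwa [inv_smul_smul, inv_smul_smul] at h1

theorem wd_spec (S : Set (FG m)) (g h : PresentedGroup S) :
    ∃ f : FG m, f.norm = wd S g h ∧ g * PresentedGroup.mk S f = h := by
  have h1 : {n | ∃ f : FG m, f.norm = n ∧ g * PresentedGroup.mk S f = h}.Nonempty := by
    obtain ⟨f, hf⟩ := PresentedGroup.mk_surjective S (g⁻¹ * h)
    exact ⟨f.norm, f, rfl, by rw [hf, mul_inv_cancel_left]⟩
  exact Nat.sInf_mem h1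

theorem wd_le {S : Set (FG m)} {g h : PresentedGroup S} (f : FG m)
    (hf : g * PresentedGroup.mk S f = h) : wd S g h ≤ f.norm :=
  Nat.sInf_le ⟨f, rfl, hf⟩

/-- the action is free -/
theorem free (hc : X.Connected) (h : OrbQI R S X o) {B : ℕ} (hB : B = R * (2 * R) + R)
    (hS : ∀ k : FG m, PresentedGroup.mk S k = 1 → k.norm ≤ 3 * B → k = 1) {g : PresentedGroup S}
    {v : V} (hg : g • v = v) : g = 1 := by
  obtain ⟨k, hk⟩ := h.dense v
  have h1 : ∀ M : ℕ, g ^ M • v = v := by
    intro M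
    induction M with
    | zero => rw [pow_zero, one_smul]
    | succ M ih => rw [pow_succ, mul_smul, hg, ih]
  have h2 : ∀ M : ℕ, X.dist (k • o) ((g ^ M * k) • o) ≤ 2 * R := by
    intro M
    have h3 : X.dist (k • o) ((g ^ M * k) • o) ≤
        X.dist (k • o) v + X.dist v ((g ^ M * k) • o) := hc.dist_triangle
    have h4 := dist_smul_le hc h (g ^ M) v (k • o)
    rw [h1 M, smul_smul] at h4
    rw [SimpleGraph.dist_comm (u := k • o) (v := v)] at h3
    omega
  have h5 : ∀ M : ℕ, ∃ f : FG m, f.norm ≤ B ∧ PresentedGroup.mk S f = (k⁻¹ * g * k) ^ M := by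
    intro M
    obtain ⟨f, hf1, hf2⟩ := wd_spec S k (g ^ M * k)
    refine ⟨f, ?_, ?_⟩
    · rw [hf1, hB]
      exact (h.lo k (g ^ M * k)).trans (Nat.add_le_add_right (Nat.mul_le_mul_left _ (h2 M)) _)
    · have h6 : PresentedGroup.mk S f = k⁻¹ * (g ^ M * k) := by
        rw [← hf2, inv_mul_cancel_left]
      have h7 := conj_pow (i := M) (a := k⁻¹) (b := g)
      rw [inv_inv] at h7
      rw [h6, h7, mul_assoc]
  choose f hf1 hf2 using h5
  have h6 : f 0 = 1 := hS _ (by rw [hf2, pow_zero]) ((hf1 0).trans (by omega))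
  have h7 : ∀ M, f (M + 1) = f M * f 1 := by
    intro M
    have h8 := hS ((f (M + 1))⁻¹ * (f M * f 1)) ?_ ?_
    · exact inv_mul_eq_one.1 h8
    · rw [map_mul, map_inv, map_mul, hf2, hf2, hf2, pow_one, ← pow_succ, inv_mul_cancel]
    · have h9 := FreeGroup.norm_mul_le (f (M + 1))⁻¹ (f M * f 1)
      have h10 := FreeGroup.norm_mul_le (f M) (f 1)
      rw [FreeGroup.norm_inv_eq] at h9
      have h11 := hf1 (M + 1)
      have h12 := hf1 M
      have h13 := hf1 1
      omega
  have h8 : ∀ M, f M = f 1 ^ M := by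
    intro M
    induction M with
    | zero => rw [h6, pow_zero]
    | succ M ih => rw [h7, ih, pow_succ]
  have h9 : f 1 = 1 := eq_one_of_pow (B := B) fun M => by
    rw [← h8]
    exact hf1 M
  have h10 := hf2 1
  rw [h9, map_one, pow_one] at h10
  have h11 : k * (k⁻¹ * g * k) * k⁻¹ = g := by group
  rw [← h11, ← h10, mul_one, mul_inv_cancel]

theorem exists_p (hc : X.Connected) (hlf : ∀ v, (X.neighborSet v).Finite) (h : OrbQI R S X o)
    (hfree : ∀ (g : PresentedGroup S) (v : V), g • v = v → g = 1) :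
    ∃ p : V → PresentedGroup S, Ctrl (4 * (R + 1) ^ 2) S X p := by
  classical
  have h2 : ∀ q : MulAction.orbitRel.Quotient (PresentedGroup S) V,
      ∃ v' : V, (Quotient.mk'' v' : MulAction.orbitRel.Quotient (PresentedGroup S) V) = q ∧
        X.dist v' o ≤ R := by
    intro q
    induction q using Quotient.inductionOn' with
    | h v =>
      obtain ⟨g, hg⟩ := h.dense v
      refine ⟨g⁻¹ • v, Quotient.sound' ⟨g⁻¹, rfl⟩, ?_⟩
      have h3 := dist_smul hc h g (g⁻¹ • v) o
      rw [smul_inv_smul] at h3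
      rw [← h3]
      exact hg
  choose s hs1 hs2 using h2
  have h3 : ∀ v : V, ∃ g : PresentedGroup S, g • s (Quotient.mk'' v) = v := by
    intro v
    obtain ⟨g, hg⟩ := Quotient.exact' (hs1 (Quotient.mk'' v))
    refine ⟨g⁻¹, ?_⟩
    have h4 : g • v = s (Quotient.mk'' v) := hg
    rw [← h4, inv_smul_smul]
  choose p hp using h3
  have heqv : ∀ (g : PresentedGroup S) (v : V), p (g • v) = g * p v := by
    intro g v
    have hq : (Quotient.mk'' (g • v) : MulAction.orbitRel.Quotient (PresentedGroup S) V) =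
        Quotient.mk'' v := Quotient.sound' ⟨g, rfl⟩
    have h4 := hp (g • v)
    rw [hq] at h4
    have h5 : (g * p v) • s (Quotient.mk'' v) = g • v := by rw [mul_smul, hp]
    have h6 := hfree ((g * p v)⁻¹ * p (g • v)) (s (Quotient.mk'' v)) (by
      rw [mul_smul, h4, ← h5, inv_smul_smul])
    exact (inv_mul_eq_one.1 h6).symm
  have hd : ∀ v, X.dist v (p v • o) ≤ R := by
    intro v
    have h4 := dist_smul hc h (p v) (s (Quotient.mk'' v)) o
    rw [hp] at h4
    rw [h4]
    exact hs2 _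
  refine ⟨p, ⟨hc, hlf, h.act, heqv, ?_, ?_⟩⟩
  · intro v w hvw
    obtain ⟨f, hf1, hf2⟩ := wd_spec S (p v) (p w)
    refine ⟨f, ?_, hf2.symm⟩
    rw [hf1]
    have h4 := h.lo (p v) (p w)
    have h5 : X.dist (p v • o) (p w • o) ≤ X.dist (p v • o) v + X.dist v (p w • o) :=
      hc.dist_triangle
    have h6 : X.dist v (p w • o) ≤ X.dist v w + X.dist w (p w • o) := hc.dist_triangle
    have h7 : X.dist v w = 1 := SimpleGraph.dist_eq_one_iff_adj.2 hvw
    have h8 := hd v
    have h9 := hd w
    rw [SimpleGraph.dist_comm] at h8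
    have h10 : X.dist (p v • o) (p w • o) ≤ 2 * R + 1 := by omega
    have h11 := Nat.mul_le_mul_left R h10
    nlinarith
  · intro v w f hf hw
    have h4 := wd_le f hw.symm
    have h5 := h.up (p v) (p w)
    have h6 : X.dist v w ≤ X.dist v (p v • o) + X.dist (p v • o) w := hc.dist_triangle
    have h7 : X.dist (p v • o) w ≤ X.dist (p v • o) (p w • o) + X.dist (p w • o) w :=
      hc.dist_triangle
    have h8 := hd v
    have h9 := hd w
    rw [SimpleGraph.dist_comm] at h9
    have h10 := Nat.mul_le_mul_left R (h4.trans hf)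
    nlinarith

end

end GEOM

open GEOM in
theorem t_GEOM : M_GEOM := by
  rintro ⟨C0, hC0, hG⟩ R
  refine ⟨C0 + 3 * (R * (2 * R) + R) + 1, ?_⟩
  intro m l n P _ r hr V _ X o hc hlf h
  refine exists_p hc hlf h fun g v hg => ?_
  refine free hc h rfl (fun k hk hn => ?_) hg
  by_contra hk1
  have hpos := hr.pos
  have hbig := hr.big
  have h1 : C0 * (P + 1) ≤ l := by
    refine le_trans (Nat.mul_le_mul_right _ ?_) hbig
    omega
  obtain ⟨a, p, b, hw, hl, -⟩ := hG m l n P r hr.cyc hr.sc hr.pos h1 k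
    (PresentedGroup.mk_eq_one_iff.1 hk) hk1
  have h2 : p.length ≤ k.norm := by
    rw [FreeGroup.norm, hw, List.length_append, List.length_append]
    omega
  have h3 : (3 * (R * (2 * R) + R) + 1) * 1 ≤ (3 * (R * (2 * R) + R) + 1) * (P + 1) :=
    Nat.mul_le_mul_left _ (by omega)
  have h4 : (C0 + 3 * (R * (2 * R) + R) + 1) * (P + 1) =
      C0 * (P + 1) + (3 * (R * (2 * R) + R) + 1) * (P + 1) := by ring
  rw [h4] at hbig
  omega

end RBG
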