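import Pool.Agent.RBG.Base

/-!
# Module LIFT: automorphisms of the graph lift to the covering
-/

set_option autoImplicit false

namespace RBG

open RGD

namespace LIFT

/-- short elements are determined by their images -/
def Inj {m : ℕ} (S : Set (FG m)) (B : ℕ) : Prop := ∀ f f' : FG m, f.norm + f'.norm ≤ B →
  PresentedGroup.mk S f = PresentedGroup.mk S f' → f = f'

theorem inj_of_sh {m l n : ℕ} (r : Fin n → Word m l) (B P : ℕ)
    (h : ∀ k ∈ KN r, k.norm ≤ B * (P + 1) → k = 1) : Inj (rels r) B := by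
  intro f f' hf he
  have h1 : f⁻¹ * f' ∈ KN r := QuotientGroup.eq.1 he
  have h2 : (f⁻¹ * f').norm ≤ B * (P + 1) := by
    have h3 := FreeGroup.norm_mul_le f⁻¹ f'
    rw [FreeGroup.norm_inv_eq] at h3
    nlinarith
  have h3 := h _ h1 h2
  exact inv_mul_eq_one.1 h3

section psi

variable {m : ℕ} {S : Set (FG m)} {V : Type} (H : V → V → FG m) (σ : PresentedGroup S → V)

/-- the product along a word -/
def Psi : List (Fin m × Bool) → PresentedGroup S → FG m
  | [], _ => 1
  | a :: L, g => H (σ g) (σ (g * PresentedGroup.mk S (FreeGroup.mk [a]))) *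
      Psi L (g * PresentedGroup.mk S (FreeGroup.mk [a]))

theorem mk_cons (a : Fin m × Bool) (L : List (Fin m × Bool)) :
    (FreeGroup.mk (a :: L) : FG m) = FreeGroup.mk [a] * FreeGroup.mk L := by
  rw [FreeGroup.mul_mk]
  rfl

theorem Psi_append (L1 L2 : List (Fin m × Bool)) : ∀ g : PresentedGroup S,
    Psi H σ (L1 ++ L2) g =
      Psi H σ L1 g * Psi H σ L2 (g * PresentedGroup.mk S (FreeGroup.mk L1)) := by
  induction L1 with
  | nil =>
    intro g
    have : (FreeGroup.mk ([] : List (Fin m × Bool)) : FG m) = 1 := rfl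
    rw [this, map_one, mul_one]
    show _ = 1 * _
    rw [one_mul]
    rfl
  | cons a L ih =>
    intro g
    rw [List.cons_append]
    show _ * Psi H σ (L ++ L2) _ = _ * Psi H σ L _ * _
    rw [ih, mk_cons a L, map_mul, mul_assoc, mul_assoc]

theorem Psi_step (hinv : ∀ (g : PresentedGroup S) (a : Fin m × Bool),
      H (σ g) (σ (g * PresentedGroup.mk S (FreeGroup.mk [a]))) *
        H (σ (g * PresentedGroup.mk S (FreeGroup.mk [a]))) (σ g) = 1)
    {L1 L2 : List (Fin m × Bool)} (h : FreeGroup.Red.Step L1 L2) (g : PresentedGroup S) :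
    Psi H σ L1 g = Psi H σ L2 g := by
  cases h with
  | @not L L' x b =>
    rw [Psi_append, Psi_append]
    congr 1
    obtain ⟨g', hg'⟩ : ∃ g', g' = g * PresentedGroup.mk S (FreeGroup.mk L) := ⟨_, rfl⟩
    rw [← hg']
    have e1 : (FreeGroup.mk [(x, b)] : FG m) * FreeGroup.mk [(x, !b)] = 1 := by
      rw [FreeGroup.mul_mk]
      have : FreeGroup.Red.Step ([(x, b)] ++ [(x, !b)]) ([] : List (Fin m × Bool)) :=
        FreeGroup.Red.Step.not (L₁ := []) (L₂ := [])
      exact Quot.sound this
    have e2 : g' * PresentedGroup.mk S (FreeGroup.mk [(x, b)]) *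
        PresentedGroup.mk S (FreeGroup.mk [(x, !b)]) = g' := by
      rw [mul_assoc, ← map_mul, e1, map_one, mul_one]
    show H (σ g') (σ (g' * PresentedGroup.mk S (FreeGroup.mk [(x, b)]))) *
      (H (σ (g' * PresentedGroup.mk S (FreeGroup.mk [(x, b)])))
        (σ (g' * PresentedGroup.mk S (FreeGroup.mk [(x, b)]) *
          PresentedGroup.mk S (FreeGroup.mk [(x, !b)]))) *
        Psi H σ L' (g' * PresentedGroup.mk S (FreeGroup.mk [(x, b)]) *
          PresentedGroup.mk S (FreeGroup.mk [(x, !b)]))) = _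
    rw [e2, ← mul_assoc, hinv, one_mul]

theorem Psi_red (hinv : ∀ (g : PresentedGroup S) (a : Fin m × Bool),
      H (σ g) (σ (g * PresentedGroup.mk S (FreeGroup.mk [a]))) *
        H (σ (g * PresentedGroup.mk S (FreeGroup.mk [a]))) (σ g) = 1)
    {L1 L2 : List (Fin m × Bool)} (h : FreeGroup.Red L1 L2) (g : PresentedGroup S) :
    Psi H σ L1 g = Psi H σ L2 g := by
  induction h with
  | refl => rfl
  | tail _ h2 ih => rw [ih, Psi_step H σ hinv h2]

theorem Psi_mk (hinv : ∀ (g : PresentedGroup S) (a : Fin m × Bool),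
      H (σ g) (σ (g * PresentedGroup.mk S (FreeGroup.mk [a]))) *
        H (σ (g * PresentedGroup.mk S (FreeGroup.mk [a]))) (σ g) = 1)
    (f f' : FG m) (g : PresentedGroup S) :
    Psi H σ (f * f').toWord g =
      Psi H σ f.toWord g * Psi H σ f'.toWord (g * PresentedGroup.mk S f) := by
  have h1 : Psi H σ (f * f').toWord g = Psi H σ (f.toWord ++ f'.toWord) g := by
    have h2 : (f * f').toWord = FreeGroup.reduce (f.toWord ++ f'.toWord) := by
      conv_lhs => rw [← FreeGroup.mk_toWord (x := f), ← FreeGroup.mk_toWord (x := f'),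
        FreeGroup.mul_mk]
      rw [FreeGroup.toWord_mk]
    rw [h2]
    exact (Psi_red H σ hinv FreeGroup.reduce.red g).symm
  rw [h1, Psi_append, FreeGroup.mk_toWord]

end psi

theorem walk {m : ℕ} {S : Set (FG m)} {V : Type} (X : SimpleGraph V) (q : V → PresentedGroup S)
    (R : ℕ) (lip : ∀ v w : V, X.Adj v w → ∃ f : FG m, f.norm ≤ R ∧
      q w = q v * PresentedGroup.mk S f) {u v : V} (W : X.Walk u v) :
    ∃ f : FG m, f.norm ≤ R * W.length ∧ q v = q u * PresentedGroup.mk S f := by
  induction W with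
  | nil => exact ⟨1, by simp, by rw [map_one, mul_one]⟩
  | cons h W ih =>
    obtain ⟨f, hf, he⟩ := ih
    obtain ⟨f', hf', he'⟩ := lip _ _ h
    refine ⟨f' * f, ?_, ?_⟩
    · rw [SimpleGraph.Walk.length_cons]
      have := FreeGroup.norm_mul_le f' f
      nlinarith
    · rw [he, he', map_mul, mul_assoc]

end LIFT

open LIFT in
theorem t_LIFT : M_LIFT := by
  intro hSH R hR
  obtain ⟨b, hb⟩ : ∃ b : ℕ, b = R * (R * R + R) := ⟨_, rfl⟩
  obtain ⟨C, hC⟩ := hSH (3 * b)
  refine ⟨C, ?_⟩
  intro m l n P _ r hS V _ X p hctrl α y0 y1 hy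
  have hinj : Inj (rels r) (3 * b) := inj_of_sh r (3 * b) P (hC m l n P r hS)
  obtain ⟨q, hq⟩ : ∃ q : V → PresentedGroup (rels r), ∀ v, q v = p (α v) := ⟨_, fun _ => rfl⟩
  have hlip : ∀ v w : V, X.Adj v w → ∃ f : FG m, f.norm ≤ R ∧
      q w = q v * PresentedGroup.mk (rels r) f := by
    intro v w h
    rw [hq, hq]
    exact hctrl.lip _ _ (α.map_rel_iff.2 h)
  -- the relation between distance and elements
  have hdist : ∀ (D : ℕ) (u v : V), X.dist u v ≤ D → ∃ f : FG m, f.norm ≤ R * D ∧
      q v = q u * PresentedGroup.mk (rels r) f := by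
    intro D u v h
    obtain ⟨W, hW⟩ := hctrl.conn.exists_walk_length_eq_dist u v
    obtain ⟨f, hf, he⟩ := walk X q R hlip W
    exact ⟨f, hf.trans (by rw [hW]; exact Nat.mul_le_mul_left _ h), he⟩
  obtain ⟨H, hH⟩ : ∃ H : V → V → FG m, ∀ u v, X.dist u v ≤ R * R + R →
      (H u v).norm ≤ b ∧ q v = q u * PresentedGroup.mk (rels r) (H u v) := by
    have h1 : ∀ u v : V, ∃ f : FG m, X.dist u v ≤ R * R + R →
        f.norm ≤ b ∧ q v = q u * PresentedGroup.mk (rels r) f := by
      intro u v
      by_cases h : X.dist u v ≤ R * R + R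
      · obtain ⟨f, hf⟩ := hdist _ u v h
        exact ⟨f, fun _ => by rw [hb]; exact hf⟩
      · exact ⟨1, fun h' => absurd h' h⟩
    choose H hH using h1
    exact ⟨H, hH⟩
  have huniq : ∀ (u v : V) (f : FG m), X.dist u v ≤ R * R + R → f.norm ≤ 2 * b →
      q v = q u * PresentedGroup.mk (rels r) f → H u v = f := by
    intro u v f h hf he
    obtain ⟨h1, h2⟩ := hH u v h
    refine hinj _ _ (by omega) ?_
    rw [h2] at he
    exact mul_left_cancel he
  have hmul : ∀ u v w : V, X.dist u v ≤ R * R + R → X.dist v w ≤ R * R + R →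
      X.dist u w ≤ R * R + R → H u v * H v w = H u w := by
    intro u v w h1 h2 h3
    obtain ⟨a1, a2⟩ := hH u v h1
    obtain ⟨b1, b2⟩ := hH v w h2
    symm
    refine huniq u w _ h3 ?_ ?_
    · have := FreeGroup.norm_mul_le (H u v) (H v w)
      omega
    · rw [b2, a2, map_mul, mul_assoc]
  have hself : ∀ u : V, H u u = 1 := by
    intro u
    refine huniq u u 1 (by simp) (by simp) (by rw [map_one, mul_one])
  -- section
  obtain ⟨v0⟩ := hctrl.conn.nonempty
  obtain ⟨σ, hσ⟩ : ∃ σ : PresentedGroup (rels r) → V, ∀ g, p (σ g) = g := by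
    refine ⟨fun g => (g * (p v0)⁻¹) • v0, fun g => ?_⟩
    rw [hctrl.eqv, mul_assoc, inv_mul_cancel, mul_one]
  have hσ1 : ∀ (g : PresentedGroup (rels r)) (f : FG m), f.norm ≤ 1 →
      X.dist (σ g) (σ (g * PresentedGroup.mk (rels r) f)) ≤ R := by
    intro g f hf
    exact hctrl.colip _ _ f hf (by rw [hσ, hσ])
  have hsame : ∀ u v : V, p u = p v → X.dist u v ≤ R := by
    intro u v h
    exact hctrl.colip _ _ 1 (by simp) (by rw [map_one, mul_one, h])
  have hn1 : ∀ a : Fin m × Bool, (FreeGroup.mk [a] : FG m).norm ≤ 1 := by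
    intro a
    exact FreeGroup.norm_mk_le
  have hRR : R ≤ R * R := Nat.le_mul_self R
  have hinv : ∀ (g : PresentedGroup (rels r)) (a : Fin m × Bool),
      H (σ g) (σ (g * PresentedGroup.mk (rels r) (FreeGroup.mk [a]))) *
        H (σ (g * PresentedGroup.mk (rels r) (FreeGroup.mk [a]))) (σ g) = 1 := by
    intro g a
    have h1 := hσ1 g _ (hn1 a)
    rw [hmul _ _ _ (by omega) (by rw [X.dist_comm]; omega) (by simp), hself]
  -- values of the product
  have hPq : ∀ (L : List (Fin m × Bool)) (g : PresentedGroup (rels r)),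
      q (σ (g * PresentedGroup.mk (rels r) (FreeGroup.mk L))) =
        q (σ g) * PresentedGroup.mk (rels r) (Psi H σ L g) := by
    intro L
    induction L with
    | nil =>
      intro g
      have : (FreeGroup.mk ([] : List (Fin m × Bool)) : FG m) = 1 := rfl
      rw [this, map_one, mul_one]
      show _ = q (σ g) * PresentedGroup.mk (rels r) 1
      rw [map_one, mul_one]
    | cons a L ih =>
      intro g
      have h1 := hσ1 g _ (hn1 a)
      have h2 := (hH (σ g) (σ (g * PresentedGroup.mk (rels r) (FreeGroup.mk [a])))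
        (by omega)).2
      show _ = q (σ g) * PresentedGroup.mk (rels r) (H (σ g)
        (σ (g * PresentedGroup.mk (rels r) (FreeGroup.mk [a]))) *
        Psi H σ L (g * PresentedGroup.mk (rels r) (FreeGroup.mk [a])))
      rw [mk_cons a L, map_mul (PresentedGroup.mk (rels r)), ← mul_assoc, ih, h2, map_mul,
        mul_assoc]
  have hPd : ∀ (L : List (Fin m × Bool)) (g : PresentedGroup (rels r)), L.length ≤ R →
      X.dist (σ g) (σ (g * PresentedGroup.mk (rels r) (FreeGroup.mk L))) ≤ R * L.length ∧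
      Psi H σ L g = H (σ g) (σ (g * PresentedGroup.mk (rels r) (FreeGroup.mk L))) := by
    intro L
    induction L with
    | nil =>
      intro g _
      have : (FreeGroup.mk ([] : List (Fin m × Bool)) : FG m) = 1 := rfl
      rw [this, map_one, mul_one, hself]
      exact ⟨by simp, rfl⟩
    | cons a L ih =>
      intro g hL
      rw [List.length_cons] at hL
      have h1 := hσ1 g _ (hn1 a)
      obtain ⟨h2, h3⟩ := ih (g * PresentedGroup.mk (rels r) (FreeGroup.mk [a])) (by omega)
      rw [mul_assoc, ← map_mul, ← mk_cons] at h2 h3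
      have h4 : R * L.length + R ≤ R * R := by
        calc R * L.length + R = R * (L.length + 1) := by ring
          _ ≤ R * R := Nat.mul_le_mul_left _ hL
      have h5 := hctrl.conn.dist_triangle (u := σ g)
        (v := σ (g * PresentedGroup.mk (rels r) (FreeGroup.mk [a])))
        (w := σ (g * PresentedGroup.mk (rels r) (FreeGroup.mk (a :: L))))
      have h6 : X.dist (σ g) (σ (g * PresentedGroup.mk (rels r) (FreeGroup.mk (a :: L)))) ≤
          R * (L.length + 1) := by
        have : R * (L.length + 1) = R * L.length + R := by ring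
        omega
      refine ⟨by rw [List.length_cons]; exact h6, ?_⟩
      show H (σ g) (σ (g * PresentedGroup.mk (rels r) (FreeGroup.mk [a]))) *
        Psi H σ L (g * PresentedGroup.mk (rels r) (FreeGroup.mk [a])) = _
      rw [h3]
      have h7 : R * (L.length + 1) = R * L.length + R := by ring
      exact hmul _ _ _ (by omega) (by omega) (by omega)
  -- the points of the covering
  have hpt : ∀ y : YT (rels r) p, p (pt y) = PresentedGroup.mk (rels r) y.g := by
    intro y
    show p (PresentedGroup.mk (rels r) y.g • y.v) = _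
    rw [hctrl.eqv, y.h, mul_one]
  obtain ⟨A, hA⟩ : ∃ A : YT (rels r) p → FG m, ∀ y, A y = Psi H σ y.g.toWord 1 *
      H (σ (PresentedGroup.mk (rels r) y.g)) (pt y) := ⟨_, fun _ => rfl⟩
  have hAd : ∀ y : YT (rels r) p, X.dist (σ (PresentedGroup.mk (rels r) y.g)) (pt y) ≤ R :=
    fun y => hsame _ _ (by rw [hσ, hpt])
  have hAq : ∀ y, q (pt y) = q (σ 1) * PresentedGroup.mk (rels r) (A y) := by
    intro y
    have h1 := hPq y.g.toWord 1
    rw [FreeGroup.mk_toWord, one_mul] at h1
    have h2 := (hH _ _ ((hAd y).trans (by omega))).2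
    rw [hA, map_mul, ← mul_assoc, ← h1, ← h2]
  obtain ⟨ψ, hψ⟩ : ∃ ψ : YT (rels r) p → FG m, ∀ y, ψ y = y1.g * (A y0)⁻¹ * A y :=
    ⟨_, fun _ => rfl⟩
  have hψq : ∀ y, PresentedGroup.mk (rels r) (ψ y) = p (α (pt y)) := by
    intro y
    have h1 := hAq y
    have h2 := hAq y0
    have h3 : PresentedGroup.mk (rels r) y1.g = q (pt y0) := by
      rw [← hpt, hy, hq]
    rw [hψ, map_mul, map_mul, map_inv, h3, h2, mul_inv_cancel_right, ← h1, hq]
  refine ⟨fun y => ⟨ψ y, (PresentedGroup.mk (rels r) (ψ y))⁻¹ • α (pt y), ?_⟩, ?_, ?_, ?_⟩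
  · rw [hctrl.eqv, hψq, inv_mul_cancel]
  · have e1 : ψ y0 = y1.g := by rw [hψ, inv_mul_cancel_right]
    have e2 : (PresentedGroup.mk (rels r) (ψ y0))⁻¹ • α (pt y0) = y1.v := by
      rw [e1, ← hy]
      show (PresentedGroup.mk (rels r) y1.g)⁻¹ • PresentedGroup.mk (rels r) y1.g • y1.v = _
      rw [inv_smul_smul]
    have h1 : ∀ (g : FG m) (v : V) (h : p v = 1), g = y1.g → v = y1.v →
        (⟨g, v, h⟩ : YT (rels r) p) = y1 := by
      intro g v h hg hv
      subst hg
      subst hv
      rfl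
    exact h1 _ _ _ e1 e2
  · intro y
    show PresentedGroup.mk (rels r) (ψ y) • (PresentedGroup.mk (rels r) (ψ y))⁻¹ • α (pt y) = _
    rw [smul_inv_smul]
  · intro y z hyz
    obtain ⟨ha, ht⟩ := hyz
    refine ⟨?_, ?_⟩
    · show X.Adj (PresentedGroup.mk (rels r) (ψ y) • (PresentedGroup.mk (rels r) (ψ y))⁻¹ •
        α (pt y)) (PresentedGroup.mk (rels r) (ψ z) • (PresentedGroup.mk (rels r) (ψ z))⁻¹ •
        α (pt z))
      rw [smul_inv_smul, smul_inv_smul]
      exact α.map_rel_iff.2 ha
    · show td (ψ y) (ψ z) ≤ R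
      unfold td at ht ⊢
      obtain ⟨f, hf⟩ : ∃ f, f = y.g⁻¹ * z.g := ⟨_, rfl⟩
      have hz : z.g = y.g * f := by rw [hf, mul_inv_cancel_left]
      rw [← hf] at ht
      obtain ⟨g, hg⟩ : ∃ g, g = PresentedGroup.mk (rels r) y.g := ⟨_, rfl⟩
      have hzg : PresentedGroup.mk (rels r) z.g = g * PresentedGroup.mk (rels r) f := by
        rw [hz, map_mul, hg]
      have h1 : Psi H σ z.g.toWord 1 = Psi H σ y.g.toWord 1 * Psi H σ f.toWord g := by
        rw [hz, Psi_mk H σ hinv, one_mul, hg]
      have h2 := hPd f.toWord g ht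
      rw [FreeGroup.mk_toWord] at h2
      have h3 : (ψ y)⁻¹ * ψ z = H (pt y) (pt z) := by
        rw [hψ, hψ]
        have e1 : (y1.g * (A y0)⁻¹ * A y)⁻¹ * (y1.g * (A y0)⁻¹ * A z) = (A y)⁻¹ * A z := by
          group
        rw [e1, hA, hA, h1, h2.2, hzg, ← hg]
        have e2 : (Psi H σ y.g.toWord 1 * H (σ g) (pt y))⁻¹ *
            (Psi H σ y.g.toWord 1 * H (σ g) (σ (g * PresentedGroup.mk (rels r) f)) *
              H (σ (g * PresentedGroup.mk (rels r) f)) (pt z)) =
            (H (σ g) (pt y))⁻¹ * (H (σ g) (σ (g * PresentedGroup.mk (rels r) f)) *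
              H (σ (g * PresentedGroup.mk (rels r) f)) (pt z)) := by
          group
        rw [e2]
        have d1 := hAd y
        have d2 := hAd z
        rw [← hg] at d1
        rw [hzg] at d2
        have d3 : X.dist (σ g) (σ (g * PresentedGroup.mk (rels r) f)) ≤ R * R :=
          h2.1.trans (Nat.mul_le_mul_left _ ht)
        have d4 : X.dist (σ g) (pt z) ≤ R * R + R := by
          have := hctrl.conn.dist_triangle (u := σ g)
            (v := σ (g * PresentedGroup.mk (rels r) f)) (w := pt z)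
          omega
        have d5 : X.dist (pt y) (pt z) = 1 := SimpleGraph.dist_eq_one_iff_adj.2 ha
        rw [hmul _ _ _ (by omega) (by omega) d4]
        rw [inv_mul_eq_iff_eq_mul]
        exact (hmul _ _ _ (by omega) (by omega) d4).symm
      rw [h3]
      have d5 : X.dist (pt y) (pt z) = 1 := SimpleGraph.dist_eq_one_iff_adj.2 ha
      obtain ⟨f', hf', he'⟩ := hdist 1 (pt y) (pt z) d5.le
      have hRb : R * 1 ≤ 2 * b := by
        rw [hb]
        nlinarith
      rw [huniq (pt y) (pt z) f' (by omega) (hf'.trans hRb) he']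
      omega

end RBG
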