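import Pool.Agent.RBG.Base

/-!
# MP_0a3593_al, bounded geometry: module LL (local letter lemma)
-/

set_option autoImplicit false

namespace RBG

open RGD

theorem t_LL : M_LL := by
  intro hRF hCD hOL R E G
  obtain ⟨C1, C, hCD⟩ := hCD R
  obtain ⟨C7, hOL⟩ := hOL R (max E C1)
  refine ⟨C7 * (C7 + C1 + G + 1) + 1, C, ?_⟩
  intro m l n P _ r Y _ π D β β' θ θ' hns g u hu hu' hE k hk hkl y hy
  obtain ⟨h1, -, -, -, h5, -, h7⟩ := hRF m l n r hns.sc.cyc
  obtain ⟨w, hw, hwu, hwu'⟩ := h1 u hu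
  obtain ⟨w', hw', hwv, hwv'⟩ := h1 (th θ g u) hu'
  have hsR : g * u * g⁻¹ ∈ RR r := RR_conj hu.1 g
  have hθ : θ (g * u * g⁻¹) = g * el w' * g⁻¹ := by
    rw [hwv, conj_th]
  have hyl : π y = g * line w k := by
    rw [hy, hwu', line_take w hkl]
  have hyR : (π y)⁻¹ * (g * u * g⁻¹) * π y ∈ R1 r := by
    rw [← hwu]
    exact (h7 g (π y) w hw (by rw [hwu]; exact hu)).2 ⟨k, hyl⟩
  obtain ⟨z, hz, hzd⟩ := hCD m l n P r Y π D β β' θ θ' hns (g * u * g⁻¹) hsR y hyR
  rw [hθ] at hz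
  obtain ⟨i', hi'⟩ := (h7 g z w' hw' (by rw [hwv]; exact hu')).1 hz
  obtain ⟨y0, hy0⟩ := hns.qt.surj g
  have hO := hOL m l (KN r) Y π D β β' θ θ' hns.qt hns.na g g w w' hw hw'
    (by rw [hwu]; exact RR_mem hsR) (by rw [hwu, hθ]) 0 0 i' k y0 y
    (by rw [hy0, line_zero, mul_one]) (by rw [hyl, zero_add])
    (by rw [line_zero, mul_one]; exact (hE y0 hy0).trans (le_max_left _ _))
    (by rw [← hi']; exact hzd.trans (le_max_right _ _))
  have hi1 : (C1 : ℤ) + G + 1 < i' := by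
    by_contra hcon
    push Not at hcon
    have h8 : (k : ℤ) ≤ C7 * (C7 + C1 + G + 1) := by
      refine hO.trans ?_
      apply mul_le_mul_of_nonneg_left _ (by positivity)
      linarith
    have h9 : ((C7 * (C7 + C1 + G + 1) + 1 : ℕ) : ℤ) ≤ k := by exact_mod_cast hk
    push_cast at h9
    linarith
  have hd : td (line w' i') (g⁻¹ * π (β y)) ≤ C1 := by
    rw [← td_left g, ← hi', mul_inv_cancel_left, td_comm']
    exact hzd
  have hn : (line w' i').norm = i'.natAbs := norm_line hw' i'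
  have hlt : td (line w' i') (g⁻¹ * π (β y)) < (line w' i').norm := by
    rw [hn]
    omega
  have hhead := head_eq_of_td hlt
  refine ⟨?_, ?_⟩
  · rw [← hhead]
    have hp : (line w' i').toWord.head? = some (perZ w' 0) := head_line_pos hw' (by omega)
    rw [hp, hwv']
    have : (List.ofFn w').head? = some (w' 0) := by
      have hl : 0 < l := Nat.pos_of_ne_zero (NeZero.ne l)
      rw [List.head?_eq_getElem?, List.getElem?_ofFn, dif_pos hl]
      rfl
    rw [this]
    congr 1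
  · have t1 := td_tri 1 (g⁻¹ * π (β y)) (line w' i')
    rw [td_one, td_one, hn, td_comm' (g⁻¹ * π (β y))] at t1
    have e : td g (π (β y)) = (g⁻¹ * π (β y)).norm := rfl
    rw [e]
    omega

end RBG
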