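import Pool.Agent.RBG.Base

/-!
# MP_0a3593_al, bounded geometry: module MARK
-/

set_option autoImplicit false

namespace RBG

open RGD

namespace MARK

variable {m : ℕ}

theorem redL_of_isReduced {L : List (Ltr m)} (h : FreeGroup.IsReduced L) : RedL L := by
  unfold RedL
  unfold FreeGroup.IsReduced at h
  refine h.imp ?_
  intro a b hab hb
  subst hb
  have := hab rfl
  simp [linv] at this

theorem mk_replicate (k : ℕ) (b : Ltr m) :
    FreeGroup.mk (List.replicate k b) = FreeGroup.mk [b] ^ k := by
  induction k with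
  | zero => rfl
  | succ k ih =>
    rw [List.replicate_succ, pow_succ', ← ih, FreeGroup.mul_mk]
    rfl

theorem run_at {D : ℕ} {b : Ltr m} {τ : List (Ltr m)} (hτ : τ.length = 2 * D + 10)
    (h : List.replicate (D + 6) b <:+: τ) (hl : D + 4 < τ.length) : τ[D + 4] = b := by
  obtain ⟨s, t, rfl⟩ := h
  have h1 : s.length + (D + 6) + t.length = 2 * D + 10 := by
    simp only [List.length_append, List.length_replicate] at hτ
    omega
  rw [List.getElem_append_left (by simp; omega), List.getElem_append_right (by omega)]
  simp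

theorem main (D : ℕ) (hm : 2 ≤ m) (y : FG m) (hy : 2 * D + 10 ≤ y.norm) :
    ∃ (v : FG m) (W : List (Ltr m)), Mk D W ∧ v * FreeGroup.mk W = y ∧
      ∀ i, i < W.length → (v * FreeGroup.mk (W.take i)).norm < y.norm := by
  have hn : y.norm = y.toWord.length := rfl
  set X := y.toWord with hX
  set X0 := X.take (X.length - (2 * D + 10)) with hX0
  set τ := X.drop (X.length - (2 * D + 10)) with hτ
  have hXe : X0 ++ τ = X := List.take_append_drop _ _
  have hlτ : τ.length = 2 * D + 10 := by
    rw [hτ, List.length_drop]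
    omega
  have hlX0 : X0.length + (2 * D + 10) = X.length := by
    rw [hX0, List.length_take]
    omega
  have hredX : RedL X := redL_of_isReduced FreeGroup.isReduced_toWord
  have hredτ : RedL τ := by
    unfold RedL at hredX ⊢
    rw [← hXe] at hredX
    exact hredX.right_of_append
  have hl4 : D + 4 < τ.length := by omega
  have hl0 : 0 < τ.length := by omega
  obtain ⟨b, hb1⟩ : ∃ b : Ltr m, b.1 ≠ (τ[D + 4]).1 := by
    by_cases h : (τ[D + 4]).1 = ⟨0, by omega⟩
    · refine ⟨(⟨1, by omega⟩, true), ?_⟩
      rw [h]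
      intro hh
      have := congrArg Fin.val hh
      simp at this
    · exact ⟨(⟨0, by omega⟩, true), fun hh => h hh.symm⟩
  obtain ⟨j, hj⟩ : ∃ j : Fin m, j ≠ b.1 := by
    by_cases h : b.1 = ⟨0, by omega⟩
    · refine ⟨⟨1, by omega⟩, ?_⟩
      rw [h]
      intro hh
      have := congrArg Fin.val hh
      simp at this
    · exact ⟨⟨0, by omega⟩, fun hh => h hh.symm⟩
  set c : Ltr m := (j, (τ[0]).2) with hc
  have hcb : c ≠ b := fun h => hj (congrArg Prod.fst h)
  have hclb : c ≠ linv b := fun h => hj (congrArg Prod.fst h)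
  have hbb : b ≠ linv b := by
    intro h
    have := congrArg Prod.snd h
    simp [linv] at this
  have hcτ : τ[0] ≠ linv c := by
    intro h
    have := congrArg Prod.snd h
    simp [linv, hc] at this
  set W := List.replicate (2 * D + 8) b ++ c :: τ with hW
  have hredW : RedL W := by
    unfold RedL
    rw [hW, List.isChain_append]
    refine ⟨?_, ?_, ?_⟩
    · exact List.isChain_replicate_of_rel _ hbb
    · rw [List.isChain_cons]
      refine ⟨?_, hredτ⟩
      intro z hz
      have : τ.head? = some τ[0] := by
        rw [List.head?_eq_getElem?, List.getElem?_eq_getElem hl0]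
      rw [this] at hz
      have hz' : τ[0] = z := by simpa using hz
      rw [← hz']
      exact hcτ
    · intro x hx z hz
      have hx' : x = b := by
        rw [List.getLast?_replicate] at hx
        simp at hx
        exact hx.symm
      have hz' : z = c := by
        simpa using hz.symm
      rw [hx', hz']
      exact hclb
  have hlW : W.length = (2 * D + 8) + 1 + (2 * D + 10) := by
    rw [hW]
    simp [hlτ]
    omega
  set g : FG m := FreeGroup.mk [b] with hg
  set x : FG m := FreeGroup.mk [c] with hx
  have hcons : ∀ L : List (Ltr m), (FreeGroup.mk (c :: L) : FG m) = x * FreeGroup.mk L := by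
    intro L
    rw [hx, FreeGroup.mul_mk]
    rfl
  have happ : ∀ L L' : List (Ltr m), (FreeGroup.mk (L ++ L') : FG m) =
      FreeGroup.mk L * FreeGroup.mk L' := fun L L' => (FreeGroup.mul_mk).symm
  have hyX : (FreeGroup.mk X : FG m) = y := FreeGroup.mk_toWord
  refine ⟨FreeGroup.mk X0 * x⁻¹ * (g ^ (2 * D + 8))⁻¹, W, ?_, ?_, ?_⟩
  · refine ⟨b, c, τ, rfl, hredW, hlτ, hcb, ?_, ?_⟩
    · intro h
      exact hb1 (by rw [run_at hlτ h hl4])
    · intro h
      apply hb1
      rw [run_at hlτ h hl4]
      rfl
  · rw [hW, happ, mk_replicate, hcons, ← hyX, ← hXe, happ, ← hg]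
    group
  · intro i hi
    rw [hn]
    by_cases hi1 : i ≤ 2 * D + 8
    · have e1 : W.take i = List.replicate i b := by
        rw [hW, List.take_append_of_le_length (by simpa using hi1), List.take_replicate,
          Nat.min_eq_left hi1]
      rw [e1, mk_replicate, ← hg]
      have e2 : FreeGroup.mk X0 * x⁻¹ * (g ^ (2 * D + 8))⁻¹ * g ^ i =
          FreeGroup.mk X0 * x⁻¹ * (g ^ (2 * D + 8 - i))⁻¹ := by
        have : g ^ (2 * D + 8) = g ^ i * g ^ (2 * D + 8 - i) := by
          rw [← pow_add]
          congr 1
          omega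
        rw [this]
        group
      rw [e2]
      have h1 := FreeGroup.norm_mul_le (FreeGroup.mk X0 * x⁻¹) (g ^ (2 * D + 8 - i))⁻¹
      have h2 := FreeGroup.norm_mul_le (FreeGroup.mk X0) x⁻¹
      have h3 : (FreeGroup.mk X0 : FG m).norm ≤ X0.length := FreeGroup.norm_mk_le
      have h4 : x.norm ≤ 1 := FreeGroup.norm_mk_le
      have h5 : (g ^ (2 * D + 8 - i)).norm ≤ 2 * D + 8 - i := by
        rw [hg, ← mk_replicate]
        refine FreeGroup.norm_mk_le.trans ?_
        simp
      rw [FreeGroup.norm_inv_eq] at h1 h2
      omega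
    · obtain ⟨k, hk⟩ : ∃ k, i = (2 * D + 8) + 1 + k := ⟨i - (2 * D + 9), by omega⟩
      have e1 : W.take i = List.replicate (2 * D + 8) b ++ c :: τ.take k := by
        rw [hW, List.take_append, List.take_of_length_le (by simp; omega), List.length_replicate,
          show i - (2 * D + 8) = k + 1 by omega, List.take_succ_cons]
      rw [e1, happ, mk_replicate, hcons, ← hg]
      have e2 : FreeGroup.mk X0 * x⁻¹ * (g ^ (2 * D + 8))⁻¹ *
          (g ^ (2 * D + 8) * (x * FreeGroup.mk (τ.take k))) = FreeGroup.mk (X0 ++ τ.take k) := by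
        rw [happ]
        group
      rw [e2]
      have h3 : (FreeGroup.mk (X0 ++ τ.take k) : FG m).norm ≤ (X0 ++ τ.take k).length :=
        FreeGroup.norm_mk_le
      have h6 : (τ.take k).length ≤ k := List.length_take_le k τ
      have h7 : k < 2 * D + 10 := by omega
      rw [List.length_append] at h3
      omega

end MARK

theorem t_MARK : S_MARK := by
  intro m D hm y hy
  exact MARK.main D hm y hy

end RBG
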