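import Pool.Agent.RBG.Base

/-!
# MP_0a3593_al, bounded geometry: points over respected vertices stay near (module NEAR)
-/

set_option autoImplicit false

namespace RBG

open RGD FreeGroup

namespace NEAR

variable {m : ℕ}

theorem linv_linv (a : Ltr m) : linv (linv a) = a := by
  simp [linv]

theorem head_inv (x : FG m) : (x⁻¹).toWord.head? = x.toWord.getLast?.map linv := by
  rw [FreeGroup.toWord_inv, FreeGroup.invRev, List.head?_reverse, List.getLast?_map]
  rfl

theorem perZ_per {l : ℕ} [NeZero l] (w : Word m l) (t : ℤ) : perZ w (t + (l : ℤ)) = perZ w t := by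
  unfold perZ
  rw [Int.add_emod_right]

theorem word_pos {l : ℕ} [NeZero l] (w : Word m l) (hw : CycRed w) (k : ℕ) :
    (line w (k : ℤ)).toWord = (List.range k).map fun i : ℕ => perZ w (i : ℤ) := by
  have := LINE.seg_word w hw 0 k
  simpa [LINE.line_zero] using this

theorem word_neg {l : ℕ} [NeZero l] (w : Word m l) (hw : CycRed w) (k : ℕ) :
    ((line w (-(k : ℤ)))⁻¹).toWord = (List.range k).map fun i : ℕ => perZ w (-(k : ℤ) + i) := by
  have := LINE.seg_word w hw (-(k : ℤ)) k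
  rwa [neg_add_cancel, LINE.line_zero, mul_one] at this

theorem last_map (f : ℕ → Ltr m) (k : ℕ) (hk : 0 < k) :
    ((List.range k).map f).getLast? = some (f (k - 1)) := by
  obtain ⟨k', rfl⟩ : ∃ k', k = k' + 1 := ⟨k - 1, by omega⟩
  rw [List.range_succ, List.map_append]
  simp

theorem head_map (f : ℕ → Ltr m) (k : ℕ) (hk : 0 < k) :
    ((List.range k).map f).head? = some (f 0) := by
  obtain ⟨k', rfl⟩ : ∃ k', k = k' + 1 := ⟨k - 1, by omega⟩
  rw [List.range_succ_eq_map]
  simp

theorem el_line {l : ℕ} [NeZero l] (w : Word m l) : el w = line w (l : ℤ) := by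
  have := LINE.line_add w 0 1
  rw [zero_add, one_mul, zpow_one, LINE.line_zero, mul_one] at this
  exact this.symm

/-- The first letters of the points of a line. -/
theorem head_line {l : ℕ} [NeZero l] (w : Word m l) (hw : CycRed w) (t : ℤ) :
    line w t = 1 ∨ (line w t).toWord.head? = (el w).toWord.head? ∨
      (line w t).toWord.head? = (el w)⁻¹.toWord.head? := by
  have hl : 0 < l := NeZero.pos l
  have h0 : (el w).toWord.head? = some (perZ w 0) := by
    rw [el_line, word_pos w hw, head_map _ _ hl]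
    rfl
  have h1 : (el w)⁻¹.toWord.head? = some (linv (perZ w (-1))) := by
    rw [head_inv, el_line, word_pos w hw, last_map _ _ hl]
    have : ((l - 1 : ℕ) : ℤ) = -1 + (l : ℤ) := by omega
    rw [this, perZ_per]
    rfl
  rcases lt_trichotomy t 0 with ht | rfl | ht
  · right; right
    obtain ⟨k, rfl⟩ : ∃ k : ℕ, t = -(k : ℤ) := ⟨t.natAbs, by omega⟩
    have hk : 0 < k := by omega
    rw [h1]
    have h2 := head_inv ((line w (-(k : ℤ)))⁻¹)
    rw [inv_inv, word_neg w hw, last_map _ _ hk] at h2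
    rw [h2]
    have : -(k : ℤ) + ((k - 1 : ℕ) : ℤ) = -1 := by omega
    rw [this]
    rfl
  · left
    exact LINE.line_zero w
  · right; left
    obtain ⟨k, rfl⟩ : ∃ k : ℕ, t = (k : ℤ) := ⟨t.natAbs, by omega⟩
    have hk : 0 < k := by omega
    rw [h0, word_pos w hw, head_map _ _ hk]
    rfl

/-- Different first letters: the identity is between. -/
theorem td_heads (x z : FG m) (h : ∀ c, x.toWord.head? = some c → z.toWord.head? ≠ some c) :
    td x z = x.norm + z.norm := by
  have h1 := TREE.td_eq x z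
  have h2 : Pool.Agent.Olsh.cpl x.toWord z.toWord = 0 := by
    cases hx : x.toWord with
    | nil => exact Pool.Agent.Olsh.cpl_nil_left _
    | cons c Q =>
      cases hz : z.toWord with
      | nil => exact Pool.Agent.Olsh.cpl_nil_right _
      | cons d Z =>
        have h3 := h c (by rw [hx]; rfl)
        rw [hz] at h3
        have h4 : c ≠ d := fun e => h3 (by rw [e]; rfl)
        simp only [Pool.Agent.Olsh.cpl, if_neg h4]
  omega

theorem two_letters (hm : 2 ≤ m) (e : Ltr m) : ∃ b b' : Ltr m, b ≠ b' ∧ b ≠ e ∧ b' ≠ e := by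
  obtain ⟨i, s⟩ := e
  obtain ⟨i', hi⟩ : ∃ i' : Fin m, i' ≠ i := by
    by_cases h : i.1 = 0
    · exact ⟨⟨1, by omega⟩, fun h' => by rw [← h'] at h; simp at h⟩
    · exact ⟨⟨0, by omega⟩, fun h' => h (by rw [← h'])⟩
  refine ⟨(i', true), (i', false), by simp, ?_, ?_⟩
  · intro h
    exact hi (congrArg Prod.fst h)
  · intro h
    exact hi (congrArg Prod.fst h)

theorem theta_inv {K : Subgroup (FG m)} {Y : Type} [MulAction (FG m) Y] {R : ℕ} {π : Y → FG m}
    {D : Y → Y → ℕ} (hq : QT R π D) {β β' : Y → Y} {θ θ' : FG m → FG m}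
    (h : NAut K D β β' θ θ') (y : Y) (k : FG m) (hk : k ∈ K) : θ k⁻¹ = (θ k)⁻¹ := by
  have h1 := h.eqv k hk (k⁻¹ • y)
  rw [h.eqv k⁻¹ (K.inv_mem hk), smul_inv_smul] at h1
  have h2 := congrArg π h1
  rw [hq.pi, hq.pi, ← mul_assoc] at h2
  have h3 : θ k * θ k⁻¹ = 1 := by
    have h4 : 1 * π (β y) = θ k * θ k⁻¹ * π (β y) := by rw [one_mul]; exact h2
    exact (mul_right_cancel h4).symm
  exact (inv_eq_of_mul_eq_one_right h3).symm

end NEAR

open NEAR in
theorem t_NEAR : M_NEAR := by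
  intro hRF hCD R
  obtain ⟨C1, C, hC⟩ := hCD R
  refine ⟨C1, C, ?_⟩
  intro m l n P _ r Y _ π D β β' θ θ' hs hm hTL g hTT y hy
  obtain ⟨hw1, -, hinv, -, hRR, -, hax⟩ := hRF m l n r hs.sc.cyc
  set f := π (β y) with hf
  by_cases hfg : f = g
  · rw [hfg, TREE.td_self]
    exact Nat.zero_le _
  have hne : (g⁻¹ * f).toWord ≠ [] := by
    intro h
    rw [toWord_eq_nil_iff, inv_mul_eq_one] at h
    exact hfg h.symm
  obtain ⟨e, Q, hQ⟩ := List.exists_cons_of_ne_nil hne
  obtain ⟨b, b', hbb, hbe, hbe'⟩ := two_letters hm e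
  obtain ⟨u, hu, hu1, hu2⟩ := hTL (linv b') b (by rw [linv_linv]; exact hbb)
  have hsR : g * u * g⁻¹ ∈ RR r := (hRR u hu.1).2.2.2 g
  have hsK : g * u * g⁻¹ ∈ KN r := (hRR _ hsR).1
  obtain ⟨z, hz, hz1⟩ := hC m l n P r Y π D β β' θ θ' hs _ hsR y (by
    rw [hy]
    have : g⁻¹ * (g * u * g⁻¹) * g = u := by group
    rw [this]
    exact hu)
  obtain ⟨hv, hv1⟩ := hTT u hu
  have hui := hinv u hu
  obtain ⟨-, hvi1⟩ := hTT u⁻¹ hui
  have hthi : th θ g u⁻¹ = (th θ g u)⁻¹ := by
    unfold th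
    have : g * u⁻¹ * g⁻¹ = (g * u * g⁻¹)⁻¹ := by group
    rw [this, theta_inv hs.qt hs.na y _ hsK]
    group
  rw [hthi, head_inv u, hu2, Option.map_some, linv_linv] at hvi1
  rw [hu1] at hv1
  obtain ⟨w', hw', hel, -⟩ := hw1 _ hv
  have hth : θ (g * u * g⁻¹) = g * el w' * g⁻¹ := by
    rw [hel]
    unfold th
    group
  rw [hth] at hz
  obtain ⟨t, ht⟩ := (hax g z w' hw' (hel ▸ hv)).1 hz
  have hgz : g⁻¹ * z = line w' t := by rw [ht]; group
  have hd : td (g⁻¹ * f) (g⁻¹ * z) = (g⁻¹ * f).norm + (g⁻¹ * z).norm := by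
    apply td_heads
    intro c hc
    rw [hQ] at hc
    have hc' : c = e := by simpa using hc.symm
    rw [hc', hgz]
    rcases head_line w' hw' t with h | h | h
    · rw [h]
      simp
    · rw [h, hel, hv1]
      intro h'
      exact hbe (Option.some.inj h')
    · rw [h, hel, hvi1]
      intro h'
      exact hbe' (Option.some.inj h')
  rw [TREE.td_smul] at hd
  have h9 : td f g = (g⁻¹ * f).norm := by
    rw [TREE.td_comm]
    rfl
  rw [← hf, hd] at hz1
  rw [h9]
  omega

end RBG
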