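import Pool.Agent.RBG.Base

/-!
# MP_0a3593_al, bounded geometry, module NL: lifts are normalising isometries
-/

set_option autoImplicit false

namespace RBG

open RGD

namespace NL

variable {m : ℕ} {S : Set (FG m)} {V : Type} [MulAction (PresentedGroup S) V]
  {p : V → PresentedGroup S}

theorem mk_eq_one {k : FG m} (hk : k ∈ Subgroup.normalClosure S) :
    PresentedGroup.mk S k = 1 :=
  (QuotientGroup.eq_one_iff k).2 hk

theorem pt_smul (f : FG m) (y : YT S p) : pt (f • y) = PresentedGroup.mk S f • pt y := by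
  obtain ⟨g, v, h⟩ := y
  change PresentedGroup.mk S (f * g) • v = PresentedGroup.mk S f • (PresentedGroup.mk S g • v)
  rw [map_mul, mul_smul]

theorem pt_smul_of_mem {k : FG m} (hk : k ∈ Subgroup.normalClosure S) (y : YT S p) :
    pt (k • y) = pt y := by
  rw [pt_smul, mk_eq_one hk, one_smul]

theorem smul_g (f : FG m) (y : YT S p) : (f • y).g = f * y.g := rfl

theorem adj_smul {R : ℕ} {X : SimpleGraph V}
    (hact : ∀ (g : PresentedGroup S) (v w : V), X.Adj v w → X.Adj (g • v) (g • w)) (f : FG m)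
    {y z : YT S p} (h : (XT R S X p).Adj y z) : (XT R S X p).Adj (f • y) (f • z) := by
  refine ⟨?_, ?_⟩
  · rw [pt_smul, pt_smul]
    exact hact _ _ _ h.1
  · have h2 : td y.g z.g ≤ R := h.2
    change td (f * y.g) (f * z.g) ≤ R
    have h3 : td (f * y.g) (f * z.g) = td y.g z.g := by
      unfold td
      congr 1
      group
    rw [h3]
    exact h2

/-- Lifts that agree at one point are equal. -/
theorem lift_unique {T : SimpleGraph (YT S p)} (hc : T.Connected)
    (hu : ∀ y z z' : YT S p, T.Adj y z → T.Adj y z' → pt z = pt z' → z = z')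
    {φ ψ : YT S p → YT S p} (hφ : ∀ y z, T.Adj y z → T.Adj (φ y) (φ z))
    (hψ : ∀ y z, T.Adj y z → T.Adj (ψ y) (ψ z)) (hp : ∀ y, pt (φ y) = pt (ψ y))
    (y0 : YT S p) (h0 : φ y0 = ψ y0) (y : YT S p) : φ y = ψ y := by
  obtain ⟨w⟩ := hc.preconnected y0 y
  induction w with
  | nil => exact h0
  | cons h _ ih =>
    apply ih
    refine hu _ _ _ (hφ _ _ h) ?_ (hp _)
    rw [h0]
    exact hψ _ _ h

theorem dist_map_le {Y : Type} {T : SimpleGraph Y} (hc : T.Connected) {φ : Y → Y}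
    (hφ : ∀ y z, T.Adj y z → T.Adj (φ y) (φ z)) (x y : Y) : T.dist (φ x) (φ y) ≤ T.dist x y := by
  obtain ⟨w, hw⟩ := (hc.preconnected x y).exists_walk_length_eq_dist
  rw [← hw]
  let F : T →g T := ⟨φ, fun {a b} h => hφ a b h⟩
  have h := SimpleGraph.dist_le (w.map F)
  rw [SimpleGraph.Walk.length_map] at h
  exact h

end NL

open Classical in
theorem t_NL : M_NL := by
  intro hXT hLIFT R hR
  obtain ⟨C1, hC1⟩ := hXT R hR
  obtain ⟨C2, hC2⟩ := hLIFT R hR
  refine ⟨max C1 C2, ?_⟩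
  intro m l n P _ r hsc V _ X p hctrl α y0 y1 hy
  obtain ⟨-, hconn, huniq, -, hfib⟩ := hC1 m l n P r (hsc.mono (le_max_left _ _)) V X p hctrl
  obtain ⟨β, hβ0, hβp, hβa⟩ := hC2 m l n P r (hsc.mono (le_max_right _ _)) V X p hctrl α y0 y1 hy
  have hy' : pt y0 = α.symm (pt y1) := by
    rw [hy]
    exact (RelIso.symm_apply_apply α _).symm
  obtain ⟨β', hβ'0, hβ'p, hβ'a⟩ :=
    hC2 m l n P r (hsc.mono (le_max_right _ _)) V X p hctrl α.symm y1 y0 hy'
  have hact := hctrl.act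
  have inv1 : ∀ y, β' (β y) = y := by
    refine NL.lift_unique (φ := fun y => β' (β y)) (ψ := fun y => y) hconn huniq
      (fun y z h => hβ'a _ _ (hβa _ _ h)) (fun y z h => h) (fun y => ?_) y0 ?_
    · rw [hβ'p, hβp]
      exact RelIso.symm_apply_apply α _
    · change β' (β y0) = y0
      rw [hβ0, hβ'0]
  have inv2 : ∀ y, β (β' y) = y := by
    refine NL.lift_unique (φ := fun y => β (β' y)) (ψ := fun y => y) hconn huniq
      (fun y z h => hβa _ _ (hβ'a _ _ h)) (fun y z h => h) (fun y => ?_) y1 ?_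
    · rw [hβp, hβ'p]
      exact RelIso.apply_symm_apply α _
    · change β (β' y1) = y1
      rw [hβ'0, hβ0]
  have hK : ∀ k ∈ KN r, ∀ y : YT (rels r) p, pt (k • y) = pt y :=
    fun k hk y => NL.pt_smul_of_mem hk y
  have key : ∀ (γ : YT (rels r) p → YT (rels r) p) (f : X ≃g X),
      (∀ y, pt (γ y) = f (pt y)) →
      (∀ y z, (XT R (rels r) X p).Adj y z → (XT R (rels r) X p).Adj (γ y) (γ z)) →
      ∃ θ : FG m → FG m, (∀ k ∈ KN r, θ k ∈ KN r) ∧
        ∀ k ∈ KN r, ∀ y, γ (k • y) = θ k • γ y := by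
    intro γ f hγp hγa
    have h1 : ∀ k : FG m, ∃ k' : FG m, k ∈ KN r → k' ∈ KN r ∧ γ (k • y0) = k' • γ y0 := by
      intro k
      by_cases hk : k ∈ KN r
      · have h2 : pt (γ y0) = pt (γ (k • y0)) := by
          rw [hγp, hγp, hK k hk]
        obtain ⟨k', hk', h3⟩ := hfib _ _ h2
        exact ⟨k', fun _ => ⟨hk', h3⟩⟩
      · exact ⟨1, fun h => absurd h hk⟩
    choose θ hθ using h1
    refine ⟨θ, fun k hk => (hθ k hk).1, fun k hk => ?_⟩
    refine NL.lift_unique (φ := fun y => γ (k • y)) (ψ := fun y => θ k • γ y) hconn huniq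
      (fun y z h => hγa _ _ (NL.adj_smul hact k h))
      (fun y z h => NL.adj_smul hact _ (hγa _ _ h)) (fun y => ?_) y0 (hθ k hk).2
    rw [hγp, hK k hk, hK _ (hθ k hk).1, hγp]
  obtain ⟨θ, hθm, hθ⟩ := key β α hβp hβa
  obtain ⟨θ', hθ'm, hθ'⟩ := key β' α.symm hβ'p hβ'a
  refine ⟨β, β', θ, θ', ⟨inv1, inv2, ?_, hθm, hθ'm, hθ, hθ'⟩, hβ0, hβp, hβ'p⟩
  intro x y
  refine le_antisymm (NL.dist_map_le hconn hβa x y) ?_
  have h := NL.dist_map_le hconn hβ'a (β x) (β y)
  rw [inv1, inv1] at h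
  exact h

end RBG
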