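import Pool.Agent.RBG.Base

/-!
# RBG: module NN (the relators starting with a given word)
-/

set_option autoImplicit false

namespace RBG

open RGD

namespace NN

variable {m l n : ℕ} [NeZero l]

/-- the cyclic permutation of the relator which starts at `s` -/
def U (w : Word m l) (s : ℕ) : FG m := FreeGroup.mk (win w l s)

theorem per_congr (w : Word m l) {s t : ℕ} (h : s % l = t % l) : per w s = per w t := by
  rw [← LINE.per_mod w s, h, LINE.per_mod]

theorem win_congr (w : Word m l) {s t : ℕ} (h : s % l = t % l) : win w l s = win w l t := by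
  unfold win
  apply List.map_congr_left
  intro i _
  apply per_congr
  rw [Nat.add_mod, h, ← Nat.add_mod]

theorem U_congr (w : Word m l) {s t : ℕ} (h : s % l = t % l) : U w s = U w t := by
  unfold U
  rw [win_congr w h]

theorem win_eq (w : Word m l) (s : ℕ) :
    win w l s = (List.range l).map fun i : ℕ => perZ w ((s : ℤ) + i) := by
  unfold win
  apply List.map_congr_left
  intro i _
  have h := LINE.perZ_nat w (s + i)
  push_cast at h
  exact h.symm

theorem seg (w : Word m l) (s : ℤ) : (line w s)⁻¹ * line w (s + (l : ℕ)) =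
    (line w s)⁻¹ * el w * line w s := by
  have h2 := LINE.line_add w s 1
  rw [one_mul, zpow_one] at h2
  rw [h2, mul_assoc]

theorem U_eq (w : Word m l) (s : ℕ) : U w s = (line w s)⁻¹ * el w * line w s := by
  rw [← seg, LINE.seg_mk, U, win_eq]

theorem U_word {w : Word m l} (h : CycRed w) (s : ℕ) : (U w s).toWord = win w l s := by
  rw [U_eq, ← seg, LINE.seg_word w h, win_eq]

theorem U_mem {r : Fin n → Word m l} (hr : ∀ j, CycRed (r j)) (j : Fin n) (s : ℕ) :
    U (r j) s ∈ R1 r := by
  refine ⟨⟨(line (r j) s)⁻¹, j, Or.inl ?_⟩, ?_⟩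
  · rw [U_eq, inv_inv]
  · unfold FreeGroup.norm
    rw [U_word (hr j)]
    simp [win]

/-- the elements `x el x⁻¹` of `R1` -/
theorem surj1 (hRF : S_RF) {r : Fin n → Word m l} (hr : ∀ j, CycRed (r j)) (x : FG m) (j : Fin n)
    (hu : x * el (r j) * x⁻¹ ∈ R1 r) : ∃ a : ℕ, a < l ∧ x * el (r j) * x⁻¹ = U (r j) a := by
  have hel : el (r j) ∈ R1 r := by
    refine ⟨⟨1, j, Or.inl ?_⟩, el_norm (hr j)⟩
    simp
  have h1 := (hRF m l n r hr).2.2.2.2.2.2 1 x⁻¹ (r j) (hr j) hel
  have h2 : x⁻¹⁻¹ * (1 * el (r j) * 1⁻¹) * x⁻¹ = x * el (r j) * x⁻¹ := by group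
  rw [h2] at h1
  obtain ⟨t, ht⟩ := h1.1 hu
  rw [one_mul] at ht
  refine ⟨(t % l).toNat, LINE.toNat_lt t, ?_⟩
  have h3 := LINE.toNat_cast (l := l) t
  have h4 : t = ((t % l).toNat : ℤ) + (t / l) * l := by
    rw [h3]
    have := Int.emod_add_mul_ediv t l
    linarith [mul_comm (t / l) (l : ℤ)]
  have h5 := LINE.line_add (r j) ((t % l).toNat : ℤ) (t / l)
  rw [← h4] at h5
  rw [U_eq]
  have h6 : x = (line (r j) t)⁻¹ := by rw [← ht, inv_inv]
  rw [h6, inv_inv, h5]
  group

theorem surj (hRF : S_RF) {r : Fin n → Word m l} (hr : ∀ j, CycRed (r j)) (u : FG m)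
    (hu : u ∈ R1 r) : ∃ (j : Fin n) (a : ℕ), a < l ∧ (u = U (r j) a ∨ u = (U (r j) a)⁻¹) := by
  obtain ⟨x, j, h | h⟩ := hu.1
  · rw [h] at hu
    obtain ⟨a, ha, h1⟩ := surj1 hRF hr x j hu
    exact ⟨j, a, ha, Or.inl (h.trans h1)⟩
  · have h2 := (hRF m l n r hr).2.2.1 u hu
    have h3 : u⁻¹ = x * el (r j) * x⁻¹ := by
      rw [h]
      group
    rw [h3] at h2
    obtain ⟨a, ha, h1⟩ := surj1 hRF hr x j h2
    refine ⟨j, a, ha, Or.inr ?_⟩
    rw [← h1, ← h3, inv_inv]

theorem pre_iff (v L : List (Ltr m)) : v <+: L ↔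
    ∃ h : v.length ≤ L.length, ∀ (i : ℕ) (hi : i < v.length), v[i] = L[i]'(hi.trans_le h) := by
  constructor
  · rintro ⟨t, rfl⟩
    refine ⟨by simp, fun i hi => ?_⟩
    rw [List.getElem_append_left hi]
  · rintro ⟨h, h1⟩
    refine ⟨L.drop v.length, ?_⟩
    have h2 : v = L.take v.length := by
      apply List.ext_getElem
      · simp [h]
      · intro i h3 h4
        rw [h1 i h3]
        simp
    calc v ++ L.drop v.length = L.take v.length ++ L.drop v.length := by rw [← h2]
      _ = L := List.take_append_drop _ _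

theorem pre1 (w : Word m l) (s : ℕ) (v : List (Ltr m)) (hv : v.length ≤ l) :
    v <+: win w l s ↔ ∀ (i : ℕ) (h : i < v.length), v[i] = per w (s + i) := by
  rw [pre_iff]
  constructor
  · rintro ⟨h1, h2⟩ i hi
    rw [h2 i hi]
    simp [win]
  · intro h
    refine ⟨by simpa [win] using hv, fun i hi => ?_⟩
    rw [h i hi]
    simp [win]

theorem getElem_invw (v : List (Ltr m)) (i : ℕ) (h : i < v.length) (h' : i < (invw v).length) :
    (invw v)[i] = linv (v[v.length - 1 - i]'(by omega)) := by
  simp [invw]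

theorem pre2 (w : Word m l) (t : ℕ) (v : List (Ltr m)) (hv : v.length ≤ l) :
    v <+: invw (win w l (t + v.length)) ↔
      ∀ (i : ℕ) (h : i < (invw v).length), (invw v)[i] = per w (t + i) := by
  have hwl : (win w l (t + v.length)).length = l := by simp [win]
  have hkey : ∀ (i : ℕ) (_ : i < v.length) (h' : i < (invw (win w l (t + v.length))).length),
      (invw (win w l (t + v.length)))[i] = linv (per w (t + (v.length - 1 - i))) := by
    intro i hi h'
    rw [getElem_invw _ i (by rw [hwl]; omega) h']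
    congr 1
    simp only [win, List.getElem_map, List.getElem_range, List.length_map, List.length_range]
    apply per_congr
    have : t + v.length + (l - 1 - i) = t + (v.length - 1 - i) + l := by omega
    rw [this, Nat.add_mod_right]
  rw [pre_iff]
  constructor
  · rintro ⟨h1, h2⟩ i hi
    have hi' : i < v.length := by rwa [length_invw] at hi
    rw [getElem_invw v i hi' hi, h2 (v.length - 1 - i) (by omega), hkey _ (by omega), linv_linv]
    congr 2
    omega
  · intro h
    refine ⟨by rw [length_invw, hwl]; exact hv, fun i hi => ?_⟩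
    rw [hkey i hi]
    have h3 := h (v.length - 1 - i) (by rw [length_invw]; omega)
    rw [getElem_invw v _ (by omega)] at h3
    rw [← h3, linv_linv]
    congr 1
    omega

theorem win_get (w : Word m l) {s t : ℕ} {w' : Word m l} (h : win w l s = win w' l t) (i : ℕ)
    (hi : i < l) : per w (s + i) = per w' (t + i) := by
  have h1 : (win w l s)[i]'(by simpa [win] using hi) = per w (s + i) := by simp [win]
  have h2 : (win w' l t)[i]'(by simpa [win] using hi) = per w' (t + i) := by simp [win]
  rw [← h1, ← h2]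
  congr 1

theorem inj1 {P : ℕ} {r : Fin n → Word m l} (hr : ∀ j, CycRed (r j)) (hsc : SC r P) (hP : P ≤ l)
    {i j : Fin n} {s t : ℕ} (h : U (r i) s = U (r j) t) : i = j ∧ s % l = t % l := by
  have h1 := congrArg FreeGroup.toWord h
  rw [U_word (hr i), U_word (hr j)] at h1
  exact hsc.fwd i j s t fun k hk => win_get _ h1 k (by omega)

theorem inj2 {P : ℕ} {r : Fin n → Word m l} (hr : ∀ j, CycRed (r j)) (hsc : SC r P) (hP : P ≤ l)
    {i j : Fin n} {s t : ℕ} (h : U (r i) s = (U (r j) t)⁻¹) : False := by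
  have h1 := congrArg FreeGroup.toWord h
  rw [toWord_inv, U_word (hr i), U_word (hr j)] at h1
  obtain ⟨k, hk, hne⟩ := hsc.bwd i j s (t + (l - P))
  apply hne
  have hwl : (win (r j) l t).length = l := by simp [win]
  have h2 : (win (r i) l s)[k]'(by simp [win]; omega) = per (r i) (s + k) := by simp [win]
  have h3 : (invw (win (r j) l t))[k]'(by rw [length_invw, hwl]; omega) =
      linv (per (r j) (t + (l - P) + (P - 1 - k))) := by
    rw [getElem_invw _ k (by rw [hwl]; omega)]
    congr 1
    simp only [win, List.getElem_map, List.getElem_range, List.length_map, List.length_range]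
    congr 1
    omega
  rw [← h2, ← h3]
  congr 1

end NN

open NN in
theorem t_NN : M_NN := by
  intro hRF m l n P _ r hr hsc hP1 hPl v hv
  have hlpos := NeZero.pos l
  unfold nn occ
  rw [← Nat.card_sum]
  symm
  let f : {x : Fin n × Fin l // ∀ (i : ℕ) (h : i < v.length), v[i] = per (r x.1) (x.2 + i)} ⊕
      {x : Fin n × Fin l // ∀ (i : ℕ) (h : i < (invw v).length),
        (invw v)[i] = per (r x.1) (x.2 + i)} → {u : FG m // u ∈ R1 r ∧ v <+: u.toWord} :=
    Sum.elim (fun x => ⟨U (r x.1.1) x.1.2, U_mem hr _ _, by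
        rw [U_word (hr _), pre1 _ _ _ hv]
        exact x.2⟩)
      (fun x => ⟨(U (r x.1.1) (x.1.2 + v.length))⁻¹, (hRF m l n r hr).2.2.1 _ (U_mem hr _ _), by
        rw [toWord_inv, U_word (hr _), pre2 _ _ _ hv]
        exact x.2⟩)
  apply Nat.card_eq_of_bijective f
  constructor
  · rintro (⟨⟨i, s⟩, hx⟩ | ⟨⟨i, s⟩, hx⟩) (⟨⟨j, t⟩, hy⟩ | ⟨⟨j, t⟩, hy⟩) hxy
    · have h1 : U (r i) s = U (r j) t := congrArg Subtype.val hxy
      obtain ⟨h2, h3⟩ := inj1 hr hsc hPl h1
      rw [Nat.mod_eq_of_lt s.2, Nat.mod_eq_of_lt t.2] at h3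
      have h4 : s = t := Fin.ext h3
      subst h2
      subst h4
      rfl
    · have h1 : U (r i) s = (U (r j) (t + v.length))⁻¹ := congrArg Subtype.val hxy
      exact (inj2 hr hsc hPl h1).elim
    · have h1 : (U (r i) (s + v.length))⁻¹ = U (r j) t := congrArg Subtype.val hxy
      exact (inj2 hr hsc hPl h1.symm).elim
    · have h1 : (U (r i) (s + v.length))⁻¹ = (U (r j) (t + v.length))⁻¹ :=
        congrArg Subtype.val hxy
      obtain ⟨h2, h3⟩ := inj1 hr hsc hPl (inv_injective h1)
      have h5 : (s : ℕ) ≡ t [MOD l] := Nat.ModEq.add_right_cancel' _ h3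
      have h6 : (s : ℕ) % l = t % l := h5
      rw [Nat.mod_eq_of_lt s.2, Nat.mod_eq_of_lt t.2] at h6
      have h4 : s = t := Fin.ext h6
      subst h2
      subst h4
      rfl
  · rintro ⟨u, hu, hpre⟩
    obtain ⟨j, a, ha, h1 | h1⟩ := surj hRF hr u hu
    · refine ⟨Sum.inl ⟨(j, ⟨a, ha⟩), ?_⟩, ?_⟩
      · rw [← pre1 _ _ _ hv, ← U_word (hr j)]
        rw [h1] at hpre
        exact hpre
      · apply Subtype.ext
        exact h1.symm
    · have h2 : ((a + (l - v.length)) % l + v.length) % l = a % l := by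
        rw [Nat.mod_add_mod]
        have : a + (l - v.length) + v.length = a + l := by omega
        rw [this, Nat.add_mod_right]
      have h3 := U_congr (r j) h2
      refine ⟨Sum.inr ⟨(j, ⟨(a + (l - v.length)) % l, Nat.mod_lt _ hlpos⟩), ?_⟩, ?_⟩
      · rw [← pre2 _ _ _ hv, ← U_word (hr j), ← toWord_inv]
        change v <+: (U (r j) ((a + (l - v.length)) % l + v.length))⁻¹.toWord
        rw [h3, ← h1]
        exact hpre
      · apply Subtype.ext
        change (U (r j) ((a + (l - v.length)) % l + v.length))⁻¹ = u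
        rw [h3, ← h1]

end RBG
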