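import Pool.Agent.RBG.Base

/-!
# RBG, OL: the order lemma
-/

set_option autoImplicit false

namespace RBG

open RGD

theorem t_OL : S_OL := by
  intro R E
  refine ⟨R * (kc R + 3 * (R * (E + 1))) + 2 * E + 1 + R * R, ?_⟩
  intro m l _ K Y _ π D β β' θ θ' hQ hN x x' w w' hw hw' hs hθ t i i' k y y' hy hy' h1 h2
  obtain ⟨u, hu⟩ := hQ.surj (x' * line w' i)
  obtain ⟨u', hu'⟩ := hQ.surj (x' * line w' i')
  -- the translated points
  have hl : 1 ≤ l := NeZero.pos l
  have hM : (k : ℤ) ≤ ((k + 1 : ℕ) : ℤ) * l := by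
    push_cast
    nlinarith
  have hM0 : (0 : ℤ) ≤ ((k + 1 : ℕ) : ℤ) * l := by positivity
  have hyM : π ((x * el w * x⁻¹) ^ (k + 1) • y) = x * line w (t + ((k + 1 : ℕ) : ℤ) * l) := by
    rw [hQ.pi, hy, ← conj_line, zpow_natCast]
  have huM : π ((x' * el w' * x'⁻¹) ^ (k + 1) • u) =
      x' * line w' (i + ((k + 1 : ℕ) : ℤ) * l) := by
    rw [hQ.pi, hu, ← conj_line, zpow_natCast]
  have hβ : β ((x * el w * x⁻¹) ^ (k + 1) • y) = (x' * el w' * x'⁻¹) ^ (k + 1) • β y := by
    rw [hN.eqv _ (K.pow_mem hs _), hN.pow hQ hs, hθ]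
  have e1 : D y y' + D y' ((x * el w * x⁻¹) ^ (k + 1) • y) ≤
      D y ((x * el w * x⁻¹) ^ (k + 1) • y) + kc R := by
    apply hQ.add
    rw [hyM, hy, hy']
    exact bt_xline hw x (by omega) (by omega)
  have d1 : D (β y) u ≤ R * (E + 1) := by
    refine le_trans (hQ.up _ _) (Nat.mul_le_mul_left _ ?_)
    rw [hu]
    omega
  have d2 : D (β y') u' ≤ R * (E + 1) := by
    refine le_trans (hQ.up _ _) (Nat.mul_le_mul_left _ ?_)
    rw [hu']
    omega
  have d3 : D (β ((x * el w * x⁻¹) ^ (k + 1) • y)) ((x' * el w' * x'⁻¹) ^ (k + 1) • u) ≤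
      R * (E + 1) := by
    rw [hβ, hQ.isom]
    exact d1
  have hk1 : k = td (π y) (π y') := by
    rw [hy, hy', td_xline hw]
    omega
  have hk2 : k ≤ R * D y y' := by
    rw [hk1]
    exact hQ.low y y'
  have hii : (i' - i).natAbs ≤ 2 * E + td (π (β y)) (π (β y')) := by
    rw [← td_xline hw' x' i i']
    have a1 := td_tri (x' * line w' i) (π (β y)) (x' * line w' i')
    have a2 := td_tri (π (β y)) (π (β y')) (x' * line w' i')
    rw [td_comm'] at h1
    omega
  rcases lt_or_ge i' i with hc | hc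
  · have e2 : D u' u + D u ((x' * el w' * x'⁻¹) ^ (k + 1) • u) ≤
        D u' ((x' * el w' * x'⁻¹) ^ (k + 1) • u) + kc R := by
      apply hQ.add
      rw [huM, hu, hu']
      exact bt_xline hw' x' (by omega) (by omega)
    have f1 := hQ.tri (β y') u' (β y)
    have f2 := hQ.tri u' u (β y)
    have f3 := hQ.tri (β y) u (β ((x * el w * x⁻¹) ^ (k + 1) • y))
    have f4 := hQ.tri u ((x' * el w' * x'⁻¹) ^ (k + 1) • u)
      (β ((x * el w * x⁻¹) ^ (k + 1) • y))
    have f5 := hQ.tri u' (β y') ((x' * el w' * x'⁻¹) ^ (k + 1) • u)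
    have f6 := hQ.tri (β y') (β ((x * el w * x⁻¹) ^ (k + 1) • y))
      ((x' * el w' * x'⁻¹) ^ (k + 1) • u)
    have g1 := hQ.comm u (β y)
    have g2 := hQ.comm u' (β y')
    have g3 := hQ.comm ((x' * el w' * x'⁻¹) ^ (k + 1) • u)
      (β ((x * el w * x⁻¹) ^ (k + 1) • y))
    have g4 := hN.isom y' y
    have g5 := hN.isom y ((x * el w * x⁻¹) ^ (k + 1) • y)
    have g6 := hN.isom y' ((x * el w * x⁻¹) ^ (k + 1) • y)
    have g7 := hQ.comm y y'
    have hD : D y y' ≤ kc R + 3 * (R * (E + 1)) := by omega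
    have hk3 : k ≤ R * (kc R + 3 * (R * (E + 1))) := le_trans hk2 (Nat.mul_le_mul_left _ hD)
    have hi3 : td (π (β y)) (π (β y')) ≤ R * (kc R + 3 * (R * (E + 1))) := by
      refine le_trans (hQ.low _ _) (Nat.mul_le_mul_left _ ?_)
      rw [hN.isom]
      exact hD
    generalize R * (kc R + 3 * (R * (E + 1))) = A at hk3 hi3 ⊢
    have p1 : (1 : ℤ) ≤ i' - i + ((A + 2 * E + 1 + R * R : ℕ) : ℤ) := by
      push_cast
      have : (0 : ℤ) ≤ (R : ℤ) * R := by positivity
      omega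
    have p2 : (k : ℤ) ≤ ((A + 2 * E + 1 + R * R : ℕ) : ℤ) := by
      push_cast
      have : (0 : ℤ) ≤ (R : ℤ) * R := by positivity
      omega
    have p3 : (0 : ℤ) ≤ ((A + 2 * E + 1 + R * R : ℕ) : ℤ) := Int.natCast_nonneg _
    nlinarith
  · have h3 := hQ.up (β y) (β y')
    rw [hN.isom] at h3
    have h4 : td (π (β y)) (π (β y')) ≤ (i' - i).toNat + 2 * E := by
      have a1 := td_tri (π (β y)) (x' * line w' i) (π (β y'))
      have a2 := td_tri (x' * line w' i) (x' * line w' i') (π (β y'))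
      rw [td_xline hw'] at a2
      rw [td_comm' (x' * line w' i') (π (β y'))] at a2
      omega
    obtain ⟨n, hn⟩ := Int.le.dest hc
    have hn' : (i' - i).toNat = n := by omega
    rw [hn'] at h4
    have h5 : k ≤ R * (R * (n + 2 * E + 1)) := by
      refine le_trans hk2 (Nat.mul_le_mul_left _ (le_trans h3 (Nat.mul_le_mul_left _ ?_)))
      omega
    have h6 : i' - i = n := by omega
    rw [h6]
    generalize R * (kc R + 3 * (R * (E + 1))) = A
    have h7 : k ≤ (A + 2 * E + 1 + R * R) * (n + (A + 2 * E + 1 + R * R)) := by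
      refine le_trans h5 ?_
      rw [← mul_assoc]
      apply Nat.mul_le_mul
      · omega
      · omega
    exact_mod_cast h7

end RBG
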