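import Pool.Agent.RBG.Base

/-!
# MP_0a3593_al, bounded geometry: PRE

If `TT` holds along the path `W` from `v` then `θ` respects the lines that start with this path.
-/

set_option autoImplicit false

namespace RBG

open RGD

namespace PRE

variable {m : ℕ}

/-- the first letter of the remaining part of a word -/
theorem head_drop {W L : List (Ltr m)} {i : ℕ} (hi : i < W.length) (h : W <+: W.take i ++ L) :
    L.head? = some W[i] := by
  obtain ⟨T, hT⟩ := h
  have h1 : W.take i ++ (W.drop i ++ T) = W.take i ++ L := by
    rw [← List.append_assoc, List.take_append_drop, hT]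
  have h2 := List.append_cancel_left h1
  rw [← h2, List.drop_eq_getElem_cons hi]
  rfl

theorem take_succ_start {W L : List (Ltr m)} {i : ℕ} (hi : i < W.length)
    (h : L.head? = some W[i]) : W.take (i + 1) <+: W.take i ++ L := by
  obtain ⟨x, T, rfl⟩ : ∃ x T, L = x :: T := by
    cases L with
    | nil => simp at h
    | cons x T => exact ⟨x, T, rfl⟩
  rw [List.head?_cons, Option.some.injEq] at h
  rw [h]
  refine ⟨T, ?_⟩
  rw [List.take_succ_eq_append_getElem hi, List.append_assoc]
  rfl

end PRE

theorem t_PRE : M_PRE := by
  intro hRF m l n _ r hr θ v W hW hTT u hu hWu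
  obtain ⟨-, -, -, hrot, -⟩ := hRF m l n r hr
  have hpos : 0 < W.length := List.length_pos_iff.2 hW
  have hlu : u.toWord.length = l := hu.2
  have hWl : W.length ≤ l := by rw [← hlu]; exact hWu.length_le
  have key : ∀ i, 1 ≤ i → i ≤ W.length → th θ v u ∈ R1 r ∧ W.take i <+: (th θ v u).toWord := by
    intro i hi1
    induction i, hi1 using Nat.le_induction with
    | base =>
      intro _
      have h0 := hTT 0 hpos
      rw [List.take_zero, ← FreeGroup.one_eq_mk, mul_one] at h0
      obtain ⟨h1, h2⟩ := h0 u hu
      refine ⟨h1, ?_⟩
      have h3 : u.toWord.head? = some W[0] := PRE.head_drop (i := 0) hpos (by simpa using hWu)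
      rw [h3] at h2
      have h4 := PRE.take_succ_start (i := 0) hpos h2
      simpa using h4
    | succ i hi1 ih =>
      intro hi
      obtain ⟨h1, h2⟩ := ih (by omega)
      refine ⟨h1, ?_⟩
      obtain ⟨L', hL'⟩ := h2
      obtain ⟨L2, hL2⟩ : ∃ L2, W.take i ++ L2 = u.toWord := by
        obtain ⟨T, hT⟩ := hWu
        exact ⟨W.drop i ++ T, by rw [← List.append_assoc, List.take_append_drop, hT]⟩
      have r1 := hrot u hu _ _ hL2.symm
      have r2 := hrot _ h1 _ _ hL'.symm
      have e1 : (FreeGroup.mk (L2 ++ W.take i) : FG m) =
          (FreeGroup.mk (W.take i))⁻¹ * u * FreeGroup.mk (W.take i) := by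
        have : u = FreeGroup.mk (W.take i) * FreeGroup.mk L2 := by
          rw [← mk_append, hL2, mk_toWord]
        rw [this, mk_append]
        group
      have e2 : (FreeGroup.mk (L' ++ W.take i) : FG m) =
          (FreeGroup.mk (W.take i))⁻¹ * th θ v u * FreeGroup.mk (W.take i) := by
        have : th θ v u = FreeGroup.mk (W.take i) * FreeGroup.mk L' := by
          rw [← mk_append, hL', mk_toWord]
        rw [mk_append]
        conv_rhs => rw [this]
        group
      have h3 := (hTT i (by omega) _ r1.1).2
      rw [r1.2, e1, th_conj, ← e2, r2.2] at h3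
      have h4 : L2.head? = some W[i] := PRE.head_drop (by omega) (by rw [hL2]; exact hWu)
      have hne : L' ≠ [] := by
        rintro rfl
        have h5 : (th θ v u).toWord.length = l := h1.2
        rw [← hL', List.append_nil, List.length_take] at h5
        omega
      have hne2 : L2 ≠ [] := by
        rintro rfl
        simp at h4
      rw [List.head?_append_of_ne_nil _ hne, List.head?_append_of_ne_nil _ hne2, h4] at h3
      rw [← hL']
      exact PRE.take_succ_start (by omega) h3
  have h := key W.length hpos le_rfl
  rw [List.take_length] at h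
  exact h

end RBG
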