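import Pool.Agent.RBG.Base

/-!
# MP_0a3593_al, bounded geometry: module RF (facts on the relators)
-/

set_option autoImplicit false

namespace RBG

open RGD

namespace RF

variable {m l n : ℕ} [NeZero l]

/-- the inverse word -/
def iw (w : Word m l) : Word m l := fun i => linv (w i.rev)

omit [NeZero l] in
theorem rot_rev (i : Fin l) : finRotate l (finRotate l i).rev = i.rev := by
  obtain ⟨k, rfl⟩ : ∃ k, l = k + 1 := ⟨l - 1, by have := i.2; omega⟩
  rw [finRotate_succ_apply, finRotate_succ_apply]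
  apply Fin.ext
  rw [Fin.val_add_one, Fin.val_rev, Fin.val_rev, Fin.val_add_one]
  have hi := i.2
  by_cases h : i = Fin.last k
  · subst h
    rw [if_pos rfl, if_pos]
    · simp
    · apply Fin.ext
      rw [Fin.val_rev, Fin.val_add_one, if_pos rfl, Fin.val_last]
      omega
  · have h1 : (i : ℕ) ≠ k := fun h1 => h (Fin.ext (by rw [Fin.val_last]; exact h1))
    rw [if_neg h, if_neg]
    · omega
    · intro h2
      have h3 := congrArg Fin.val h2
      rw [Fin.val_rev, Fin.val_add_one, if_neg h, Fin.val_last] at h3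
      omega

omit [NeZero l] in
theorem cyc_iw {w : Word m l} (h : CycRed w) : CycRed (iw w) := by
  intro i h1
  unfold iw at h1
  rw [linv_linv] at h1
  apply h (finRotate l i).rev
  rw [rot_rev]
  exact h1.symm

omit [NeZero l] in
theorem el_iw (w : Word m l) : el (iw w) = (el w)⁻¹ := by
  unfold el
  rw [← mk_invw]
  congr 1
  unfold invw
  apply List.ext_getElem
  · simp
  · intro i h1 h2
    rw [List.getElem_reverse, List.getElem_map, List.getElem_ofFn, List.getElem_ofFn]
    unfold iw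
    congr 2
    apply Fin.ext
    rw [Fin.val_rev]
    simp only [List.length_map, List.length_ofFn]
    omega

/-- cyclic permutations -/
def cp (w : Word m l) (t : ℤ) : Word m l := fun i => perZ w (t + (i : ℕ))

theorem perZ_add (w : Word m l) (t : ℤ) : perZ w (t + l) = perZ w t := by
  unfold perZ
  rw [Int.add_emod_right]

theorem cyc_cp {w : Word m l} (h : CycRed w) (t : ℤ) : CycRed (cp w t) := by
  intro i
  unfold cp
  have h1 := LINE.perZ_ne w h (t + (i : ℕ))
  have h2 : perZ w (t + ((finRotate l i : Fin l) : ℕ)) = perZ w (t + (i : ℕ) + 1) := by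
    obtain ⟨k, rfl⟩ : ∃ k, l = k + 1 := ⟨l - 1, by have := i.2; omega⟩
    rw [finRotate_succ_apply, Fin.val_add_one]
    by_cases hi : i = Fin.last k
    · rw [if_pos hi, hi, Fin.val_last]
      have h3 := perZ_add w t
      push_cast at h3 ⊢
      rw [add_zero, ← h3, add_assoc]
    · rw [if_neg hi]
      push_cast
      rw [add_assoc]
  rw [h2]
  exact h1

theorem el_cp {w : Word m l} (h : CycRed w) (t : ℤ) :
    el (cp w t) = (line w t)⁻¹ * el w * line w t := by
  have h1 := LINE.seg_mk w t l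
  have h2 := conj_line_one w 1 t
  simp only [one_mul, inv_one, mul_one] at h2
  rw [← h2, ← mul_assoc] at h1
  rw [h1]
  unfold el
  congr 1
  apply List.ext_getElem
  · simp
  · intro i h1 h2
    rw [List.getElem_ofFn, List.getElem_map, List.getElem_range]
    rfl

/-- the points on the axis -/
theorem norm_iff (hA : S_AXP) {w : Word m l} (h : CycRed w) (x z : FG m) :
    (z⁻¹ * (x * el w * x⁻¹) * z).norm = l ↔ ∃ t : ℤ, z = x * line w t := by
  rw [td_conj]
  constructor
  · intro h1
    obtain ⟨t, h2, h3⟩ := hA m l w h x z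
    refine ⟨t, ?_⟩
    have h4 : td (x * line w t) (x * el w * x⁻¹ * (x * line w t)) = l := by
      rw [conj_line_one, td_xline h]
      omega
    have h5 : td (x * el w * x⁻¹ * (x * line w t)) (x * el w * x⁻¹ * z) =
        td (x * line w t) z := td_left _ _ _
    have h6 := td_comm' (x * line w t) z
    apply td_eq_zero.1
    omega
  · rintro ⟨t, rfl⟩
    rw [conj_line_one, td_xline h]
    omega

variable {r : Fin n → Word m l}

/-- relators are conjugates of cyclically reduced words -/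
theorem rr (hr : ∀ j, CycRed (r j)) {s : FG m} (hs : s ∈ RR r) :
    ∃ (x : FG m) (w : Word m l), CycRed w ∧ el w ∈ R1 r ∧ s = x * el w * x⁻¹ := by
  obtain ⟨x, j, rfl | rfl⟩ := hs
  · exact ⟨x, r j, hr j, ⟨⟨1, j, Or.inl (by group)⟩, el_norm (hr j)⟩, rfl⟩
  · refine ⟨x, iw (r j), cyc_iw (hr j), ⟨⟨1, j, Or.inr ?_⟩, el_norm (cyc_iw (hr j))⟩, ?_⟩
    · rw [el_iw]
      group
    · rw [el_iw]

theorem on_axis (hA : S_AXP) (x z : FG m) (w : Word m l) (h : CycRed w) (hw : el w ∈ R1 r) :
    z⁻¹ * (x * el w * x⁻¹) * z ∈ R1 r ↔ ∃ t : ℤ, z = x * line w t := by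
  rw [← norm_iff hA h x z]
  constructor
  · intro h1
    exact h1.2
  · intro h1
    refine ⟨?_, h1⟩
    have h2 := RR_conj (RR_conj hw.1 x) z⁻¹
    rw [inv_inv] at h2
    exact h2

theorem r1 (hA : S_AXP) (hr : ∀ j, CycRed (r j)) {u : FG m} (hu : u ∈ R1 r) :
    ∃ w : Word m l, CycRed w ∧ el w = u ∧ u.toWord = List.ofFn w := by
  obtain ⟨x, w, h, hw, rfl⟩ := rr hr hu.1
  have h1 := hu
  have h2 : (1 : FG m)⁻¹ * (x * el w * x⁻¹) * 1 = x * el w * x⁻¹ := by group
  rw [← h2, on_axis hA x 1 w h hw] at h1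
  obtain ⟨t, ht⟩ := h1
  have h3 : x = (line w t)⁻¹ := eq_inv_of_mul_eq_one_left ht.symm
  have h4 : el (cp w t) = x * el w * x⁻¹ := by rw [el_cp h, h3, inv_inv]
  exact ⟨cp w t, cyc_cp h t, h4, by rw [← h4]; exact el_toWord (cyc_cp h t)⟩

theorem word_of_norm {L : List (Ltr m)} (h : (FreeGroup.mk L : FG m).norm = L.length) :
    (FreeGroup.mk L : FG m).toWord = L := by
  have h2 : FreeGroup.Red L (FreeGroup.reduce L) := FreeGroup.reduce.red
  have h3 := h2.sublist
  have h4 : (FreeGroup.mk L : FG m).toWord = FreeGroup.reduce L := FreeGroup.toWord_mk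
  unfold FreeGroup.norm at h
  rw [h4] at h ⊢
  exact h3.eq_of_length h

theorem rotate (hA : S_AXP) (hr : ∀ j, CycRed (r j)) {u : FG m} (hu : u ∈ R1 r)
    {L1 L2 : List (Ltr m)} (hL : u.toWord = L1 ++ L2) :
    FreeGroup.mk (L2 ++ L1) ∈ R1 r ∧ (FreeGroup.mk (L2 ++ L1) : FG m).toWord = L2 ++ L1 := by
  obtain ⟨w, hw, rfl, hword⟩ := r1 hA hr hu
  have hlen : L1.length + L2.length = l := by
    rw [← List.length_append, ← hL, hword, List.length_ofFn]
  have h1 : FreeGroup.mk L1 = line w (L1.length : ℤ) := by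
    rw [line_take w (by omega), ← hword, hL, List.take_left]
  have h2 : (el w : FG m) = FreeGroup.mk L1 * FreeGroup.mk L2 := by
    rw [← mk_append, ← hL, mk_toWord]
  have h3 := (on_axis (r := r) hA 1 (line w (L1.length : ℤ)) w hw hu).2 ⟨_, by rw [one_mul]⟩
  have h4 : (line w (L1.length : ℤ))⁻¹ * (1 * el w * 1⁻¹) * line w (L1.length : ℤ) =
      FreeGroup.mk (L2 ++ L1) := by
    rw [← h1, h2, mk_append]
    group
  rw [h4] at h3
  refine ⟨h3, word_of_norm ?_⟩
  rw [h3.2, List.length_append]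
  omega

end RF

open RF in
theorem t_RF : M_RF := by
  intro hA m l n _ r hr
  refine ⟨fun u hu => r1 hA hr hu, fun s hs => rr hr hs, fun u hu => ⟨RR_inv hu.1, ?_⟩,
    fun u hu L1 L2 hL => rotate hA hr hu hL, fun s hs => ⟨RR_mem hs, ?_, RR_inv hs,
    fun f => RR_conj hs f⟩, ?_, fun x z w h hw => on_axis hA x z w h hw⟩
  · rw [FreeGroup.norm_inv_eq]
    exact hu.2
  · obtain ⟨x, w, h, hw, rfl⟩ := rr hr hs
    intro h1
    have h2 : el w = 1 := conj_eq_one_iff.1 h1
    have h3 := hw.2
    rw [h2, FreeGroup.norm_one] at h3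
    exact NeZero.ne l h3.symm
  · refine (Set.finite_range fun w : Word m l => el w).subset fun u hu => ?_
    obtain ⟨w, _, h1, _⟩ := r1 hA hr hu
    exact ⟨w, h1⟩

end RBG
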