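import Pool.Agent.RBG.Base

/-!
# MP_0a3593_al, bounded geometry: completion of subwords (module RHO)
-/

set_option autoImplicit false

namespace RBG

open RGD Pool.Agent.Olsh

namespace RHO

variable {m l n : ℕ} [NeZero l]

/-- the full period from the place `s` -/
def fl (w : Word m l) (s : ℕ) : List (Ltr m) := (List.range l).map fun i => per w (s + i)

theorem fl_length (w : Word m l) (s : ℕ) : (fl w s).length = l := by
  unfold fl
  rw [List.length_map, List.length_range]

theorem fl_getElem (w : Word m l) (s i : ℕ) (h : i < (fl w s).length) :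
    (fl w s)[i] = per w (s + i) := by
  simp only [fl, List.getElem_map, List.getElem_range]

theorem fl_eq (w : Word m l) (s : ℕ) :
    fl w s = (List.range l).map fun i : ℕ => perZ w ((s : ℤ) + i) := by
  unfold fl
  apply List.map_congr_left
  intro i _
  rw [← LINE.perZ_nat]
  push_cast
  rfl

theorem mk_fl (w : Word m l) (s : ℕ) :
    FreeGroup.mk (fl w s) = (line w s)⁻¹ * el w * line w s := by
  rw [fl_eq, ← LINE.seg_mk]
  have h := LINE.line_add w (s : ℤ) 1
  rw [one_mul, zpow_one] at h
  rw [h, mul_assoc]

theorem norm_fl (w : Word m l) (h : CycRed w) (s : ℕ) : (FreeGroup.mk (fl w s)).norm = l := by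
  rw [fl_eq, ← LINE.seg_mk]
  unfold FreeGroup.norm
  rw [LINE.seg_word w h, List.length_map, List.length_range]

theorem red_fl (w : Word m l) (h : CycRed w) (s : ℕ) : RedL (fl w s) := by
  unfold RedL
  rw [List.isChain_iff_getElem]
  intro i hi
  rw [fl_getElem, fl_getElem]
  exact LINE.per_succ_ne w h (s + i)

theorem linv_linv (a : Ltr m) : linv (linv a) = a := by
  obtain ⟨x, b⟩ := a
  simp [linv]

theorem per_add (w : Word m l) (t : ℕ) : per w (t + l) = per w t := by
  rw [← LINE.per_mod w (t + l), Nat.add_mod_right, LINE.per_mod]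

/-- the inverse of the full period -/
def fi (w : Word m l) (s : ℕ) : List (Ltr m) := FreeGroup.invRev (fl w s)

theorem fi_length (w : Word m l) (s : ℕ) : (fi w s).length = l := by
  unfold fi
  rw [FreeGroup.invRev_length, fl_length]

theorem fi_getElem (w : Word m l) (s i : ℕ) (h : i < (fi w s).length) :
    (fi w s)[i] = linv (per w (s + (l - 1 - i))) := by
  simp only [fi, FreeGroup.invRev, List.getElem_reverse, List.getElem_map, fl_getElem,
    List.length_map, fl_length]
  rfl

theorem mk_fi (w : Word m l) (s : ℕ) :
    FreeGroup.mk (fi w s) = (line w s)⁻¹ * (el w)⁻¹ * line w s := by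
  unfold fi
  rw [← FreeGroup.inv_mk, mk_fl]
  group

theorem red_fi (w : Word m l) (h : CycRed w) (s : ℕ) : RedL (fi w s) := by
  unfold RedL
  rw [List.isChain_iff_getElem]
  intro i hi
  rw [fi_length] at hi
  rw [fi_getElem, fi_getElem, linv_linv]
  intro h1
  have h2 : l - 1 - i = (l - 1 - (i + 1)) + 1 := by omega
  apply LINE.per_succ_ne w h (s + (l - 1 - (i + 1)))
  rw [h1, h2]
  rfl

end RHO

open RHO in
theorem t_RHO : S_RHO := by
  intro m l n _ r hr p hp hpl
  obtain ⟨j, q0, h | h⟩ := hp
  · have h1 : p = (fl (r j) q0).take p.length := by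
      apply List.ext_getElem
      · rw [List.length_take, fl_length]
        omega
      · intro i hi hi'
        rw [List.getElem_take, fl_getElem, h i hi]
    have h2 : p ++ (fl (r j) q0).drop p.length = fl (r j) q0 := by
      conv_lhs => rw [h1]
      rw [List.length_take, fl_length, min_eq_left hpl]
      exact List.take_append_drop _ _
    refine ⟨(fl (r j) q0).drop p.length, ?_, ?_, ?_⟩
    · rw [List.length_drop, fl_length]
      omega
    · rw [h2]
      exact red_fl _ (hr j) _
    · rw [h2]
      refine ⟨⟨(line (r j) q0)⁻¹, j, Or.inl ?_⟩, norm_fl _ (hr j) _⟩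
      rw [mk_fl, inv_inv]
  · have h1 : p = (fi (r j) (q0 + p.length)).take p.length := by
      apply List.ext_getElem
      · rw [List.length_take, fi_length]
        omega
      · intro i hi hi'
        rw [List.getElem_take, fi_getElem, h i hi]
        congr 1
        have h3 : q0 + p.length + (l - 1 - i) = (q0 + (p.length - 1 - i)) + l := by omega
        rw [h3, per_add]
    have h2 : p ++ (fi (r j) (q0 + p.length)).drop p.length = fi (r j) (q0 + p.length) := by
      have h4 := List.take_append_drop p.length (fi (r j) (q0 + p.length))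
      rw [← h1] at h4
      exact h4
    refine ⟨(fi (r j) (q0 + p.length)).drop p.length, ?_, ?_, ?_⟩
    · rw [List.length_drop, fi_length]
      omega
    · rw [h2]
      exact red_fi _ (hr j) _
    · rw [h2]
      refine ⟨⟨(line (r j) ((q0 + p.length : ℕ) : ℤ))⁻¹, j, Or.inr ?_⟩, ?_⟩
      · rw [mk_fi, inv_inv]
      · unfold fi
        rw [← FreeGroup.inv_mk, FreeGroup.norm_inv_eq]
        exact norm_fl _ (hr j) _

end RBG
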