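import Pool.Agent.RBG.Base

/-!
# MP_0a3593_al, bounded geometry: module STEP
-/

set_option autoImplicit false

namespace RBG

open RGD

namespace STEP

variable {m l n : ℕ} [NeZero l]

theorem line_neg (w : Word m l) {k : ℕ} (hk : k ≤ l) :
    line w (-(k : ℤ)) = FreeGroup.mk ((invw (List.ofFn w)).take k) := by
  have h1 := LINE.line_add w ((l - k : ℕ) : ℤ) (-1)
  have h2 : (((l - k : ℕ) : ℤ) + -1 * l) = -(k : ℤ) := by
    rw [Nat.cast_sub hk]; ring
  rw [h2, line_take w (by omega : l - k ≤ l)] at h1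
  rw [h1]
  have h3 : el w = FreeGroup.mk ((List.ofFn w).take (l - k)) *
      FreeGroup.mk ((List.ofFn w).drop (l - k)) := by
    rw [← mk_append, List.take_append_drop]; rfl
  have h4 : (invw (List.ofFn w)).take k = invw ((List.ofFn w).drop (l - k)) := by
    have h5 : invw (List.ofFn w) =
        invw ((List.ofFn w).drop (l - k)) ++ invw ((List.ofFn w).take (l - k)) := by
      rw [← invw_append, List.take_append_drop]
    rw [h5, List.take_append_of_le_length, List.take_of_length_le]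
    · rw [length_invw]; simp; omega
    · rw [length_invw]; simp; omega
  rw [h4, mk_invw, h3]
  group

theorem head_el {w : Word m l} (h : CycRed w) : (el w).toWord.head? = some (per w 0) := by
  have h1 := conj_line_one w 1 0
  rw [line_zero] at h1
  have h2 : el w = line w l := by simpa using h1
  rw [h2, head_line_pos h (LINE.lpos)]

theorem redL_append {L L' : List (Ltr m)} (h : RedL L) (h' : RedL L')
    (hh : ∀ a b, L.getLast? = some a → L'.head? = some b → b ≠ linv a) : RedL (L ++ L') := by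
  unfold RedL
  rw [List.isChain_append]
  refine ⟨h, h', ?_⟩
  intro x hx y hy
  exact hh x y hx hy

theorem td_shift (y a b : FG m) : td (y⁻¹ * a) (y⁻¹ * b) = td a b := td_left _ _ _

/-- if `y` is between two points of a line then it is on the line -/
theorem on_line {w : Word m l} (h : CycRed w) (x y : FG m) (i j : ℤ)
    (hb : td (x * line w i) y + td y (x * line w j) = td (x * line w i) (x * line w j)) :
    ∃ t : ℤ, y = x * line w t := by
  rw [td_xline h] at hb
  rcases le_total i j with hij | hij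
  · refine ⟨i + td (x * line w i) y, ?_⟩
    apply bt_unique (p := x * line w i) (q := x * line w j)
    · rw [hb, td_xline h]
    · rw [td_xline h, td_xline h, td_xline h]; omega
    · rw [td_xline h]; omega
  · refine ⟨i - td (x * line w i) y, ?_⟩
    apply bt_unique (p := x * line w i) (q := x * line w j)
    · rw [hb, td_xline h]
    · rw [td_xline h, td_xline h, td_xline h]; omega
    · rw [td_xline h]; omega

/-- rotation of an element of `R1` -/
theorem rot {r : Fin n → Word m l} (hRF : S_RF) (hr : ∀ j, CycRed (r j)) {u : FG m}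
    (hu : u ∈ R1 r) {L1 L2 : List (Ltr m)} (h : u.toWord = L1 ++ L2) :
    (FreeGroup.mk L1)⁻¹ * u * FreeGroup.mk L1 ∈ R1 r ∧
      ((FreeGroup.mk L1)⁻¹ * u * FreeGroup.mk L1).toWord = L2 ++ L1 := by
  have h1 := (hRF m l n r hr).2.2.2.1 u hu L1 L2 h
  have h2 : (FreeGroup.mk L1)⁻¹ * u * FreeGroup.mk L1 = FreeGroup.mk (L2 ++ L1) := by
    rw [← mk_toWord u, h, mk_append, mk_append]
    group
  rw [h2]
  exact h1

omit [NeZero l] in
theorem len {r : Fin n → Word m l} {u : FG m} (hu : u ∈ R1 r) : u.toWord.length = l := hu.2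

/-- elements of `R1` are cyclically reduced -/
theorem cyc {r : Fin n → Word m l} (hRF : S_RF) (hr : ∀ j, CycRed (r j)) {u : FG m}
    (hu : u ∈ R1 r) {a b : Ltr m} (ha : u.toWord.getLast? = some a)
    (hb : u.toWord.head? = some b) : b ≠ linv a := by
  obtain ⟨L, hL⟩ := List.getLast?_eq_some_iff.1 ha
  have h1 := (rot hRF hr hu hL).2
  have h2 := redL_toWord ((FreeGroup.mk L)⁻¹ * u * FreeGroup.mk L)
  rw [h1] at h2
  cases L with
  | nil =>
    rw [hL] at hb
    simp only [List.nil_append, List.head?_cons, Option.some.injEq] at hb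
    rw [← hb]
    exact (linv_ne a).symm
  | cons c L =>
    rw [hL] at hb
    simp only [List.cons_append, List.head?_cons, Option.some.injEq] at hb
    rw [← hb]
    have h3 : RedL (a :: c :: L) := h2
    unfold RedL at h3
    rw [List.isChain_cons_cons] at h3
    exact h3.1

end STEP

open STEP in
theorem t_STEP : M_STEP := by
  intro hRF hB3 hCD hOL hNEAR hLL hCNTQ hTWO R
  obtain ⟨C1, Ccd, hCD⟩ := hCD R
  obtain ⟨Cn1, Cn, hNEAR⟩ := hNEAR R
  obtain ⟨C5a, Cll, hLL⟩ := hLL R (Cn1 + 2 * R * R + 1) (C1 + 1)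
  obtain ⟨C7, hOL⟩ := hOL R C1
  obtain ⟨Dq, hCNTQ⟩ := hCNTQ R
  obtain ⟨Cb3, hB3⟩ := hB3 R
  refine ⟨Dq + (C5a + C7 * C7 + 1) + 1, fun D' hD' => ?_⟩
  obtain ⟨Cq, hCNTQ⟩ := hCNTQ D' (by omega)
  refine ⟨Ccd + Cn + Cll + Cb3 + Cq + (5 * D' + 19), ?_⟩
  intro m l n P _ r Y _ π D β β' θ θ' hS hm hEV v W hW hT
  obtain ⟨C5, hC5⟩ : ∃ C5, C5 = C5a + C7 * C7 + 1 := ⟨_, rfl⟩
  have hr := hS.sc.cyc
  have hqt := hS.qt
  have hna := hS.na
  have hRF' := hRF m l n r hr
  have hl : 5 * D' + 19 ≤ l := by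
    have h1 := (hS.mono (C' := 5 * D' + 19) (by omega)).sc.big
    nlinarith
  have hCD := hCD m l n P r Y π D β β' θ θ' (hS.mono (by omega))
  have hNEAR := hNEAR m l n P r Y π D β β' θ θ' (hS.mono (by omega)) hm
  have hLL := hLL m l n P r Y π D β β' θ θ' (hS.mono (by omega))
  have hB3 := hB3 m l n P r Y π D β β' θ θ' (hS.mono (by omega))
  have hCNTQ := hCNTQ m l n P r Y π D β β' θ θ' (hS.mono (by omega)) hm
  obtain ⟨hTL, hTW⟩ := hTWO m l n D' r hr hm (by omega) hEV
  have hNEAR := hNEAR hTL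
  have hCNTQ := hCNTQ hTL
  -- the marked word
  obtain ⟨W0, a, hWa⟩ : ∃ W0 a, W = W0 ++ [a] := by
    obtain ⟨b, c, τ, h1, _, h2, _⟩ := hW
    have h3 : W ≠ [] := by rw [h1]; simp
    exact ⟨W.dropLast, W.getLast h3, (List.dropLast_append_getLast h3).symm⟩
  have hWne : W ≠ [] := by rw [hWa]; simp
  have hWlen : W.length = 4 * D' + 19 := by
    obtain ⟨b, c, τ, h1, _, h2, _⟩ := hW
    rw [h1]
    simp only [List.length_append, List.length_replicate, List.length_cons, h2]
    omega
  have hWred : RedL W := by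
    obtain ⟨b, c, τ, _, h1, _⟩ := hW
    exact h1
  have hEVW := hEV W hW
  have hQ := fun u hu d hd => hCNTQ v W hWne (by omega) hEVW hT u hu d hd
  -- the point before the last one
  have hx : TT r θ (v * FreeGroup.mk W0) := by
    have h1 := hT W0.length (by rw [hWa]; simp)
    have h2 : W.take W0.length = W0 := by rw [hWa]; simp
    rwa [h2] at h1
  obtain ⟨y, hy⟩ : ∃ y, y = v * FreeGroup.mk W := ⟨_, rfl⟩
  have hyx : y = v * FreeGroup.mk W0 * FreeGroup.mk [a] := by
    rw [hy, hWa, mk_append, mul_assoc]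
  rw [← hy]
  have hnear : ∀ z, π z = y → td (π (β z)) y ≤ Cn1 + 2 * R * R + 1 := by
    apply hna.near_next hqt (hNEAR _ hx)
    rw [hyx]
    have h1 := td_left (v * FreeGroup.mk W0) 1 (FreeGroup.mk [a])
    rw [mul_one, td_one] at h1
    rw [h1]
    exact norm_mk_le [a]
  -- (B)
  have hB : ∀ u ∈ R1 r, u.toWord.getLast? = some a →
      th θ y u ∈ R1 r ∧ (th θ y u).toWord.getLast? = some a := by
    intro u hu hua
    obtain ⟨L, hL⟩ := List.getLast?_eq_some_iff.1 hua
    have h1 := rot hRF hr hu hL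
    obtain ⟨u', hu'⟩ : ∃ u', u' = (FreeGroup.mk L)⁻¹ * u * FreeGroup.mk L := ⟨_, rfl⟩
    rw [← hu'] at h1
    have h2 : u = (FreeGroup.mk [a])⁻¹ * u' * FreeGroup.mk [a] := by
      have h3 : u = FreeGroup.mk L * FreeGroup.mk [a] := by
        rw [← mk_append, ← hL, mk_toWord]
      rw [hu', h3]
      group
    have h4 := hx u' h1.1
    rw [h1.2] at h4
    obtain ⟨h4, h5⟩ := h4
    simp only [List.cons_append, List.nil_append, List.head?_cons] at h5
    obtain ⟨L', hL'⟩ := List.head?_eq_some_iff.1 h5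
    have h6 := rot hRF hr h4 (L1 := [a]) (L2 := L') hL'
    rw [← th_conj, ← hyx, ← h2] at h6
    refine ⟨h6.1, ?_⟩
    rw [h6.2]
    simp
  -- relators that arrive through W
  have hA : ∀ c : List (Ltr m), c.length = D' → RedL (W ++ c) → ∃ U ∈ R1 r, c <+: U.toWord ∧
      th θ y U ∈ R1 r ∧ (th θ y U).toWord.head? = c.head? := by
    intro c hc hWc
    obtain ⟨u, hu, t, ht⟩ := hTW W c hW hc hWc
    obtain ⟨d, c', hdc⟩ : ∃ d c', c = d :: c' := by
      cases c with
      | nil => simp at hc; omega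
      | cons d c' => exact ⟨d, c', rfl⟩
    have h1 := rot hRF hr hu (L1 := W) (L2 := c ++ t) (by rw [← ht]; simp)
    have h2 := hQ u hu d ⟨c' ++ t, by rw [← ht, hdc]; simp⟩
    obtain ⟨h2, t', ht'⟩ := h2
    have h3 := rot hRF hr h2 (L1 := W) (L2 := [d] ++ t') (by rw [← ht']; simp)
    rw [← th_conj, ← hy] at h3
    refine ⟨_, h1.1, ⟨t ++ W, by rw [h1.2]; simp⟩, h3.1, ?_⟩
    rw [h3.2, hdc]
    simp
  -- reducedness of the continuation
  have hWcont : ∀ u ∈ R1 r, u.toWord.head? ≠ some (linv a) → RedL (W ++ u.toWord.take D') := by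
    intro u hu h1
    apply redL_append hWred (RedL.take (redL_toWord u) _)
    intro a' b ha' hb
    rw [hWa] at ha'
    simp only [List.getLast?_append, List.getLast?_singleton, Option.some_or,
      Option.some.injEq] at ha'
    rw [← ha']
    rintro rfl
    apply h1
    have hu2 := len hu
    revert hb
    cases hu3 : u.toWord with
    | nil => rw [hu3] at hu2; simp at hu2; omega
    | cons e L =>
      obtain ⟨k, rfl⟩ : ∃ k, D' = k + 1 := ⟨D' - 1, by omega⟩
      simp
  -- key: the first letter for far points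
  have hC5D : C5 ≤ D' := by omega
  have hkey : ∀ u ∈ R1 r, u.toWord.head? ≠ some (linv a) → ∀ z,
      π z = y * FreeGroup.mk (u.toWord.take C5) →
      (y⁻¹ * π (β z)).toWord.head? = u.toWord.head? ∧ C1 + 1 ≤ td y (π (β z)) := by
    intro u hu h1 z hz
    have hu2 := len hu
    obtain ⟨U, hU, ⟨t, ht⟩, hU2, hU3⟩ := hA (u.toWord.take D')
      (by rw [List.length_take]; omega) (hWcont u hu h1)
    have h2 : U.toWord.take C5 = u.toWord.take C5 := by
      rw [← ht, List.take_append_of_le_length, List.take_take]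
      · congr 1; omega
      · rw [List.length_take]; omega
    rw [← h2] at hz
    have h3 := hLL y U hU hU2 hnear C5 (by omega) (by omega) z hz
    rw [h3.1, hU3]
    refine ⟨?_, h3.2⟩
    cases hu3 : u.toWord with
    | nil => rw [hu3] at hu2; simp at hu2; omega
    | cons e L =>
      obtain ⟨k, rfl⟩ : ∃ k, D' = k + 1 := ⟨D' - 1, by omega⟩
      simp
  -- (i)
  have hI : ∀ u ∈ R1 r, u.toWord.getLast? = some a →
      th θ y u ∈ R1 r ∧ (th θ y u).toWord.head? = u.toWord.head? := by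
    intro u hu hua
    have hu2 := len hu
    refine ⟨(hB u hu hua).1, ?_⟩
    obtain ⟨b, hb⟩ : ∃ b, u.toWord.head? = some b := by
      cases hu3 : u.toWord with
      | nil => rw [hu3] at hu2; simp at hu2; omega
      | cons e L => exact ⟨e, rfl⟩
    have h1 : u.toWord.head? ≠ some (linv a) := by
      rw [hb]
      intro h
      exact cyc hRF hr hu hua hb (Option.some.inj h)
    obtain ⟨z, hz⟩ := hqt.surj (y * FreeGroup.mk (u.toWord.take C5))
    have h2 := hLL y u hu (hB u hu hua).1 hnear C5 (by omega) (by omega) z hz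
    rw [← h2.1]
    exact (hkey u hu h1 z hz).1
  intro u hu
  have hu2 := len hu
  have hui := hRF'.2.2.1 u hu
  by_cases hc1 : u.toWord.getLast? = some a
  · exact hI u hu hc1
  by_cases hc2 : u.toWord.head? = some (linv a)
  · -- (ii)
    have h1 : u⁻¹.toWord.getLast? = some a := by
      rw [getLast?_inv, hc2]
      simp [linv_linv]
    have h2 := hB u⁻¹ hui h1
    rw [hna.th_inv hqt (R1_mem hu y)] at h2
    have h3 := hRF'.2.2.1 _ h2.1
    rw [inv_inv] at h3
    refine ⟨h3, ?_⟩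
    rw [hc2]
    have h4 := head?_inv (th θ y u)⁻¹
    rw [inv_inv, h2.2] at h4
    exact h4
  · -- (iii)
    obtain ⟨b, hb⟩ : ∃ b, u.toWord.head? = some b := by
      cases hu3 : u.toWord with
      | nil => rw [hu3] at hu2; simp at hu2; omega
      | cons e L => exact ⟨e, rfl⟩
    obtain ⟨e, he⟩ : ∃ e, u.toWord.getLast? = some e := by
      cases hu3 : u.toWord.getLast? with
      | none =>
        rw [List.getLast?_eq_none_iff] at hu3
        rw [hu3] at hu2; simp at hu2; omega
      | some e => exact ⟨e, rfl⟩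
    have hbe := cyc hRF hr hu he hb
    have hui2 : u⁻¹.toWord.head? = some (linv e) := by rw [head?_inv, he]; rfl
    have hui3 : u⁻¹.toWord.head? ≠ some (linv a) := by
      rw [hui2]
      intro h
      have h1 := Option.some.inj h
      apply hc1
      rw [he, ← linv_linv e, h1, linv_linv]
    obtain ⟨w, hw, hwu, hwu2⟩ := hRF'.1 u hu
    obtain ⟨y1, hy1⟩ := hqt.surj (y * FreeGroup.mk (u.toWord.take C5))
    obtain ⟨y2, hy2⟩ := hqt.surj (y * FreeGroup.mk (u⁻¹.toWord.take C5))
    obtain ⟨h1a, h1b⟩ := hkey u hu hc2 y1 hy1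
    obtain ⟨h2a, h2b⟩ := hkey u⁻¹ hui hui3 y2 hy2
    have hy1' : π y1 = y * line w C5 := by
      rw [hy1, line_take w (by omega), ← hwu2]
    have hy2' : π y2 = y * line w (-(C5 : ℤ)) := by
      rw [hy2, line_neg w (by omega), ← hwu2, toWord_inv]
    have hsR : y * u * y⁻¹ ∈ RR r := R1_conj hu y
    have hu' : el w ∈ R1 r := by rw [hwu]; exact hu
    -- points of the axis of the image
    obtain ⟨z1, hz1, hz1'⟩ := hCD (y * u * y⁻¹) hsR y1 (by
      rw [← hwu, hRF'.2.2.2.2.2.2 y (π y1) w hw hu']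
      exact ⟨_, hy1'⟩)
    obtain ⟨z2, hz2, hz2'⟩ := hCD (y * u * y⁻¹) hsR y2 (by
      rw [← hwu, hRF'.2.2.2.2.2.2 y (π y2) w hw hu']
      exact ⟨_, hy2'⟩)
    have hhz1 : (y⁻¹ * z1).toWord.head? = some b := by
      rw [← hb, ← h1a]
      symm
      apply head_eq_of_td
      rw [td_shift, td_inv_mul]
      omega
    have hhz2 : (y⁻¹ * z2).toWord.head? = some (linv e) := by
      rw [← hui2, ← h2a]
      symm
      apply head_eq_of_td
      rw [td_shift, td_inv_mul]
      omega
    have hbt : td z2 y + td y z1 = td z2 z1 := by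
      have h1 := td_of_head_ne (a := y⁻¹ * z2) (b := y⁻¹ * z1) (by
        rw [hhz1, hhz2]
        intro h
        exact hbe (Option.some.inj h).symm)
      rw [td_shift, td_inv_mul, td_inv_mul, td_comm' y z2] at h1
      exact h1.symm
    obtain ⟨x', w', hw', hw'R, hs'⟩ := hRF'.2.1 _ (hB3 _ hsR)
    rw [hs', hRF'.2.2.2.2.2.2 x' _ w' hw' hw'R] at hz1 hz2
    obtain ⟨t1, ht1⟩ := hz1
    obtain ⟨t2, ht2⟩ := hz2
    obtain ⟨t0, ht0⟩ := on_line hw' x' y t2 t1 (by rw [← ht1, ← ht2]; exact hbt)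
    have hyu : th θ y u ∈ R1 r := by
      have h1 := (hRF'.2.2.2.2.2.2 x' y w' hw' hw'R).2 ⟨t0, ht0⟩
      rw [← hs'] at h1
      exact h1
    obtain ⟨w2, hw2, hw2u, hw2u2⟩ := hRF'.1 _ hyu
    have hw2R : el w2 ∈ R1 r := by rw [hw2u]; exact hyu
    have hs2 : θ (y * u * y⁻¹) = y * el w2 * y⁻¹ := by rw [hw2u, conj_th]
    have hz1 := (hRF'.2.2.2.2.2.2 x' z1 w' hw' hw'R).2 ⟨t1, ht1⟩
    have hz2 := (hRF'.2.2.2.2.2.2 x' z2 w' hw' hw'R).2 ⟨t2, ht2⟩
    rw [← hs', hs2, hRF'.2.2.2.2.2.2 y _ w2 hw2 hw2R] at hz1 hz2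
    obtain ⟨i1, hi1⟩ := hz1
    obtain ⟨i2, hi2⟩ := hz2
    have hkk : (-(C5 : ℤ)) + ((2 * C5 : ℕ) : ℤ) = C5 := by push_cast; ring
    have hol := hOL m l (KN r) Y π D β β' θ θ' hqt hna y y w w2 hw hw2
      (by rw [hwu]; exact R1_mem hu y) (by rw [hwu, hs2]) (-(C5 : ℤ)) i2 i1 (2 * C5) y2 y1 hy2'
      (by rw [hkk]; exact hy1') (by rw [← hi2]; exact hz2') (by rw [← hi1]; exact hz1')
    refine ⟨hyu, ?_⟩
    have hlt : i2 < i1 := by
      by_contra hcon
      have h1 : (C7 : ℤ) * (i1 - i2 + C7) ≤ C7 * C7 := by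
        apply mul_le_mul_of_nonneg_left _ (by positivity)
        omega
      have h2 : ((2 * C5 : ℕ) : ℤ) = 2 * C5a + 2 * (C7 * C7) + 2 := by
        rw [hC5]; push_cast; ring
      rw [h2] at hol
      have h3 : (0 : ℤ) ≤ C7 * C7 := by positivity
      have h4 : (0 : ℤ) ≤ C5a := by positivity
      linarith
    have e1 : y⁻¹ * z1 = line w2 i1 := by rw [hi1]; group
    have e2 : y⁻¹ * z2 = line w2 i2 := by rw [hi2]; group
    rw [e1] at hhz1
    rw [e2] at hhz2
    rcases lt_trichotomy i1 0 with h1 | h1 | h1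
    · exfalso
      rw [head_line_neg hw2 h1] at hhz1
      rw [head_line_neg hw2 (by omega)] at hhz2
      rw [hhz1] at hhz2
      exact hbe (Option.some.inj hhz2)
    · exfalso
      rw [h1, line_zero] at hhz1
      simp at hhz1
    · rw [head_line_pos hw2 h1] at hhz1
      rw [← hw2u, head_el hw2, hhz1, hb]

end RBG
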