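import Pool.Agent.RBG.Defs
import Pool.Agent.RGD.Stmts

/-!
# MP_0a3593_al, bounded geometry: statements of the modules

Module `X` proves `theorem t_X : M_X` (or `t_X : S_X` if there is no `M_X`) in the file
`Pool/Agent/RBG/X.lean`. Common lemmas: `Pool/Agent/RBG/Base.lean`.

Conventions in the comments: `F = FG m` is the free group with the tree metric `td`, `K = KN r` is the kernel of
`F → G`, `gen a = FreeGroup.mk [a]`, `c = kc R`. The setting `NS`: `r` satisfies the small cancellation
condition `SCl C P r`; `F` acts on `Y` (freely, by `QT.pi`), `π : Y → F` is equivariant, `D` is a metric on `Y`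
quasi-isometric to the tree and additive along geodesics up to `c` (`QT R π D`); `β` is an isometry of `Y` with inverse
`β'` which normalises the action of `K`: `β (k y) = θ k (β y)`. The constants `C`, `C1`, … depend only on the
variables quantified before them; a statement for `C` holds for all larger `C` as well (`SCl.mono`,
`NS.mono`).
-/

set_option autoImplicit false

namespace RBG

open RGD Pool.Agent.Olsh

/-- the setting of Parts II and III -/
structure NS {m l n : ℕ} [NeZero l] (R C P : ℕ) (r : Fin n → Word m l) {Y : Type}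
    [MulAction (FG m) Y] (π : Y → FG m) (D : Y → Y → ℕ) (β β' : Y → Y)
    (θ θ' : FG m → FG m) : Prop where
  sc : SCl C P r
  qt : QT R π D
  na : NAut (KN r) D β β' θ θ'

/-! ### Part I: the tree -/

/-- AXP. Projection of `f` to the axis of `s = x (el w) x⁻¹`: a point `z = x * line w t` such that
`f, z, s z, s f` lie on a geodesic in this order. Let `a = x⁻¹ f` and choose `t : ℤ` with `td a (line w t)` minimal
(`ℕ`-valued, so there is a minimum); `q = (line w t)⁻¹ a`. The first letter of `q` (if `q ≠ 1`) is neither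
`perZ w t` (else `line w (t+1)` is closer, S_LINE) nor `linv (perZ w (t-1))` (else `line w (t-1)` is closer). So
the word `(q⁻¹).toWord ++ (letters of the line from t to t+l) ++ q.toWord` is reduced (the first letter
of the middle part is `perZ w t`, its last letter is `perZ w (t+l-1) = perZ w (t-1)`; `l ≥ 1`), it is the reduced
word of `a⁻¹ (el w) a`, and all distances are the lengths of its parts. -/
def S_AXP : Prop := ∀ (m l : ℕ) [NeZero l] (w : Word m l), CycRed w → ∀ x f : FG m, ∃ t : ℤ,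
  td f (x * line w t) + td (x * line w t) (x * el w * x⁻¹ * f) = td f (x * el w * x⁻¹ * f) ∧
  td (x * line w t) (x * el w * x⁻¹ * (x * line w t)) +
      td (x * el w * x⁻¹ * (x * line w t)) (x * el w * x⁻¹ * f) =
    td (x * line w t) (x * el w * x⁻¹ * f)

/-- RHO. A subword of a relator can be completed to a cyclic permutation of it. First case of `IsSub`: `p[t] =
per (r j) (q0 + t)`; take the list `per (r j) (q0 + |p|), …, per (r j) (q0 + l - 1)` for `q`: then `p ++ q` is a full period of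
the periodic word, it is reduced, `mk (p ++ q) = y⁻¹ * el (r j) * y` where `y` is `mk` of the first `q0 % l` letters of
`r j`. Second case: `p[t] = linv (per (r j) (q0 + (|p| - 1 - t)))`: continue with `linv (per (r j) (q0 + (|p| + l - 1 - t)))` for
`|p| ≤ t < l` (natural subtraction is harmless here): `p ++ q` is the inverse of a full period. `norm = l` as the list is
reduced of length `l`. -/
def S_RHO : Prop := ∀ (m l n : ℕ) [NeZero l] (r : Fin n → Word m l), (∀ j, CycRed (r j)) →
  ∀ p : List (Ltr m), IsSub r p → p.length ≤ l → ∃ q : List (Ltr m), p.length + q.length = l ∧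
    RedL (p ++ q) ∧ FreeGroup.mk (p ++ q) ∈ R1 r

/-- RF. Facts on `RR` and `R1`. `RR` is the set of the conjugates of `el (r j)` and their inverses, `R1` is the
set of its elements of norm `l`. Let `s = x (el w) x⁻¹` with `w` cyclically reduced (`w = r j` or its inverse word
`i ↦ linv (r j (l - 1 - i))`, also cyclically reduced, `el` of it is the inverse). For `z ∈ F` AXP with `f = z` gives
`td z (s z) = 2 * td z z0 + l` for a point `z0` of the axis; so `norm (z⁻¹ s z) = l` iff `z` is on the axis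
(`norm (z⁻¹ s z) = td z (s z)`). This is the last item; the conjugates `(line w t)⁻¹ * el w * line w t` have the words
`perZ w t, …, perZ w (t + l - 1)` (S_LINE: `line w (t+l) = el w * line w t`), cyclic permutations of `w`, which are
cyclically reduced. With `w = r j` or inverse this gives items 1, 3 and 4 (`R1` consists of the cyclic permutations of
`r j` and their inverses). `R1` is finite (finitely many elements of norm `l`). `el (r j) ≠ 1`: it has norm `l ≥ 1`. -/
def S_RF : Prop := ∀ (m l n : ℕ) [NeZero l] (r : Fin n → Word m l), (∀ j, CycRed (r j)) →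
  (∀ u ∈ R1 r, ∃ w : Word m l, CycRed w ∧ el w = u ∧ u.toWord = List.ofFn w) ∧
  (∀ s ∈ RR r, ∃ (x : FG m) (w : Word m l), CycRed w ∧ el w ∈ R1 r ∧ s = x * el w * x⁻¹) ∧
  (∀ u ∈ R1 r, u⁻¹ ∈ R1 r) ∧
  (∀ u ∈ R1 r, ∀ L1 L2 : List (Ltr m), u.toWord = L1 ++ L2 →
    FreeGroup.mk (L2 ++ L1) ∈ R1 r ∧ (FreeGroup.mk (L2 ++ L1)).toWord = L2 ++ L1) ∧
  (∀ s ∈ RR r, s ∈ KN r ∧ s ≠ 1 ∧ s⁻¹ ∈ RR r ∧ ∀ f : FG m, f * s * f⁻¹ ∈ RR r) ∧
  (R1 r).Finite ∧
  ∀ (x z : FG m) (w : Word m l), CycRed w → el w ∈ R1 r →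
    (z⁻¹ * (x * el w * x⁻¹) * z ∈ R1 r ↔ ∃ t : ℤ, z = x * line w t)

def M_RF : Prop := S_AXP → S_RF

/-- SH. Short elements of the kernel are trivial. S_GREEN gives for `k ≠ 1` a subword of `k.toWord` of length
`≥ l - C0 (P+1)`; `C = C0 + B + 1`. -/
def S_SH : Prop := ∀ B : ℕ, ∃ C : ℕ, ∀ (m l n P : ℕ) [NeZero l] (r : Fin n → Word m l),
  SCl C P r → ∀ k ∈ KN r, k.norm ≤ B * (P + 1) → k = 1

def M_SH : Prop := S_GREEN → S_SH

/-! ### Part II: the relators are characterised by their displacement -/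

/-- B1. Let `o ∈ Y` with `π o = 1`, `L g = D o (g • o)`. Facts: `L (g h) ≤ L g + L h`, `L g⁻¹ = L g`, `norm g ≤ R * L g`,
`L g ≤ R (norm g + 1)`; if `mk a * mk b` is reduced as written then `L (mk a) + L (mk b) ≤ L (mk (a ++ b)) + c` (`QT.add` for
`o, mk a • o, mk (a ++ b) • o`); `tau D k ≤ L k`; `tau` is invariant under conjugation by `F`.
Let `y` be a point with `D y (k • y) = tau D k`, `f = π y`, `w = f⁻¹ k f ∈ K`, `w ≠ 1`. As `D y (f • o) ≤ R` we have `L w ≤ tau k + 2 R`.
S_GREEN: `w.toWord = a ++ p ++ b`, `IsSub r p`, `l ≤ |p| + C0 (P+1)`; if `|p| > l` replace `p` by its first `l`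
letters (still `IsSub`: in the second case of `IsSub` change `q`). Let `A, p, B` also denote the elements. So
`L A + L p + L B ≤ L w + 2 c ≤ tau k + 2 c + 2 R`. S_RHO: `q` with `|q| = l - |p| ≤ C0 (P+1)`, `ρ = p q ∈ RR`. Then
`w = (A ρ A⁻¹) (A q⁻¹ B)`, both factors are in `K`. `tau (A q⁻¹ B) = tau (q⁻¹ B A) ≤ L q + L B + L A < tau k` because
`L q + 2 c + 2 R < L p` (`|p| ≤ R L p`, `L q ≤ R (C0 (P+1) + 1)`, `C` large). If also `tau ρ < tau k` then `w`, hence `k = f w f⁻¹`, is
in the closure (the generating set is invariant under conjugation by `F`), a contradiction. So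
`tau k ≤ tau ρ ≤ L p + L q`, hence `L A + L B ≤ L q + 2 c + 2 R`, so the norm of `q⁻¹ B A` is at most
`|q| + R (L q + 2 c + 2 R) < l - C0 (P+1)`; by S_SH (or S_GREEN) `q⁻¹ B A = 1`. So `w = A ρ A⁻¹ ∈ RR` and `k ∈ RR`. -/
def S_B1 : Prop := ∀ R : ℕ, ∃ C : ℕ, ∀ (m l n P : ℕ) [NeZero l] (r : Fin n → Word m l),
  SCl C P r → ∀ (Y : Type) [MulAction (FG m) Y] (π : Y → FG m) (D : Y → Y → ℕ), QT R π D →
  ∀ k ∈ KN r, k ≠ 1 → k ∉ Subgroup.closure {k' | k' ∈ KN r ∧ tau D k' < tau D k} → k ∈ RR r

def M_B1 : Prop := S_GREEN → S_RHO → S_SH → S_B1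

/-- B2. Claim: for every `t` the subgroup `K_t = closure {k ∈ K | tau k < t}` is contained in the normal closure of
`{el (r i) | tau (el (r i)) < t}`. Strong induction on `t`: let `k ∈ K`, `tau k < t`, `k ≠ 1`. If `k ∉ K_{tau k}` then
`k ∈ RR` by S_B1, a conjugate of some `el (r i)^{±1}`, and `tau (el (r i)) = tau k` (`tau` is invariant under
conjugation and inversion). Otherwise use the induction hypothesis for `tau k`.
Now let `s = x (el (r j))^{±1} x⁻¹` be in `K_{tau s}`, then `el (r j)` is in the normal closure of `{el (r i) | i ∈ J}` with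
`J = {i | tau (el (r i)) < tau (el (r j))}`, `j ∉ J`. Enumerate `J` (`e : Fin n' → Fin n` injective with range `J`); the family
`r ∘ e` satisfies `SC (r ∘ e) P`; S_GREEN for it and `g = el (r j) ≠ 1`: its reduced word `List.ofFn (r j)` contains `p` with
`IsSub (r ∘ e) p`, `|p| ≥ l - C0 (P+1) ≥ P`. So a window of length `P` of `per (r j)` is a window of `per (r (e i))` (then
`j = e i` by `SC.fwd`) or of its inverse (impossible by `SC.bwd`). Contradiction. -/
def S_B2 : Prop := ∀ R : ℕ, ∃ C : ℕ, ∀ (m l n P : ℕ) [NeZero l] (r : Fin n → Word m l),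
  SCl C P r → ∀ (Y : Type) [MulAction (FG m) Y] (π : Y → FG m) (D : Y → Y → ℕ), QT R π D →
  ∀ s ∈ RR r, s ∉ Subgroup.closure {k' | k' ∈ KN r ∧ tau D k' < tau D s}

def M_B2 : Prop := S_GREEN → S_B1 → S_B2

/-- B3. Let `s ∈ RR`. `tau (θ s) = tau s`, `θ s ∈ K`, `θ s ≠ 1` (`θ` is injective on `K`, `θ 1 = 1`). If `θ s ∉ RR` then by S_B1
`θ s` is in the closure of `{k ∈ K | tau k < tau s}`. Apply `θ'`, which is multiplicative on `K`, preserves `tau` and
satisfies `θ' (θ s) = s`: `s` is in the closure of `{k ∈ K | tau k < tau s}` (`Subgroup.closure_induction`),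
contradiction to S_B2. -/
def S_B3 : Prop := ∀ R : ℕ, ∃ C : ℕ, ∀ (m l n P : ℕ) [NeZero l] (r : Fin n → Word m l) (Y : Type)
  [MulAction (FG m) Y] (π : Y → FG m) (D : Y → Y → ℕ) (β β' : Y → Y) (θ θ' : FG m → FG m),
  NS R C P r π D β β' θ θ' → ∀ s ∈ RR r, θ s ∈ RR r

def M_B3 : Prop := S_RF → S_B1 → S_B2 → S_B3

/-! ### Part III: dynamics -/

/-- CD. `β` maps points over the axis of `s` near the axis of `θ s` (the condition `z⁻¹ * s * z ∈ R1 r` means that `z` is
on the axis of `s`, S_RF). `C1 = 3 c R`.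
(1) There is a point `u` with `π u` on the axis of `s` and `D u (s • u) ≤ tau s + 2 c`: take `y'` with `D y' (s • y') = tau s`, AXP for
`f = π y'` gives `z`; let `π u = z`. `QT.add` twice: `D y' u + D u (s•y') ≤ D y' (s•y') + c`, `D u (s•u) + D (s•u) (s•y') ≤ D u (s•y') + c`. So
(*) `2 D y' u + D u (s•u) ≤ D y' (s•y') + 2 c`, for every `y'` and its projection.
(2) Every `y` over the axis has `D y (s•y) ≤ tau s + 3 c`: replacing `u` by `s^i • u` we have `π u = x * line w t`, `π y = x * line w t'`,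
`t ≤ t' < t + l`, so `π y` is between `π u` and `π (s•u)`: `D u y + D y (s•u) ≤ D u (s•u) + c`, and
`D y (s•y) ≤ D y (s•u) + D (s•u) (s•y) = D y (s•u) + D u y`.
(3) `θ s ∈ RR` by S_B3, `tau (θ s) = tau s`. `D (β y) (θ s • β y) = D y (s • y) ≤ tau s + 3 c`. (*) for `θ s` and `y' = β y`: `2 D (β y) u' ≤
tau s + 3 c + 2 c - D u' (θ s • u') ≤ 5 c`, where `π u' = z` is on the axis of `θ s`; `td (π (β y)) z ≤ R * D (β y) u'`. -/
def S_CD : Prop := ∀ R : ℕ, ∃ C1 C : ℕ, ∀ (m l n P : ℕ) [NeZero l] (r : Fin n → Word m l)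
  (Y : Type) [MulAction (FG m) Y] (π : Y → FG m) (D : Y → Y → ℕ) (β β' : Y → Y)
  (θ θ' : FG m → FG m), NS R C P r π D β β' θ θ' → ∀ s ∈ RR r, ∀ y : Y,
  (π y)⁻¹ * s * π y ∈ R1 r → ∃ z : FG m, z⁻¹ * θ s * z ∈ R1 r ∧ td (π (β y)) z ≤ C1

def M_CD : Prop := S_AXP → S_RF → S_B3 → S_CD

/-- OL (order lemma). `β` preserves the direction of the axes. `s = x (el w) x⁻¹`, `s' = θ s = x' (el w') x'⁻¹`. Let
`M` be a natural number with `M * l > k`, `y_M = s^M • y`; `β y_M = s'^M • β y` (induction, `NAut.eqv`), `π y_M = x * line w (t + M l)`.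
The points `π y, π y', π y_M` are on a geodesic in this order: (1) `D y y' + D y' y_M ≤ D y y_M + c`. Let `π u = x' * line w' i`,
`π u' = x' * line w' i'`, `u_M = s'^M • u` (over `x' * line w' (i + M l)`); `D (β y) u ≤ R (E+1)`, `D (β y') u' ≤ R (E+1)`,
`D (β y_M) u_M ≤ R (E+1)`. Case `i' < i`: `π u', π u, π u_M` are in this order: `D u' u + D u u_M ≤ D u' u_M + c`, so with
`h = R (E+1)`: `D (β y') (β y) + D (β y) (β y_M) ≤ D (β y') (β y_M) + c + 6 h`; as `β` is an isometry: (2) `D y' y + D y y_M ≤ D y' y_M + c + 6 h`.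
(1) + (2): `2 D y y' ≤ 2 c + 6 h`. So `k = td (π y) (π y') ≤ R (c + 3 h)` and
`i - i' ≤ 2 E + td (π (β y)) (π (β y')) ≤ 2 E + R D (β y) (β y') ≤ 2 E + R (c + 3 h)`. Case `i ≤ i'`:
`k ≤ R D y y' = R D (β y) (β y') ≤ R R (td (π (β y)) (π (β y')) + 1) ≤ R R (i' - i + 2 E + 1)`. Both cases give the claim for large `C7`. -/
def S_OL : Prop := ∀ R E : ℕ, ∃ C7 : ℕ, ∀ (m l : ℕ) [NeZero l] (K : Subgroup (FG m)) (Y : Type)
  [MulAction (FG m) Y] (π : Y → FG m) (D : Y → Y → ℕ) (β β' : Y → Y) (θ θ' : FG m → FG m),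
  QT R π D → NAut K D β β' θ θ' → ∀ (x x' : FG m) (w w' : Word m l), CycRed w → CycRed w' →
  x * el w * x⁻¹ ∈ K → θ (x * el w * x⁻¹) = x' * el w' * x'⁻¹ →
  ∀ (t i i' : ℤ) (k : ℕ) (y y' : Y), π y = x * line w t → π y' = x * line w (t + k) →
    td (π (β y)) (x' * line w' i) ≤ E → td (π (β y')) (x' * line w' i') ≤ E →
    (k : ℤ) ≤ C7 * (i' - i + C7)

/-- NEAR. If `θ` respects the lines through `g` (`TT`), `β` moves the points over `g` at most `C1` (that of
S_CD). Note: `th θ g u⁻¹ = (th θ g u)⁻¹` for `u ∈ R1` (`θ` is multiplicative on `K`), so `TT` for `u` and `u⁻¹` (S_RF) gives that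
`th θ g u` has the same first and the same last letter as `u`. Let `π y = g`, `f = π (β y) ≠ g`, `e` the first letter of `g⁻¹ f`. As
`2 m ≥ 4` there are letters `b ≠ b'`, both `≠ e`; let `a = linv b'`, so `b ≠ linv a`. `TL`: `u ∈ R1` with first letter `b` and last letter
`a`. `s = g u g⁻¹ ∈ RR`, and S_CD for `y` gives `z` on the axis of `θ s = g (th θ g u) g⁻¹` with `td f z ≤ C1`. With
`th θ g u = el w'` the axis is `g * line w' t` (S_RF, `x = g`), `w' 0 = b`, last letter `a`. So `g⁻¹ z = line w' t` is `1` or has first letter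
`b` (`t > 0`) or `linv a = b'` (`t < 0`), not `e`: `td f z = td f g + td g z`. So `td f g ≤ C1`. -/
def S_NEAR : Prop := ∀ R : ℕ, ∃ C1 C : ℕ, ∀ (m l n P : ℕ) [NeZero l] (r : Fin n → Word m l)
  (Y : Type) [MulAction (FG m) Y] (π : Y → FG m) (D : Y → Y → ℕ) (β β' : Y → Y)
  (θ θ' : FG m → FG m), NS R C P r π D β β' θ θ' → 2 ≤ m → TL r → ∀ g : FG m, TT r θ g →
  ∀ y : Y, π y = g → td (π (β y)) g ≤ C1

def M_NEAR : Prop := S_RF → S_CD → S_NEAR

/-- LL (local letter lemma). The position of the image of a point far along a line through `g` determines the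
first letter of the image line. `u = el w`, `u' = th θ g u = el w'` (S_RF). `s = g u g⁻¹ = g (el w) g⁻¹`, `θ s = g (el w') g⁻¹`.
`mk (u.toWord.take k) = line w k` for `k ≤ l`. Let `y0` be over `g = g * line w 0`, `i = 0`: `td (π (β y0)) (g * line w' 0) ≤ E`. By S_CD for `y`
and S_RF (last item, `x = g`) `td (π (β y)) (g * line w' i') ≤ C1` for some `i'`. S_OL (constant `max E C1`): `k ≤ C7 (i' + C7)`, so `i' ≥ C1 + G + 1`
if `k ≥ C5 := C7 (C7 + C1 + G + 1)` (if `C7 = 0` then `k = 0`; take `C5 ≥ 1`). So `g⁻¹ π (β y)` is at distance `≤ C1` from `line w' i'` with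
`i' > C1`: it has the first letter `w' 0` (tree: the paths from `1` to these two points have a common
part of length `≥ i' - C1 ≥ 1`), and its norm is `≥ i' - C1 ≥ G`. -/
def S_LL : Prop := ∀ R E G : ℕ, ∃ C5 C : ℕ, ∀ (m l n P : ℕ) [NeZero l] (r : Fin n → Word m l)
  (Y : Type) [MulAction (FG m) Y] (π : Y → FG m) (D : Y → Y → ℕ) (β β' : Y → Y)
  (θ θ' : FG m → FG m), NS R C P r π D β β' θ θ' → ∀ g u : FG m, u ∈ R1 r → th θ g u ∈ R1 r →
  (∀ y, π y = g → td (π (β y)) g ≤ E) → ∀ k : ℕ, C5 ≤ k → k ≤ l → ∀ y : Y,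
  π y = g * FreeGroup.mk (u.toWord.take k) →
    (g⁻¹ * π (β y)).toWord.head? = (th θ g u).toWord.head? ∧ G ≤ td g (π (β y))

def M_LL : Prop := S_RF → S_CD → S_OL → S_LL

/-- PRE. If `TT` holds along the path `W` from `v` (except at its end) then `θ` respects the lines that start
with this path. Pure algebra: for `u = gen a * u1` (`u.toWord = a :: L`) and `g' = g * gen a`: `th θ g' (gen a⁻¹ * u * gen a) =
gen a⁻¹ * th θ g u * gen a`. Induction over `i ≤ |W|`, `i ≥ 1`: `(th θ v u).toWord` starts with `W.take i`: by S_RF (rotations) the element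
`u_i = mk (W.take i)⁻¹ * u * mk (W.take i)` is in `R1` with word `drop ++ take`, `th θ (v * mk (W.take i)) u_i =
mk (W.take i)⁻¹ * th θ v u * mk (W.take i)` is in `R1` with the same first letter `W[i]` by `TT`, and by the induction hypothesis
the word of `th θ v u` is `W.take i ++ L'`, so that of the conjugate is `L' ++ W.take i` (S_RF; `|W| ≤ l`), and the first letter
of `L'` is `W[i]` (if `i < |W| ≤ l` then `L'` is not empty). -/
def S_PRE : Prop := ∀ (m l n : ℕ) [NeZero l] (r : Fin n → Word m l), (∀ j, CycRed (r j)) →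
  ∀ (θ : FG m → FG m) (v : FG m) (W : List (Ltr m)), W ≠ [] →
  (∀ i, i < W.length → TT r θ (v * FreeGroup.mk (W.take i))) →
  ∀ u ∈ R1 r, W <+: u.toWord → th θ v u ∈ R1 r ∧ W <+: (th θ v u).toWord

def M_PRE : Prop := S_RF → S_PRE

/-- CNTQ. The next letter after `W` is preserved. `Q = {u ∈ R1 | W <+: u.toWord}` is finite, `σ = th θ v` maps `Q` to `Q` (S_PRE) and
is injective (`θ' (θ k) = k` on `K`), so `σ` is a permutation of `Q`.
(FD) if `σ u1`, `σ u2` (`u1, u2 ∈ Q`) have the same `D` letters after `W` then `u1`, `u2` have the same letter after `W`. Proof: `x = v * mk W`,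
`x0 = v * mk (W.dropLast)` (a neighbour). `TT` holds at `x0`, so by S_NEAR `td (π (β y)) x0 ≤ C1` for `y` over `x0`. So for `y` over `x`:
`td (π (β y)) x ≤ 2 R² + C1 + 1 =: E1` (`D y y1 ≤ 2 R` for `y1` over `x0`) and `td (π (β' y)) x ≤ R (R (E1 + 1)) =: E2` (`D (β' y) y = D y (β y)`). Let
`U_i = mk W⁻¹ * u_i * mk W` and `U_i' = mk W⁻¹ * σ u_i * mk W`, in `R1` by S_RF; `U_i' = th θ x U_i`, `th θ' x U_i' = U_i`. S_LL for the setting
`(β', β, θ', θ)` (`NS.symm`), `E = E2`, `G = 0`, `g = x`, `u = U_i'`: for `y` over `x * mk (U_i'.toWord.take C5)` the first letter of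
`x⁻¹ π (β' y)` is the first letter of `U_i`. `D ≥ C5` (and `C5 ≤ D ≤ l`): the point is the same for `i = 1, 2`. So `U_1`, `U_2`
have the same first letter. This is (FD).
Counting: `A = {u ∈ Q | (W ++ [d]) <+: u.toWord}`, `U = {c | |c| = D, RedL (W ++ c), c.head? = some d}`, `U' = {c | |c| = D, (W ++ c) <+: (σ u).toWord for
some u ∈ A}` (`D ≥ 1`, `|W| + D ≤ l`). `|A| = ∑ c ∈ U, nn r (W ++ c)` (the reduced words of elements of `R1` are reduced). By (FD) and the
surjectivity of `σ` on `Q`: `σ (A) = {u' ∈ Q | the D letters after W are in U'}`, so `|A| = ∑ c ∈ U', nn r (W ++ c)`. `EV` gives `U = U'`: for `u ∈ A` the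
letter after `W` in `σ u` is `d`. -/
def S_CNTQ : Prop := ∀ R : ℕ, ∃ D0 : ℕ, ∀ D' : ℕ, D0 ≤ D' → ∃ C : ℕ, ∀ (m l n P : ℕ) [NeZero l]
  (r : Fin n → Word m l) (Y : Type) [MulAction (FG m) Y] (π : Y → FG m) (D : Y → Y → ℕ)
  (β β' : Y → Y) (θ θ' : FG m → FG m), NS R C P r π D β β' θ θ' → 2 ≤ m → TL r →
  ∀ (v : FG m) (W : List (Ltr m)), W ≠ [] → W.length + D' ≤ l → EV r W D' →
  (∀ i, i < W.length → TT r θ (v * FreeGroup.mk (W.take i))) →
  ∀ u ∈ R1 r, ∀ d : Ltr m, (W ++ [d]) <+: u.toWord →
    th θ v u ∈ R1 r ∧ (W ++ [d]) <+: (th θ v u).toWord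

def M_CNTQ : Prop := S_RF → S_NEAR → S_LL → S_PRE → S_CNTQ

/-- TWO. `EV` with `U = {c}`, `U' = ∅` gives `nn r (W ++ c) ≠ 0`: the last item. For `TL`: given `a`, `b` with `b ≠ linv a` let `b0` be a letter
with `b0.1 ≠ a.1`, `W = replicate (2 D + 8) b0 ++ a :: replicate (2 D + 10) a` (a marked word), `c = replicate D b`: there is `u ∈ R1` whose
word starts with `W ++ c`; the rotation by `W` (S_RF) has the first letter `b` (`D ≥ 1`) and the last letter `a`. -/
def S_TWO : Prop := ∀ (m l n D : ℕ) [NeZero l] (r : Fin n → Word m l), (∀ j, CycRed (r j)) →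
  2 ≤ m → 1 ≤ D → EVA r D → TL r ∧ ∀ W c : List (Ltr m), Mk D W → c.length = D →
    RedL (W ++ c) → ∃ u ∈ R1 r, (W ++ c) <+: u.toWord

def M_TWO : Prop := S_RF → S_TWO

/-- STEP. `TT` along a marked path gives `TT` at its end. `y = v * mk W`, `a` the last letter of `W`, `x = v * mk W.dropLast`
(`y = x * gen a`, `TT` holds at `x`). `C ≥ 5 D + 19` gives `|W| + D ≤ l`; `TL` by S_TWO. As in S_CNTQ `β` is near at `y`: `td (π (β y')) y ≤ E1` for `y'` over
`y`. Let `u ∈ R1`, `s = y u y⁻¹`. Recall `TT` for `θ` and inverses: `th θ y u⁻¹ = (th θ y u)⁻¹`.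
(i) the last letter of `u` is `a`. The rotation `gen a * u * gen a⁻¹` has the first letter `a` and its `th θ x` is `gen a * th θ y u * gen a⁻¹`, in `R1`
with first letter `a` by `TT` at `x`. So `th θ y u ∈ R1` has the last letter `a`. Let `c` be the first `D` letters of `u`; `W ++ c` is
reduced, so by S_TWO there is `u2' ∈ R1` whose word starts with `W ++ c`, and by S_CNTQ the word of `th θ v u2'` starts with `W ++ [c.head]`.
`U2 = mk W⁻¹ * u2' * mk W ∈ R1` starts with `c`, and `th θ y U2` starts with `c.head`. S_LL (`E = E1`) for `u` and `U2` and the common point over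
`y * mk (c.take C5)` (`C5 ≤ D`): `th θ y u` and `th θ y U2` have the same first letter `c.head = ` first letter of `u`.
(ii) the first letter of `u` is `linv a`: (i) for `u⁻¹`: `(th θ y u)⁻¹ ∈ R1` has the last letter `a`.
(iii) otherwise. `b`, `e` first and last letter of `u`; `b ≠ linv a`, `e ≠ a`, `b ≠ linv e`. `c`, `c'` the first `D` letters of `u` and of `u⁻¹` (`c'` starts
with `linv e`); `W ++ c`, `W ++ c'` are reduced. As in (i) there are `U2, U3 ∈ R1` with last letter `a` that start with `c`, `c'`, and `th θ y U2`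
starts with `b`, `th θ y U3` with `linv e` (both in `R1`). S_LL with `G = C1 + 1` (`C1` of S_CD): for `y1` over `y * mk (c.take C5)` the first letter of
`y⁻¹ π (β y1)` is `b`, for `y2` over `y * mk (c'.take C5)` the first letter of `y⁻¹ π (β y2)` is `linv e`, both have norm `≥ C1 + 1`. By S_B3
`θ s ∈ RR`, by S_CD (both points are over the axis of `s`) there are `z1`, `z2` on the axis of `θ s` within `C1` of `π (β y1)`, `π (β y2)`. So `y⁻¹ z1`
starts with `b`, `y⁻¹ z2` with `linv e`: `y` is on the geodesic from `z2` to `z1`, so on the axis of `θ s`. So `th θ y u ∈ R1`, `= el w'`, `z1 = y * line w' i1`,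
`z2 = y * line w' i2`, one of `i1, i2` is positive, the other one negative. S_OL for `y2` (position `-C5` on `s = y (el w) y⁻¹`), `y1` (position
`C5`), `k = 2 C5`: `2 C5 ≤ C7 (i1 - i2 + C7)`; we may assume `2 C5 > C7²` (S_LL holds for all `k ≥ C5`: enlarge `C5`), so `i1 > i2`, `i1 > 0`, and the first
letter of `th θ y u` is that of `line w' i1`, which is `b`. -/
def S_STEP : Prop := ∀ R : ℕ, ∃ D0 : ℕ, ∀ D' : ℕ, D0 ≤ D' → ∃ C : ℕ, ∀ (m l n P : ℕ) [NeZero l]
  (r : Fin n → Word m l) (Y : Type) [MulAction (FG m) Y] (π : Y → FG m) (D : Y → Y → ℕ)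
  (β β' : Y → Y) (θ θ' : FG m → FG m), NS R C P r π D β β' θ θ' → 2 ≤ m → EVA r D' →
  ∀ (v : FG m) (W : List (Ltr m)), Mk D' W →
  (∀ i, i < W.length → TT r θ (v * FreeGroup.mk (W.take i))) → TT r θ (v * FreeGroup.mk W)

def M_STEP : Prop := S_RF → S_B3 → S_CD → S_OL → S_NEAR → S_LL → S_CNTQ → S_TWO → S_STEP

/-- MARK. Every long element is the end of a marked path inside a smaller ball. `y.toWord = X0 ++ τ` with `|τ| = 2 D + 10`. At least one of
the letters `b = (0, true)`, `b = (1, true)` is such that `τ` contains neither `b^(D+6)` nor `(linv b)^(D+6)` (two such runs of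
different generators are disjoint and would need `2 D + 12` letters). `c` a letter different from `b`, `linv b` and `linv` of the first letter of `τ`.
`W = replicate (2 D + 8) b ++ c :: τ`, `v = mk X0 * gen c⁻¹ * gen b ^ (-(2 D + 8))`. The points of the path before `X0` have norm `≤ |X0| + 1 + (2 D + 8) =
norm y - 1`, the later ones are `mk (X0 ++ τ.take i)`. -/
def S_MARK : Prop := ∀ m D : ℕ, 2 ≤ m → ∀ y : FG m, 2 * D + 10 ≤ y.norm →
  ∃ (v : FG m) (W : List (Ltr m)), Mk D W ∧ v * FreeGroup.mk W = y ∧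
    ∀ i, i < W.length → (v * FreeGroup.mk (W.take i)).norm < y.norm

/-- BASE. If `β` fixes all points over the ball of radius `ρ` then `TT` holds in a smaller ball. Let `C1'` be the constant of S_CD. Let `u ∈ R1`,
`s = g u g⁻¹ = g (el w) g⁻¹`. The points `g * line w t`, `|t| ≤ P + C1' + C7² + 1`, are in the ball. `θ s ∈ RR`. By S_CD (`β y = y` for `y` over
`g * line w t`) there are points `z-`, `z+` of the axis of `θ s` within `C1'` of `g * line w (-C1' - 1)`, `g * line w (P + C1' + 1)`. So (tree) the points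
`g * line w t`, `0 ≤ t ≤ P`, are on the geodesic from `z-` to `z+`, so on the axis of `θ s`. S_AXOV (`cAXOV` in Base; write `s`, `θ s` as conjugates
of `el (r i)^{±1}`, `el (r j)^{±1}`; an axis and its inverse are the same set, parametrised backwards): the two axes have a common segment of length `P`, so
`i = j` and `θ s = s` or `θ s = s⁻¹`. In the second case `θ s = g (el w') g⁻¹` with `w'` the inverse word, `line w' t = line w (-t)`: S_OL (`E = 0`) for the
points over `g * line w 0` and `g * line w k` (fixed by `β`), positions `0` and `-k`: `k ≤ C7 (-k + C7)`, a contradiction for `k = C7² + 1`. So `θ s = s`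
and `th θ g u = u`. `C1 = 10 C1' + 10 C7² + 10` is enough. -/
def S_BASE : Prop := ∀ R : ℕ, ∃ C1 C : ℕ, ∀ (m l n P : ℕ) [NeZero l] (r : Fin n → Word m l)
  (Y : Type) [MulAction (FG m) Y] (π : Y → FG m) (D : Y → Y → ℕ) (β β' : Y → Y)
  (θ θ' : FG m → FG m), NS R C P r π D β β' θ θ' → ∀ ρ : ℕ,
  (∀ y, (π y).norm ≤ ρ → β y = y) → ∀ g : FG m, g.norm + P + C1 ≤ ρ → TT r θ g

def M_BASE : Prop := S_RF → S_B3 → S_CD → S_OL → S_BASE

/-- FIX. `s ∈ RR`: `s = x u x⁻¹` with `u ∈ R1` (S_RF). S_PRE for `v = x`, `W = u.toWord` (length `l`): the word of `th θ x u` starts with `u.toWord`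
and has length `l`, so `th θ x u = u`, i.e. `θ s = s`. -/
def S_FIX : Prop := ∀ (m l n : ℕ) [NeZero l] (r : Fin n → Word m l), (∀ j, CycRed (r j)) →
  ∀ θ : FG m → FG m, (∀ g, TT r θ g) → ∀ s ∈ RR r, θ s = s

def M_FIX : Prop := S_RF → S_PRE → S_FIX

/-- DYN. First part: `TT` in the ball of radius `2 D + 9` by S_BASE with `ρ = l` (`2 D + 9 + P + C1 ≤ l`), then everywhere by strong induction on
the norm (S_MARK, S_STEP), then S_FIX. Second part: `TT` holds everywhere (`th θ g u = u` for `u ∈ R1`), `TL` by S_TWO, S_NEAR. Take for `D` the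
maximum of `1` and the constant `D0` of S_STEP. -/
def S_DYN : Prop := ∀ R : ℕ, ∃ D' C1 C : ℕ, 1 ≤ D' ∧ ∀ (m l n P : ℕ) [NeZero l]
  (r : Fin n → Word m l) (Y : Type) [MulAction (FG m) Y] (π : Y → FG m) (D : Y → Y → ℕ)
  (β β' : Y → Y) (θ θ' : FG m → FG m), NS R C P r π D β β' θ θ' → 2 ≤ m → EVA r D' →
  ((∀ y, (π y).norm ≤ l → β y = y) → ∀ s ∈ RR r, θ s = s) ∧
  ((∀ s ∈ RR r, θ s = s) → ∀ y, td (π (β y)) (π y) ≤ C1)

def M_DYN : Prop := S_RF → S_NEAR → S_TWO → S_STEP → S_MARK → S_BASE → S_FIX → S_DYN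

/-! ### Part IV: graphs -/

/-- XT. The covering graph. `p` is equivariant, so `p (pt y) = mk y.g`; every `v` with `p v = mk g` is `pt ⟨g, (mk g)⁻¹ • v, _⟩`;
`pt (f • y) = mk f • pt y`. Last item: `pt y = pt z` gives `mk y.g = mk z.g`, `k = z.g * y.g⁻¹ ∈ K` (kernel of `mk`), `z = k • y`.
Lifting (fourth item): `Ctrl.lip` gives `f`; `z.g = y.g * f`. Unique lifting (third item): `td z.g z'.g ≤ 2 R`,
`z' = k • z` with `k ∈ K`, `norm (z.g⁻¹ * k * z.g) = td z.g z'.g ≤ 2 R`, so `k = 1` by S_SH.
`up`: if `td y.g z.g ≤ 1` then `z.g = y.g * f`, `norm f ≤ 1`, `p (pt z) = p (pt y) * mk f`, so `X.dist (pt y) (pt z) ≤ R`; lift a walk of length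
`≤ R` from `pt y` to `pt z`: it ends at `z'` with `pt z' = pt z`, `td y.g z'.g ≤ R * R`; `z' = k • z` and `k = 1` by S_SH (norm `≤ R * R + 1`), so
there is a walk of length `≤ R` from `y` to `z`. In general choose points over the vertices of the geodesic from `y.g` to `z.g`
(`surj`: `p` is surjective as it is equivariant and `V` is not empty). This gives connectedness and `up`. `low`: every edge moves `y.g` by `≤ R`.
`isom`: `y ↦ f • y` preserves adjacency (`Ctrl.act`), so does its inverse. `add`: let `q = π y` be between `π x` and `π z`; on a geodesic walk from `x` to `z` of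
the graph consider the property `Q(u)`: `td u.g q + td q z.g = td u.g z.g`; it holds for `x`. If it holds for `z` then `q = z.g`, `td z.g q = 0`. Otherwise
there is an edge `u u'` of the walk with `Q(u)`, not `Q(u')`; then (tree) `q` is between `u.g` and `u'.g`, so `td u.g q ≤ R`. In all cases there is a vertex
`u` of the walk with `td u.g y.g ≤ R`, so `D u y ≤ R (R + 1)`, and `D x y + D y z ≤ D x u + D u z + 2 R (R + 1)`. -/
def S_XT : Prop := ∀ R : ℕ, 1 ≤ R → ∃ C : ℕ, ∀ (m l n P : ℕ) [NeZero l] (r : Fin n → Word m l),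
  SCl C P r → ∀ (V : Type) [MulAction (PresentedGroup (rels r)) V] (X : SimpleGraph V)
  (p : V → PresentedGroup (rels r)), Ctrl R (rels r) X p →
  QT R (fun y : YT (rels r) p => y.g) (XT R (rels r) X p).dist ∧
  (XT R (rels r) X p).Connected ∧
  (∀ y z z' : YT (rels r) p, (XT R (rels r) X p).Adj y z → (XT R (rels r) X p).Adj y z' →
    pt z = pt z' → z = z') ∧
  (∀ (y : YT (rels r) p) (v : V), X.Adj (pt y) v →
    ∃ z, (XT R (rels r) X p).Adj y z ∧ pt z = v) ∧
  ∀ y z : YT (rels r) p, pt y = pt z → ∃ k ∈ KN r, z = k • y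

def M_XT : Prop := S_SH → S_XT

/-- LIFT. Every automorphism of `X` lifts to the covering. Let `B u v h`: `u, v ∈ V`, `h ∈ F`. For a walk of `X` with vertices `v_0, …, v_k` there are
elements `f_i` with `norm f_i ≤ R`, `p v_{i+1} = p v_i * mk f_i` (`Ctrl.lip`; they are unique by S_SH), the product is the holonomy `h` of
the walk: `p v_k = p v_0 * mk h`, `norm h ≤ k R`. So closed walks of length `≤ 10 R² + 10` (a fixed constant) have holonomy `1`
(S_SH), and two walks with the same ends and total length `≤` this constant have the same holonomy. This holds for the image of a walk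
under `α` too. For `u, v` with `X.dist u v ≤ 4 R²` or so let `H u v ∈ F` be the holonomy of the `α`-image of a shortest walk from `u` to `v`
(`H u v * H v w = H u w` if the distances are small; `H v u = (H u v)⁻¹`; `p (α v) = p (α u) * mk (H u v)`).
For `g ∈ G` choose `v_g` with `p v_g = g`. For a generator `a_i`: `X.dist v_g v_{g a_i} ≤ R`; `E_i g = H v_g v_{g a_i}`. Let `F` act on `G × F` from the right by
`(g, h) · a_i = (g a_i, h * E_i g)` (a permutation for every `i`; `FreeGroup.lift` to `(Equiv.Perm (G × F))ᵐᵒᵖ`). So there is `Φ : F → G → F` with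
`Φ 1 g = 1`, `Φ (f * f') g = Φ f g * Φ f' (g * mk f)`, `Φ a_i g = E_i g`, and `Φ a_i⁻¹ g = (E_i (g a_i⁻¹))⁻¹ = H v_g v_{g a_i⁻¹}`. So for `norm f ≤ R`: `Φ f g = H v_g v_{g mk f}` (the walk
along the letters of `f` has length `≤ R * R`). Define for `y` over `v = pt y`, `f = y.g`: `ψ y = h0 * Φ f 1 * H v_{mk f} v` (`p v = mk f = p v_{mk f}`, so the distance is
`≤ R`), with `h0 ∈ F` chosen such that `mk h0 = p (α v_1)` and `ψ y0 = y1.g` (`h0 = y1.g * (Φ y0.g 1 * H …)⁻¹`). Then
`mk (ψ y) = p (α (pt y))`, so `β y := ` the point over `α (pt y)` with `g = ψ y`, `β y0 = y1`. If `y, z` are adjacent, `z.g = y.g * f`, `norm f ≤ R`: `(ψ y)⁻¹ * ψ z = (H v_g v)⁻¹ * Φ f g * H v_{g mk f} w`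
(`g = mk y.g`, `v = pt y`, `w = pt z`) is the holonomy of the `α`-image of a walk of length `≤ 2 R + R²` from `v` to `w`, so it is that of the edge:
norm `≤ R`. -/
def S_LIFT : Prop := ∀ R : ℕ, 1 ≤ R → ∃ C : ℕ, ∀ (m l n P : ℕ) [NeZero l]
  (r : Fin n → Word m l), SCl C P r → ∀ (V : Type) [MulAction (PresentedGroup (rels r)) V]
  (X : SimpleGraph V) (p : V → PresentedGroup (rels r)), Ctrl R (rels r) X p →
  ∀ (α : X ≃g X) (y0 y1 : YT (rels r) p), pt y1 = α (pt y0) →
  ∃ β : YT (rels r) p → YT (rels r) p, β y0 = y1 ∧ (∀ y, pt (β y) = α (pt y)) ∧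
    ∀ y z, (XT R (rels r) X p).Adj y z → (XT R (rels r) X p).Adj (β y) (β z)

def M_LIFT : Prop := S_SH → S_LIFT

/-- NL. Lifts are normalising isometries. `β` from S_LIFT for `α`, `y0`, `y1`; `β'` from S_LIFT for `α.symm`, `y1`, `y0`. The set of `y` with `β' (β y) = y`
contains `y0` and is closed under adjacency (if `z` is adjacent to `y` then `z` and `β' (β z)` are adjacent to `y = β' (β y)` with the same `pt`: S_XT, third
item), so it is everything (connected). Same for `β (β' y) = y`. So `β` is an automorphism of the graph and preserves `dist`. For `k ∈ K`: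
`pt (k • y) = pt y` (`mk k = 1`), so `pt (β (k • y0)) = pt (β y0)` and `β (k • y0) = k' • β y0` with `k' ∈ K` (S_XT, last item); `θ k := k'` (and `θ k := 1` for `k ∉ K`).
The set of `y` with `β (k • y) = k' • β y` contains `y0` and is closed under adjacency (both are adjacent to `β (k • y) = k' • β y` and have the same
`pt`; the action preserves adjacency, `Ctrl.act`). -/
def S_NL : Prop := ∀ R : ℕ, 1 ≤ R → ∃ C : ℕ, ∀ (m l n P : ℕ) [NeZero l]
  (r : Fin n → Word m l), SCl C P r → ∀ (V : Type) [MulAction (PresentedGroup (rels r)) V]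
  (X : SimpleGraph V) (p : V → PresentedGroup (rels r)), Ctrl R (rels r) X p →
  ∀ (α : X ≃g X) (y0 y1 : YT (rels r) p), pt y1 = α (pt y0) →
  ∃ (β β' : YT (rels r) p → YT (rels r) p) (θ θ' : FG m → FG m),
    NAut (KN r) (XT R (rels r) X p).dist β β' θ θ' ∧ β y0 = y1 ∧
    (∀ y, pt (β y) = α (pt y)) ∧ ∀ y, pt (β' y) = α.symm (pt y)

def M_NL : Prop := S_XT → S_LIFT → S_NL

/-- FB. A lift of an automorphism that fixes a ball fixes the ball. Induction over the norm of `y.g`. If `y.g = 1` then `D y y0 ≤ R` (`QT.up`, S_XT), `β y0 = y0`. Otherwise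
let `g1` be the element `y.g` without its last letter, `y1` over `g1`: `β y1 = y1`, `D y y1 ≤ 2 R`. So `D (β y) y ≤ 4 R`, `td (β y).g y.g ≤ 4 R²`; `pt (β y) = α (pt y) = pt y`, so
`β y = k • y` with `k ∈ K`, `norm (y.g⁻¹ * k * y.g) ≤ 4 R²`, `k = 1` by S_SH. -/
def S_FB : Prop := ∀ R : ℕ, 1 ≤ R → ∃ C : ℕ, ∀ (m l n P : ℕ) [NeZero l]
  (r : Fin n → Word m l), SCl C P r → ∀ (V : Type) [MulAction (PresentedGroup (rels r)) V]
  (X : SimpleGraph V) (p : V → PresentedGroup (rels r)), Ctrl R (rels r) X p →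
  ∀ (α : X ≃g X) (β β' : YT (rels r) p → YT (rels r) p) (θ θ' : FG m → FG m),
    NAut (KN r) (XT R (rels r) X p).dist β β' θ θ' → (∀ y, pt (β y) = α (pt y)) →
    ∀ (ρ : ℕ) (y0 : YT (rels r) p), (∀ y : YT (rels r) p, y.g.norm ≤ ρ → α (pt y) = pt y) →
    y0.g = 1 → β y0 = y0 → ∀ y : YT (rels r) p, y.g.norm ≤ ρ → β y = y

def M_FB : Prop := S_SH → S_XT → S_FB

/-- TOP. A subgroup of the automorphism group with bounded displacement that contains the pointwise stabiliser of a finite set is open and compact. Open: it contains the open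
set `{α | α v = v for all v ∈ F}` (finite intersection of preimages of points under the evaluations, continuous to the discrete space), and translates (`Subgroup.isOpen_of_mem_nhds` needs a
topological group; direct: for `α ∈ N` the open set `{γ | γ v = α v for all v ∈ F}` is contained in `N`, as `α⁻¹ γ` fixes `F`). Compact: balls of `X` are finite (connected, locally
finite). The map `X ≃g X → (V → V)` is an embedding (induced topology, injective); the image of `N` is contained in the compact set `∏ v, ball v C` (Tychonoff, `isCompact_univ_pi`), and is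
closed in `V → V`: let `f` be in the closure. For every finite set `S` of vertices there is `α ∈ N` with `α = f` on `S`. So `f` is injective, preserves adjacency and non-adjacency. Surjective: let `w`
be a vertex, `S` the (finite) ball of radius `C` around `w`, `α ∈ N` with `α = f` on `S`; `α⁻¹ ∈ N`, so `α⁻¹ w ∈ S`, `f (α⁻¹ w) = w`. So `f` is an automorphism of the graph; and it agrees on `F` with some
`α ∈ N`, so it is in `N`. -/
def S_TOP : Prop := ∀ (V : Type) (X : SimpleGraph V), X.Connected →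
  (∀ v, (X.neighborSet v).Finite) → ∀ (N : Subgroup (X ≃g X)) (F : Set V) (C : ℕ), F.Finite →
  (∀ α : X ≃g X, (∀ v ∈ F, α v = v) → α ∈ N) → (∀ α ∈ N, ∀ v, X.dist (α v) v ≤ C) →
  IsCompact (N : Set (X ≃g X)) ∧ IsOpen (N : Set (X ≃g X))

/-- GEOM. From a quasi-isometric orbit map to `p`. (1) The action is free: let `g v = v`. `X.dist v (h • o) ≤ R` for some `h` (`dense`), so `X.dist (h • o) (g^M • h • o) ≤ 2 R` for all `M` (the
action preserves `X.dist`), so `wd h (g^M h) ≤ 2 R² + R =: B`: there is `f_M ∈ F`, `norm f_M ≤ B`, `mk f_M = h⁻¹ g^M h` (the infimum in `wd` is attained as `mk` is surjective). Let `f = f_1`. There are only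
finitely many elements of norm `≤ B`, so `f_M = f_{M'}` for some `M < M'`, and `f^M0 ∈ K` with `M0 = M' - M ≥ 1` (`mk f ^ M = mk f_M`). Write `f = y f0 y⁻¹` with `f0` cyclically reduced (first and
last letter not inverse to each other), `norm f0 ≤ B`. If `f0 ≠ 1` the reduced word of `f0^M0` is the periodic word with period `q = norm f0` (`M0` copies), it is not `1`, and `f0^M0 ∈ K`. By S_GREEN it
contains `p` with `IsSub r p`, `|p| ≥ l - C0 (P+1) ≥ P + B`; `p` has the period `q`, `1 ≤ q ≤ B < l`: so `per (r j) (s + t) = per (r j) (s + q + t)` for `t < P` (in the second case of `IsSub` the same after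
reversing), contradiction to `SC.fwd`. So `f = 1`, `h⁻¹ g h = 1`, `g = 1`.
(2) Every orbit contains a point `v'` with `X.dist v' o ≤ R` (`dense`). Choose one in every orbit; `p v` is the unique `g` with `v = g • v'`. `p` is equivariant, `X.dist v (p v • o) ≤ R`.
`lip`: `wd (p v) (p w) ≤ R (2 R + 1) + R` for adjacent `v, w`. `colip`: `wd (p v) (p w) ≤ 1`, so `X.dist v w ≤ 2 R + (R + R)`. -/
def S_GEOM : Prop := ∀ R : ℕ, ∃ C : ℕ, ∀ (m l n P : ℕ) [NeZero l] (r : Fin n → Word m l),
  SCl C P r → ∀ (V : Type) [MulAction (PresentedGroup (rels r)) V] (X : SimpleGraph V) (o : V),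
  X.Connected → (∀ v, (X.neighborSet v).Finite) → OrbQI R (rels r) X o →
  ∃ p : V → PresentedGroup (rels r), Ctrl (4 * (R + 1) ^ 2) (rels r) X p

def M_GEOM : Prop := S_GREEN → S_GEOM

/-- DET. The deterministic theorem. Let `N` be the set of the automorphisms `α` of `X` such that there are `β, β', θ, θ'` with `NAut`, `pt (β y) = α (pt y)`, `pt (β' y) = α.symm (pt y)` and `θ s = s` for all
`s ∈ RR`. It is a subgroup (compositions; `NAut.symm`: `θ' s = θ' (θ s) = s`). Normal: for an automorphism `γ` take the lift of S_NL (with `y0` arbitrary, `y1` a point over `γ (pt y0)`: `p` and `mk` are surjective); the lift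
of `γ α γ⁻¹` is the composition, its `θ` is `θ_γ ∘ θ_α ∘ θ_γ'` and is the identity on `RR` by S_B3 (`θ_γ' s ∈ RR`). Let `F` be the set of `pt y` with `norm y.g ≤ l`, a finite set: finitely many `y.g`, and the fibre
`{v | p v = 1}` is finite (diameter `≤ R` by `Ctrl.colip` with `f = 1`; connected, locally finite graph). If `α` fixes `F` pointwise then the lift with `β y0 = y0` (`y0.g = 1`) fixes all points over the ball of radius `l`
(S_FB) and `θ = id` on `RR` (S_DYN, first part), so `α ∈ N`. Displacement: for `α ∈ N` `td (π (β y)) (π y) ≤ C1` (S_DYN), so the distance of `β y` and `y` in the covering graph is `≤ R (C1 + 1)` (`QT.up`), and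
walks project to `X`: `X.dist (α v) v ≤ R (C1 + 1)`. S_TOP. -/
def S_DET : Prop := ∀ R : ℕ, 1 ≤ R → ∃ D C : ℕ, 1 ≤ D ∧ ∀ (m l n P : ℕ) [NeZero l]
  (r : Fin n → Word m l), 2 ≤ m → SCl C P r → EVA r D → ∀ (V : Type)
  [MulAction (PresentedGroup (rels r)) V] (X : SimpleGraph V) (p : V → PresentedGroup (rels r)),
  Ctrl R (rels r) X p → CBD X

def M_DET : Prop := S_B3 → S_DYN → S_XT → S_NL → S_FB → S_TOP → S_DET

/-! ### Part V: counting -/

/-- NN. `R1` consists of the cyclic permutations of the `r j`, with the words `win (r j) l t`, `t < l`, and their inverses, with the words `invw (win (r j) l t)`. They are all different for different `(j, t, ±)` by `SC`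
(`P ≤ l`). The first one starts with `v` iff `v[i] = per (r j) (t + i)` for `i < |v|`; the second one starts with `v` iff `win (r j) l t` ends with `invw v` iff `invw v` occurs at the place `t + l - |v|`; `t ↦ (t + l - |v|) % l` is a
permutation of the places. -/
def S_NN : Prop := ∀ (m l n P : ℕ) [NeZero l] (r : Fin n → Word m l), (∀ j, CycRed (r j)) →
  SC r P → 1 ≤ P → P ≤ l → ∀ v : List (Ltr m), v.length ≤ l →
  nn r v = occ r v + occ r (invw v)

def M_NN : Prop := S_RF → S_NN

/-- ANTIW. Anticoncentration for sums over windows. Model: `Pool/Agent/RGD/ANTI.lean` (windows of length 2). `L = U.length + 2`, `B = l / (L + k) - 1`. For `b < B` the block `b` consists of the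
`L` places from `b (L + k) + k` on; the `k` places before each block, and all places after the last block, are separators (at least `k` places between two blocks, also cyclically). Fix all
letters outside of the blocks. The cyclically reduced words with these letters are (none or) the product of the sets `E b` of the fillings of block `b` that are reduced together with the two adjacent
separator letters; `|E b| ≤ (2m)^L`. `E b` contains `s U s'` and `s V s'`, where `s` is not the inverse of the letter before and not `linv` of the first letter of `U`, which is the first letter of `V` (`k ≥ 1`); `s'` similarly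
(`2m ≥ 4`). Every window meets at most one block, so `fsum f k w` is a constant plus the sum of the contributions of the blocks (the contribution of a block: the sum over the windows that meet it; it depends on the
filling and the separators), and the contributions of these two fillings differ by `lsum f k U - lsum f k V ≠ 0`, because a window that is not inside `U` (resp. `V`) meets only the first `k - 1` or the last `k - 1` letters of
it, which are the same in both. S_LO (with `M = (2m)^L`) for each choice of the letters outside, and sum over these choices. -/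
def S_ANTIW : Prop := ∀ (m k : ℕ) (f : List (Ltr m) → ℤ) (U V : List (Ltr m)) (ε : ℝ), 2 ≤ m →
  1 ≤ k → U.length = V.length → 2 * k ≤ U.length → RedL U → RedL V → U.take k = V.take k →
  U.drop (U.length - k) = V.drop (V.length - k) → lsum f k U ≠ lsum f k V → 0 < ε →
  ∃ l0 : ℕ, ∀ (l : ℕ) [NeZero l] (c : ℤ), l0 ≤ l →
    (Nat.card {w : Word m l // CycRed w ∧ fsum f k w = c} : ℝ) ≤
      ε * Nat.card {w : Word m l // CycRed w}

def M_ANTIW : Prop := S_LO → S_ANTIW

/-- the test function of `U`, `U'` -/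
def fev {m : ℕ} (W : List (Ltr m)) (U U' : Finset (List (Ltr m))) (x : List (Ltr m)) : ℤ :=
  ∑ c ∈ U, ((if x = W ++ c then 1 else 0) + if x = invw (W ++ c) then 1 else 0) -
    ∑ c ∈ U', ((if x = W ++ c then 1 else 0) + if x = invw (W ++ c) then 1 else 0)

/-- BLK. The two blocks. `k = 5 D + 19` is the length of `W ++ c`. `W = b^(2 D + 8) c0 τ`. Let `c ∈ U \ U'` (or `U' \ U`), `h` a letter with `h.1 ≠ b.1`, `κ = []` if the last letter of `W ++ c` is not `linv h`, otherwise
`κ = [b]`. `A = h^k ++ W ++ c ++ κ ++ h^k`, `A' = h^(A.length)`; both are reduced. The words `W ++ c'` (`|c'| = D`) start with `b^(2D+8)` followed by a letter `≠ b`, the words `invw (W ++ c')` end with `(linv b)^(2D+8)`. A run of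
`2 D + 8` letters `b` inside `τ ++ c ++ κ` would contain `D + 7` consecutive letters of `τ` (as `|c ++ κ| ≤ D + 1`), excluded; the same for `linv b`; `c0 ≠ b, linv b`. So the only run of `2D+8` letters `b` in `A` is the one at the beginning of `W`, and there
is no run of `2D+8` letters `linv b`. So `lsum (fev W U U') k A = ± 1` (the window at the place `k` is `W ++ c`; `W ++ c' = W ++ c` iff `c' = c`; `invw (W ++ c') ≠ W ++ c` by the same argument), and `lsum … A' = 0`. -/
def S_BLK : Prop := ∀ (m D : ℕ) (W : List (Ltr m)) (U U' : Finset (List (Ltr m))), 2 ≤ m →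
  Mk D W → (∀ c ∈ U, c.length = D ∧ RedL (W ++ c)) → (∀ c ∈ U', c.length = D ∧ RedL (W ++ c)) →
  U ≠ U' → ∃ A A' : List (Ltr m), A.length = A'.length ∧ 2 * (5 * D + 19) ≤ A.length ∧
    RedL A ∧ RedL A' ∧ A.take (5 * D + 19) = A'.take (5 * D + 19) ∧
    A.drop (A.length - (5 * D + 19)) = A'.drop (A'.length - (5 * D + 19)) ∧
    lsum (fev W U U') (5 * D + 19) A ≠ lsum (fev W U U') (5 * D + 19) A'

/-- EVP. Most families satisfy `EVA`. There are finitely many marked `W` (length `4 D + 19`) and finitely many pairs `U ≠ U'` of finite sets of lists of length `D`. For each of them: by S_NN (`|W ++ c| = 5 D + 19 ≤ l`)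
`∑ c ∈ U, nn r (W ++ c) - ∑ c ∈ U', nn r (W ++ c) = ∑ j, fsum (fev W U U') (5 D + 19) (r j)` (`occ r v = ∑ j, #{t | win (r j) |v| t = v}`). Fix the words `r j`, `j ≠ 0` (`n ≥ 1`); S_ANTIW with the blocks of S_BLK for `r 0` (model:
`Pool/Agent/RGD/DCP.lean`). Union bound with `ε` divided by the number of triples `(W, U, U')`. -/
def S_EVP : Prop := ∀ (m D : ℕ) (ε : ℝ), 2 ≤ m → 0 < ε → ∃ l0 : ℕ, ∀ (l n P : ℕ) [NeZero l],
  l0 ≤ l → 1 ≤ n → 1 ≤ P → P ≤ l →
  (Nat.card {r : Fin n → Word m l // (∀ j, CycRed (r j)) ∧ SC r P ∧ ¬ EVA r D} : ℝ) ≤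
    ε * Nat.card {r : Fin n → Word m l // ∀ j, CycRed (r j)}

def M_EVP : Prop := S_NN → S_ANTIW → S_BLK → S_EVP

/-- MAINB. Model: `Pool/Agent/RGD/MAIN.lean`. Given `R`, `D` and `C` from S_DET for `4 (R+1)²`, `C'` from S_GEOM, `C'' = C + C' + 2`, `P = l / C'' - 1` (`≥ 1` and `C'' (P+1) ≤ l`, `2 P ≤ l` for large `l`). If `r` satisfies `SC r P` and `EVA r D` then
`GDR R (rels r)`. So `1 - prob ≤ 8 n² l² (2m-1)^(-P) + ε` for large `l` (S_SCP, S_EVP); `d = 1 / (4 C'')`. -/
def M_MAINB : Prop := S_GEOM → S_DET → S_SCP → S_EVP → MainStmt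

end RBG
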