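import Pool.Agent.RBG.Base

/-!
# RBG: module TOP (subgroups of the automorphism group with bounded displacement)
-/

set_option autoImplicit false

namespace RBG

namespace TOP

open Set Topology

theorem ball_fin {V : Type} (X : SimpleGraph V) (hc : X.Connected)
    (hf : ∀ v, (X.neighborSet v).Finite) (v : V) (C : ℕ) : {w | X.dist w v ≤ C}.Finite := by
  induction C with
  | zero =>
    refine (Set.finite_singleton v).subset ?_
    intro w hw
    have hw' : X.dist w v ≤ 0 := hw
    rw [Nat.le_zero, hc.dist_eq_zero_iff] at hw'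
    exact hw'
  | succ C ih =>
    refine ((Set.finite_singleton v).union (ih.biUnion fun u _ => hf u)).subset ?_
    intro w hw
    have hw' : X.dist w v ≤ C + 1 := hw
    obtain ⟨p, hp⟩ := hc.exists_walk_length_eq_dist w v
    cases p with
    | nil => exact Or.inl rfl
    | cons h q =>
      rename_i u
      right
      rw [SimpleGraph.Walk.length_cons] at hp
      have h1 : X.dist u v ≤ C := (SimpleGraph.dist_le q).trans (by omega)
      exact Set.mem_biUnion (show u ∈ {w | X.dist w v ≤ C} from h1) h.symm

theorem approx {V : Type} [TopologicalSpace V] [DiscreteTopology V] (T : Set (V → V)) (f : V → V)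
    (hf : f ∈ closure T) (S : Set V) (hS : S.Finite) : ∃ g ∈ T, ∀ v ∈ S, g v = f v := by
  rw [mem_closure_iff] at hf
  obtain ⟨g, hg1, hg2⟩ := hf (Set.pi S fun v => {f v})
    (isOpen_set_pi hS fun v _ => isOpen_discrete _) (fun v _ => rfl)
  exact ⟨g, hg2, fun v hv => hg1 v hv⟩

end TOP

open Set Topology in
theorem t_TOP : S_TOP := by
  classical
  intro V X hc hlf N F C hF hN hd
  letI : TopologicalSpace V := ⊥
  haveI : DiscreteTopology V := ⟨rfl⟩
  let e : (X ≃g X) → (V → V) := fun φ v => φ v
  have hind : IsInducing e := ⟨rfl⟩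
  have key : ∀ α ∈ N, ∀ φ : X ≃g X, (∀ v ∈ F, φ v = α v) → φ ∈ N := by
    intro α hα φ h
    have h1 : α⁻¹ * φ ∈ N := by
      apply hN
      intro v hv
      rw [RelIso.mul_apply, h v hv, RelIso.inv_apply_self]
    have h2 := N.mul_mem hα h1
    rwa [mul_inv_cancel_left] at h2
  constructor
  · rw [hind.isCompact_iff]
    have hcpt : IsCompact (Set.pi univ fun v : V => {w | X.dist w v ≤ C}) :=
      isCompact_univ_pi fun v => (TOP.ball_fin X hc hlf v C).isCompact
    refine hcpt.of_isClosed_subset ?_ ?_
    · refine isClosed_of_closure_subset ?_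
      intro f hf
      have happ : ∀ S : Set V, S.Finite → ∃ α ∈ N, ∀ v ∈ S, α v = f v := by
        intro S hS
        obtain ⟨g, ⟨α, hα, rfl⟩, hg⟩ := TOP.approx _ f hf S hS
        exact ⟨α, hα, hg⟩
      have hinj : Function.Injective f := by
        intro v w hvw
        obtain ⟨α, -, hα⟩ := happ {v, w} (Set.toFinite _)
        apply α.injective
        rw [hα v (by simp), hα w (by simp), hvw]
      have hsurj : Function.Surjective f := by
        intro w
        obtain ⟨α, hαN, hα⟩ := happ {v | X.dist v w ≤ C} (TOP.ball_fin X hc hlf w C)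
        refine ⟨α⁻¹ w, ?_⟩
        have h1 := hd α⁻¹ (N.inv_mem hαN) w
        rw [← hα (α⁻¹ w) h1, RelIso.apply_inv_self]
      have hadj : ∀ v w, X.Adj (f v) (f w) ↔ X.Adj v w := by
        intro v w
        obtain ⟨α, -, hα⟩ := happ {v, w} (Set.toFinite _)
        rw [← hα v (by simp), ← hα w (by simp)]
        exact α.map_adj_iff
      let φ : X ≃g X := ⟨Equiv.ofBijective f ⟨hinj, hsurj⟩, fun {v w} => hadj v w⟩
      obtain ⟨α, hαN, hα⟩ := happ F hF
      refine ⟨φ, key α hαN φ fun v hv => (hα v hv).symm, ?_⟩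
      rfl
    · rintro f ⟨α, hα, rfl⟩ v _
      exact hd α hα v
  · rw [isOpen_iff_forall_mem_open]
    intro α hα
    refine ⟨e ⁻¹' (Set.pi F fun v => {α v}), ?_, ?_, ?_⟩
    · intro φ hφ
      exact key α hα φ fun v hv => hφ v hv
    · exact (isOpen_set_pi hF fun v _ => isOpen_discrete _).preimage hind.continuous
    · intro v _
      rfl

end RBG
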