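import Pool.Agent.RBG.Base

/-!
# MP_0a3593_al, bounded geometry: all reduced words of length two occur
-/

set_option autoImplicit false

namespace RBG

open RGD

namespace TWO

variable {m : ℕ}

theorem red_rep (a : Ltr m) (k : ℕ) : RedL (List.replicate k a) := by
  unfold RedL
  induction k with
  | zero => simp
  | succ k ih =>
    cases k with
    | zero => simp
    | succ k =>
      rw [List.replicate_succ, List.replicate_succ, List.isChain_cons_cons]
      rw [List.replicate_succ] at ih
      exact ⟨(linv_ne a).symm, ih⟩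

theorem red_app {L L' : List (Ltr m)} (h : RedL L) (h' : RedL L')
    (h2 : ∀ x ∈ L.getLast?, ∀ y ∈ L'.head?, y ≠ linv x) : RedL (L ++ L') :=
  List.isChain_append.2 ⟨h, h', h2⟩

theorem not_sub {a b : Ltr m} (h : b ≠ a) (D k : ℕ) :
    ¬ List.replicate (D + 6) b <:+: List.replicate k a := by
  intro h1
  have h2 : b ∈ List.replicate k a := h1.subset (by simp)
  exact h (List.eq_of_mem_replicate h2)

end TWO

open TWO

theorem t_TWO : M_TWO := by
  intro hRF m l n D _ r hr hm hD hE
  have h2 : ∀ W c : List (Ltr m), Mk D W → c.length = D →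
      RedL (W ++ c) → ∃ u ∈ R1 r, (W ++ c) <+: u.toWord := by
    intro W c hW hc hWc
    by_contra hcon
    have h0 : nn r (W ++ c) = 0 := by
      unfold nn
      have : IsEmpty {u : FG m // u ∈ R1 r ∧ (W ++ c) <+: u.toWord} :=
        ⟨fun u => hcon ⟨u.1, u.2⟩⟩
      exact Nat.card_of_isEmpty
    have h1 := hE W hW {c} ∅ (fun c' hc' => by
      rw [Finset.mem_singleton] at hc'
      subst hc'
      exact ⟨hc, hWc⟩) (fun c' hc' => by simp at hc') (by simp [h0])
    simp at h1
  refine ⟨?_, h2⟩
  intro a b hab
  obtain ⟨-, -, -, hrot, -⟩ := hRF m l n r hr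
  -- a letter with a different generator
  obtain ⟨i, hi⟩ : ∃ i : Fin m, i ≠ a.1 := by
    by_cases h : a.1.val = 0
    · refine ⟨⟨1, by omega⟩, fun e => ?_⟩
      have := congrArg Fin.val e
      simp only at this
      omega
    · refine ⟨⟨0, by omega⟩, fun e => ?_⟩
      have := congrArg Fin.val e
      simp only at this
      omega
  have hb1 : (i, true) ≠ a := fun e => hi (by rw [← e])
  have hb2 : linv ((i, true) : Ltr m) ≠ a := fun e => hi (by rw [← e]; rfl)
  have hb3 : a ≠ linv ((i, true) : Ltr m) := hb2.symm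
  have hW0 : RedL (List.replicate (2 * D + 8) ((i, true) : Ltr m) ++
      (a :: List.replicate (2 * D + 10) a)) := by
    rw [← List.replicate_succ]
    refine red_app (red_rep _ _) (red_rep _ _) ?_
    intro x hx y hy
    have hx1 := List.eq_of_mem_replicate (List.mem_of_mem_getLast? hx)
    have hy1 := List.eq_of_mem_replicate (List.mem_of_mem_head? hy)
    rw [hx1, hy1]
    exact hb3
  have hW : Mk D (List.replicate (2 * D + 8) ((i, true) : Ltr m) ++
      (a :: List.replicate (2 * D + 10) a)) :=
    ⟨(i, true), a, List.replicate (2 * D + 10) a, rfl, hW0, by simp, hb1.symm,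
      not_sub hb1 _ _, not_sub hb2 _ _⟩
  have hlast : (List.replicate (2 * D + 8) ((i, true) : Ltr m) ++
      (a :: List.replicate (2 * D + 10) a)).getLast? = some a := by
    rw [← List.replicate_succ, List.getLast?_append, List.getLast?_replicate]
    simp
  have hred : RedL ((List.replicate (2 * D + 8) ((i, true) : Ltr m) ++
      (a :: List.replicate (2 * D + 10) a)) ++ List.replicate D b) := by
    refine red_app hW0 (red_rep _ _) ?_
    intro x hx y hy
    have hy1 := List.eq_of_mem_replicate (List.mem_of_mem_head? hy)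
    rw [hlast] at hx
    have hx1 : a = x := by simpa using hx
    rw [hy1, ← hx1]
    exact hab
  obtain ⟨u, hu, t, ht⟩ := h2 _ _ hW (by simp) hred
  obtain ⟨hm1, hm2⟩ := hrot u hu _ (List.replicate D b ++ t) (by rw [← ht, List.append_assoc])
  refine ⟨_, hm1, ?_, ?_⟩
  · rw [hm2]
    obtain ⟨D', rfl⟩ : ∃ D', D = D' + 1 := ⟨D - 1, by omega⟩
    rw [List.replicate_succ]
    rfl
  · rw [hm2, List.getLast?_append, hlast]
    rfl

end RBG
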