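import Pool.Agent.RBG.Base

/-!
# MP_0a3593_al, bounded geometry: the covering graph
-/

set_option autoImplicit false

namespace RBG

open RGD

namespace XT

variable {m : ℕ} {S : Set (FG m)} {V : Type} [MulAction (PresentedGroup S) V]
  {p : V → PresentedGroup S} {X : SimpleGraph V} {R : ℕ}

theorem ext_g {y z : YT S p} (hg : y.g = z.g) (hp : pt y = pt z) : y = z := by
  obtain ⟨g, v, h⟩ := y
  obtain ⟨g', v', h'⟩ := z
  have hg' : g = g' := hg
  subst hg'
  have h1 : PresentedGroup.mk S g • v = PresentedGroup.mk S g • v' := hp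
  have h2 : v = v' := smul_left_cancel _ h1
  subst h2
  rfl

theorem p_pt (hc : Ctrl R S X p) (y : YT S p) : p (pt y) = PresentedGroup.mk S y.g := by
  unfold pt
  rw [hc.eqv, y.h, mul_one]

theorem exists_pt (hc : Ctrl R S X p) {v : V} {g : FG m} (h : p v = PresentedGroup.mk S g) :
    ∃ y : YT S p, y.g = g ∧ pt y = v := by
  refine ⟨⟨g, (PresentedGroup.mk S g)⁻¹ • v, ?_⟩, rfl, ?_⟩
  · rw [hc.eqv, h, inv_mul_cancel]
  · change PresentedGroup.mk S g • (PresentedGroup.mk S g)⁻¹ • v = v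
    rw [smul_inv_smul]

theorem pt_smul (f : FG m) (y : YT S p) : pt (f • y) = PresentedGroup.mk S f • pt y := by
  change PresentedGroup.mk S (f * y.g) • y.v = PresentedGroup.mk S f • PresentedGroup.mk S y.g • y.v
  rw [map_mul, mul_smul]

theorem smul_g (f : FG m) (y : YT S p) : (f • y).g = f * y.g := rfl

theorem mk_eq_of_pt (hc : Ctrl R S X p) {y z : YT S p} (h : pt y = pt z) :
    PresentedGroup.mk S y.g = PresentedGroup.mk S z.g := by
  rw [← p_pt hc, ← p_pt hc, h]

/-- kernel -/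
theorem mk_one {k : FG m} : PresentedGroup.mk S k = 1 ↔ k ∈ Subgroup.normalClosure S :=
  QuotientGroup.eq_one_iff k

theorem exists_k (hc : Ctrl R S X p) {y z : YT S p} (h : pt y = pt z) :
    ∃ k ∈ Subgroup.normalClosure S, z = k • y := by
  have h1 := mk_eq_of_pt hc h
  refine ⟨z.g * y.g⁻¹, ?_, ?_⟩
  · rw [← mk_one, map_mul, map_inv, h1, mul_inv_cancel]
  · apply ext_g
    · rw [smul_g]
      group
    · rw [pt_smul, map_mul, map_inv, h1, mul_inv_cancel, one_smul, h]

theorem adj_smul (hc : Ctrl R S X p) (f : FG m) {y z : YT S p} (h : (XT R S X p).Adj y z) :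
    (XT R S X p).Adj (f • y) (f • z) := by
  refine ⟨?_, ?_⟩
  · rw [pt_smul, pt_smul]
    exact hc.act _ _ _ h.1
  · rw [smul_g, smul_g, td_left]
    exact h.2

/-- points with the same projection which are close are equal -/
theorem short (hc : Ctrl R S X p) {B : ℕ}
    (hS : ∀ k ∈ Subgroup.normalClosure S, k.norm ≤ B → k = 1) {y z : YT S p}
    (h : pt y = pt z) (hd : td y.g z.g ≤ B) : y = z := by
  apply ext_g _ h
  have h1 : y.g⁻¹ * z.g = 1 := by
    apply hS
    · rw [← mk_one, map_mul, map_inv, mk_eq_of_pt hc h, inv_mul_cancel]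
    · exact hd
  exact inv_mul_eq_one.1 h1

theorem lift_adj (hc : Ctrl R S X p) (y : YT S p) (v : V) (h : X.Adj (pt y) v) :
    ∃ z, (XT R S X p).Adj y z ∧ pt z = v := by
  obtain ⟨f, hf, hv⟩ := hc.lip _ _ h
  rw [p_pt hc, ← map_mul] at hv
  obtain ⟨z, hz, hzv⟩ := exists_pt hc hv
  refine ⟨z, ⟨?_, ?_⟩, hzv⟩
  · rw [hzv]
    exact h
  · rw [hz]
    have : td y.g (y.g * f) = f.norm := by
      unfold td
      rw [inv_mul_cancel_left]
    rw [this]
    exact hf

theorem walk_td {y z : YT S p} (w : (XT R S X p).Walk y z) : td y.g z.g ≤ R * w.length := by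
  induction w with
  | nil => rw [td_self]; exact Nat.zero_le _
  | cons h w ih =>
    rw [SimpleGraph.Walk.length_cons]
    have h1 := h.2
    have h2 := td_tri _ _ _ |>.trans (Nat.add_le_add h1 ih)
    refine h2.trans ?_
    rw [Nat.mul_add, Nat.mul_one]
    omega

theorem lift_walk (hc : Ctrl R S X p) {u v : V} (w : X.Walk u v) :
    ∀ y : YT S p, pt y = u → ∃ (z : YT S p) (w' : (XT R S X p).Walk y z),
      pt z = v ∧ w'.length = w.length := by
  induction w with
  | nil =>
    intro y hy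
    exact ⟨y, SimpleGraph.Walk.nil, hy, rfl⟩
  | cons h w ih =>
    intro y hy
    subst hy
    obtain ⟨z, hz, hzv⟩ := lift_adj hc y _ h
    obtain ⟨z', w', h1, h2⟩ := ih z hzv
    refine ⟨z', SimpleGraph.Walk.cons hz w', h1, ?_⟩
    rw [SimpleGraph.Walk.length_cons, SimpleGraph.Walk.length_cons, h2]

theorem walk_one (hc : Ctrl R S X p) {B : ℕ} (hB : R * R + 1 ≤ B)
    (hS : ∀ k ∈ Subgroup.normalClosure S, k.norm ≤ B → k = 1) {y z : YT S p}
    (h : td y.g z.g ≤ 1) : ∃ w : (XT R S X p).Walk y z, w.length ≤ R := by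
  have h1 : p (pt z) = p (pt y) * PresentedGroup.mk S (y.g⁻¹ * z.g) := by
    rw [p_pt hc, p_pt hc, ← map_mul, mul_inv_cancel_left]
  have h2 := hc.colip (pt y) (pt z) (y.g⁻¹ * z.g) h h1
  obtain ⟨w, hw⟩ := hc.conn.exists_walk_length_eq_dist (pt y) (pt z)
  obtain ⟨z', w', h3, h4⟩ := lift_walk hc w y rfl
  have h5 := walk_td w'
  have h6 : w'.length ≤ R := by omega
  have h7 : R * w'.length ≤ R * R := Nat.mul_le_mul_left _ h6
  have h8 : z' = z := by
    apply short hc hS h3
    have h9 := td_tri z'.g y.g z.g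
    rw [td_comm' z'.g y.g] at h9
    omega
  subst h8
  exact ⟨w', h6⟩

theorem surj_g (hc : Ctrl R S X p) (g : FG m) : ∃ y : YT S p, y.g = g := by
  obtain ⟨v0⟩ := hc.conn.nonempty
  obtain ⟨y, hy, _⟩ := exists_pt (v := (PresentedGroup.mk S g * (p v0)⁻¹) • v0) (g := g) hc (by
    rw [hc.eqv, inv_mul_cancel_right])
  exact ⟨y, hy⟩

theorem walk_gen (hc : Ctrl R S X p) {B : ℕ} (hB : R * R + 1 ≤ B)
    (hS : ∀ k ∈ Subgroup.normalClosure S, k.norm ≤ B → k = 1) (n : ℕ) :
    ∀ y z : YT S p, td y.g z.g = n → ∃ w : (XT R S X p).Walk y z, w.length ≤ R * (n + 1) := by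
  induction n with
  | zero =>
    intro y z h
    obtain ⟨w, hw⟩ := walk_one hc hB hS (y := y) (z := z) (by omega)
    exact ⟨w, by omega⟩
  | succ n ih =>
    intro y z h
    have hred := redL_toWord (y.g⁻¹ * z.g)
    have hlen : (y.g⁻¹ * z.g).toWord.length = n + 1 := h
    have h1 : (FreeGroup.mk ((y.g⁻¹ * z.g).toWord.take n) : FG m).norm = n := by
      rw [norm_mk (RedL.take hred n), List.length_take, hlen]
      omega
    have h2 : (FreeGroup.mk ((y.g⁻¹ * z.g).toWord.drop n) : FG m).norm = 1 := by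
      rw [norm_mk (RedL.drop hred n), List.length_drop, hlen]
      omega
    have h3 : y.g * (FreeGroup.mk ((y.g⁻¹ * z.g).toWord.take n) : FG m) *
        FreeGroup.mk ((y.g⁻¹ * z.g).toWord.drop n) = z.g := by
      rw [mul_assoc, ← mk_append, List.take_append_drop, mk_toWord, mul_inv_cancel_left]
    obtain ⟨y', hy'⟩ := surj_g hc (y.g * (FreeGroup.mk ((y.g⁻¹ * z.g).toWord.take n) : FG m))
    have h4 : td y.g y'.g = n := by
      unfold td
      rw [hy', inv_mul_cancel_left, h1]
    have h5 : td y'.g z.g ≤ 1 := by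
      have h6 : y'.g⁻¹ * z.g = FreeGroup.mk ((y.g⁻¹ * z.g).toWord.drop n) := by
        rw [inv_mul_eq_iff_eq_mul, hy', h3]
      unfold td
      rw [h6, h2]
    obtain ⟨w1, hw1⟩ := ih y y' h4
    obtain ⟨w2, hw2⟩ := walk_one hc hB hS h5
    refine ⟨w1.append w2, ?_⟩
    rw [SimpleGraph.Walk.length_append]
    have : R * (n + 1 + 1) = R * (n + 1) + R := by ring
    omega

theorem connected (hc : Ctrl R S X p) {B : ℕ} (hB : R * R + 1 ≤ B)
    (hS : ∀ k ∈ Subgroup.normalClosure S, k.norm ≤ B → k = 1) : (XT R S X p).Connected := by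
  obtain ⟨y0, _⟩ := surj_g hc 1
  have : Nonempty (YT S p) := ⟨y0⟩
  refine ⟨fun y z => ?_⟩
  obtain ⟨w, _⟩ := walk_gen hc hB hS _ y z rfl
  exact ⟨w⟩

/-- the action maps walks to walks -/
theorem walk_smul (hc : Ctrl R S X p) (f : FG m) {y z : YT S p} (w : (XT R S X p).Walk y z) :
    ∃ w' : (XT R S X p).Walk (f • y) (f • z), w'.length = w.length := by
  induction w with
  | nil => exact ⟨SimpleGraph.Walk.nil, rfl⟩
  | cons h w ih =>
    obtain ⟨w', hw'⟩ := ih
    refine ⟨SimpleGraph.Walk.cons (adj_smul hc f h) w', ?_⟩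
    rw [SimpleGraph.Walk.length_cons, SimpleGraph.Walk.length_cons, hw']

/-- a walk passes near the points of the geodesic of the tree -/
theorem split {q : FG m} {u z : YT S p} (w : (XT R S X p).Walk u z) :
    td u.g q + td q z.g = td u.g z.g → ∃ (u' : YT S p) (w1 : (XT R S X p).Walk u u')
      (w2 : (XT R S X p).Walk u' z), w1.length + w2.length = w.length ∧ td u'.g q ≤ R := by
  induction w with
  | nil =>
    intro h
    rw [td_self] at h
    exact ⟨_, SimpleGraph.Walk.nil, SimpleGraph.Walk.nil, rfl, by omega⟩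
  | @cons a b c h w ih =>
    intro hq
    rcases bt_or hq b.g with h1 | h1
    · refine ⟨a, SimpleGraph.Walk.nil, SimpleGraph.Walk.cons h w, ?_, ?_⟩
      · rw [SimpleGraph.Walk.length_nil, zero_add]
      · have := h.2
        omega
    · obtain ⟨u', w1, w2, h2, h3⟩ := ih h1
      refine ⟨u', SimpleGraph.Walk.cons h w1, w2, ?_, h3⟩
      rw [SimpleGraph.Walk.length_cons, SimpleGraph.Walk.length_cons]
      omega

end XT

theorem t_XT : M_XT := by
  intro hSH R hR
  obtain ⟨C, hC⟩ := hSH (R * R + 2 * R + 1)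
  refine ⟨C, ?_⟩
  intro m l n P _ r hr V _ X p hc
  have hS : ∀ k ∈ Subgroup.normalClosure (rels r), k.norm ≤ R * R + 2 * R + 1 → k = 1 := by
    intro k hk hn
    refine hC m l n P r hr k hk (hn.trans ?_)
    exact Nat.le_mul_of_pos_right _ (Nat.succ_pos P)
  have hB : R * R + 1 ≤ R * R + 2 * R + 1 := by omega
  have hconn := XT.connected hc hB hS
  have htri : ∀ x y z, (XT R (rels r) X p).dist x z ≤
      (XT R (rels r) X p).dist x y + (XT R (rels r) X p).dist y z :=
    fun x y z => hconn.dist_triangle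
  have hup : ∀ x y : YT (rels r) p, (XT R (rels r) X p).dist x y ≤ R * (td x.g y.g + 1) := by
    intro x y
    obtain ⟨w, hw⟩ := XT.walk_gen hc hB hS _ x y rfl
    exact (SimpleGraph.dist_le w).trans hw
  have hle : ∀ (f : FG m) (x y : YT (rels r) p),
      (XT R (rels r) X p).dist (f • x) (f • y) ≤ (XT R (rels r) X p).dist x y := by
    intro f x y
    obtain ⟨w, hw⟩ := hconn.exists_walk_length_eq_dist x y
    obtain ⟨w', hw'⟩ := XT.walk_smul hc f w
    rw [← hw, ← hw']
    exact SimpleGraph.dist_le w'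
  refine ⟨⟨fun x => SimpleGraph.dist_self, fun x y => SimpleGraph.dist_comm, htri, ?_,
    fun f y => rfl, XT.surj_g hc, ?_, hup, ?_⟩, hconn, ?_, XT.lift_adj hc,
    fun y z h => XT.exists_k hc h⟩
  · intro f x y
    apply le_antisymm (hle f x y)
    have := hle f⁻¹ (f • x) (f • y)
    rwa [inv_smul_smul, inv_smul_smul] at this
  · intro x y
    obtain ⟨w, hw⟩ := hconn.exists_walk_length_eq_dist x y
    rw [← hw]
    exact XT.walk_td w
  · intro x y z h
    obtain ⟨w, hw⟩ := hconn.exists_walk_length_eq_dist x z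
    obtain ⟨u, w1, w2, h1, h2⟩ := XT.split w h
    have h3 := SimpleGraph.dist_le w1
    have h4 := SimpleGraph.dist_le w2
    have h5 := hup u y
    have h6 : R * (td u.g y.g + 1) ≤ R * (R + 1) := Nat.mul_le_mul_left _ (by omega)
    have h7 := htri x u y
    have h8 := htri y u z
    have h9 : (XT R (rels r) X p).dist y u = (XT R (rels r) X p).dist u y :=
      SimpleGraph.dist_comm
    have h10 : kc R = R * (R + 1) + R * (R + 1) := by unfold kc; ring
    omega
  · intro y z z' h1 h2 h3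
    apply XT.short hc hS h3
    have h4 := td_tri z.g y.g z'.g
    have h5 := h1.2
    have h6 := h2.2
    rw [td_comm' z.g y.g] at h4
    omega

end RBG
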